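import Mathlib

/-! Definitions used in the statement: big tensor-triangulated categories, the Balmer spectrum,
the homological spectrum, homological stratification. -/

namespace Pool.Agent.MP_e18349_al.TT

open CategoryTheory Limits MonoidalCategory Opposite Pretriangulated

universe u w

/-- A Thomason subset: a union of closed subsets, each with quasi-compact complement. -/
def IsThomason {X : Type u} [TopologicalSpace X] (Y : Set X) : Prop :=
  ∃ S : Set (Set X), (∀ Z ∈ S, IsClosed Z ∧ IsCompact Zᶜ) ∧ Y = ⋃₀ S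

/-- Every point is weakly visible. -/
def WeaklyNoetherian (X : Type u) [TopologicalSpace X] : Prop :=
  ∀ x : X, ∃ Y₁ Y₂ : Set X, IsThomason Y₁ ∧ IsThomason Y₂ ∧ {x} = Y₁ ∩ Y₂ᶜ

section

variable {T : Type 1} [Category.{0} T] [Preadditive T] [HasCoproducts.{0} T]

/-- `c` is compact: every map from `c` to a small coproduct factors through a finite
subcoproduct. -/
def IsCpt (c : T) : Prop :=
  ∀ (ι : Type) (x : ι → T) (f : c ⟶ ∐ x),
    ∃ (s : Finset ι) (g : ∀ i, c ⟶ x i), f = ∑ i ∈ s, g i ≫ Sigma.ι x i

variable (T) in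
/-- The full subcategory `T^c` of compact objects. -/
abbrev Cpt : Type 1 := ObjectProperty.FullSubcategory (IsCpt (T := T))

variable (T) in
/-- Functors `(T^c)ᵒᵖ ⥤ Ab`; the additive ones are the (right) `T^c`-modules. -/
abbrev Psh : Type 1 := (Cpt T)ᵒᵖ ⥤ AddCommGrpCat.{0}

variable (T) in
/-- The restricted Yoneda functor `h : t ↦ Hom(-, t)|T^c`. -/
def resYoneda : T ⥤ Psh T :=
  preadditiveYoneda ⋙
    (Functor.whiskeringLeft _ _ _).obj (ObjectProperty.ι (IsCpt (T := T))).op

/-- Finitely presented modules: cokernels of maps `h(f)` with `f` a map of compact objects. -/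
def IsFP (M : Psh T) : Prop :=
  ∃ (x y : T) (f : x ⟶ y), IsCpt x ∧ IsCpt y ∧ Nonempty (M ≅ cokernel ((resYoneda T).map f))

/-- `I` is an injective object of `Mod-T^c` (the additive functors `(T^c)ᵒᵖ ⥤ Ab`). -/
def IsInjectiveMod (I : Psh T) : Prop :=
  I.Additive ∧ ∀ (M N : Psh T), M.Additive → N.Additive → ∀ (i : M ⟶ N), Mono i →
    ∀ f : M ⟶ I, ∃ g : N ⟶ I, i ≫ g = f

variable [MonoidalCategory T]

/-- `x` is dualizable (rigid). -/
def IsDualizable (x : T) : Prop := ∃ y : T, Nonempty (ExactPairing x y)

/-- A Serre tensor-ideal of `mod-T^c`: a class of finitely presented modules that contains zero,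
is closed (within the finitely presented modules) under subobjects, quotients and extensions,
and is closed under tensoring with the representable modules `h(z)`, `z` compact, where
`h(z) ⊗ coker h(f) = coker h(z ⊗ f)`. -/
structure IsSerreIdeal (B : ObjectProperty (Psh T)) : Prop where
  fp : ∀ M, B M → IsFP M
  zero : ∀ M, IsZero M → B M
  sub : ∀ (M N : Psh T) (i : M ⟶ N), Mono i → IsFP M → B N → B M
  quot : ∀ (M N : Psh T) (p : M ⟶ N), Epi p → IsFP N → B M → B N
  ext : ∀ S : ShortComplex (Psh T), S.ShortExact → IsFP S.X₂ → B S.X₁ → B S.X₃ → B S.X₂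
  tensor : ∀ (z x y : T) (f : x ⟶ y), IsCpt z → IsCpt x → IsCpt y →
    B (cokernel ((resYoneda T).map f)) → B (cokernel ((resYoneda T).map (z ◁ f)))

/-- A homological prime: a maximal proper Serre tensor-ideal of `mod-T^c`. -/
def IsHomPrime (B : ObjectProperty (Psh T)) : Prop :=
  Maximal (fun B' : ObjectProperty (Psh T) => IsSerreIdeal B' ∧ B' ≠ IsFP) B

variable (T) in
/-- The homological spectrum. -/
abbrev SpcH : Type 1 := {B : ObjectProperty (Psh T) // IsHomPrime B}

/-- The comparison map `B ↦ h⁻¹(B) ∩ T^c`. -/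
def comparison (B : ObjectProperty (Psh T)) : ObjectProperty T :=
  fun x => IsCpt x ∧ B ((resYoneda T).obj x)

/-- `E` is the object `E_B`: there is `η : 𝟙 ⟶ E` such that `h(E)` is injective in `Mod-T^c`,
the kernel of `h(η)` is the union of the subobjects of `h(𝟙)` lying in `B` (so the image of
`h(η)` is `h(𝟙)/B`), and `h(E)` is an essential extension of the image of `h(η)` (every nonzero
element of `h(E)` has a nonzero multiple in the image). -/
def IsE (B : ObjectProperty (Psh T)) (E : T) : Prop :=
  IsInjectiveMod ((resYoneda T).obj E) ∧ ∃ η : 𝟙_ T ⟶ E,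
    (∀ (c : T) (f : c ⟶ 𝟙_ T), IsCpt c → (f ≫ η = 0 ↔
      ∃ (N : Psh T) (g : (resYoneda T).obj c ⟶ N) (i : N ⟶ (resYoneda T).obj (𝟙_ T)),
        B N ∧ Mono i ∧ g ≫ i = (resYoneda T).map f)) ∧
    ∀ (c : T) (e : c ⟶ E), IsCpt c → e ≠ 0 →
      ∃ (d : T) (a : d ⟶ c) (b : d ⟶ 𝟙_ T), IsCpt d ∧ a ≫ e = b ≫ η ∧ a ≫ e ≠ 0

variable [HasZeroObject T] [HasShift T ℤ] [∀ n : ℤ, (shiftFunctor T n).Additive]
  [Pretriangulated T]

/-- A prime thick tensor-ideal of `T^c`. -/
structure IsPrime (P : ObjectProperty T) : Prop where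
  cpt : ∀ x, P x → IsCpt x
  triangulated : P.IsTriangulated
  thick : P.IsStableUnderRetracts
  ideal : ∀ x y, IsCpt x → P y → P (x ⊗ y)
  proper : ¬ P (𝟙_ T)
  prime : ∀ x y, IsCpt x → IsCpt y → P (x ⊗ y) → P x ∨ P y

variable (T) in
/-- The Balmer spectrum `Spc(T^c)`. -/
def Spc : Type 1 := {P : ObjectProperty T // IsPrime P}

/-- The Balmer topology: the sets `U(x) = {P : x ∈ P}`, `x` compact, i.e. the complements of
the supports `supp x = {P : x ∉ P}`, generate the open sets. -/
instance : TopologicalSpace (Spc T) :=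
  TopologicalSpace.generateFrom {U | ∃ x : T, IsCpt x ∧ U = {P : Spc T | P.1 x}}

variable (T) in
/-- The Nerves of Steel conjecture for `T`: the comparison map is a bijection from the
homological spectrum onto the Balmer spectrum. -/
def NervesOfSteel : Prop :=
  Set.BijOn (comparison (T := T)) {B | IsHomPrime B} {P | IsPrime P}

/-- A localizing tensor-ideal of `T`. -/
structure IsLocIdeal (L : ObjectProperty T) : Prop where
  triangulated : L.IsTriangulated
  iso : L.IsClosedUnderIsomorphisms
  coprod : ∀ (ι : Type) (x : ι → T), (∀ i, L (x i)) → L (∐ x)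
  ideal : ∀ x y, L y → L (x ⊗ y)

/-- `Loc⟨S⟩`: the smallest localizing tensor-ideal containing `S`. -/
def Loc (S : ObjectProperty T) : ObjectProperty T :=
  fun t => ∀ L : ObjectProperty T, IsLocIdeal L → S ≤ L → L t

/-- A minimal localizing ideal: nonzero, with no nonzero proper localizing sub-ideal. -/
def IsMinimalIdeal (L : ObjectProperty T) : Prop :=
  IsLocIdeal L ∧ (∃ t, L t ∧ ¬ IsZero t) ∧
    ∀ J : ObjectProperty T, IsLocIdeal J → J ≤ L → (∃ t, J t ∧ ¬ IsZero t) → J = L

variable (T) in
/-- `T` is rigidly-compactly generated: it is generated by a set of compact objects, and the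
compact objects are exactly the dualizable ones (in particular the unit is compact). -/
def RigidlyCompactlyGenerated : Prop :=
  (∃ (ι : Type) (g : ι → T), (∀ i, IsCpt (g i)) ∧
    ∀ t : T, (∀ (i : ι) (n : ℤ) (f : (g i)⟦n⟧ ⟶ t), f = 0) → IsZero t) ∧
  ∀ x : T, IsCpt x ↔ IsDualizable x

variable [MonoidalClosed T]

/-- The homological support `{B : [t, E_B] ≠ 0}` for a family of objects `E_B`. -/
def SuppH (E : SpcH T → T) (t : T) : Set (SpcH T) :=
  {B | ¬ IsZero ((ihom t).obj (E B))}

/-- The homological local-to-global principle. -/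
def HLGP (E : SpcH T → T) : Prop :=
  ∀ t : T, Loc (fun s => s = t) = Loc (fun s => ∃ B ∈ SuppH E t, s = t ⊗ E B)

variable (T) in
/-- `T` is homologically stratified: the objects `E_B` exist and, for every choice of them, the
h-LGP holds and every `Loc⟨E_B⟩` is minimal. -/
def HStratified : Prop :=
  (∀ B : SpcH T, ∃ E : T, IsE B.1 E) ∧
  ∀ E : SpcH T → T, (∀ B, IsE B.1 (E B)) →
    HLGP E ∧ ∀ B, IsMinimalIdeal (Loc (fun s => s = E B))

end

section

variable (T : Type 1) [Category.{0} T] [Preadditive T] [HasZeroObject T] [HasShift T ℤ]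
  [∀ n : ℤ, (shiftFunctor T n).Additive] [Pretriangulated T] [MonoidalCategory T]

/-- The closed symmetric monoidal structure is compatible with the triangulation: the tensor
product is exact in each variable, its shift isomorphisms are compatible with the unitor, the
associator and the braiding, and the internal hom `[-, w]` sends distinguished triangles to
distinguished triangles. -/
structure IsTT [SymmetricCategory T] [MonoidalClosed T] [(curriedTensor T).CommShift₂Int] :
    Prop where
  left : ∀ x : T, (tensorLeft x).IsTriangulated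
  right : ∀ x : T, (tensorRight x).IsTriangulated
  unitor : NatTrans.CommShift (rightUnitorNatIso T).hom ℤ
  associator : ∀ x y : T, NatTrans.CommShift (tensorRightTensor x y).hom ℤ
  braiding : ∀ x : T, NatTrans.CommShift (BraidedCategory.tensorLeftIsoTensorRight x).hom ℤ
  ihom : ∀ D ∈ distTriang T, ∀ w : T, ∃ δ, Triangle.mk ((MonoidalClosed.pre D.mor₂).app w)
    ((MonoidalClosed.pre D.mor₁).app w) δ ∈ distTriang T

/-- `T` is the derived category of a commutative ring `R`: there is an exact equivalence
`F : T ⥤ D(R)`, and the tensor product of `T` is computed by tensoring complexes from a class `P`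
of K-projective complexes that represents every object. -/
def IsDerived : Prop :=
  ∃ (R : Type) (_ : CommRing R) (P : ObjectProperty (CochainComplex (ModuleCat.{0} R) ℤ))
    (_ : P.IsMonoidal) (G : P.FullSubcategory ⥤ T) (_ : G.Monoidal),
    (∀ X, P X → CochainComplex.IsKProjective X) ∧ G.EssSurj ∧
    ∀ [HasDerivedCategory.{w} (ModuleCat.{0} R)],
      ∃ (F : T ⥤ DerivedCategory (ModuleCat.{0} R)) (_ : F.CommShift ℤ),
        F.IsTriangulated ∧ F.IsEquivalence ∧ Nonempty (G ⋙ F ≅ P.ι ⋙ DerivedCategory.Q)

end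

end Pool.Agent.MP_e18349_al.TT
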