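import Pool.Agent.MP_e18349_al.TT.Defs

-- part Setup
section

/-! Auxiliary definitions for the proof (not used in the statement). -/

namespace Pool.Agent.MP_e18349_al.TT

open CategoryTheory Limits MonoidalCategory Opposite Pretriangulated

section

variable {T : Type 1} [Category.{0} T] [Preadditive T] [HasCoproducts.{0} T]
  [HasZeroObject T] [HasShift T ℤ] [∀ n : ℤ, (shiftFunctor T n).Additive] [Pretriangulated T]

/-- A localizing subcategory. -/
structure IsLoc (L : ObjectProperty T) : Prop where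
  triangulated : L.IsTriangulated
  iso : L.IsClosedUnderIsomorphisms
  coprod : ∀ (ι : Type) (x : ι → T), (∀ i, L (x i)) → L (∐ x)

/-- `G` generates `T` as a localizing subcategory. -/
def Generates (G : T) : Prop := ∀ L : ObjectProperty T, IsLoc L → L G → ∀ t, L t

/-- No maps from `G` to its positive shifts. -/
def Conn (G : T) : Prop := ∀ n : ℤ, 0 < n → ∀ f : G ⟶ G⟦n⟧, f = 0

/-- A finite sum of copies of `G⟦n⟧`. -/
def IsFree (G : T) (n : ℤ) (F : T) : Prop :=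
  ∃ r : ℕ, Nonempty (F ≅ ⨁ fun _ : Fin r => G⟦n⟧)

/-- `Cell G n l x`: `x` is built in `l` steps from cells of dimensions `n - l + 1, …, n`,
attached in increasing order of dimension. -/
inductive Cell (G : T) : ℤ → ℕ → T → Prop
  | zero (n : ℤ) (x : T) : IsZero x → Cell G n 0 x
  | step (n : ℤ) (l : ℕ) (D : Triangle T) : D ∈ distTriang T → Cell G (n - 1) l D.obj₁ →
      IsFree G n D.obj₃ → Cell G n (l + 1) D.obj₂

/-- Finite cell objects. -/
def IsCell (G : T) : ObjectProperty T := fun x => ∃ n l, Cell G n l x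

/-- `Hom(Φ -, I)` is cohomological. -/
def CohAt {S : Type*} [Category S] [Preadditive S] (Φ : T ⥤ S) (I : S) : Prop :=
  ∀ D : Triangle T, D ∈ distTriang T → ∀ φ : Φ.obj D.obj₂ ⟶ I, Φ.map D.mor₁ ≫ φ = 0 →
    ∃ ψ : Φ.obj D.obj₃ ⟶ I, φ = Φ.map D.mor₂ ≫ ψ

variable [MonoidalCategory T]

variable (T) in
/-- A monogenic tensor-triangulated category: tensoring is exact, the unit is a compact
generator. -/
class Mg where
  commShift : ∀ x : T, (tensorLeft x).CommShift ℤ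
  nat : ∀ {x y : T} (f : x ⟶ y), NatTrans.CommShift ((curriedTensor T).map f) ℤ
  tri : ∀ x : T, (tensorLeft x).IsTriangulated
  unit_cpt : IsCpt (𝟙_ T)
  gen : Generates (𝟙_ T)

attribute [instance_reducible] Mg.commShift
attribute [instance] Mg.commShift Mg.nat Mg.tri

variable (T) in
/-- The localizing subcategory generated by the unit. -/
def Cel : ObjectProperty T := fun t => ∀ L : ObjectProperty T, IsLoc L → L (𝟙_ T) → L t

end

section

variable {R : Type} [CommRing R] (p : PrimeSpectrum R)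
  (T : Type 1) [Category.{0} T] [Preadditive T] [HasShift T ℤ] [MonoidalCategory T] [Linear R T]

/-- A residue field object at the prime `p`. -/
structure FieldObj where
  k : T
  η : 𝟙_ T ⟶ k
  μ : k ⊗ k ⟶ k
  α : p.asIdeal.ResidueField →+* End k
  unit : k ◁ η ≫ μ = (ρ_ k).hom
  lin : ∀ l, k ◁ (α l : k ⟶ k) ≫ μ = μ ≫ (α l : k ⟶ k)
  bij : Function.Bijective fun l => η ≫ (α l : k ⟶ k)
  van : ∀ n : ℤ, n ≠ 0 → ∀ f : 𝟙_ T ⟶ k⟦n⟧, f = 0
  alg : ∀ a : R, (α (algebraMap R _ a) : k ⟶ k) = a • 𝟙 k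

variable (R) in
/-- Every endomorphism of the unit is a scalar. -/
def EndUnit : Prop := ∀ f : 𝟙_ T ⟶ 𝟙_ T, ∃ a : R, f = a • 𝟙 (𝟙_ T)

end

section

variable {T : Type 1} [Category.{0} T] [Preadditive T] [HasCoproducts.{0} T] [HasShift T ℤ]

/-- The finitely presented modules with no nonzero map to any `h(k⟦n⟧)`. -/
def Bp (k : T) : ObjectProperty (Psh T) :=
  fun M => IsFP M ∧ ∀ (n : ℤ) (φ : M ⟶ (resYoneda T).obj (k⟦n⟧)), φ = 0

/-- The compact objects with no nonzero map to any `k⟦n⟧`. -/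
def Pp (k : T) : ObjectProperty T :=
  fun x => IsCpt x ∧ ∀ (n : ℤ) (e : x ⟶ k⟦n⟧), e = 0

omit [HasShift T ℤ] in
/-- The cokernel of `h(s)` lies in `B`. -/
def WB (B : ObjectProperty (Psh T)) {x y : T} (s : x ⟶ y) : Prop :=
  B (cokernel ((resYoneda T).map s))

end

end Pool.Agent.MP_e18349_al.TT

end

-- part A1
section

/-! Row A1: compact objects and localizing subcategories. -/

namespace Pool.Agent.MP_e18349_al.TT

open CategoryTheory Limits MonoidalCategory Opposite Pretriangulated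

variable {T : Type 1} [Category.{0} T] [Preadditive T] [HasCoproducts.{0} T]
  [HasZeroObject T] [HasShift T ℤ] [∀ n : ℤ, (shiftFunctor T n).Additive] [Pretriangulated T]

theorem isCpt_retract {x y : T} (r : Retract x y) (hy : IsCpt y) : IsCpt x := by
  intro ι z f
  obtain ⟨s, g, h⟩ := hy ι z (r.r ≫ f)
  refine ⟨s, fun i => r.i ≫ g i, ?_⟩
  rw [← Category.id_comp f, ← r.retract, Category.assoc, h, Preadditive.comp_sum]
  simp only [Category.assoc]

theorem isCpt_of_iso {x y : T} (e : x ≅ y) (hx : IsCpt x) : IsCpt y := 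
  isCpt_retract e.symm.retract hx

theorem isCpt_of_isZero {x : T} (hx : IsZero x) : IsCpt x := 
  fun _ _ _ => ⟨∅, fun _ => 0, hx.eq_of_src _ _⟩

theorem isCpt_shift {x : T} (hx : IsCpt x) (n : ℤ) : IsCpt (x⟦n⟧) := by
  intro ι z f
  let adj : shiftFunctor T n ⊣ shiftFunctor T (-n) := (shiftEquiv T n).toAdjunction
  obtain ⟨s, g, h⟩ := hx ι (fun i => (z i)⟦-n⟧)
    (adj.homEquiv _ _ f ≫ (PreservesCoproduct.iso (shiftFunctor T (-n)) z).hom)
  refine ⟨s, fun i => (adj.homEquiv _ _).symm (g i), ?_⟩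
  have h2 : adj.homEquiv _ _ f = ∑ i ∈ s, g i ≫ (Sigma.ι z i)⟦-n⟧' := by
    rw [← Iso.eq_comp_inv] at h
    rw [h, Preadditive.sum_comp]
    refine Finset.sum_congr rfl fun i _ => ?_
    rw [Category.assoc, PreservesCoproduct.inv_hom, ι_comp_sigmaComparison]
  have h3 : f = (adj.homEquiv _ _ f)⟦n⟧' ≫ adj.counit.app _ := by
    have := adj.homEquiv_counit x (∐ z) (adj.homEquiv _ _ f)
    rw [Equiv.symm_apply_apply] at this
    exact this
  rw [h3, h2, Functor.map_sum, Preadditive.sum_comp]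
  refine Finset.sum_congr rfl fun i _ => ?_
  exact ((adj.homEquiv_counit x (∐ z) _).symm.trans
    (adj.homEquiv_naturality_right_symm (g i) (Sigma.ι z i)))

omit [HasZeroObject T] [HasShift T ℤ] [∀ n : ℤ, (shiftFunctor T n).Additive]
  [Pretriangulated T] in
theorem a1_proj {c : T} {ι : Type} [DecidableEq ι] {x : ι → T} (s : Finset ι) (g : ∀ i, c ⟶ x i)
    {j : ι} (hj : j ∈ s) : (∑ i ∈ s, g i ≫ Sigma.ι x i) ≫ Sigma.π x j = g j := by
  rw [Preadditive.sum_comp, Finset.sum_eq_single j]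
  · rw [Category.assoc, Sigma.ι_π_eq_id, Category.comp_id]
  · intro i _ hij
    rw [Category.assoc, Sigma.ι_π_of_ne _ hij, comp_zero]
  · exact fun h => (h hj).elim

theorem a1_ext (D : Triangle T) (hD : D ∈ distTriang T) (h₁ : IsCpt D.obj₁)
    (h₃ : IsCpt D.obj₃) : IsCpt D.obj₂ := by
  classical
  intro ι z f
  obtain ⟨s, g, h⟩ := h₁ ι z (D.mor₁ ≫ f)
  have h0 : D.mor₁ ≫ (f - ∑ i ∈ s, (f ≫ Sigma.π z i) ≫ Sigma.ι z i) = 0 := by
    rw [Preadditive.comp_sub, Preadditive.comp_sum, sub_eq_zero]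
    refine h.trans (Finset.sum_congr rfl fun i hi => ?_)
    rw [← Category.assoc, ← Category.assoc, h, a1_proj s g hi]
  obtain ⟨b, hb⟩ := Triangle.yoneda_exact₂ D hD _ h0
  obtain ⟨s', g', h'⟩ := h₃ ι z b
  refine ⟨s ∪ s', fun i => (if i ∈ s then f ≫ Sigma.π z i else 0) +
    (if i ∈ s' then D.mor₂ ≫ g' i else 0), ?_⟩
  have e : ∀ (t : Finset ι) (_ : t ⊆ s ∪ s') (u : ∀ i, D.obj₂ ⟶ z i),
      ∑ i ∈ s ∪ s', (if i ∈ t then u i else 0) ≫ Sigma.ι z i = ∑ i ∈ t, u i ≫ Sigma.ι z i := by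
    intro t ht u
    rw [← Finset.sum_subset ht fun i _ hi => by rw [if_neg hi, zero_comp]]
    exact Finset.sum_congr rfl fun i hi => by rw [if_pos hi]
  simp only [Preadditive.add_comp, Finset.sum_add_distrib]
  rw [e s Finset.subset_union_left, e s' Finset.subset_union_right, ← sub_eq_iff_eq_add', hb, h',
    Preadditive.comp_sum]
  simp only [Category.assoc]

theorem isCpt_isTriangulated : ObjectProperty.IsTriangulated (IsCpt (T := T)) := 
  { exists_zero := ⟨_, isZero_zero T, isCpt_of_isZero (isZero_zero T)⟩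
    isStableUnderShiftBy := fun n => ⟨fun _ hx => isCpt_shift hx n⟩
    ext₂' := fun D hD h₁ h₃ => ⟨_, a1_ext D hD h₁ h₃, ⟨Iso.refl _⟩⟩ }

theorem isCpt_isStableUnderRetracts :
    ObjectProperty.IsStableUnderRetracts (IsCpt (T := T)) := ⟨isCpt_retract⟩

theorem isCpt_obj₁ (D : Triangle T) (hD : D ∈ distTriang T) (h₂ : IsCpt D.obj₂)
    (h₃ : IsCpt D.obj₃) : IsCpt D.obj₁ := by
  have := isCpt_isTriangulated (T := T)
  have := isCpt_isStableUnderRetracts (T := T)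
  exact ObjectProperty.ext_of_isTriangulatedClosed₁ (IsCpt (T := T)) D hD h₂ h₃

theorem isCpt_obj₂ (D : Triangle T) (hD : D ∈ distTriang T) (h₁ : IsCpt D.obj₁)
    (h₃ : IsCpt D.obj₃) : IsCpt D.obj₂ := by
  have := isCpt_isTriangulated (T := T)
  have := isCpt_isStableUnderRetracts (T := T)
  exact ObjectProperty.ext_of_isTriangulatedClosed₂ (IsCpt (T := T)) D hD h₁ h₃

theorem isCpt_obj₃ (D : Triangle T) (hD : D ∈ distTriang T) (h₁ : IsCpt D.obj₁)
    (h₂ : IsCpt D.obj₂) : IsCpt D.obj₃ := by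
  have := isCpt_isTriangulated (T := T)
  have := isCpt_isStableUnderRetracts (T := T)
  exact ObjectProperty.ext_of_isTriangulatedClosed₃ (IsCpt (T := T)) D hD h₁ h₂

theorem isCpt_biprod {x y : T} (hx : IsCpt x) (hy : IsCpt y) : IsCpt (x ⊞ y) := 
  a1_ext _ (binaryBiproductTriangle_distinguished x y) hx hy

theorem isCpt_biproduct {ι : Type} [Finite ι] (x : ι → T) (hx : ∀ i, IsCpt (x i)) :
    IsCpt (⨁ x) := by
  classical
  have := Fintype.ofFinite ι
  intro κ z f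
  choose s g h using fun i => hx i κ z (biproduct.ι x i ≫ f)
  refine ⟨Finset.univ.biUnion s, fun k => f ≫ Sigma.π z k, biproduct.hom_ext' _ _ fun i => ?_⟩
  have ht : s i ⊆ Finset.univ.biUnion s := Finset.subset_biUnion_of_mem s (Finset.mem_univ i)
  have e : biproduct.ι x i ≫ f = ∑ k ∈ Finset.univ.biUnion s,
      (if k ∈ s i then g i k else 0) ≫ Sigma.ι z k := by
    rw [h i, ← Finset.sum_subset ht fun k _ hk => by rw [if_neg hk, zero_comp]]
    exact Finset.sum_congr rfl fun k hk => by rw [if_pos hk]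
  rw [Preadditive.comp_sum]
  refine e.trans (Finset.sum_congr rfl fun k hk => ?_)
  rw [← Category.assoc, ← Category.assoc, e, a1_proj _ _ hk]

/-- A map from a compact object to a coproduct with zero components is zero. -/
theorem IsCpt.hom_eq_zero {c : T} (hc : IsCpt c) {ι : Type} [DecidableEq ι] {x : ι → T}
    (f : c ⟶ ∐ x) (h : ∀ i, f ≫ Sigma.π x i = 0) : f = 0 := by
  obtain ⟨s, g, hf⟩ := hc ι x f
  rw [hf]
  refine Finset.sum_eq_zero fun i hi => ?_
  rw [← a1_proj s g hi, ← hf, h, zero_comp]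

/-- To check that a class is localizing it suffices to check these closure properties. -/
theorem IsLoc.mk' (L : ObjectProperty T) (iso : ∀ x y : T, (x ≅ y) → L x → L y)
    (shift : ∀ (x : T) (n : ℤ), L x → L (x⟦n⟧))
    (ext : ∀ D : Triangle T, D ∈ distTriang T → L D.obj₁ → L D.obj₃ → L D.obj₂)
    (coprod : ∀ (ι : Type) (x : ι → T), (∀ i, L (x i)) → L (∐ x)) : IsLoc L := 
  { triangulated :=
      { exists_zero := ⟨∐ fun i : Empty => (i.elim : T),
          (IsZero.iff_id_eq_zero _).2 (Sigma.hom_ext _ _ fun i => i.elim),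
          coprod _ _ fun i => i.elim⟩
        isStableUnderShiftBy := fun n => ⟨fun x hx => shift x n hx⟩
        ext₂' := fun D hD h₁ h₃ => ⟨_, ext D hD h₁ h₃, ⟨Iso.refl _⟩⟩ }
    iso := ⟨fun e hx => iso _ _ e hx⟩
    coprod := coprod }

theorem IsLoc.of_iso {L : ObjectProperty T} (hL : IsLoc L) {x y : T} (e : x ≅ y) (hx : L x) :
    L y := hL.iso.of_iso e hx

theorem IsLoc.shift {L : ObjectProperty T} (hL : IsLoc L) {x : T} (hx : L x) (n : ℤ) :
    L (x⟦n⟧) := by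
  have := hL.triangulated
  exact L.le_shift n x hx

/-- Eilenberg swindle: localizing subcategories are closed under retracts. -/
theorem IsLoc.retract {L : ObjectProperty T} (hL : IsLoc L) {x y : T} (r : Retract x y)
    (hy : L y) : L x := by
  have := hL.triangulated
  have := hL.iso
  let e : y ⟶ y := r.r ≫ r.i
  let j : ℕ → (y ⟶ ∐ fun _ : ℕ => y) := fun n => Sigma.ι (fun _ : ℕ => y) n
  let φ : (∐ fun _ : ℕ => y) ⟶ ∐ fun _ : ℕ => y :=
    Sigma.desc fun n => j n - e ≫ j n + e ≫ j (n + 1)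
  let ψ : (∐ fun _ : ℕ => y) ⟶ ∐ fun _ : ℕ => y :=
    Sigma.desc fun n => Nat.casesOn n (j 0 - e ≫ j 0) fun m => j (m + 1) - e ≫ j (m + 1) + e ≫ j m
  let b : (∐ fun _ : ℕ => y) ⟶ x := Sigma.desc fun n => Nat.casesOn n r.r fun _ => 0
  have hφ : ∀ n, j n ≫ φ = j n - e ≫ j n + e ≫ j (n + 1) := fun n => Sigma.ι_desc _ n
  have hψ0 : j 0 ≫ ψ = j 0 - e ≫ j 0 := Sigma.ι_desc _ 0
  have hψ : ∀ m, j (m + 1) ≫ ψ = j (m + 1) - e ≫ j (m + 1) + e ≫ j m :=
    fun m => Sigma.ι_desc _ (m + 1)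
  have hb0 : j 0 ≫ b = r.r := Sigma.ι_desc _ 0
  have hb : ∀ m, j (m + 1) ≫ b = 0 := fun m => Sigma.ι_desc _ (m + 1)
  have ie : ∀ {z : T} (u : y ⟶ z), r.i ≫ e ≫ u = r.i ≫ u := fun u => by simp [e]
  have ee : ∀ {z : T} (u : y ⟶ z), e ≫ e ≫ u = e ≫ u := fun u => by simp [e]
  have er : e ≫ r.r = r.r := by simp [e]
  have h1 : φ ≫ b = 0 := Sigma.hom_ext _ _ fun n => by
    change j n ≫ _ = j n ≫ _
    rw [← Category.assoc, hφ]
    cases n <;> simp [hb0, hb, er]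
  have h2 : φ ≫ ψ = 𝟙 _ := Sigma.hom_ext _ _ fun n => by
    change j n ≫ _ = j n ≫ _
    rw [← Category.assoc, hφ]
    cases n <;> simp [hψ0, hψ, ee]
  have h3 : b ≫ r.i ≫ j 0 + ψ ≫ φ = 𝟙 _ := Sigma.hom_ext _ _ fun n => by
    change j n ≫ _ = j n ≫ _
    rw [Preadditive.comp_add, ← Category.assoc, ← Category.assoc _ ψ]
    cases n with
    | zero =>
      rw [hb0, hψ0, ← Category.assoc]
      change e ≫ j 0 + _ = _
      simp [hφ, ee]
    | succ m => simp [hb, hψ, hφ, ee]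
  let I : x ⊞ (∐ fun _ : ℕ => y) ≅ ∐ fun _ : ℕ => y :=
    { hom := biprod.desc (r.i ≫ j 0) φ
      inv := biprod.lift b ψ
      hom_inv_id := by
        refine biprod.hom_ext' _ _ (biprod.hom_ext _ _ ?_ ?_) (biprod.hom_ext _ _ ?_ ?_) <;>
          simp [hb0, hψ0, ie, h1, h2]
      inv_hom_id := by rw [biprod.lift_desc, h3] }
  have hS : L (∐ fun _ : ℕ => y) := hL.coprod _ _ fun _ => hy
  exact L.ext_of_isTriangulatedClosed₁ _ (binaryBiproductTriangle_distinguished x _)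
    (hL.of_iso I.symm hS) hS

/-- The preimage of a localizing subcategory under an exact coproduct-preserving functor. -/
theorem IsLoc.inverseImage {S : Type 1} [Category.{0} S] [Preadditive S] [HasCoproducts.{0} S]
    [HasZeroObject S] [HasShift S ℤ] [∀ n : ℤ, (shiftFunctor S n).Additive] [Pretriangulated S]
    (Φ : T ⥤ S) [Φ.CommShift ℤ] [Φ.IsTriangulated]
    [∀ ι : Type, PreservesColimitsOfShape (Discrete ι) Φ] {L : ObjectProperty S} (hL : IsLoc L) :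
    IsLoc (fun x : T => L (Φ.obj x)) := by
  have := hL.triangulated
  have := hL.iso
  exact IsLoc.mk' _ (fun _ _ e hx => hL.of_iso (Φ.mapIso e) hx)
    (fun x n hx => hL.of_iso ((Φ.commShiftIso n).app x).symm (hL.shift hx n))
    (fun D hD h₁ h₃ => L.ext_of_isTriangulatedClosed₂ _ (Φ.map_distinguished D hD) h₁ h₃)
    fun ι x hx => hL.of_iso (PreservesCoproduct.iso Φ x).symm (hL.coprod ι _ hx)

theorem isLoc_isZero : IsLoc (fun x : T => IsZero x) := 
  IsLoc.mk' _ (fun _ _ e hx => hx.of_iso e.symm) (fun _ n hx => (shiftFunctor T n).map_isZero hx)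
    (fun D hD h₁ h₃ => Triangle.isZero₂_of_isZero₁₃ D hD h₁ h₃)
    fun _ _ hx => (IsZero.iff_id_eq_zero _).2 (Sigma.hom_ext _ _ fun i => (hx i).eq_of_src _ _)

theorem Generates.isZero {G : T} (hG : Generates G) (t : T)
    (h : ∀ (n : ℤ) (f : G⟦n⟧ ⟶ t), f = 0) : IsZero t := by
  have hL : IsLoc fun s : T => ∀ (n : ℤ) (f : s⟦n⟧ ⟶ t), f = 0 := by
    refine IsLoc.mk' _ (fun x y e hx n f => ?_) (fun x m hx n f => ?_) (fun D hD h₁ h₃ n f => ?_)
      fun ι x hx n f => ?_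
    · rw [← cancel_epi (e.hom⟦n⟧'), hx n (_ ≫ f), comp_zero]
    · rw [← cancel_epi ((shiftFunctorAdd T m n).hom.app x), hx (m + n) (_ ≫ f), comp_zero]
    · obtain ⟨g, hg⟩ := Triangle.yoneda_exact₂ _ (Triangle.shift_distinguished D hD n) f
        (h₁ n _)
      exact hg.trans ((congrArg _ (h₃ n g)).trans comp_zero)
    · rw [← cancel_epi (PreservesCoproduct.iso (shiftFunctor T n) x).inv, comp_zero]
      exact Sigma.hom_ext _ _ fun i => (hx i n _).trans comp_zero.symm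
  rw [IsZero.iff_id_eq_zero, ← cancel_epi ((shiftFunctorZero T ℤ).hom.app t), comp_zero]
  exact hG _ hL h t 0 _

theorem Generates.isIso {G : T} (hG : Generates G) {x y : T} (f : x ⟶ y)
    (h : ∀ n : ℤ, Function.Bijective fun g : G⟦n⟧ ⟶ x => g ≫ f) : IsIso f := by
  obtain ⟨z, p, q, hD⟩ := distinguished_cocone_triangle f
  refine (Triangle.isZero₃_iff_isIso₁ _ hD).1 (hG.isZero z fun n g => ?_)
  have h1 : g ≫ q = 0 := by
    let e := (shiftFunctorAdd' T (n - 1) 1 n (by omega)).app G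
    obtain ⟨v, hv⟩ := (shiftFunctor T (1 : ℤ)).map_surjective (e.inv ≫ g ≫ q)
    have hq : q ≫ f⟦(1 : ℤ)⟧' = 0 := comp_distTriang_mor_zero₃₁ _ hD
    have h2 : v ≫ f = 0 := (shiftFunctor T (1 : ℤ)).map_injective (by
      rw [Functor.map_comp, hv, Category.assoc, Category.assoc, hq, Functor.map_zero, comp_zero,
        comp_zero])
    have h3 : v = 0 := (h (n - 1)).1 (h2.trans zero_comp.symm)
    rw [← cancel_epi e.inv, ← hv, h3, Functor.map_zero, comp_zero]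
  obtain ⟨u, hu⟩ := Triangle.coyoneda_exact₃ _ hD g h1
  obtain ⟨w, rfl⟩ := (h n).2 u
  have hp : f ≫ p = 0 := comp_distTriang_mor_zero₁₂ _ hD
  exact hu.trans (by
    change (w ≫ f) ≫ p = 0
    rw [Category.assoc, hp, comp_zero])

end Pool.Agent.MP_e18349_al.TT

end

-- part A2
section

/-! Row A2: five-lemma principles and the Neeman lemma. -/

namespace Pool.Agent.MP_e18349_al.TT

open CategoryTheory Limits MonoidalCategory Opposite Pretriangulated

variable {T : Type 1} [Category.{0} T] [Preadditive T] [HasCoproducts.{0} T]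
  [HasZeroObject T] [HasShift T ℤ] [∀ n : ℤ, (shiftFunctor T n).Additive] [Pretriangulated T]

namespace A2

/-- Induction principle for properties that satisfy a five lemma. -/
theorem gen_of_five {G : T} (hG : Generates G) (B : T → Prop)
    (iso : ∀ x y : T, (x ≅ y) → B x → B y)
    (five : ∀ D : Triangle T, D ∈ distTriang T → B (D.obj₃⟦(-1 : ℤ)⟧) → B D.obj₁ → B D.obj₃ →
      B (D.obj₁⟦(1 : ℤ)⟧) → B D.obj₂)
    (coprod : ∀ (ι : Type) (x : ι → T), (∀ i, B (x i)) → B (∐ x))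
    (h0 : ∀ n : ℤ, B (G⟦n⟧)) (t : T) : B t := by
  have hs : ∀ x : T, (∀ n : ℤ, B (x⟦n⟧)) → ∀ m n : ℤ, B (x⟦m⟧⟦n⟧) := fun x hx m n =>
    iso _ _ ((shiftFunctorAdd T m n).app x) (hx (m + n))
  have hL : IsLoc (fun x : T => ∀ n : ℤ, B (x⟦n⟧)) := by
    refine IsLoc.mk' _ (fun x y e hx n => iso _ _ ((shiftFunctor T n).mapIso e) (hx n))
      (fun x m hx n => hs x hx m n) (fun D hD h₁ h₃ n => ?_) fun ι x hx n => ?_
    · exact five _ (Triangle.shift_distinguished D hD n) (hs _ h₃ n (-1)) (h₁ n) (h₃ n)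
        (hs _ h₁ n 1)
    · exact iso _ _ (PreservesCoproduct.iso (shiftFunctor T n) x).symm
        (coprod ι _ fun i => hx i n)
  exact iso _ _ ((shiftFunctorZero T ℤ).app t) (hG _ hL h0 t 0)

section

variable {C : Type*} [Category C] [Preadditive C] {S : Type*} [Category S] [Preadditive S]

theorem five_bij (Φ : C ⥤ S) [Φ.Additive] {I : S} {x : C} (ε : Φ.obj x ⟶ I)
    {t₀ t₁ t₂ t₃ t₄ : C} (a : t₀ ⟶ t₁) (f : t₁ ⟶ t₂) (g : t₂ ⟶ t₃) (w : t₃ ⟶ t₄)
    (haf : a ≫ f = 0) (hgw : g ≫ w = 0)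
    (e₁ : ∀ m : t₁ ⟶ x, a ≫ m = 0 → ∃ m', m = f ≫ m')
    (e₂ : ∀ m : t₂ ⟶ x, f ≫ m = 0 → ∃ m', m = g ≫ m')
    (c₂ : ∀ φ : Φ.obj t₂ ⟶ I, Φ.map f ≫ φ = 0 → ∃ ψ, φ = Φ.map g ≫ ψ)
    (c₃ : ∀ φ : Φ.obj t₃ ⟶ I, Φ.map g ≫ φ = 0 → ∃ ψ, φ = Φ.map w ≫ ψ)
    (b₀ : Function.Bijective fun m : t₀ ⟶ x => Φ.map m ≫ ε)
    (b₁ : Function.Bijective fun m : t₁ ⟶ x => Φ.map m ≫ ε)
    (b₃ : Function.Bijective fun m : t₃ ⟶ x => Φ.map m ≫ ε)
    (b₄ : Function.Bijective fun m : t₄ ⟶ x => Φ.map m ≫ ε) :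
    Function.Bijective fun m : t₂ ⟶ x => Φ.map m ≫ ε := by
  constructor
  · have key : ∀ m : t₂ ⟶ x, Φ.map m ≫ ε = 0 → m = 0 := fun m hm => by
      have h1 : f ≫ m = 0 := b₁.1 (by simp [hm])
      obtain ⟨m₃, rfl⟩ := e₂ m h1
      rw [Φ.map_comp, Category.assoc] at hm
      obtain ⟨ψ, hψ⟩ := c₃ _ hm
      obtain ⟨m₄, rfl⟩ := b₄.2 ψ
      have h2 : m₃ = w ≫ m₄ := b₃.1 (by simpa using hψ)
      rw [h2, ← Category.assoc, hgw, zero_comp]
    intro m m' h
    rw [← sub_eq_zero]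
    refine key _ ?_
    rw [Φ.map_sub, Preadditive.sub_comp, sub_eq_zero]
    exact h
  · intro φ
    obtain ⟨m₁, hm₁⟩ := b₁.2 (Φ.map f ≫ φ)
    dsimp only at hm₁
    have h1 : a ≫ m₁ = 0 := b₀.1 (by
      dsimp only
      rw [Φ.map_comp, Category.assoc, hm₁, ← Category.assoc, ← Φ.map_comp, haf, Φ.map_zero,
        Φ.map_zero, zero_comp, zero_comp])
    obtain ⟨m₂, rfl⟩ := e₁ m₁ h1
    obtain ⟨ψ, hψ⟩ := c₂ (φ - Φ.map m₂ ≫ ε) (by
      rw [Preadditive.comp_sub, ← hm₁, Φ.map_comp, Category.assoc, sub_self])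
    obtain ⟨m₃, rfl⟩ := b₃.2 ψ
    refine ⟨m₂ + g ≫ m₃, ?_⟩
    dsimp only at hψ ⊢
    rw [Φ.map_add, Preadditive.add_comp, Φ.map_comp, Category.assoc, ← hψ, add_sub_cancel]

theorem five_iso (F₁ F₂ : C ⥤ S) [F₁.Additive] [F₂.Additive] (θ : F₁ ⟶ F₂)
    {t₀ t₁ t₂ t₃ t₄ : C} (a : t₀ ⟶ t₁) (f : t₁ ⟶ t₂) (g : t₂ ⟶ t₃) (w : t₃ ⟶ t₄)
    (haf : a ≫ f = 0) (hgw : g ≫ w = 0)
    (e₂ : ∀ (z : S) (m : z ⟶ F₁.obj t₂), m ≫ F₁.map g = 0 → ∃ m', m = m' ≫ F₁.map f)
    (e₃ : ∀ (z : S) (m : z ⟶ F₁.obj t₃), m ≫ F₁.map w = 0 → ∃ m', m = m' ≫ F₁.map g)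
    (c₁ : ∀ (z : S) (m : z ⟶ F₂.obj t₁), m ≫ F₂.map f = 0 → ∃ m', m = m' ≫ F₂.map a)
    (c₂ : ∀ (z : S) (m : z ⟶ F₂.obj t₂), m ≫ F₂.map g = 0 → ∃ m', m = m' ≫ F₂.map f)
    [IsIso (θ.app t₀)] [IsIso (θ.app t₁)] [IsIso (θ.app t₃)] [IsIso (θ.app t₄)] :
    IsIso (θ.app t₂) := by
  refine isIso_of_yoneda_map_bijective _ fun z => ⟨?_, fun n => ?_⟩
  · have key : ∀ m : z ⟶ F₁.obj t₂, m ≫ θ.app t₂ = 0 → m = 0 := fun m hm => by
      have h1 : m ≫ F₁.map g = 0 := by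
        rw [← cancel_mono (θ.app t₃), Category.assoc, θ.naturality, ← Category.assoc, hm,
          zero_comp, zero_comp]
      obtain ⟨m₁, rfl⟩ := e₂ z m h1
      obtain ⟨n₀, hn₀⟩ := c₁ z (m₁ ≫ θ.app t₁) (by
        rw [Category.assoc, ← θ.naturality, ← Category.assoc, hm])
      have h2 : m₁ = n₀ ≫ inv (θ.app t₀) ≫ F₁.map a := by
        rw [← cancel_mono (θ.app t₁), hn₀, Category.assoc, Category.assoc, θ.naturality,
          IsIso.inv_hom_id_assoc]
      rw [h2, Category.assoc, Category.assoc, ← F₁.map_comp, haf, F₁.map_zero, comp_zero,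
        comp_zero]
    intro m m' h
    rw [← sub_eq_zero]
    refine key _ ?_
    rw [Preadditive.sub_comp, sub_eq_zero]
    exact h
  · obtain ⟨m₂, hm₂⟩ := e₃ z (n ≫ F₂.map g ≫ inv (θ.app t₃)) (by
      rw [← cancel_mono (θ.app t₄), Category.assoc, θ.naturality, Category.assoc, Category.assoc,
        IsIso.inv_hom_id_assoc, ← F₂.map_comp, hgw, F₂.map_zero, comp_zero, zero_comp])
    obtain ⟨n₁, hn₁⟩ := c₂ z (n - m₂ ≫ θ.app t₂) (by
      rw [Preadditive.sub_comp, Category.assoc, ← θ.naturality, ← Category.assoc, ← hm₂]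
      simp)
    refine ⟨m₂ + n₁ ≫ inv (θ.app t₁) ≫ F₁.map f, ?_⟩
    dsimp only
    rw [Preadditive.add_comp, Category.assoc, Category.assoc, θ.naturality,
      IsIso.inv_hom_id_assoc, ← hn₁, add_sub_cancel]

end

end A2

theorem bij_of_gen {G : T} (hG : Generates G) {S : Type*} [Category S] [Preadditive S]
    (Φ : T ⥤ S) [Φ.Additive] [∀ ι : Type, PreservesColimitsOfShape (Discrete ι) Φ] (I : S)
    (hI : CohAt Φ I) (x : T) (ε : Φ.obj x ⟶ I)
    (h0 : ∀ n : ℤ, Function.Bijective fun g : G⟦n⟧ ⟶ x => Φ.map g ≫ ε) (t : T) :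
    Function.Bijective fun g : t ⟶ x => Φ.map g ≫ ε := by
  refine A2.gen_of_five hG (fun t => Function.Bijective fun g : t ⟶ x => Φ.map g ≫ ε)
    (fun y y' e hy => ⟨fun g g' h => ?_, fun φ => ?_⟩) (fun D hD b₀ b₁ b₃ b₄ => ?_)
    (fun ι y hy => ⟨fun g g' h => ?_, fun φ => ?_⟩) h0 t
  · rw [← cancel_epi e.hom]
    refine hy.1 ?_
    dsimp only at h ⊢
    rw [Φ.map_comp, Φ.map_comp, Category.assoc, Category.assoc, h]
  · obtain ⟨g, hg⟩ := hy.2 (Φ.map e.hom ≫ φ)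
    refine ⟨e.inv ≫ g, ?_⟩
    dsimp only at hg ⊢
    rw [Φ.map_comp, Category.assoc, hg, ← Category.assoc, ← Φ.map_comp, e.inv_hom_id, Φ.map_id,
      Category.id_comp]
  · exact A2.five_bij Φ ε D.invRotate.mor₁ D.mor₁ D.mor₂ D.mor₃
      (comp_distTriang_mor_zero₁₂ _ (inv_rot_of_distTriang D hD))
      (comp_distTriang_mor_zero₂₃ D hD)
      (fun m hm => Triangle.yoneda_exact₂ _ (inv_rot_of_distTriang D hD) m hm)
      (fun m hm => Triangle.yoneda_exact₂ _ hD m hm) (hI D hD)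
      (hI _ (rot_of_distTriang D hD)) b₀ b₁ b₃ b₄
  · refine Sigma.hom_ext _ _ fun i => (hy i).1 ?_
    dsimp only at h ⊢
    rw [Φ.map_comp, Φ.map_comp, Category.assoc, Category.assoc, h]
  · choose g hg using fun i => (hy i).2 (Φ.map (Sigma.ι y i) ≫ φ)
    refine ⟨Sigma.desc g, Cofan.IsColimit.hom_ext
      (isColimitOfHasCoproductOfPreservesColimit Φ y) _ _ fun i => ?_⟩
    change Φ.map (Sigma.ι y i) ≫ Φ.map (Sigma.desc g) ≫ ε = Φ.map (Sigma.ι y i) ≫ φ
    rw [← Category.assoc, ← Φ.map_comp, Sigma.ι_desc]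
    exact hg i

theorem isIso_of_gen {G : T} (hG : Generates G) {S : Type 1} [Category.{0} S] [Preadditive S]
    [HasCoproducts.{0} S] [HasZeroObject S] [HasShift S ℤ]
    [∀ n : ℤ, (shiftFunctor S n).Additive] [Pretriangulated S]
    (F₁ F₂ : T ⥤ S) [F₁.CommShift ℤ] [F₁.IsTriangulated] [F₂.CommShift ℤ] [F₂.IsTriangulated]
    [∀ ι : Type, PreservesColimitsOfShape (Discrete ι) F₁]
    [∀ ι : Type, PreservesColimitsOfShape (Discrete ι) F₂] (θ : F₁ ⟶ F₂)
    (h0 : ∀ n : ℤ, IsIso (θ.app (G⟦n⟧))) (t : T) : IsIso (θ.app t) := by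
  refine A2.gen_of_five hG (fun t => IsIso (θ.app t))
    (fun y y' e hy => (NatTrans.isIso_app_iff_of_iso θ e).1 hy) (fun D hD b₀ b₁ b₃ b₄ => ?_)
    (fun ι y hy => ?_) h0 t
  · exact @A2.five_iso _ _ _ _ _ _ F₁ F₂ _ _ θ _ _ _ _ _ D.invRotate.mor₁ D.mor₁ D.mor₂ D.mor₃
      (comp_distTriang_mor_zero₁₂ _ (inv_rot_of_distTriang D hD))
      (comp_distTriang_mor_zero₂₃ D hD)
      (fun z m hm => Triangle.coyoneda_exact₂ _ (F₁.map_distinguished D hD) m hm)
      (fun z m hm => Triangle.coyoneda_exact₂ _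
        (F₁.map_distinguished _ (rot_of_distTriang D hD)) m hm)
      (fun z m hm => Triangle.coyoneda_exact₂ _
        (F₂.map_distinguished _ (inv_rot_of_distTriang D hD)) m hm)
      (fun z m hm => Triangle.coyoneda_exact₂ _ (F₂.map_distinguished D hD) m hm) b₀ b₁ b₃ b₄
  · have h1 : sigmaComparison F₁ y ≫ θ.app (∐ y) =
        Limits.Sigma.map (fun i => θ.app (y i)) ≫ sigmaComparison F₂ y := by
      refine Sigma.hom_ext _ _ fun i => ?_
      rw [ι_comp_sigmaComparison_assoc, Sigma.ι_map_assoc, ι_comp_sigmaComparison, θ.naturality]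
    have h2 : IsIso (sigmaComparison F₁ y ≫ θ.app (∐ y)) := by
      rw [h1]
      infer_instance
    exact IsIso.of_isIso_comp_left (sigmaComparison F₁ y) _

/-- A right adjoint preserves coproducts when the left adjoint sends the shifts of the compact
generator to compact objects. -/
theorem rightAdjoint_preserves_coprod {G : T} (hG : Generates G) (hc : IsCpt G) {S : Type 1}
    [Category.{0} S] [Preadditive S] [HasCoproducts.{0} S] {Φ : T ⥤ S} {Γ : S ⥤ T}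
    [Φ.Additive] [Γ.Additive] (adj : Φ ⊣ Γ) (h : ∀ n : ℤ, IsCpt (Φ.obj (G⟦n⟧))) (ι : Type) :
    PreservesColimitsOfShape (Discrete ι) Γ := by
  classical
  have key : ∀ s : ι → S, IsIso (sigmaComparison Γ s) := fun s => by
    have hπ : ∀ i, sigmaComparison Γ s ≫ Γ.map (Sigma.π s i) =
        Sigma.π (fun j => Γ.obj (s j)) i := fun i => by
      refine Sigma.hom_ext _ _ fun j => ?_
      rw [ι_comp_sigmaComparison_assoc, ← Γ.map_comp]
      by_cases hji : j = i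
      · subst hji
        rw [Sigma.ι_π_eq_id, Sigma.ι_π_eq_id, Γ.map_id]
      · rw [Sigma.ι_π_of_ne _ hji, Sigma.ι_π_of_ne _ hji, Γ.map_zero]
    refine hG.isIso _ fun n => ⟨fun g g' hg => ?_, fun f => ?_⟩
    · rw [← sub_eq_zero]
      refine (isCpt_shift hc n).hom_eq_zero _ fun i => ?_
      dsimp only at hg
      rw [← hπ, ← Category.assoc, Preadditive.sub_comp, hg, sub_self, zero_comp]
    · obtain ⟨u, g, hg⟩ := h n ι s ((adj.homEquiv _ _).symm f)
      refine ⟨∑ i ∈ u, adj.homEquiv _ _ (g i) ≫ Sigma.ι (fun j => Γ.obj (s j)) i, ?_⟩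
      rw [Equiv.symm_apply_eq] at hg
      dsimp only
      rw [hg, Adjunction.homEquiv_unit, Γ.map_sum, Preadditive.sum_comp, Preadditive.comp_sum]
      refine Finset.sum_congr rfl fun i _ => ?_
      rw [Category.assoc, ι_comp_sigmaComparison, Adjunction.homEquiv_unit, Γ.map_comp,
        Category.assoc]
  have : ∀ s : ι → S, PreservesColimit (Discrete.functor s) Γ := fun s =>
    PreservesCoproduct.of_iso_comparison Γ s
  exact preservesColimitsOfShape_of_discrete Γ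

/-- Neeman's lemma: every compact object is a retract of an object of `D`. -/
theorem neeman {G : T} (hG : Generates G) (D : ObjectProperty T) [D.IsTriangulated]
    [D.IsClosedUnderIsomorphisms] (hD : D G) (hle : ∀ d, D d → IsCpt d) {c : T}
    (hc : IsCpt c) : ∃ d, D d ∧ Nonempty (Retract c d) := by
  let Fa : ∀ {c t : T}, (c ⟶ t) → Prop := fun {c t} m =>
    ∃ d, D d ∧ ∃ (a : c ⟶ d) (b : d ⟶ t), m = a ≫ b
  have hzero : ∀ c t : T, Fa (0 : c ⟶ t) := fun c t => by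
    obtain ⟨z, -, hz⟩ := D.exists_prop_of_containsZero
    exact ⟨z, hz, 0, 0, by simp⟩
  have hadd : ∀ {c t : T} (m m' : c ⟶ t), Fa m → Fa m' → Fa (m + m') := by
    rintro c t _ _ ⟨d, hd, a, b, rfl⟩ ⟨d', hd', a', b', rfl⟩
    exact ⟨d ⊞ d', D.ext_of_isTriangulatedClosed₂ _ (binaryBiproductTriangle_distinguished d d')
      hd hd', biprod.lift a a', biprod.desc b b', by simp⟩
  have hpost : ∀ {c t t' : T} (m : c ⟶ t) (f : t ⟶ t'), Fa m → Fa (m ≫ f) := by
    rintro c t t' _ f ⟨d, hd, a, b, rfl⟩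
    exact ⟨d, hd, a, b ≫ f, Category.assoc _ _ _⟩
  have hshift : ∀ (t : T) (n : ℤ), (∀ c, IsCpt c → ∀ m : c ⟶ t, Fa m) →
      ∀ c, IsCpt c → ∀ m : c ⟶ t⟦n⟧, Fa m := fun t n ht c hc m => by
    let e : c⟦-n⟧⟦n⟧ ≅ c := (shiftFunctorCompIsoId T (-n) n (by simp)).app c
    obtain ⟨u, hu⟩ := (shiftFunctor T n).map_surjective (e.hom ≫ m)
    obtain ⟨d, hd, a, b, rfl⟩ := ht _ (isCpt_shift hc (-n)) u
    refine ⟨d⟦n⟧, D.le_shift n d hd, e.inv ≫ a⟦n⟧', b⟦n⟧', ?_⟩
    rw [Category.assoc, ← Functor.map_comp, hu, e.inv_hom_id_assoc]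
  have hL : IsLoc (fun t : T => ∀ c, IsCpt c → ∀ m : c ⟶ t, Fa m) := by
    refine IsLoc.mk' _ (fun x y e hx c hc m => ?_) hshift (fun E hE h₁ h₃ c hc m => ?_)
      fun ι x hx c hc m => ?_
    · have h := hpost _ e.hom (hx c hc (m ≫ e.inv))
      rwa [Category.assoc, e.inv_hom_id, Category.comp_id] at h
    · obtain ⟨d₃, hd₃, α, β, hαβ⟩ := h₃ c hc (m ≫ E.mor₂)
      obtain ⟨e, q, r, hq⟩ := distinguished_cocone_triangle α
      have he : IsCpt e := isCpt_obj₃ _ hq hc (hle _ hd₃)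
      obtain ⟨δ, hδ⟩ : ∃ δ : e ⟶ E.obj₁⟦(1 : ℤ)⟧, β ≫ E.mor₃ = q ≫ δ :=
        Triangle.yoneda_exact₂ _ hq (β ≫ E.mor₃) (by
          change α ≫ β ≫ E.mor₃ = 0
          rw [← Category.assoc, ← hαβ, Category.assoc, comp_distTriang_mor_zero₂₃ E hE, comp_zero])
      obtain ⟨d', hd', γ, δ', rfl⟩ := hshift _ 1 h₁ e he δ
      obtain ⟨d₂, p, k, hp⟩ := distinguished_cocone_triangle₁ (q ≫ γ)
      have hd₂ : D d₂ := D.ext_of_isTriangulatedClosed₁ _ hp hd₃ hd'
      have hαq : α ≫ q = 0 := comp_distTriang_mor_zero₁₂ _ hq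
      have hpq : p ≫ q ≫ γ = 0 := comp_distTriang_mor_zero₁₂ _ hp
      obtain ⟨α', hα'⟩ : ∃ α' : c ⟶ d₂, α = α' ≫ p :=
        Triangle.coyoneda_exact₂ _ hp α (by
          change α ≫ q ≫ γ = 0
          rw [← Category.assoc, hαq, zero_comp])
      obtain ⟨φ, hφ⟩ := Triangle.coyoneda_exact₃ _ hE (p ≫ β) (by
        rw [Category.assoc, hδ, ← Category.assoc q, ← Category.assoc, hpq, zero_comp])
      obtain ⟨n, hn⟩ := Triangle.coyoneda_exact₂ _ hE (m - α' ≫ φ) (by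
        rw [Preadditive.sub_comp, hαβ, Category.assoc, ← hφ, hα', Category.assoc, sub_self])
      have h := hadd (α' ≫ φ) _ ⟨d₂, hd₂, α', φ, rfl⟩ (hpost n E.mor₁ (h₁ c hc n))
      rwa [← hn, add_sub_cancel] at h
    · obtain ⟨s, g, rfl⟩ := hc ι x m
      exact Finset.sum_induction _ Fa hadd (hzero _ _) fun i _ => hpost _ _ (hx i c hc (g i))
  obtain ⟨d, hd, a, b, h⟩ := hG _ hL (fun c _ m => ⟨G, hD, m, 𝟙 _, by simp⟩) c c hc (𝟙 c)
  exact ⟨d, hd, ⟨⟨a, b, h.symm⟩⟩⟩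

/-- Thick induction on compact objects. -/
theorem cpt_induction {G : T} (hG : Generates G) (hGc : IsCpt G) (P : ObjectProperty T)
    [P.IsTriangulated] [P.IsStableUnderRetracts] (hP : P G) {c : T} (hc : IsCpt c) :
    P c := by
  have := isCpt_isTriangulated (T := T)
  have := isCpt_isStableUnderRetracts (T := T)
  obtain ⟨d, hd, ⟨r⟩⟩ := neeman hG (P ⊓ (IsCpt : ObjectProperty T)) ⟨hP, hGc⟩
    (fun d hd => hd.2) hc
  exact P.prop_of_retract r hd.1

end Pool.Agent.MP_e18349_al.TT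

end

-- part A3
section

/-! Row A3: Brown representability (adjoint functor theorem). -/

namespace Pool.Agent.MP_e18349_al.TT

open CategoryTheory Limits MonoidalCategory Opposite Pretriangulated

variable {T : Type 1} [Category.{0} T] [Preadditive T] [HasCoproducts.{0} T]
  [HasZeroObject T] [HasShift T ℤ] [∀ n : ℤ, (shiftFunctor T n).Additive] [Pretriangulated T]

namespace A3

section

variable {S : Type 1} [Category.{0} S] [Preadditive S] (Φ : T ⥤ S) [Φ.Additive]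
  [∀ ι : Type, PreservesColimitsOfShape (Discrete ι) Φ] (I : S)

omit [HasZeroObject T] [HasShift T ℤ] [∀ n : ℤ, (shiftFunctor T n).Additive] [Pretriangulated T]
  [Preadditive T] [Preadditive S] [Φ.Additive] in
theorem phi_desc {ι : Type} (y : ι → T) (ψ : ∀ i, Φ.obj (y i) ⟶ I) :
    ∃ φ : Φ.obj (∐ y) ⟶ I, ∀ i, Φ.map (Sigma.ι y i) ≫ φ = ψ i :=
  ⟨Cofan.IsColimit.desc (isColimitOfHasCoproductOfPreservesColimit Φ y) ψ,
    fun i => Cofan.IsColimit.fac (isColimitOfHasCoproductOfPreservesColimit Φ y) ψ i⟩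

omit [HasZeroObject T] [HasShift T ℤ] [∀ n : ℤ, (shiftFunctor T n).Additive] [Pretriangulated T]
  [Preadditive T] [Φ.Additive] in
theorem phi_ext {ι : Type} (y : ι → T) (φ : Φ.obj (∐ y) ⟶ I)
    (h : ∀ i, Φ.map (Sigma.ι y i) ≫ φ = 0) : φ = 0 :=
  Cofan.IsColimit.hom_ext (isColimitOfHasCoproductOfPreservesColimit Φ y) _ _ fun i => by
    rw [comp_zero]; exact h i

omit [HasZeroObject T] [∀ n : ℤ, (shiftFunctor T n).Additive] [Pretriangulated T]
  [Preadditive T] [Preadditive S] [Φ.Additive] in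
theorem base (G : T) : ∃ (x : T) (ε : Φ.obj x ⟶ I),
    ∀ (n : ℤ) (φ : Φ.obj (G⟦n⟧) ⟶ I), ∃ g : G⟦n⟧ ⟶ x, Φ.map g ≫ ε = φ := by
  let J : Type := Σ n : ℤ, (Φ.obj (G⟦n⟧) ⟶ I)
  obtain ⟨ε, hε⟩ := phi_desc Φ I (fun j : J => G⟦j.1⟧) (fun j => j.2)
  exact ⟨_, ε, fun n φ => ⟨_, hε ⟨n, φ⟩⟩⟩

omit [Φ.Additive] in
theorem step (G : T) (hI : CohAt Φ I) (x : T) (ε : Φ.obj x ⟶ I) :
    ∃ (x' : T) (f : x ⟶ x') (ε' : Φ.obj x' ⟶ I), Φ.map f ≫ ε' = ε ∧
      ∀ (n : ℤ) (g : G⟦n⟧ ⟶ x), Φ.map g ≫ ε = 0 → g ≫ f = 0 := by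
  let J : Type := Σ n : ℤ, {g : G⟦n⟧ ⟶ x // Φ.map g ≫ ε = 0}
  let t : (∐ fun j : J => G⟦j.1⟧) ⟶ x := Sigma.desc fun j => j.2.1
  have ht : ∀ j : J, Sigma.ι (fun j : J => G⟦j.1⟧) j ≫ t = j.2.1 := fun j => Sigma.ι_desc _ _
  obtain ⟨z, f, h, hD⟩ := distinguished_cocone_triangle t
  have h0 : Φ.map t ≫ ε = 0 := by
    refine phi_ext Φ I _ _ fun j => ?_
    rw [← Category.assoc, ← Φ.map_comp, ht]
    exact j.2.2
  obtain ⟨ε', hε'⟩ := hI _ hD ε h0
  refine ⟨z, f, ε', hε'.symm, fun n g hg => ?_⟩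
  have h1 : t ≫ f = 0 := comp_distTriang_mor_zero₁₂ _ hD
  have h2 := ht ⟨n, g, hg⟩
  dsimp only at h2
  rw [← h2, Category.assoc, h1, comp_zero]

omit [Φ.Additive] in
theorem tower (G : T) (hI : CohAt Φ I) :
    ∃ (x : ℕ → T) (ε : ∀ i, Φ.obj (x i) ⟶ I) (f : ∀ i, x i ⟶ x (i + 1)),
      (∀ (n : ℤ) (φ : Φ.obj (G⟦n⟧) ⟶ I), ∃ g : G⟦n⟧ ⟶ x 0, Φ.map g ≫ ε 0 = φ) ∧
      (∀ i, Φ.map (f i) ≫ ε (i + 1) = ε i) ∧
      ∀ (i : ℕ) (n : ℤ) (g : G⟦n⟧ ⟶ x i), Φ.map g ≫ ε i = 0 → g ≫ f i = 0 := by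
  obtain ⟨x0, ε0, h0⟩ := base Φ I G
  choose X F E hE hK using step Φ I G hI
  let s : ℕ → Σ x : T, (Φ.obj x ⟶ I) :=
    fun i => Nat.rec ⟨x0, ε0⟩ (fun _ p => ⟨X p.1 p.2, E p.1 p.2⟩) i
  exact ⟨fun i => (s i).1, fun i => (s i).2, fun i => F (s i).1 (s i).2, h0,
    fun i => hE (s i).1 (s i).2, fun i => hK (s i).1 (s i).2⟩

end

section

variable (x : ℕ → T) (f : ∀ i, x i ⟶ x (i + 1))

/-- The map `1 - shift` of the telescope. -/
noncomputable def tel : ∐ x ⟶ ∐ x := Sigma.desc fun i => Sigma.ι x i - f i ≫ Sigma.ι x (i + 1)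

omit [HasZeroObject T] [HasShift T ℤ] [∀ n : ℤ, (shiftFunctor T n).Additive]
  [Pretriangulated T] in
theorem ι_tel (i : ℕ) : Sigma.ι x i ≫ tel x f = Sigma.ι x i - f i ≫ Sigma.ι x (i + 1) :=
  Sigma.ι_desc _ _

omit [HasZeroObject T] [HasShift T ℤ] [∀ n : ℤ, (shiftFunctor T n).Additive]
  [Pretriangulated T] in
theorem tel_π_zero : tel x f ≫ Sigma.π x 0 = Sigma.π x 0 := by
  refine Sigma.hom_ext _ _ fun i => ?_
  rw [← Category.assoc, ι_tel, Preadditive.sub_comp, Category.assoc,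
    Sigma.ι_π_of_ne x (Nat.succ_ne_zero i), comp_zero, sub_zero]

omit [HasZeroObject T] [HasShift T ℤ] [∀ n : ℤ, (shiftFunctor T n).Additive]
  [Pretriangulated T] in
theorem tel_π_succ (j : ℕ) :
    tel x f ≫ Sigma.π x (j + 1) = Sigma.π x (j + 1) - Sigma.π x j ≫ f j := by
  refine Sigma.hom_ext _ _ fun i => ?_
  rw [← Category.assoc, ι_tel, Preadditive.sub_comp, Preadditive.comp_sub, Category.assoc]
  congr 1
  by_cases h : i = j
  · subst h
    rw [Sigma.ι_π_eq_id, ← Category.assoc, Sigma.ι_π_eq_id, Category.comp_id, Category.id_comp]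
  · rw [Sigma.ι_π_of_ne x (show i + 1 ≠ j + 1 by omega), ← Category.assoc,
      Sigma.ι_π_of_ne x h, comp_zero, zero_comp]

theorem tel_inj {c : T} (hc : IsCpt c) (u : c ⟶ ∐ x) (hu : u ≫ tel x f = 0) : u = 0 := by
  refine hc.hom_eq_zero u fun i => ?_
  induction i with
  | zero => rw [← tel_π_zero x f, ← Category.assoc, hu, zero_comp]
  | succ j ih =>
    have h := congrArg (· ≫ Sigma.π x (j + 1)) hu
    simp only [Category.assoc, zero_comp] at h
    rw [tel_π_succ, Preadditive.comp_sub, ← Category.assoc, ih, zero_comp, sub_zero] at h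
    exact h

theorem tel_inj_shift {c : T} (hc : IsCpt c) (v : c ⟶ (∐ x)⟦(1 : ℤ)⟧)
    (hv : v ≫ (tel x f)⟦(1 : ℤ)⟧' = 0) : v = 0 := by
  let e : c⟦(-1 : ℤ)⟧⟦(1 : ℤ)⟧ ≅ c := (shiftFunctorCompIsoId T (-1 : ℤ) 1 (by norm_num)).app c
  obtain ⟨u, hu⟩ := (shiftFunctor T (1 : ℤ)).map_surjective (e.hom ≫ v)
  have h0 : u ≫ tel x f = 0 := by
    apply (shiftFunctor T (1 : ℤ)).map_injective
    rw [Functor.map_comp, hu, Category.assoc, hv, comp_zero, Functor.map_zero]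
  have h1 := tel_inj x f (isCpt_shift hc (-1)) u h0
  rw [h1, Functor.map_zero] at hu
  rw [← cancel_epi e.hom, ← hu, comp_zero]

theorem tel_factor {z : T} (π : ∐ x ⟶ z) (h : z ⟶ (∐ x)⟦(1 : ℤ)⟧)
    (hD : Triangle.mk (tel x f) π h ∈ distTriang T) :
    (∀ i, Sigma.ι x i ≫ π = f i ≫ Sigma.ι x (i + 1) ≫ π) ∧
    ∀ {c : T}, IsCpt c → ∀ g : c ⟶ z, ∃ (N : ℕ) (g' : c ⟶ x N), g = g' ≫ Sigma.ι x N ≫ π := by
  have h12 : tel x f ≫ π = 0 := comp_distTriang_mor_zero₁₂ _ hD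
  have h31 : h ≫ (tel x f)⟦(1 : ℤ)⟧' = 0 := comp_distTriang_mor_zero₃₁ _ hD
  have hs : ∀ i, Sigma.ι x i ≫ π = f i ≫ Sigma.ι x (i + 1) ≫ π := fun i => by
    have h1 : (Sigma.ι x i ≫ tel x f) ≫ π = 0 := by rw [Category.assoc, h12, comp_zero]
    rw [ι_tel, Preadditive.sub_comp, sub_eq_zero, Category.assoc] at h1
    exact h1
  refine ⟨hs, fun {c} hc g => ?_⟩
  have ht : ∀ i N, i ≤ N → ∃ t : x i ⟶ x N, Sigma.ι x i ≫ π = t ≫ Sigma.ι x N ≫ π := by
    intro i N hiN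
    induction N, hiN using Nat.le_induction with
    | base => exact ⟨𝟙 _, (Category.id_comp _).symm⟩
    | succ N _ ih =>
      obtain ⟨t, ht⟩ := ih
      exact ⟨t ≫ f N, by rw [ht, hs N, Category.assoc]⟩
  have hg : g ≫ h = 0 := tel_inj_shift x f hc _ (by rw [Category.assoc, h31, comp_zero])
  obtain ⟨g1, hg2⟩ : ∃ g1 : c ⟶ ∐ x, g = g1 ≫ π := Triangle.coyoneda_exact₃ _ hD g hg
  obtain ⟨s, a, ha⟩ := hc ℕ x g1
  have ht' : ∀ i, ∃ t : x i ⟶ x (s.sup id),
      i ∈ s → Sigma.ι x i ≫ π = t ≫ Sigma.ι x (s.sup id) ≫ π := fun i => by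
    by_cases hi : i ∈ s
    · obtain ⟨t, ht⟩ := ht i (s.sup id) (Finset.le_sup (f := id) hi)
      exact ⟨t, fun _ => ht⟩
    · exact ⟨0, fun h => absurd h hi⟩
  choose t ht' using ht'
  refine ⟨s.sup id, ∑ i ∈ s, a i ≫ t i, ?_⟩
  rw [hg2, ha, Preadditive.sum_comp, Preadditive.sum_comp]
  refine Finset.sum_congr rfl fun i hi => ?_
  rw [Category.assoc, Category.assoc, ht' i hi]

end

end A3

theorem brown {G : T} (hG : Generates G) (hc : IsCpt G) {S : Type 1} [Category.{0} S]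
    [Preadditive S] (Φ : T ⥤ S) [Φ.Additive]
    [∀ ι : Type, PreservesColimitsOfShape (Discrete ι) Φ] (I : S) (hI : CohAt Φ I) :
    ∃ (x : T) (ε : Φ.obj x ⟶ I),
      ∀ t : T, Function.Bijective fun g : t ⟶ x => Φ.map g ≫ ε := by
  obtain ⟨x, ε, f, h0, h1, h2⟩ := A3.tower Φ I G hI
  obtain ⟨z, π, h, hD⟩ := distinguished_cocone_triangle (A3.tel x f)
  obtain ⟨hs, hfac⟩ := A3.tel_factor x f π h hD
  obtain ⟨e, he⟩ := A3.phi_desc Φ I x ε
  have he0 : Φ.map (A3.tel x f) ≫ e = 0 := by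
    refine A3.phi_ext Φ I _ _ fun i => ?_
    rw [← Category.assoc, ← Φ.map_comp, A3.ι_tel, Φ.map_sub, Preadditive.sub_comp, Φ.map_comp,
      Category.assoc, he, he, h1, sub_self]
  obtain ⟨e', he'⟩ := hI _ hD e he0
  have he1 : e = Φ.map π ≫ e' := he'
  have hι : ∀ i, Φ.map (Sigma.ι x i ≫ π) ≫ e' = ε i := fun i => by
    rw [Φ.map_comp, Category.assoc, ← he1, he]
  refine ⟨z, e', bij_of_gen hG Φ I hI z e' fun n => ⟨fun g₁ g₂ hg => ?_, fun φ => ?_⟩⟩
  · have hg0 : Φ.map (g₁ - g₂) ≫ e' = 0 := by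
      rw [Φ.map_sub, Preadditive.sub_comp, sub_eq_zero]; exact hg
    obtain ⟨N, g', hg'⟩ := hfac (isCpt_shift hc n) (g₁ - g₂)
    rw [hg', Φ.map_comp, Category.assoc, hι] at hg0
    rw [← sub_eq_zero, hg', hs N, ← Category.assoc, h2 N n g' hg0, zero_comp]
  · obtain ⟨g, hg⟩ := h0 n φ
    refine ⟨g ≫ Sigma.ι x 0 ≫ π, ?_⟩
    change Φ.map (g ≫ Sigma.ι x 0 ≫ π) ≫ e' = φ
    rw [Φ.map_comp, Category.assoc, hι, hg]

theorem isLeftAdjoint_of_gen {G : T} (hG : Generates G) (hc : IsCpt G) {S : Type 1}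
    [Category.{0} S] [Preadditive S] [HasZeroObject S] [HasShift S ℤ]
    [∀ n : ℤ, (shiftFunctor S n).Additive] [Pretriangulated S]
    (Φ : T ⥤ S) [Φ.CommShift ℤ] [Φ.IsTriangulated]
    [∀ ι : Type, PreservesColimitsOfShape (Discrete ι) Φ] : Φ.IsLeftAdjoint := by
  have hI : ∀ I : S, CohAt Φ I := fun I D hD φ hφ =>
    Triangle.yoneda_exact₂ _ (Φ.map_distinguished D hD) φ hφ
  choose x ε h using fun I : S => brown hG hc Φ I (hI I)
  let e : ∀ (X : T) (Y : S), (Φ.obj X ⟶ Y) ≃ (X ⟶ x Y) :=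
    fun X Y => (Equiv.ofBijective _ (h Y X)).symm
  have he : ∀ (X' X : T) (Y : S) (f : X' ⟶ X) (g : Φ.obj X ⟶ Y),
      e X' Y (Φ.map f ≫ g) = f ≫ e X Y g := by
    intro X' X Y f g
    obtain ⟨g', rfl⟩ := (e X Y).symm.surjective g
    rw [Equiv.apply_symm_apply, Equiv.apply_eq_iff_eq_symm_apply]
    change Φ.map f ≫ Φ.map g' ≫ ε Y = Φ.map (f ≫ g') ≫ ε Y
    rw [Φ.map_comp, Category.assoc]
  exact (Adjunction.adjunctionOfEquivRight e he).isLeftAdjoint

end Pool.Agent.MP_e18349_al.TT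

end

-- part A4
section

/-! Row A4: finite cell objects. -/

namespace Pool.Agent.MP_e18349_al.TT

open CategoryTheory Limits MonoidalCategory Opposite Pretriangulated

variable {T : Type 1} [Category.{0} T] [Preadditive T] [HasCoproducts.{0} T]
  [HasZeroObject T] [HasShift T ℤ] [∀ n : ℤ, (shiftFunctor T n).Additive] [Pretriangulated T]
  [IsTriangulated T]

omit [IsTriangulated T] in
theorem A4_free_cpt {G : T} (hG : IsCpt G) {n : ℤ} {F : T} (hF : IsFree G n F) : IsCpt F := by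
  obtain ⟨r, ⟨e⟩⟩ := hF
  exact isCpt_of_iso e.symm (isCpt_biproduct _ fun _ => isCpt_shift hG n)

omit [IsTriangulated T] [HasCoproducts.{0} T] in
theorem A4_free_hom_zero {G : T} {n : ℤ} {F : T} (hF : IsFree G n F) (y : T)
    (hy : ∀ f : G⟦n⟧ ⟶ y, f = 0) (f : F ⟶ y) : f = 0 := by
  obtain ⟨r, ⟨e⟩⟩ := hF
  have h : e.inv ≫ f = 0 := biproduct.hom_ext' _ _ fun j =>
    (hy _).trans (hy _).symm
  rw [← cancel_epi e.inv, h, comp_zero]

omit [IsTriangulated T] [HasCoproducts.{0} T] in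
theorem A4_free_hom_zero' {G : T} {n : ℤ} {F : T} (hF : IsFree G n F) (y : T)
    (hy : ∀ f : y ⟶ G⟦n⟧, f = 0) (f : y ⟶ F) : f = 0 := by
  obtain ⟨r, ⟨e⟩⟩ := hF
  have h : f ≫ e.hom = 0 := biproduct.hom_ext _ _ fun j =>
    (hy _).trans (hy _).symm
  rw [← cancel_mono e.hom, h, zero_comp]

omit [IsTriangulated T] [HasCoproducts.{0} T] in
theorem A4_free_of_iso {G : T} {n : ℤ} {F F' : T} (hF : IsFree G n F) (e : F ≅ F') :
    IsFree G n F' := by
  obtain ⟨r, ⟨e'⟩⟩ := hF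
  exact ⟨r, ⟨e.symm ≪≫ e'⟩⟩

omit [IsTriangulated T] [HasCoproducts.{0} T] in
theorem A4_free_of_isZero (G : T) (n : ℤ) {F : T} (hF : IsZero F) : IsFree G n F := by
  refine ⟨0, ⟨hF.iso ?_⟩⟩
  rw [IsZero.iff_id_eq_zero]
  exact biproduct.hom_ext _ _ fun j => j.elim0

omit [IsTriangulated T] [HasCoproducts.{0} T] in
theorem A4_free_self (G : T) (n : ℤ) : IsFree G n (G⟦n⟧) :=
  ⟨1, ⟨(biproductUniqueIso (fun _ : Fin 1 => G⟦n⟧)).symm⟩⟩

omit [IsTriangulated T] [HasCoproducts.{0} T] in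
theorem A4_free_shift {G : T} {n : ℤ} {F : T} (hF : IsFree G n F) (m : ℤ) :
    IsFree G (n + m) (F⟦m⟧) := by
  obtain ⟨r, ⟨e⟩⟩ := hF
  exact ⟨r, ⟨(shiftFunctor T m).mapIso e ≪≫ (shiftFunctor T m).mapBiproduct _ ≪≫
    biproduct.mapIso fun _ => ((shiftFunctorAdd T n m).app G).symm⟩⟩

omit [IsTriangulated T] [HasCoproducts.{0} T] in
theorem A4_free_biprod {G : T} {n : ℤ} {F F' : T} (hF : IsFree G n F) (hF' : IsFree G n F') :
    IsFree G n (F ⊞ F') := by
  obtain ⟨r, ⟨e⟩⟩ := hF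
  obtain ⟨s, ⟨e'⟩⟩ := hF'
  let u : ((⨁ fun _ : Fin r => G⟦n⟧) ⊞ (⨁ fun _ : Fin s => G⟦n⟧) : T) ≅
      ⨁ fun _ : Fin r ⊕ Fin s => G⟦n⟧ :=
    { hom := biprod.desc
        (biproduct.desc fun i => biproduct.ι (fun _ : Fin r ⊕ Fin s => G⟦n⟧) (Sum.inl i))
        (biproduct.desc fun i => biproduct.ι (fun _ : Fin r ⊕ Fin s => G⟦n⟧) (Sum.inr i))
      inv := biproduct.desc fun i => Sum.elim
        (fun i => biproduct.ι (fun _ : Fin r => G⟦n⟧) i ≫ biprod.inl)
        (fun i => biproduct.ι (fun _ : Fin s => G⟦n⟧) i ≫ biprod.inr) i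
      hom_inv_id := by
        refine biprod.hom_ext' _ _ ?_ ?_
        · exact biproduct.hom_ext' _ _ fun j => by simp
        · exact biproduct.hom_ext' _ _ fun j => by simp
      inv_hom_id := biproduct.hom_ext' _ _ fun j => by
        rcases j with j | j <;> simp }
  exact ⟨r + s, ⟨biprod.mapIso e e' ≪≫ u ≪≫
    biproduct.whiskerEquiv (f := fun _ : Fin r ⊕ Fin s => G⟦n⟧)
      (g := fun _ : Fin (r + s) => G⟦n⟧) finSumFinEquiv fun _ => Iso.refl _⟩⟩

omit [IsTriangulated T] [HasCoproducts.{0} T] in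
theorem A4_conn {G : T} (hG : Conn G) {i j : ℤ} (h : i < j) (f : G⟦i⟧ ⟶ G⟦j⟧) : f = 0 := by
  obtain ⟨g, hg⟩ := (shiftFunctor T i).map_surjective
    (f ≫ (shiftFunctorAdd' T (j - i) i j (by omega)).hom.app G)
  rw [hG (j - i) (by omega) g, Functor.map_zero] at hg
  rw [← cancel_mono ((shiftFunctorAdd' T (j - i) i j (by omega)).hom.app G), ← hg, zero_comp]

omit [IsTriangulated T] in
theorem Cell.cpt {G : T} (hG : IsCpt G) {n : ℤ} {l : ℕ} {x : T} (hx : Cell G n l x) :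
    IsCpt x := by
  induction hx with
  | zero n x h => exact isCpt_of_isZero h
  | step n l D hD _ hF ih => exact isCpt_obj₂ D hD ih (A4_free_cpt hG hF)

omit [IsTriangulated T] in
theorem Cell.hom_zero {G : T} {n : ℤ} {l : ℕ} {x : T} (hx : Cell G n l x) (y : T)
    (hy : ∀ i : ℤ, i ≤ n → ∀ f : G⟦i⟧ ⟶ y, f = 0) (f : x ⟶ y) : f = 0 := by
  induction hx with
  | zero n x h => exact h.eq_of_src _ _
  | step n l D hD _ hF ih =>
    obtain ⟨g, hg⟩ := Triangle.yoneda_exact₂ D hD f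
      (ih (fun i hi => hy i (by omega)) _)
    rw [hg, A4_free_hom_zero hF y (hy n le_rfl) g, comp_zero]

omit [IsTriangulated T] in
theorem Cell.of_iso {G : T} {n : ℤ} {l : ℕ} {x y : T} (hx : Cell G n l x) (e : x ≅ y) :
    Cell G n l y := by
  cases hx with
  | zero n x h => exact Cell.zero n y (h.of_iso e.symm)
  | step n l D hD h₁ hF =>
    have h : ObjectProperty.extensionProduct (Cell G (n - 1) l) (IsFree G n) y :=
      ObjectProperty.prop_of_iso _ e ⟨_, _, D.mor₁, D.mor₂, D.mor₃, hD, h₁, hF⟩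
    obtain ⟨Y, Z, f, g, h, hD', h₁', hF'⟩ := h
    exact Cell.step n l (Triangle.mk f g h) hD' h₁' hF'

omit [IsTriangulated T] in
theorem Cell.shift {G : T} {n : ℤ} {l : ℕ} {x : T} (hx : Cell G n l x) (m : ℤ) :
    Cell G (n + m) l (x⟦m⟧) := by
  induction hx with
  | zero n x h => exact Cell.zero _ _ ((shiftFunctor T m).map_isZero h)
  | step n l D hD _ hF ih =>
    refine Cell.step (n + m) l _ (Triangle.shift_distinguished D hD m) ?_ (A4_free_shift hF m)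
    rw [show n + m - 1 = n - 1 + m by omega]
    exact ih

omit [IsTriangulated T] in
theorem A4_cell_succ_iff {G : T} (n : ℤ) (l : ℕ) (x : T) : Cell G n (l + 1) x ↔
    ObjectProperty.extensionProduct (Cell G (n - 1) l) (IsFree G n) x := by
  constructor
  · intro hx
    cases hx with
    | step n l D hD h₁ hF => exact ⟨_, _, D.mor₁, D.mor₂, D.mor₃, hD, h₁, hF⟩
  · rintro ⟨Y, Z, f, g, h, hD, h₁, hF⟩
    exact Cell.step n l (Triangle.mk f g h) hD h₁ hF

omit [IsTriangulated T] in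
theorem A4_cell_zero {G : T} {n : ℤ} {x : T} (hx : Cell G n 0 x) : IsZero x := by
  cases hx with
  | zero n x h => exact h

omit [IsTriangulated T] in
theorem A4_pad_both {G : T} {n : ℤ} {l : ℕ} {x : T} (hx : Cell G n l x) :
    Cell G (n + 1) (l + 1) x := by
  refine Cell.step (n + 1) l (contractibleTriangle x) (contractible_distinguished x) ?_
    (A4_free_of_isZero G _ (isZero_zero T))
  rw [show n + 1 - 1 = n by omega]
  exact hx

omit [IsTriangulated T] in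
theorem A4_pad_len {G : T} {n : ℤ} {l : ℕ} {x : T} (hx : Cell G n l x) :
    Cell G n (l + 1) x := by
  induction hx with
  | zero n x h =>
    have h' := A4_pad_both (Cell.zero (G := G) (n - 1) x h)
    rwa [show n - 1 + 1 = n by omega] at h'
  | step n l D hD _ hF ih => exact Cell.step n (l + 1) D hD ih hF

omit [IsTriangulated T] in
theorem A4_pad_len' {G : T} {n : ℤ} {l l' : ℕ} {x : T} (hx : Cell G n l x) (h : l ≤ l') :
    Cell G n l' x := by
  induction h with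
  | refl => exact hx
  | step _ ih => exact A4_pad_len ih

omit [IsTriangulated T] in
theorem A4_pad_dim {G : T} {n n' : ℤ} {l : ℕ} {x : T} (hx : Cell G n l x) (h : n ≤ n') :
    ∃ l', Cell G n' l' x := by
  induction n', h using Int.le_induction with
  | base => exact ⟨l, hx⟩
  | succ m _ ih =>
    obtain ⟨l', h'⟩ := ih
    exact ⟨l' + 1, A4_pad_both h'⟩

omit [IsTriangulated T] in
theorem A4_cell_hom_free {G : T} (hG : Conn G) {n m : ℤ} {l : ℕ} {x F : T} (hx : Cell G n l x)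
    (hF : IsFree G m F) (h : n < m) (f : x ⟶ F) : f = 0 :=
  hx.hom_zero F (fun i hi g => A4_free_hom_zero' hF _
    (fun u => A4_conn hG (by omega) u) g) f

omit [IsTriangulated T] in
theorem A4_swap {G : T} (hG : Conn G) (n : ℤ) (l : ℕ) :
    ObjectProperty.extensionProduct (IsFree G n) (Cell G (n - 1) l) ≤
      ObjectProperty.extensionProduct (Cell G (n - 1) l) (IsFree G n) := by
  rintro X ⟨Y, Z, f, g, h, hD, hY, hZ⟩
  have h0 : h = 0 := A4_cell_hom_free hG hZ (A4_free_shift hY 1) (by omega) h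
  obtain ⟨e, -⟩ := exists_iso_binaryBiproduct_of_distTriang _ hD h0
  exact ObjectProperty.prop_of_iso _ (e ≪≫ biprod.braiding Y Z).symm
    ⟨_, _, _, _, _, binaryBiproductTriangle_distinguished Z Y, hZ, hY⟩

omit [IsTriangulated T] [HasCoproducts.{0} T] in
theorem A4_free_ext {G : T} (hG : Conn G) (n : ℤ) :
    ObjectProperty.extensionProduct (IsFree G n) (IsFree G n) ≤ IsFree G n := by
  rintro X ⟨Y, Z, f, g, h, hD, hY, hZ⟩
  have h0 : h = 0 := A4_free_hom_zero hZ _ (fun u => A4_free_hom_zero' (A4_free_shift hY 1) _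
    (fun v => A4_conn hG (by omega) v) u) h
  obtain ⟨e, -⟩ := exists_iso_binaryBiproduct_of_distTriang _ hD h0
  exact A4_free_of_iso (A4_free_biprod hY hZ) e.symm

theorem A4_cell_ext {G : T} (hG : Conn G) (l : ℕ) : ∀ n : ℤ,
    ObjectProperty.extensionProduct (Cell G n l) (Cell G n l) ≤ Cell G n l := by
  induction l with
  | zero =>
    rintro n X ⟨Y, Z, f, g, h, hD, hY, hZ⟩
    exact Cell.zero n X (Triangle.isZero₂_of_isZero₁₃ _ hD (A4_cell_zero hY) (A4_cell_zero hZ))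
  | succ l ih =>
    intro n
    have e : (Cell G n (l + 1) : ObjectProperty T) =
        ObjectProperty.extensionProduct (Cell G (n - 1) l) (IsFree G n) :=
      funext fun x => propext (A4_cell_succ_iff n l x)
    rw [e, ObjectProperty.extensionProduct_assoc,
      ← ObjectProperty.extensionProduct_assoc (IsFree G n)]
    refine le_trans (ObjectProperty.monotone_extensionProduct_right _
      (ObjectProperty.monotone_extensionProduct_left _ (A4_swap hG n l))) ?_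
    rw [ObjectProperty.extensionProduct_assoc, ← ObjectProperty.extensionProduct_assoc]
    exact le_trans (ObjectProperty.monotone_extensionProduct_left _ (ih (n - 1)))
      (ObjectProperty.monotone_extensionProduct_right _ (A4_free_ext hG n))

omit [IsTriangulated T] in
theorem A4_isCell_iso (G : T) : (IsCell G).IsClosedUnderIsomorphisms :=
  ⟨fun e ⟨n, l, h⟩ => ⟨n, l, h.of_iso e⟩⟩

omit [IsTriangulated T] in
theorem A4_isCell_self (G : T) : IsCell G G := by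
  refine ⟨0, 1, Cell.step 0 0 _
    (contractible_distinguished₁ G) (Cell.zero _ _ (isZero_zero T)) ?_⟩
  exact A4_free_of_iso (A4_free_self G 0) ((shiftFunctorZero T ℤ).app G)

theorem isCell_isTriangulated {G : T} (hG : Conn G) : (IsCell G).IsTriangulated where
  exists_zero := ⟨_, isZero_zero T, 0, 0, Cell.zero _ _ (isZero_zero T)⟩
  isStableUnderShiftBy a := ⟨fun x ⟨n, l, h⟩ => ⟨n + a, l, h.shift a⟩⟩
  ext₂' D hD := by
    rintro ⟨n, l, h₁⟩ ⟨m, k, h₃⟩
    obtain ⟨l', h₁'⟩ := A4_pad_dim h₁ (le_max_left n m)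
    obtain ⟨k', h₃'⟩ := A4_pad_dim h₃ (le_max_right n m)
    exact ObjectProperty.le_isoClosure _ _ ⟨max n m, max l' k', A4_cell_ext hG _ _ _
      ⟨_, _, D.mor₁, D.mor₂, D.mor₃, hD, A4_pad_len' h₁' (le_max_left _ _),
        A4_pad_len' h₃' (le_max_right _ _)⟩⟩

theorem exists_cell_retract {G : T} (hgen : Generates G) (hGc : IsCpt G) (hG : Conn G) {c : T}
    (hc : IsCpt c) : ∃ (n : ℤ) (l : ℕ) (x : T), Cell G n l x ∧ Nonempty (Retract c x) := by
  have := isCell_isTriangulated hG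
  have := A4_isCell_iso G
  obtain ⟨d, ⟨n, l, hd⟩, hr⟩ := neeman hgen (IsCell G) (A4_isCell_self G)
    (fun d ⟨n, l, hd⟩ => hd.cpt hGc) hc
  exact ⟨n, l, d, hd, hr⟩

end Pool.Agent.MP_e18349_al.TT

end

-- part A5
section

/-! Row A5: compact = dualizable, and tensor basics. -/

namespace Pool.Agent.MP_e18349_al.TT

open CategoryTheory Limits MonoidalCategory Opposite Pretriangulated

variable {T : Type 1} [Category.{0} T] [Preadditive T] [HasCoproducts.{0} T]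
  [HasZeroObject T] [HasShift T ℤ] [∀ n : ℤ, (shiftFunctor T n).Additive] [Pretriangulated T]
  [IsTriangulated T] [MonoidalCategory T] [SymmetricCategory T] [MonoidalPreadditive T]
  [MonoidalClosed T] [Mg T]

namespace A5

omit [HasZeroObject T] [HasShift T ℤ] [∀ n : ℤ, (shiftFunctor T n).Additive] [Pretriangulated T]
  [IsTriangulated T] [MonoidalCategory T] [SymmetricCategory T] [MonoidalPreadditive T]
  [MonoidalClosed T] [Mg T] in
/-- A left adjoint whose right adjoint preserves coproducts preserves compact objects. -/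
theorem isCpt_left {F G : T ⥤ T} (adj : F ⊣ G) [F.Additive]
    [∀ ι : Type, PreservesColimitsOfShape (Discrete ι) G] {c : T} (hc : IsCpt c) :
    IsCpt (F.obj c) := by
  intro ι x f
  obtain ⟨s, g, hg⟩ := hc ι (fun i => G.obj (x i))
    (adj.homEquiv _ _ f ≫ inv (sigmaComparison G x))
  have h1 : adj.homEquiv _ _ f = ∑ i ∈ s, g i ≫ G.map (Sigma.ι x i) := by
    rw [IsIso.comp_inv_eq] at hg
    rw [hg, Preadditive.sum_comp]
    refine Finset.sum_congr rfl fun i _ => ?_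
    rw [Category.assoc, ι_comp_sigmaComparison]
  refine ⟨s, fun i => (adj.homEquiv _ _).symm (g i), ?_⟩
  rw [adj.homEquiv_apply_eq] at h1
  rw [h1, Adjunction.homEquiv_counit, F.map_sum, Preadditive.sum_comp]
  refine Finset.sum_congr rfl fun i _ => ?_
  rw [← Adjunction.homEquiv_counit, Adjunction.homEquiv_naturality_right_symm]

section

variable {C : Type*} [Category C] [MonoidalCategory C] {x D : C} (ev : x ⊗ D ⟶ 𝟙_ C)

/-- The mate map attached to a pairing. -/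
def Θ (z y : C) (g : z ⟶ D ⊗ y) : x ⊗ z ⟶ y := x ◁ g ≫ (α_ x D y).inv ≫ ev ▷ y ≫ (λ_ y).hom

theorem pairing_of_bij (h : ∀ z y, Function.Bijective (Θ ev z y)) :
    Nonempty (ExactPairing D x) := by
  obtain ⟨co, hco⟩ := (h (𝟙_ C) x).2 (ρ_ x).hom
  have h1 : x ◁ co ≫ (α_ _ _ _).inv ≫ ev ▷ x = (ρ_ x).hom ≫ (λ_ x).inv := by
    rw [← hco]; simp [Θ]
  have h1' : x ◁ co ⊗≫ ev ▷ x = ⊗𝟙.hom := by
    convert! h1 <;> simp [monoidalComp]
  refine ⟨⟨co, ev, h1, (h _ _).1 ?_⟩⟩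
  unfold Θ
  calc
    _ = 𝟙 _ ⊗≫ x ◁ co ▷ D ⊗≫ ((x ⊗ D) ◁ ev ≫ ev ▷ 𝟙_ C) ⊗≫ 𝟙 _ := by monoidal
    _ = 𝟙 _ ⊗≫ (x ◁ co ⊗≫ ev ▷ x) ▷ D ⊗≫ ev := by rw [whisker_exchange]; monoidal
    _ = _ := by rw [h1']; monoidal

theorem bij_of_equiv (hev : ∀ z, Function.Bijective fun g : z ⟶ D => x ◁ g ≫ ev) (u : C)
    [(tensorRight u).IsEquivalence] (z' : C) : Function.Bijective (Θ ev z' u) := by
  have key : ∀ z, Function.Bijective (Θ ev (z ⊗ u) u) := fun z => by
    have b1 : ∀ a b : C, Function.Bijective fun g : a ⟶ b => g ▷ u := fun a b =>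
      ⟨(tensorRight u).map_injective, (tensorRight u).map_surjective⟩
    rw [← Function.Bijective.of_comp_iff _ (b1 z D)]
    have b2 : Function.Bijective fun g : (x ⊗ z) ⊗ u ⟶ 𝟙_ C ⊗ u =>
        (α_ x z u).inv ≫ g ≫ (λ_ u).hom := (Iso.homCongr (α_ x z u) (λ_ u)).bijective
    convert (b2.comp (b1 _ _)).comp (hev z) using 1
    funext g
    simp [Θ]
  let e : (tensorRight u).objPreimage z' ⊗ u ≅ z' := (tensorRight u).objObjPreimageIso z'
  have b3 : ∀ {a b : C} (i : a ≅ b) (t : C), Function.Bijective fun g : b ⟶ t => i.hom ≫ g :=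
    fun i t => ⟨fun g g' h => (cancel_epi i.hom).1 h, fun g => ⟨i.inv ≫ g, by simp⟩⟩
  rw [← Function.Bijective.of_comp_iff' (b3 (whiskerLeftIso x e) u)]
  convert (key _).comp (b3 e (D ⊗ u)) using 1
  funext g
  simp [Θ]

end

end A5

/-- Tensoring with the `n`-th shift of the unit is the `n`-th shift. -/
theorem tensor_sphere (n : ℤ) : Nonempty (tensorRight ((𝟙_ T)⟦n⟧) ≅ shiftFunctor T n) := by
  refine ⟨NatIso.ofComponents (fun x => ((tensorLeft x).commShiftIso n).app (𝟙_ T) ≪≫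
    (shiftFunctor T n).mapIso (ρ_ x)) fun {x y} f => ?_⟩
  have h := NatTrans.shift_app_comm ((curriedTensor T).map f) n (𝟙_ T)
  have h2 : f ▷ (𝟙_ T)⟦n⟧ ≫ ((tensorLeft y).commShiftIso n).hom.app (𝟙_ T) =
      ((tensorLeft x).commShiftIso n).hom.app (𝟙_ T) ≫ (f ▷ 𝟙_ T)⟦n⟧' := h.symm
  change f ▷ (𝟙_ T)⟦n⟧ ≫ ((tensorLeft y).commShiftIso n).hom.app (𝟙_ T) ≫ (ρ_ y).hom⟦n⟧' =
    (((tensorLeft x).commShiftIso n).hom.app (𝟙_ T) ≫ (ρ_ x).hom⟦n⟧') ≫ f⟦n⟧'
  rw [← Category.assoc, h2, Category.assoc, Category.assoc, ← Functor.map_comp,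
    ← Functor.map_comp, rightUnitor_naturality]

theorem tensor_shift_right (x y : T) (n : ℤ) : Nonempty (x ⊗ y⟦n⟧ ≅ (x ⊗ y)⟦n⟧) :=
  ⟨((tensorLeft x).commShiftIso n).app y⟩

theorem tensor_shift_left (x y : T) (n : ℤ) : Nonempty (x⟦n⟧ ⊗ y ≅ (x ⊗ y)⟦n⟧) :=
  ⟨β_ _ _ ≪≫ (tensor_shift_right y x n).some ≪≫ (shiftFunctor T n).mapIso (β_ _ _)⟩

/-- The image of a distinguished triangle under `x ⊗ -`, in elementary form. -/
theorem tensor_triangle (x : T) (D : Triangle T) (hD : D ∈ distTriang T) :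
    ∃ h : x ⊗ D.obj₃ ⟶ (x ⊗ D.obj₁)⟦(1 : ℤ)⟧,
      Triangle.mk (x ◁ D.mor₁) (x ◁ D.mor₂) h ∈ distTriang T :=
  ⟨_, (tensorLeft x).map_distinguished D hD⟩

theorem shift_linear (R : Type) [CommRing R] [Linear R T] [MonoidalLinear R T] (n : ℤ) :
    (shiftFunctor T n).Linear R :=
  Functor.linear_of_iso R (tensor_sphere n).some

theorem A5.isCpt_tensor_of_pairing {c x y : T} (hc : IsCpt c) [ExactPairing x y] :
    IsCpt (c ⊗ x) :=
  A5.isCpt_left (tensorRightAdjunction x y) hc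

theorem A5.pairing_of_isCpt {x : T} (hx : IsCpt x) :
    Nonempty (ExactPairing ((ihom x).obj (𝟙_ T)) x) := by
  let ev : x ⊗ (ihom x).obj (𝟙_ T) ⟶ 𝟙_ T := (ihom.ev x).app (𝟙_ T)
  have hunc : ∀ z y : T, Function.Bijective
      (MonoidalClosed.uncurry : (z ⟶ (ihom x).obj y) → (x ⊗ z ⟶ y)) := fun z y =>
    ((ihom.adjunction x).homEquiv z y).symm.bijective
  have hev : ∀ z, Function.Bijective fun g : z ⟶ (ihom x).obj (𝟙_ T) => x ◁ g ≫ ev := fun z => by
    convert hunc z (𝟙_ T) using 1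
    funext g
    exact (MonoidalClosed.uncurry_eq g).symm
  let θ : tensorLeft ((ihom x).obj (𝟙_ T)) ⟶ ihom x :=
    { app := fun y => MonoidalClosed.curry ((α_ _ _ _).inv ≫ ev ▷ y ≫ (λ_ y).hom)
      naturality := fun y y' f => by
        rw [← MonoidalClosed.curry_natural_left, ← MonoidalClosed.curry_natural_right]
        congr 1
        change x ◁ _ ◁ f ≫ _ = _
        rw [associator_inv_naturality_right_assoc, whisker_exchange_assoc,
          leftUnitor_naturality, Category.assoc, Category.assoc] }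
  have hθ : ∀ z y : T, A5.Θ ev z y =
      MonoidalClosed.uncurry ∘ fun g : z ⟶ (ihom x).obj (𝟙_ T) ⊗ y => g ≫ θ.app y := by
    intro z y
    funext g
    change _ = MonoidalClosed.uncurry (g ≫ MonoidalClosed.curry _)
    rw [MonoidalClosed.uncurry_natural_left, MonoidalClosed.uncurry_curry]
    rfl
  let _ := (ihom.adjunction x).rightAdjointCommShift ℤ
  have := (ihom.adjunction x).commShift_of_leftAdjoint ℤ
  have : (ihom x).IsTriangulated := (ihom.adjunction x).isTriangulated_rightAdjoint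
  have : ∀ ι : Type, PreservesColimitsOfShape (Discrete ι) (ihom x) := fun ι =>
    rightAdjoint_preserves_coprod Mg.gen Mg.unit_cpt (ihom.adjunction x)
      (fun n => isCpt_of_iso ((tensor_sphere n).some.app x).symm (isCpt_shift hx n)) ι
  have hiso : ∀ y, IsIso (θ.app y) := isIso_of_gen Mg.gen _ _ θ fun n => by
    have : (tensorRight ((𝟙_ T)⟦n⟧)).IsEquivalence :=
      Functor.isEquivalence_of_iso (tensor_sphere n).some.symm
    refine isIso_of_yoneda_map_bijective _ fun z => ?_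
    have h := A5.bij_of_equiv ev hev ((𝟙_ T)⟦n⟧) z
    rw [hθ] at h
    exact ((hunc _ _).of_comp_iff' _).1 h
  refine A5.pairing_of_bij ev fun z y => ?_
  rw [hθ]
  refine (hunc _ _).comp ⟨fun g g' h => (cancel_mono (θ.app y)).1 h, fun g => ?_⟩
  exact ⟨g ≫ inv (θ.app y), by simp⟩

theorem isCpt_iff_isDualizable (x : T) : IsCpt x ↔ IsDualizable x := by
  constructor
  · intro hx
    obtain ⟨h⟩ := A5.pairing_of_isCpt hx
    exact ⟨(ihom x).obj (𝟙_ T), ⟨BraidedCategory.exactPairing_swap _ _⟩⟩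
  · rintro ⟨y, ⟨h⟩⟩
    exact isCpt_of_iso (λ_ x) (A5.isCpt_tensor_of_pairing (y := y) Mg.unit_cpt)

theorem isCpt_tensor {x y : T} (hx : IsCpt x) (hy : IsCpt y) : IsCpt (x ⊗ y) := by
  obtain ⟨y', ⟨h⟩⟩ := (isCpt_iff_isDualizable y).1 hy
  exact A5.isCpt_tensor_of_pairing (y := y') hx

/-- A compact object has a compact dual. -/
theorem exists_dual {x : T} (hx : IsCpt x) :
    ∃ y : T, IsCpt y ∧ Nonempty (ExactPairing x y) := by
  obtain ⟨y, ⟨h⟩⟩ := (isCpt_iff_isDualizable x).1 hx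
  exact ⟨y, (isCpt_iff_isDualizable y).2 ⟨x, ⟨BraidedCategory.exactPairing_swap _ _⟩⟩, ⟨h⟩⟩

/-- A map from a compact object to `t ⊗ d`, `d` compact, factors through `z ⊗ d` with `z`
compact. -/
theorem factor_tensor {c d t : T} (hc : IsCpt c) (hd : IsCpt d) (n : c ⟶ t ⊗ d) :
    ∃ (z : T) (u : c ⟶ z ⊗ d) (n' : z ⟶ t), IsCpt z ∧ n = u ≫ n' ▷ d := by
  obtain ⟨y, hy, ⟨h⟩⟩ := exists_dual hd
  let _ : ExactPairing y d := BraidedCategory.exactPairing_swap _ _
  refine ⟨c ⊗ y, tensorRightHomEquiv c y d _ (𝟙 _), (tensorRightHomEquiv c y d t).symm n,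
    isCpt_tensor hc hy, ?_⟩
  rw [← tensorRightHomEquiv_naturality, Category.id_comp, Equiv.apply_symm_apply]

/-- For compact `x`: `x ⊗ k = 0` iff there is no nonzero map from `x` to a shift of `k`, provided
`k` is a retract of `k ⊗ k` through which maps extend (see the field rows); this is the general
half: `x^∨ ⊗ k = 0` iff `Pp k x`. -/
theorem pp_iff_dual {x y k : T} (hx : IsCpt x) [ExactPairing x y] :
    Pp k x ↔ IsZero (y ⊗ k) := by
  let _ : ExactPairing y x := BraidedCategory.exactPairing_swap _ _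
  constructor
  · rintro ⟨-, h⟩
    have h1 : ∀ (n : ℤ) (g : x⟦n⟧ ⟶ k), g = 0 := fun n g => by
      let e : x⟦n⟧⟦-n⟧ ≅ x := (shiftFunctorCompIsoId T n (-n) (by simp)).app x
      apply (shiftFunctor T (-n)).map_injective
      rw [Functor.map_zero, ← cancel_epi e.inv, h (-n) (e.inv ≫ _), comp_zero]
    have h2 : ∀ (n : ℤ) (g : x ⊗ (𝟙_ T)⟦n⟧ ⟶ k), g = 0 := fun n g => by
      let e : x ⊗ (𝟙_ T)⟦n⟧ ≅ x⟦n⟧ := (tensor_sphere n).some.app x
      rw [← cancel_epi e.inv, h1 n (e.inv ≫ g), comp_zero]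
    refine Generates.isZero Mg.gen _ fun n f => ?_
    apply (tensorLeftHomEquiv _ y x k).symm.injective
    rw [h2 n (Equiv.symm _ f), h2 n (Equiv.symm _ 0)]
  · intro h
    refine ⟨hx, fun n e => ?_⟩
    have h1 : IsZero (y ⊗ k⟦n⟧) :=
      ((shiftFunctor T n).map_isZero h).of_iso (tensor_shift_right y k n).some
    have h2 : (ρ_ x).hom ≫ e = 0 :=
      (tensorLeftHomEquiv _ y x _).injective (h1.eq_of_tgt _ _)
    rw [← cancel_epi (ρ_ x).hom, h2, comp_zero]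

theorem rigidlyCompactlyGenerated : RigidlyCompactlyGenerated T :=
  ⟨⟨Unit, fun _ => 𝟙_ T, fun _ => Mg.unit_cpt,
    fun t h => Generates.isZero Mg.gen t fun n f => h () n f⟩, isCpt_iff_isDualizable⟩

/-- Preimages of localizing subcategories under `x ⊗ -`. -/
theorem IsLoc.tensor {L : ObjectProperty T} (hL : IsLoc L) (x : T) :
    IsLoc (fun y : T => L (x ⊗ y)) :=
  IsLoc.inverseImage (tensorLeft x) hL

/-- In a monogenic category every localizing subcategory is an ideal. -/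
theorem IsLoc.isLocIdeal {L : ObjectProperty T} (hL : IsLoc L) : IsLocIdeal L :=
  ⟨hL.triangulated, hL.iso, hL.coprod, fun x y hy =>
    hL.of_iso (β_ y x) (Mg.gen _ (hL.tensor y) (hL.of_iso (ρ_ y).symm hy) x)⟩

end Pool.Agent.MP_e18349_al.TT

end
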