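import Pool.Agent.MP_e18349_al.TT.MA

-- part A6
section

/-! Row A6: residue field objects. -/

namespace Pool.Agent.MP_e18349_al.TT

open CategoryTheory Limits MonoidalCategory Opposite Pretriangulated

section Aux

variable {T : Type 1} [Category.{0} T] [Preadditive T] [HasShift T ℤ]

theorem a6_shift_hom_zero [∀ n : ℤ, (shiftFunctor T n).Additive] {x y : T} {i n : ℤ}
    (h : ∀ f : x ⟶ y⟦n - i⟧, f = 0) (f : x⟦i⟧ ⟶ y⟦n⟧) : f = 0 := by
  let e := (shiftFunctorAdd' T (n - i) i n (by omega)).app y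
  obtain ⟨g, hg⟩ := (shiftFunctor T i).map_surjective (f ≫ e.hom)
  rw [h g, Functor.map_zero] at hg
  rw [← cancel_mono e.hom, ← hg, zero_comp]

variable [MonoidalCategory T] {R : Type} [CommRing R] [Linear R T] {p : PrimeSpectrum R}

theorem a6_α_one (F : FieldObj p T) : (F.α 1 : F.k ⟶ F.k) = 𝟙 F.k := map_one F.α

theorem a6_α_zero (F : FieldObj p T) : (F.α 0 : F.k ⟶ F.k) = 0 := map_zero F.α

theorem a6_α_mul (F : FieldObj p T) (l l' : p.asIdeal.ResidueField) :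
    (F.α (l * l') : F.k ⟶ F.k) = (F.α l' : F.k ⟶ F.k) ≫ (F.α l : F.k ⟶ F.k) := map_mul F.α l l'

theorem a6_α_add (F : FieldObj p T) (l l' : p.asIdeal.ResidueField) :
    (F.α (l + l') : F.k ⟶ F.k) = (F.α l : F.k ⟶ F.k) + (F.α l' : F.k ⟶ F.k) := map_add F.α l l'

theorem a6_exists_basis [MonoidalPreadditive T] (F : FieldObj p T) (s t : T) :
    ∃ (I : Type) (b : I → (s ⟶ t ⊗ F.k)),
      (∀ w : s ⟶ t ⊗ F.k, ∃ (u : Finset I) (l : I → p.asIdeal.ResidueField),
        w = ∑ i ∈ u, b i ≫ t ◁ (F.α (l i) : F.k ⟶ F.k)) ∧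
      ∀ (u : Finset I) (l : I → p.asIdeal.ResidueField),
        ∑ i ∈ u, b i ≫ t ◁ (F.α (l i) : F.k ⟶ F.k) = 0 → ∀ i ∈ u, l i = 0 := by
  let _ : Module p.asIdeal.ResidueField (s ⟶ t ⊗ F.k) :=
    { smul := fun l w => w ≫ t ◁ (F.α l : F.k ⟶ F.k)
      one_smul := fun w => by
        change w ≫ t ◁ (F.α 1 : F.k ⟶ F.k) = w
        rw [a6_α_one, whiskerLeft_id, Category.comp_id]
      mul_smul := fun l l' w => by
        change w ≫ t ◁ (F.α (l * l') : F.k ⟶ F.k) =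
          (w ≫ t ◁ (F.α l' : F.k ⟶ F.k)) ≫ t ◁ (F.α l : F.k ⟶ F.k)
        rw [a6_α_mul, whiskerLeft_comp, Category.assoc]
      smul_zero := fun l => zero_comp
      smul_add := fun l w w' => Preadditive.add_comp _ _ _ _ _ _
      add_smul := fun l l' w => by
        change w ≫ t ◁ (F.α (l + l') : F.k ⟶ F.k) =
          w ≫ t ◁ (F.α l : F.k ⟶ F.k) + w ≫ t ◁ (F.α l' : F.k ⟶ F.k)
        rw [a6_α_add, MonoidalPreadditive.whiskerLeft_add, Preadditive.comp_add]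
      zero_smul := fun w => by
        change w ≫ t ◁ (F.α 0 : F.k ⟶ F.k) = 0
        rw [a6_α_zero, MonoidalPreadditive.whiskerLeft_zero, comp_zero] }
  let B := Module.Basis.ofVectorSpace p.asIdeal.ResidueField (s ⟶ t ⊗ F.k)
  refine ⟨_, B, fun w => ⟨(B.repr w).support, B.repr w, ?_⟩, fun u l h => ?_⟩
  · exact (B.linearCombination_repr w).symm
  · exact linearIndependent_iff'.mp B.linearIndependent u l h

end Aux

variable {T : Type 1} [Category.{0} T] [Preadditive T] [HasCoproducts.{0} T]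
  [HasZeroObject T] [HasShift T ℤ] [∀ n : ℤ, (shiftFunctor T n).Additive] [Pretriangulated T]
  [IsTriangulated T] [MonoidalCategory T] [SymmetricCategory T] [MonoidalPreadditive T]
  [MonoidalClosed T] [Mg T]
  {R : Type} [CommRing R] [Linear R T] [MonoidalLinear R T]
  {p q : PrimeSpectrum R}

set_option linter.unusedSectionVars false

theorem FieldObj.η_ne_zero (F : FieldObj p T) : F.η ≠ 0 := by
  intro h
  have : (1 : p.asIdeal.ResidueField) = 0 := F.bij.injective (by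
    rw [h, zero_comp, zero_comp])
  exact one_ne_zero this

theorem FieldObj.not_isZero (F : FieldObj p T) : ¬ IsZero F.k :=
  fun h => F.η_ne_zero (h.eq_of_tgt _ _)

theorem a6_exists_ext (F : FieldObj p T) (t : T) (n : ℤ) (b : (𝟙_ T)⟦n⟧ ⟶ t ⊗ F.k) :
    ∃ j : F.k⟦n⟧ ⟶ t ⊗ F.k, ∀ l, (F.η ≫ (F.α l : F.k ⟶ F.k))⟦n⟧' ≫ j =
      b ≫ t ◁ (F.α l : F.k ⟶ F.k) := by
  obtain ⟨φ⟩ := tensor_sphere (T := T) n
  let σ : (𝟙_ T)⟦n⟧ ≅ (𝟙_ T)⟦n⟧ := (φ.app (𝟙_ T)).symm ≪≫ β_ _ _ ≪≫ ρ_ _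
  refine ⟨φ.inv.app F.k ≫ (β_ F.k ((𝟙_ T)⟦n⟧)).hom ≫ (σ.inv ≫ b) ▷ F.k ≫
    (α_ t F.k F.k).hom ≫ t ◁ F.μ, fun l => ?_⟩
  have h1 : F.k ◁ (F.η ≫ (F.α l : F.k ⟶ F.k)) ≫ F.μ = (ρ_ F.k).hom ≫ (F.α l : F.k ⟶ F.k) := by
    rw [whiskerLeft_comp, Category.assoc, F.lin, ← Category.assoc, F.unit]
  have h2 : (F.η ≫ (F.α l : F.k ⟶ F.k))⟦n⟧' ≫ φ.inv.app F.k =
      φ.inv.app (𝟙_ T) ≫ (F.η ≫ (F.α l : F.k ⟶ F.k)) ▷ ((𝟙_ T)⟦n⟧) :=
    φ.inv.naturality _
  have h3 : φ.inv.app (𝟙_ T) ≫ (β_ (𝟙_ T) ((𝟙_ T)⟦n⟧)).hom ≫ (ρ_ _).hom = σ.hom := rfl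
  rw [← Category.assoc, h2, Category.assoc, BraidedCategory.braiding_naturality_left_assoc,
    whisker_exchange_assoc, associator_naturality_right_assoc, ← whiskerLeft_comp, h1,
    whiskerLeft_comp, ← rightUnitor_tensor_hom_assoc, rightUnitor_naturality_assoc,
    reassoc_of% h3, Category.assoc, σ.hom_inv_id_assoc]

/-- `t ⊗ k` is a sum of shifts of `k`. -/
theorem FieldObj.decomp (F : FieldObj p T) (t : T) :
    ∃ (ι : Type) (n : ι → ℤ), Nonempty (t ⊗ F.k ≅ ∐ fun i => F.k⟦n i⟧) := by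
  classical
  choose I b hspan hind using fun n : ℤ => a6_exists_basis F ((𝟙_ T)⟦n⟧) t
  choose j hj using fun i : Σ n, I n => a6_exists_ext F t i.1 (b i.1 i.2)
  let X : (Σ n, I n) → T := fun i => F.k⟦i.1⟧
  have : IsIso (Sigma.desc j : ∐ X ⟶ t ⊗ F.k) := by
    refine Generates.isIso Mg.gen _ fun m => ⟨?_, fun w => ?_⟩
    · have key : ∀ g : (𝟙_ T)⟦m⟧ ⟶ ∐ X, g ≫ Sigma.desc j = 0 → g = 0 := by
        intro g hg
        obtain ⟨s, f, rfl⟩ := isCpt_shift (Mg.unit_cpt (T := T)) m _ X g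
        have hf0 : ∀ i : Σ n, I n, i ∉ Set.range (Sigma.mk (β := I) m) → f i = 0 := by
          rintro ⟨n, i⟩ hi
          have hne : n ≠ m := by
            rintro rfl
            exact hi ⟨i, rfl⟩
          exact a6_shift_hom_zero (F.van _ (sub_ne_zero.mpr hne)) _
        have hl : ∀ i : I m, ∃ l, f ⟨m, i⟩ = (F.η ≫ (F.α l : F.k ⟶ F.k))⟦m⟧' := by
          intro i
          obtain ⟨g, hg⟩ := (shiftFunctor T m).map_surjective (f ⟨m, i⟩)
          obtain ⟨l, rfl⟩ := F.bij.surjective g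
          exact ⟨l, hg.symm⟩
        choose l hl using hl
        rw [Preadditive.sum_comp, ← Finset.sum_preimage (Sigma.mk (β := I) m) s
          sigma_mk_injective.injOn _ (fun i _ hi => by rw [hf0 i hi, zero_comp, zero_comp])] at hg
        have h0 := hind m (s.preimage (Sigma.mk (β := I) m) sigma_mk_injective.injOn) l (by
          rw [← hg]
          refine Finset.sum_congr rfl fun i _ => ?_
          rw [Category.assoc, Sigma.ι_desc, hl]
          exact (hj ⟨m, i⟩ (l i)).symm)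
        refine Finset.sum_eq_zero fun i hi => ?_
        by_cases hr : i ∈ Set.range (Sigma.mk (β := I) m)
        · obtain ⟨i, rfl⟩ := hr
          rw [hl, h0 i (Finset.mem_preimage.mpr hi), a6_α_zero, comp_zero, Functor.map_zero,
            zero_comp]
        · rw [hf0 i hr, zero_comp]
      intro g g' h
      rw [← sub_eq_zero]
      apply key
      rw [Preadditive.sub_comp, sub_eq_zero]
      exact h
    · obtain ⟨u, l, rfl⟩ := hspan m w
      refine ⟨∑ i ∈ u, (F.η ≫ (F.α (l i) : F.k ⟶ F.k))⟦m⟧' ≫ Sigma.ι X ⟨m, i⟩, ?_⟩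
      change (∑ i ∈ u, _) ≫ _ = _
      rw [Preadditive.sum_comp]
      refine Finset.sum_congr rfl fun i _ => ?_
      rw [Category.assoc, Sigma.ι_desc]
      exact hj ⟨m, i⟩ (l i)
  exact ⟨Σ n, I n, fun i => i.1, ⟨(asIso (Sigma.desc j : ∐ X ⟶ t ⊗ F.k)).symm⟩⟩

theorem FieldObj.retract (F : FieldObj p T) (t : T) (h : ¬ IsZero (t ⊗ F.k)) :
    ∃ n : ℤ, Nonempty (Retract (F.k⟦n⟧) (t ⊗ F.k)) := by
  classical
  obtain ⟨ι, n, ⟨e⟩⟩ := F.decomp t
  by_cases hι : Nonempty ι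
  · obtain ⟨i⟩ := hι
    refine ⟨n i, ⟨⟨Sigma.ι (fun i => F.k⟦n i⟧) i ≫ e.inv,
      e.hom ≫ Sigma.π (fun i => F.k⟦n i⟧) i, ?_⟩⟩⟩
    rw [Category.assoc, e.inv_hom_id_assoc, Sigma.ι_π_eq_id]
  · refine absurd (IsZero.of_iso ?_ e) h
    rw [IsZero.iff_id_eq_zero]
    exact Sigma.hom_ext _ _ fun i => absurd ⟨i⟩ hι

theorem FieldObj.exists_proj (F : FieldObj p T) (t : T) (w : 𝟙_ T ⟶ t ⊗ F.k) (hw : w ≠ 0) :
    ∃ r : t ⊗ F.k ⟶ F.k, w ≫ r = F.η := by
  classical
  obtain ⟨ι, n, ⟨e⟩⟩ := F.decomp t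
  have h1 : ∃ i, (w ≫ e.hom) ≫ Sigma.π (fun i => F.k⟦n i⟧) i ≠ 0 := by
    by_contra h
    push Not at h
    apply hw
    rw [← cancel_mono e.hom, zero_comp]
    exact IsCpt.hom_eq_zero Mg.unit_cpt _ h
  obtain ⟨i, hi⟩ := h1
  have hn : n i = 0 := by
    by_contra hn
    exact hi (F.van _ hn _)
  let ε : F.k⟦n i⟧ ≅ F.k := (shiftFunctorZero' T (n i) hn).app F.k
  obtain ⟨l, hl⟩ := F.bij.surjective (((w ≫ e.hom) ≫ Sigma.π (fun i => F.k⟦n i⟧) i) ≫ ε.hom)
  have hl' : F.η ≫ (F.α l : F.k ⟶ F.k) =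
    ((w ≫ e.hom) ≫ Sigma.π (fun i => F.k⟦n i⟧) i) ≫ ε.hom := hl
  have hl0 : l ≠ 0 := by
    rintro rfl
    apply hi
    rw [← cancel_mono ε.hom, ← hl', a6_α_zero, comp_zero, zero_comp]
  refine ⟨e.hom ≫ Sigma.π (fun i => F.k⟦n i⟧) i ≫ ε.hom ≫ (F.α l⁻¹ : F.k ⟶ F.k), ?_⟩
  simp only [Category.assoc] at hl'
  rw [← reassoc_of% hl', ← a6_α_mul, inv_mul_cancel₀ hl0, a6_α_one, Category.comp_id]

theorem FieldObj.whisker_eq_zero (F : FieldObj p T) {c : T} (b : c ⟶ 𝟙_ T)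
    (hb : b ≫ F.η = 0) : F.k ◁ b = 0 := by
  rw [← cancel_mono (ρ_ F.k).hom, ← F.unit, ← whiskerLeft_comp_assoc, hb,
    MonoidalPreadditive.whiskerLeft_zero, zero_comp, zero_comp]

theorem FieldObj.isSplitEpi_whisker (F : FieldObj p T) {c : T} (b : c ⟶ 𝟙_ T)
    (hb : b ≫ F.η ≠ 0) : IsSplitEpi (F.k ◁ b) := by
  obtain ⟨d, g, h, hD⟩ := distinguished_cocone_triangle b
  have hbg : b ≫ g = 0 := comp_distTriang_mor_zero₁₂ _ hD
  have hw : g ≫ (ρ_ d).inv ≫ d ◁ F.η = 0 := by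
    by_contra hw
    obtain ⟨r, hr⟩ := F.exists_proj d _ hw
    apply hb
    rw [← hr, Category.assoc, reassoc_of% hbg, zero_comp]
  have hw' : g ≫ (λ_ d).inv ≫ F.η ▷ d = 0 := by
    have := congrArg (· ≫ (β_ d F.k).hom) hw
    simp only [Category.assoc, zero_comp, BraidedCategory.braiding_naturality_right] at this
    rw [← this, rightUnitor_inv_braiding_assoc]
  have hg : F.k ◁ g = 0 := by
    have h1 : F.k ◁ ((λ_ d).inv ≫ F.η ▷ d) ≫ (α_ F.k F.k d).inv ≫ F.μ ▷ d = 𝟙 _ := by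
      rw [whiskerLeft_comp, Category.assoc, associator_inv_naturality_middle_assoc,
        ← comp_whiskerRight, F.unit]
      monoidal
    rw [← Category.comp_id (F.k ◁ g), ← h1, ← whiskerLeft_comp_assoc, hw',
      MonoidalPreadditive.whiskerLeft_zero, zero_comp]
  obtain ⟨h', hD'⟩ := tensor_triangle F.k _ hD
  obtain ⟨s, hs⟩ := Triangle.coyoneda_exact₂ _ hD' (𝟙 _) (by
    change 𝟙 _ ≫ F.k ◁ g = 0
    rw [hg, comp_zero])
  exact IsSplitEpi.mk' ⟨s, hs.symm⟩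

theorem FieldObj.smul_eq_zero (F : FieldObj p T) {a : R} (ha : a ∈ p.asIdeal) :
    a • 𝟙 F.k = 0 := by
  rw [← F.alg, Ideal.algebraMap_residueField_eq_zero.mpr ha, a6_α_zero]

theorem FieldObj.isIso_smul (F : FieldObj p T) {a : R} (ha : a ∉ p.asIdeal) :
    IsIso (a • 𝟙 F.k) := by
  have h : algebraMap R p.asIdeal.ResidueField a ≠ 0 :=
    fun h => ha (Ideal.algebraMap_residueField_eq_zero.mp h)
  rw [← F.alg]
  exact ⟨(F.α (algebraMap R p.asIdeal.ResidueField a)⁻¹ : F.k ⟶ F.k),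
    by rw [← a6_α_mul, inv_mul_cancel₀ h, a6_α_one],
    by rw [← a6_α_mul, mul_inv_cancel₀ h, a6_α_one]⟩

theorem a6_orth (F : FieldObj p T) (F' : FieldObj q T) {a : R} (ha : a ∈ p.asIdeal)
    (ha' : a ∉ q.asIdeal) : IsZero (F.k ⊗ F'.k) := by
  have := F'.isIso_smul ha'
  have h1 : F.k ◁ (a • 𝟙 F'.k) = (a • 𝟙 F.k) ▷ F'.k := by
    rw [MonoidalLinear.whiskerLeft_smul, MonoidalLinear.smul_whiskerRight, whiskerLeft_id,
      id_whiskerRight]
  rw [IsZero.iff_id_eq_zero, ← cancel_mono (F.k ◁ (a • 𝟙 F'.k)), h1, F.smul_eq_zero ha,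
    MonoidalPreadditive.zero_whiskerRight, comp_zero, comp_zero]

theorem FieldObj.orth (F : FieldObj p T) (F' : FieldObj q T) (h : p ≠ q) :
    IsZero (F.k ⊗ F'.k) := by
  by_cases hle : p.asIdeal ≤ q.asIdeal
  · have hle' : ¬ q.asIdeal ≤ p.asIdeal := fun h' => h (PrimeSpectrum.ext (le_antisymm hle h'))
    obtain ⟨a, ha, ha'⟩ := SetLike.not_le_iff_exists.mp hle'
    exact (a6_orth F' F ha ha').of_iso (β_ _ _)
  · obtain ⟨a, ha, ha'⟩ := SetLike.not_le_iff_exists.mp hle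
    exact a6_orth F F' ha ha'

theorem a6_zero_left (a : T) {b k : T} (h : IsZero (b ⊗ k)) : IsZero ((a ⊗ b) ⊗ k) :=
  ((tensorLeft a).map_isZero h).of_iso (α_ a b k)

theorem a6_zero_right (a : T) {b k : T} (h : IsZero (b ⊗ k)) : IsZero ((b ⊗ a) ⊗ k) :=
  (a6_zero_left a h).of_iso (whiskerRightIso (β_ b a) k)

theorem a6_zero_retract {a b k : T} (i : a ⟶ b) (r : b ⟶ a) (hir : i ≫ r = 𝟙 a)
    (h : IsZero (b ⊗ k)) : IsZero (a ⊗ k) := by
  rw [IsZero.iff_id_eq_zero, ← id_whiskerRight, ← hir, comp_whiskerRight,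
    h.eq_of_tgt (i ▷ k) 0, zero_comp]

theorem FieldObj.pp_iff (F : FieldObj p T) {x : T} (hx : IsCpt x) :
    Pp F.k x ↔ IsZero (x ⊗ F.k) := by
  obtain ⟨y, -, ⟨E⟩⟩ := exists_dual hx
  rw [pp_iff_dual (y := y) hx]
  constructor
  · intro h
    refine a6_zero_retract ((λ_ x).inv ≫ η_ x y ▷ x ≫ (α_ x y x).hom)
      (x ◁ ε_ x y ≫ (ρ_ x).hom) ?_ (a6_zero_left x (a6_zero_right x h))
    simp only [Category.assoc]
    rw [ExactPairing.evaluation_coevaluation_assoc, Iso.inv_hom_id, Category.comp_id,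
      Iso.inv_hom_id]
  · intro h
    refine a6_zero_retract ((ρ_ y).inv ≫ y ◁ η_ x y)
      ((α_ y x y).inv ≫ ε_ x y ▷ y ≫ (λ_ y).hom) ?_ (a6_zero_left y (a6_zero_right y h))
    simp only [Category.assoc]
    rw [ExactPairing.coevaluation_evaluation_assoc, Iso.inv_hom_id, Category.comp_id,
      Iso.inv_hom_id]

/-- The cone of a scalar `a` is killed by `k(p)` iff `a ∉ p`. -/
theorem FieldObj.pp_cone (F : FieldObj p T) (a : R) {z : T} (g : 𝟙_ T ⟶ z)
    (h : z ⟶ (𝟙_ T)⟦(1 : ℤ)⟧) (hD : Triangle.mk (a • 𝟙 (𝟙_ T)) g h ∈ distTriang T) :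
    Pp F.k z ↔ a ∉ p.asIdeal := by
  constructor
  · intro hz ha
    obtain ⟨e, he⟩ := Triangle.yoneda_exact₂ _ hD F.η (by
      change (a • 𝟙 (𝟙_ T)) ≫ F.η = 0
      rw [Linear.smul_comp, Category.id_comp, ← Category.comp_id F.η, ← Linear.comp_smul,
        F.smul_eq_zero ha, comp_zero])
    have h0 : e = 0 := by
      rw [← cancel_mono ((shiftFunctorZero T ℤ).inv.app F.k), zero_comp]
      exact hz.2 0 _
    exact F.η_ne_zero (he.trans (by rw [h0]; exact comp_zero))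
  · intro ha
    refine ⟨isCpt_obj₃ _ hD Mg.unit_cpt Mg.unit_cpt, fun n e => ?_⟩
    have := shift_linear (T := T) R n
    have := shift_linear (T := T) R 1
    have := F.isIso_smul ha
    have hn : (a • 𝟙 F.k)⟦n⟧' = a • 𝟙 (F.k⟦n⟧) := by
      rw [Functor.map_smul, CategoryTheory.Functor.map_id]
    have hg : a • g = 0 := by
      have := comp_distTriang_mor_zero₁₂ _ hD
      change (a • 𝟙 (𝟙_ T)) ≫ g = 0 at this
      rwa [Linear.smul_comp, Category.id_comp] at this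
    have hh : a • h = 0 := by
      have := comp_distTriang_mor_zero₃₁ _ hD
      change h ≫ (a • 𝟙 (𝟙_ T))⟦(1 : ℤ)⟧' = 0 at this
      rwa [Functor.map_smul, CategoryTheory.Functor.map_id, Linear.comp_smul,
        Category.comp_id] at this
    have h1 : g ≫ e = 0 := by
      rw [← cancel_mono ((a • 𝟙 F.k)⟦n⟧'), hn, zero_comp, Linear.comp_smul, Category.comp_id,
        ← Linear.smul_comp, hg, zero_comp]
    obtain ⟨e', he'⟩ := Triangle.yoneda_exact₃ _ hD e h1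
    have he'' : e = h ≫ e' := he'
    rw [← cancel_mono ((a • 𝟙 F.k)⟦n⟧'), hn, zero_comp, Linear.comp_smul, Category.comp_id,
      he'', ← Linear.smul_comp, hh, zero_comp]

end Pool.Agent.MP_e18349_al.TT

end

-- part A7
section

/-! Row A7: `h(k⟦n⟧)` is injective. -/

namespace Pool.Agent.MP_e18349_al.TT

open CategoryTheory Limits MonoidalCategory Opposite Pretriangulated

section Vec

variable {T : Type 1} [Category.{0} T] [Preadditive T] {κ : Type} [Field κ] {E : T}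

/-- `Hom(c, E)` as a `κ`-vector space through `α`. -/
def A7Hom (_α : κ →+* End E) (c : T) : Type := c ⟶ E

instance (α : κ →+* End E) (c : T) : AddCommGroup (A7Hom α c) :=
  inferInstanceAs (AddCommGroup (c ⟶ E))

instance (α : κ →+* End E) (c : T) : Module κ (A7Hom α c) :=
  Module.compHom (c ⟶ E) α

/-- Precomposition as a linear map. -/
def a7pre (α : κ →+* End E) {c c' : T} (u : c' ⟶ c) : A7Hom α c →ₗ[κ] A7Hom α c' where
  toFun e := (u ≫ (e : c ⟶ E) : c' ⟶ E)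
  map_add' e e' := Preadditive.comp_add _ _ _ u e e'
  map_smul' l e := (Category.assoc u (e : c ⟶ E) (α l : E ⟶ E)).symm

theorem a7fin_iff (α : κ →+* End E) (c : T) : Module.Finite κ (A7Hom α c) ↔
    ∃ (r : ℕ) (e : Fin r → (c ⟶ E)), ∀ f : c ⟶ E,
      ∃ l : Fin r → κ, f = ∑ i, e i ≫ (α (l i) : E ⟶ E) := by
  constructor
  · intro h
    obtain ⟨r, e, he⟩ := Module.Finite.exists_fin (R := κ) (M := A7Hom α c)
    refine ⟨r, e, fun f => ?_⟩
    have hf : ∀ g : A7Hom α c, ∃ l : Fin r → κ, ∑ i, l i • e i = g := fun g =>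
      (Submodule.mem_span_range_iff_exists_fun κ).1 (he ▸ Submodule.mem_top)
    obtain ⟨l, hl⟩ := hf f
    exact ⟨l, hl.symm⟩
  · rintro ⟨r, e, he⟩
    refine ⟨Submodule.fg_iff_exists_fin_generating_family.2 ⟨r, e, ?_⟩⟩
    rw [eq_top_iff]
    intro f _
    obtain ⟨l, hl⟩ := he f
    exact (Submodule.mem_span_range_iff_exists_fun κ).2 ⟨l, hl.symm⟩

theorem a7fin_retract (α : κ →+* End E) {x y : T} (r : Retract x y)
    (h : Module.Finite κ (A7Hom α y)) : Module.Finite κ (A7Hom α x) :=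
  Module.Finite.of_surjective (a7pre α r.i) fun f =>
    ⟨(r.r ≫ (f : x ⟶ E) : y ⟶ E), r.retract_assoc (f : x ⟶ E)⟩

theorem a7fin_exact (α : κ →+* End E) {x y z : T} (f : x ⟶ y) (g : y ⟶ z)
    (ex : ∀ e : y ⟶ E, f ≫ e = 0 → ∃ e' : z ⟶ E, e = g ≫ e')
    (hx : Module.Finite κ (A7Hom α x)) (hz : Module.Finite κ (A7Hom α z)) :
    Module.Finite κ (A7Hom α y) := by
  refine ⟨Submodule.fg_of_fg_map_of_fg_inf_ker (a7pre α f) (IsNoetherian.noetherian _) ?_⟩
  have h1 : (Submodule.map (a7pre α g) ⊤).FG := Submodule.FG.map _ hz.fg_top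
  refine Submodule.FG.of_le h1 ?_
  rintro e ⟨-, he⟩
  obtain ⟨e', he'⟩ := ex e he
  exact ⟨e', Submodule.mem_top, he'.symm⟩

end Vec

variable {T : Type 1} [Category.{0} T] [Preadditive T] [HasCoproducts.{0} T]
  [HasZeroObject T] [HasShift T ℤ] [∀ n : ℤ, (shiftFunctor T n).Additive] [Pretriangulated T]
  [IsTriangulated T] [MonoidalCategory T] [SymmetricCategory T] [MonoidalPreadditive T]
  [MonoidalClosed T] [Mg T]
  {R : Type} [CommRing R] [Linear R T] [MonoidalLinear R T]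
  {p : PrimeSpectrum R}

omit [HasZeroObject T] [HasShift T ℤ] [∀ n : ℤ, (shiftFunctor T n).Additive] [Pretriangulated T]
  [IsTriangulated T] [MonoidalCategory T] [SymmetricCategory T] [MonoidalPreadditive T]
  [MonoidalClosed T] [Mg T] in
/-- Restriction along a map of compact objects. -/
def a7res (N : Psh T) {c c' : Cpt T} (u : c'.obj ⟶ c.obj) : N.obj (op c) →+ N.obj (op c') :=
  (N.map (ObjectProperty.homMk u : c' ⟶ c).op).hom

section Res

omit [HasZeroObject T] [HasShift T ℤ] [∀ n : ℤ, (shiftFunctor T n).Additive] [Pretriangulated T]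
  [IsTriangulated T] [MonoidalCategory T] [SymmetricCategory T] [MonoidalPreadditive T]
  [MonoidalClosed T] [Mg T]

theorem a7res_comp (N : Psh T) {c c' c'' : Cpt T} (u : c'.obj ⟶ c.obj) (v : c''.obj ⟶ c'.obj)
    (y : N.obj (op c)) : a7res N (v ≫ u) y = a7res N v (a7res N u y) := by
  have : (ObjectProperty.homMk (v ≫ u) : c'' ⟶ c).op =
      (ObjectProperty.homMk u : c' ⟶ c).op ≫ (ObjectProperty.homMk v : c'' ⟶ c').op := rfl
  unfold a7res
  rw [this, N.map_comp]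
  rfl

theorem a7res_id (N : Psh T) {c : Cpt T} (y : N.obj (op c)) : a7res N (𝟙 c.obj) y = y := by
  have : (ObjectProperty.homMk (𝟙 c.obj) : c ⟶ c).op = 𝟙 (op c) := rfl
  unfold a7res
  rw [this, N.map_id]
  rfl

theorem a7res_add (N : Psh T) [N.Additive] {c c' : Cpt T} (u v : c'.obj ⟶ c.obj)
    (y : N.obj (op c)) : a7res N (u + v) y = a7res N u y + a7res N v y := by
  have : (ObjectProperty.homMk (u + v) : c' ⟶ c).op =
      (ObjectProperty.homMk u : c' ⟶ c).op + (ObjectProperty.homMk v : c' ⟶ c).op := rfl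
  unfold a7res
  rw [this, N.map_add]
  rfl

theorem a7res_zero (N : Psh T) [N.Additive] {c c' : Cpt T} (y : N.obj (op c)) :
    a7res N (0 : c'.obj ⟶ c.obj) y = 0 := by
  have := a7res_add N (0 : c'.obj ⟶ c.obj) 0 y
  rw [add_zero] at this
  exact left_eq_add.1 this

theorem a7res_sub (N : Psh T) [N.Additive] {c c' : Cpt T} (u v : c'.obj ⟶ c.obj)
    (y : N.obj (op c)) : a7res N (u - v) y = a7res N u y - a7res N v y := by
  rw [eq_sub_iff_add_eq, ← a7res_add, sub_add_cancel]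

/-- Graphs of partial module maps `N ⇀ h(E)`. -/
structure A7Adm (N : Psh T) (E : T)
    (G : Set (Σ c : Cpt T, N.obj (op c) × (c.obj ⟶ E))) : Prop where
  zero : ∀ c : Cpt T, ⟨c, (0, 0)⟩ ∈ G
  sub : ∀ (c : Cpt T) x e y e', ⟨c, (x, e)⟩ ∈ G → ⟨c, (y, e')⟩ ∈ G → ⟨c, (x - y, e - e')⟩ ∈ G
  res : ∀ (c c' : Cpt T) (u : c'.obj ⟶ c.obj) x e, ⟨c, (x, e)⟩ ∈ G →
    ⟨c', (a7res N u x, u ≫ e)⟩ ∈ G
  fn : ∀ (c : Cpt T) e, ⟨c, (0, e)⟩ ∈ G → e = 0

theorem A7Adm.add {N : Psh T} {E : T} {G : Set (Σ c : Cpt T, N.obj (op c) × (c.obj ⟶ E))}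
    (hG : A7Adm N E G) (c : Cpt T) x e y e' (h : ⟨c, (x, e)⟩ ∈ G) (h' : ⟨c, (y, e')⟩ ∈ G) :
    ⟨c, (x + y, e + e')⟩ ∈ G := by
  have := hG.sub c _ _ _ _ h (hG.sub c _ _ _ _ (hG.zero c) h')
  simpa only [zero_sub, sub_neg_eq_add] using this

theorem A7Adm.uniq {N : Psh T} {E : T} {G : Set (Σ c : Cpt T, N.obj (op c) × (c.obj ⟶ E))}
    (hG : A7Adm N E G) (c : Cpt T) x e e' (h : ⟨c, (x, e)⟩ ∈ G) (h' : ⟨c, (x, e')⟩ ∈ G) :
    e = e' := by
  have := hG.sub c _ _ _ _ h h'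
  rw [sub_self] at this
  exact sub_eq_zero.1 (hG.fn c _ this)

theorem a7adm_sUnion {N : Psh T} {E : T}
    (C : Set (Set (Σ c : Cpt T, N.obj (op c) × (c.obj ⟶ E)))) (hC : ∀ G ∈ C, A7Adm N E G)
    (hch : IsChain (· ⊆ ·) C) (hne : C.Nonempty) : A7Adm N E (⋃₀ C) := by
  obtain ⟨G₀, hG₀⟩ := hne
  refine ⟨fun c => ⟨G₀, hG₀, (hC _ hG₀).zero c⟩, ?_, ?_, ?_⟩
  · rintro c x e y e' ⟨G, hG, h⟩ ⟨G', hG', h'⟩
    rcases hch.total hG hG' with hle | hle
    · exact ⟨G', hG', (hC _ hG').sub c _ _ _ _ (hle h) h'⟩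
    · exact ⟨G, hG, (hC _ hG).sub c _ _ _ _ h (hle h')⟩
  · rintro c c' u x e ⟨G, hG, h⟩
    exact ⟨G, hG, (hC _ hG).res c c' u x e h⟩
  · rintro c e ⟨G, hG, h⟩
    exact (hC _ hG).fn c e h

/-- One step of Baer's argument. -/
theorem A7Adm.extend {N : Psh T} [N.Additive] {E : T}
    {G : Set (Σ c : Cpt T, N.obj (op c) × (c.obj ⟶ E))} (hG : A7Adm N E G) (c : Cpt T)
    (y : N.obj (op c)) (e : c.obj ⟶ E)
    (he : ∀ (c' : Cpt T) (u : c'.obj ⟶ c.obj) (v : c'.obj ⟶ E),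
      ⟨c', (a7res N u y, v)⟩ ∈ G → u ≫ e = v) :
    ∃ G', A7Adm N E G' ∧ G ⊆ G' ∧ ⟨c, (y, e)⟩ ∈ G' := by
  refine ⟨{z | ∃ (x : N.obj (op z.1)) (v : z.1.obj ⟶ E) (u : z.1.obj ⟶ c.obj),
    ⟨z.1, (x, v)⟩ ∈ G ∧ z.2.1 = x + a7res N u y ∧ z.2.2 = v + u ≫ e}, ⟨?_, ?_, ?_, ?_⟩, ?_, ?_⟩
  · intro c'
    exact ⟨0, 0, 0, hG.zero c', by simp [a7res_zero], by simp⟩
  · rintro c' x₁ e₁ x₂ e₂ ⟨x, v, u, h, h1, h2⟩ ⟨x', v', u', h', h1', h2'⟩
    dsimp only at x v u x' v' u' h h' h1 h2 h1' h2'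
    refine ⟨x - x', v - v', u - u', hG.sub c' _ _ _ _ h h', ?_, ?_⟩
    · dsimp only
      rw [h1, h1', a7res_sub]
      abel
    · dsimp only
      rw [h2, h2', Preadditive.sub_comp]
      abel
  · rintro c' c'' w x₁ e₁ ⟨x, v, u, h, h1, h2⟩
    dsimp only at x v u h h1 h2
    refine ⟨a7res N w x, w ≫ v, w ≫ u, hG.res _ _ w _ _ h, ?_, ?_⟩
    · dsimp only
      rw [h1, map_add, a7res_comp]
    · dsimp only
      rw [h2, Preadditive.comp_add, Category.assoc]
  · rintro c' e₁ ⟨x, v, u, h, h1, h2⟩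
    dsimp only at x v u h h1 h2
    have h3 := hG.sub c' _ _ _ _ (hG.zero c') h
    have h4 : (0 : N.obj (op c')) - x = a7res N u y := by
      rw [sub_eq_iff_eq_add']
      exact h1
    rw [h4] at h3
    rw [h2, he c' u _ h3]
    abel
  · rintro ⟨c', x, v⟩ h
    exact ⟨x, v, 0, h, by simp [a7res_zero], by simp⟩
  · exact ⟨0, 0, 𝟙 _, hG.zero c, by simp [a7res_id], by simp⟩

end Res

omit [IsTriangulated T] [MonoidalCategory T] [SymmetricCategory T] [MonoidalPreadditive T]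
  [MonoidalClosed T] [Mg T] in
theorem A7Adm.exists_val {κ : Type} [Field κ] {N : Psh T} [N.Additive] {E : T}
    (α : κ →+* End E) {G : Set (Σ c : Cpt T, N.obj (op c) × (c.obj ⟶ E))} (hG : A7Adm N E G)
    (c : Cpt T) [Module.Finite κ (A7Hom α c.obj)] (y : N.obj (op c)) :
    ∃ e : c.obj ⟶ E, ∀ (c' : Cpt T) (u : c'.obj ⟶ c.obj) (v : c'.obj ⟶ E),
      ⟨c', (a7res N u y, v)⟩ ∈ G → u ≫ e = v := by
  have one : ∀ (c' : Cpt T) (u : c'.obj ⟶ c.obj) (v : c'.obj ⟶ E),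
      ⟨c', (a7res N u y, v)⟩ ∈ G → ∃ e : c.obj ⟶ E, v = u ≫ e := by
    intro c' u v h
    obtain ⟨d, ι, δ, hD⟩ := distinguished_cocone_triangle₁ u
    have hd : IsCpt d := isCpt_obj₁ _ hD c'.2 c.2
    have h0 : ι ≫ u = 0 := comp_distTriang_mor_zero₁₂ _ hD
    have h1 := hG.res c' ⟨d, hd⟩ ι _ _ h
    rw [← a7res_comp, h0, a7res_zero] at h1
    exact Triangle.yoneda_exact₂ _ hD v (hG.fn _ _ h1)
  let S : Set (Submodule κ (A7Hom α c.obj)) := {V | ∃ (c' : Cpt T) (u : c'.obj ⟶ c.obj)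
    (v : c'.obj ⟶ E), ⟨c', (a7res N u y, v)⟩ ∈ G ∧ V = LinearMap.ker (a7pre α u)}
  have hS : S.Nonempty := ⟨_, c, 0, 0, by rw [a7res_zero]; exact hG.zero c, rfl⟩
  obtain ⟨V, ⟨c₀, u₀, v₀, h₀, rfl⟩, hmin⟩ := IsArtinian.set_has_minimal S hS
  obtain ⟨e, he⟩ := one c₀ u₀ v₀ h₀
  refine ⟨e, fun c' u v h => ?_⟩
  let b : Cpt T := ⟨c'.obj ⊞ c₀.obj, isCpt_biprod c'.2 c₀.2⟩
  let w : b.obj ⟶ c.obj := biprod.fst ≫ u + biprod.snd ≫ u₀
  have hw : ⟨b, (a7res N w y, biprod.fst ≫ v + biprod.snd ≫ v₀)⟩ ∈ G := by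
    have := hG.add b _ _ _ _ (hG.res c' b biprod.fst _ _ h) (hG.res c₀ b biprod.snd _ _ h₀)
    rwa [← a7res_comp, ← a7res_comp, ← a7res_add] at this
  have hl : biprod.inl ≫ w = u := by simp [w]
  have hr : biprod.inr ≫ w = u₀ := by simp [w]
  obtain ⟨e', he'⟩ := one b w _ hw
  have e1 : u ≫ e' = v := by
    rw [← hl, Category.assoc, ← he']
    simp
  have e2 : u₀ ≫ e' = v₀ := by
    rw [← hr, Category.assoc, ← he']
    simp
  have hle : LinearMap.ker (a7pre α w) ≤ LinearMap.ker (a7pre α u₀) := by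
    have : ∀ f : c.obj ⟶ E, w ≫ f = 0 → u₀ ≫ f = 0 := fun f hf => by
      rw [← hr, Category.assoc, hf, comp_zero]
    exact fun f hf => this f hf
  have heq : LinearMap.ker (a7pre α w) = LinearMap.ker (a7pre α u₀) :=
    hle.eq_of_not_lt (hmin _ ⟨b, w, _, hw, rfl⟩)
  have h5 : ((e - e' : c.obj ⟶ E) : A7Hom α c.obj) ∈ LinearMap.ker (a7pre α u₀) := by
    change u₀ ≫ (e - e') = 0
    rw [Preadditive.comp_sub, e2, ← he, sub_self]
  rw [← heq] at h5
  have h6 : w ≫ (e - e') = 0 := h5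
  have h7 : u ≫ (e - e') = 0 := by rw [← hl, Category.assoc, h6, comp_zero]
  rw [Preadditive.comp_sub, e1] at h7
  exact sub_eq_zero.1 h7

omit [IsTriangulated T] [MonoidalCategory T] [SymmetricCategory T] [MonoidalPreadditive T]
  [MonoidalClosed T] [Mg T] in
/-- Endofinite objects are pure-injective. The hypothesis says that for compact `c` the
`κ`-vector space `Hom(c, E)` is spanned by finitely many maps. -/
theorem isInjectiveMod_of_finite {κ : Type} [Field κ] (E : T) (α : κ →+* End E)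
    (hfin : ∀ c : T, IsCpt c → ∃ (r : ℕ) (e : Fin r → (c ⟶ E)), ∀ f : c ⟶ E,
      ∃ l : Fin r → κ, f = ∑ i, e i ≫ (α (l i) : E ⟶ E)) :
    IsInjectiveMod ((resYoneda T).obj E) := by
  refine ⟨⟨fun {X Y f g} => ?_⟩, fun M N hM hN i hi f => ?_⟩
  · ext e
    exact Preadditive.add_comp _ _ _ f.unop.hom g.unop.hom e
  have hinj : ∀ c : Cpt T, Function.Injective (i.app (op c)).hom := fun c =>
    (AddCommGrpCat.mono_iff_injective _).1 inferInstance
  let G₀ : Set (Σ c : Cpt T, N.obj (op c) × (c.obj ⟶ E)) :=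
    {z | ∃ m : M.obj (op z.1), z.2.1 = (i.app (op z.1)).hom m ∧ z.2.2 = (f.app (op z.1)).hom m}
  have hG₀ : A7Adm N E G₀ := by
    refine ⟨fun c => ⟨0, (map_zero _).symm, (map_zero _).symm⟩, ?_, ?_, ?_⟩
    · rintro c x e y e' ⟨m, h1, h2⟩ ⟨m', h1', h2'⟩
      dsimp only at m m' h1 h2 h1' h2'
      refine ⟨m - m', ?_, ?_⟩
      · dsimp only
        rw [h1, h1', map_sub]
      · dsimp only
        rw [h2, h2', map_sub]
        rfl
    · rintro c c' u x e ⟨m, h1, h2⟩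
      dsimp only at m h1 h2
      refine ⟨a7res M u m, ?_, ?_⟩
      · dsimp only
        rw [h1]
        exact (ConcreteCategory.congr_hom
          (i.naturality (ObjectProperty.homMk u : c' ⟶ c).op) m).symm
      · dsimp only
        rw [h2]
        exact (ConcreteCategory.congr_hom
          (f.naturality (ObjectProperty.homMk u : c' ⟶ c).op) m).symm
    · rintro c e ⟨m, h1, h2⟩
      dsimp only at m h1 h2
      obtain rfl : m = 0 := hinj c (by rw [← h1, map_zero])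
      rw [h2, map_zero]
      rfl
  obtain ⟨G, hle, hmax⟩ := zorn_subset_nonempty {G | A7Adm N E G}
    (fun C hC hch hne => ⟨⋃₀ C, a7adm_sUnion C hC hch hne, fun s hs => Set.subset_sUnion_of_mem hs⟩)
    G₀ hG₀
  have hG : A7Adm N E G := hmax.1
  have tot : ∀ (c : Cpt T) (y : N.obj (op c)), ∃ e : c.obj ⟶ E, ⟨c, (y, e)⟩ ∈ G := by
    intro c y
    have := (a7fin_iff α c.obj).2 (hfin c.obj c.2)
    obtain ⟨e, he⟩ := hG.exists_val α c y
    obtain ⟨G', hG', h1, h2⟩ := hG.extend c y e he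
    exact ⟨e, hmax.2 hG' h1 h2⟩
  choose g hg using tot
  refine ⟨{ app := fun c => AddCommGrpCat.ofHom (AddMonoidHom.mk' (g c.unop) fun x y =>
              hG.uniq c.unop _ _ _ (hg _ _) (hG.add c.unop _ _ _ _ (hg _ _) (hg _ _)))
            naturality := fun c c' u => ?_ }, ?_⟩
  · ext y
    exact hG.uniq c'.unop _ _ _ (hg _ _) (hG.res c.unop c'.unop u.unop.hom _ _ (hg _ y))
  · ext c m
    exact hG.uniq c.unop _ _ _ (hg _ _) (hle ⟨m, rfl, rfl⟩)

omit [HasCoproducts.{0} T] [HasZeroObject T] [Pretriangulated T] [IsTriangulated T]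
  [SymmetricCategory T] [MonoidalPreadditive T] [MonoidalClosed T] [Mg T] [MonoidalLinear R T] in
/-- The scalars acting on `k⟦n⟧`. -/
noncomputable def FieldObj.a7α (F : FieldObj p T) (n : ℤ) : p.asIdeal.ResidueField →+* End (F.k⟦n⟧) where
  toFun l := ((F.α l : F.k ⟶ F.k)⟦n⟧' : F.k⟦n⟧ ⟶ F.k⟦n⟧)
  map_one' := by
    rw [map_one]
    exact (shiftFunctor T n).map_id _
  map_mul' l l' := by
    rw [map_mul]
    exact (shiftFunctor T n).map_comp _ _
  map_zero' := by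
    rw [map_zero]
    exact (shiftFunctor T n).map_zero _ _
  map_add' l l' := by
    rw [map_add]
    exact (shiftFunctor T n).map_add

omit [HasCoproducts.{0} T] [HasZeroObject T] [Pretriangulated T] [IsTriangulated T]
  [SymmetricCategory T] [MonoidalPreadditive T] [MonoidalClosed T] [Mg T] [MonoidalLinear R T] in
theorem FieldObj.a7shift (F : FieldObj p T) (c : T) (m a n : ℤ) (h : m + a = n)
    (hc : Module.Finite p.asIdeal.ResidueField (A7Hom (F.a7α m) c)) :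
    Module.Finite p.asIdeal.ResidueField (A7Hom (F.a7α n) (c⟦a⟧)) := by
  obtain ⟨r, e, he⟩ := (a7fin_iff _ _).1 hc
  refine (a7fin_iff _ _).2
    ⟨r, fun i => (e i)⟦a⟧' ≫ (shiftFunctorAdd' T m a n h).inv.app F.k, fun f => ?_⟩
  obtain ⟨f', hf'⟩ := (shiftFunctor T a).map_surjective
    (f ≫ (shiftFunctorAdd' T m a n h).hom.app F.k)
  obtain ⟨l, hl⟩ := he f'
  refine ⟨l, ?_⟩
  have h1 : f = f'⟦a⟧' ≫ (shiftFunctorAdd' T m a n h).inv.app F.k := by
    rw [hf', Category.assoc, Iso.hom_inv_id_app, Category.comp_id]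
  rw [h1, hl, Functor.map_sum, Preadditive.sum_comp]
  refine Finset.sum_congr rfl fun i _ => ?_
  rw [Functor.map_comp, Category.assoc, Category.assoc]
  congr 1
  exact (shiftFunctorAdd' T m a n h).inv.naturality (F.α (l i) : F.k ⟶ F.k)

omit [HasCoproducts.{0} T] [HasZeroObject T] [Pretriangulated T] [IsTriangulated T]
  [SymmetricCategory T] [MonoidalPreadditive T] [MonoidalClosed T] [Mg T] [MonoidalLinear R T] in
theorem FieldObj.a7unit (F : FieldObj p T) (n : ℤ) :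
    Module.Finite p.asIdeal.ResidueField (A7Hom (F.a7α n) (𝟙_ T)) := by
  refine (a7fin_iff _ _).2 ?_
  by_cases hn : n = 0
  · subst hn
    refine ⟨1, fun _ => F.η ≫ (shiftFunctorZero T ℤ).inv.app F.k, fun f => ?_⟩
    obtain ⟨l, hl⟩ := F.bij.2 (f ≫ (shiftFunctorZero T ℤ).hom.app F.k)
    refine ⟨fun _ => l, ?_⟩
    have h1 : f = (F.η ≫ (F.α l : F.k ⟶ F.k)) ≫ (shiftFunctorZero T ℤ).inv.app F.k := by
      dsimp only at hl
      rw [hl, Category.assoc, Iso.hom_inv_id_app, Category.comp_id]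
    rw [h1, Fin.sum_univ_one, Category.assoc, Category.assoc]
    congr 1
    exact (shiftFunctorZero T ℤ).inv.naturality (F.α l : F.k ⟶ F.k)
  · exact ⟨0, Fin.elim0, fun f => ⟨Fin.elim0, by rw [F.van n hn f]; simp⟩⟩

theorem FieldObj.injective (F : FieldObj p T) (n : ℤ) :
    IsInjectiveMod ((resYoneda T).obj (F.k⟦n⟧)) := by
  let P : ObjectProperty T := fun c =>
    ∀ m : ℤ, Module.Finite p.asIdeal.ResidueField (A7Hom (F.a7α m) c)
  have : P.IsStableUnderRetracts := ⟨fun r h m => a7fin_retract _ r (h m)⟩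
  have : P.IsTriangulated :=
    { exists_zero := ⟨_, isZero_zero T, fun m => (a7fin_iff _ _).2
        ⟨0, Fin.elim0, fun f => ⟨Fin.elim0, (isZero_zero T).eq_of_src _ _⟩⟩⟩
      isStableUnderShiftBy := fun a =>
        ⟨fun c hc m => F.a7shift c (m - a) a m (sub_add_cancel m a) (hc _)⟩
      ext₂' := fun D hD h₁ h₃ => P.le_isoClosure _ fun m =>
        a7fin_exact _ D.mor₁ D.mor₂ (fun e he => Triangle.yoneda_exact₂ D hD e he) (h₁ m) (h₃ m) }
  refine isInjectiveMod_of_finite _ (F.a7α n) fun c hc => (a7fin_iff _ _).1 ?_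
  exact cpt_induction Mg.gen Mg.unit_cpt P (fun m => F.a7unit m) hc n

end Pool.Agent.MP_e18349_al.TT

end

-- part A8
section

/-! Row A8: modules and Serre ideals. -/

namespace Pool.Agent.MP_e18349_al.TT

open CategoryTheory Limits MonoidalCategory Opposite Pretriangulated

section A8aux

variable {T : Type 1} [Category.{0} T] [Preadditive T] [HasCoproducts.{0} T]

theorem a8_map_app {x y : T} (f : x ⟶ y) (c : (Cpt T)ᵒᵖ) (g : c.unop.obj ⟶ x) :
    (((resYoneda T).map f).app c).hom g = g ≫ f := rfl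

theorem a8_obj_map (t : T) {c d : (Cpt T)ᵒᵖ} (u : c ⟶ d) (g : c.unop.obj ⟶ t) :
    (((resYoneda T).obj t).map u).hom g = u.unop.hom ≫ g := rfl

theorem a8_map_zero (x y : T) : (resYoneda T).map (0 : x ⟶ y) = 0 := by
  ext c g
  exact (a8_map_app (0 : x ⟶ y) c g).trans comp_zero

theorem a8_π_surj {M N : Psh T} (φ : M ⟶ N) (c : (Cpt T)ᵒᵖ) :
    Function.Surjective ((cokernel.π φ).app c).hom := by
  have : Epi ((cokernel.π φ).app c) := inferInstance
  exact (AddCommGrpCat.epi_iff_surjective _).1 this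

theorem a8_π_zero {M N : Psh T} (φ : M ⟶ N) (c : (Cpt T)ᵒᵖ) (n : N.obj c)
    (hn : ((cokernel.π φ).app c).hom n = 0) : ∃ m : M.obj c, (φ.app c).hom m = n := by
  have h1 := (ShortComplex.exact_cokernel φ).map ((evaluation _ _).obj c)
  rw [ShortComplex.ab_exact_iff] at h1
  exact h1 n hn

theorem a8_mono_desc {M N P : Psh T} (φ : M ⟶ N) (ψ : N ⟶ P) (w : φ ≫ ψ = 0)
    (hex : ∀ (c : (Cpt T)ᵒᵖ) (n : N.obj c), (ψ.app c).hom n = 0 →
      ∃ m : M.obj c, (φ.app c).hom m = n) : Mono (cokernel.desc φ ψ w) := by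
  rw [NatTrans.mono_iff_mono_app]
  intro c
  rw [AddCommGrpCat.mono_iff_injective, injective_iff_map_eq_zero]
  intro x hx
  obtain ⟨n, rfl⟩ := a8_π_surj φ c x
  have h1 : (ψ.app c).hom n = 0 := by
    have h2 := congrArg (fun z : N ⟶ P => (z.app c).hom n) (cokernel.π_desc φ ψ w)
    exact h2.symm.trans hx
  obtain ⟨m, rfl⟩ := hex c n h1
  exact congrArg (fun z : M ⟶ cokernel φ => (z.app c).hom m) (cokernel.condition φ)

theorem a8_additive_of_epi {M N : Psh T} (p : M ⟶ N) [Epi p] [M.Additive] : N.Additive where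
  map_add {c d u v} := by
    rw [← cancel_epi (p.app c), Preadditive.comp_add, ← p.naturality, ← p.naturality,
      ← p.naturality, M.map_add, Preadditive.add_comp]

theorem a8_fp {x y : T} (f : x ⟶ y) (hx : IsCpt x) (hy : IsCpt y) :
    IsFP (cokernel ((resYoneda T).map f)) := ⟨x, y, f, hx, hy, ⟨Iso.refl _⟩⟩

/-- The cokernel of `h(0)` is `h` of the target. -/
theorem a8_coker_zero (x y : T) :
    Nonempty (cokernel ((resYoneda T).map (0 : x ⟶ y)) ≅ (resYoneda T).obj y) :=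
  ⟨cokernelIsoOfEq (a8_map_zero x y) ≪≫ cokernelZeroIsoTarget⟩

end A8aux

variable {T : Type 1} [Category.{0} T] [Preadditive T] [HasCoproducts.{0} T]
  [HasZeroObject T] [HasShift T ℤ] [∀ n : ℤ, (shiftFunctor T n).Additive] [Pretriangulated T]
  [IsTriangulated T] [MonoidalCategory T] [SymmetricCategory T] [MonoidalPreadditive T]
  [MonoidalClosed T] [Mg T]

omit [IsTriangulated T] [MonoidalCategory T] [SymmetricCategory T] [MonoidalPreadditive T]
  [MonoidalClosed T] [Mg T] in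
theorem resYoneda_obj_additive (t : T) : ((resYoneda T).obj t).Additive where
  map_add {c d u v} := by
    ext g
    exact Preadditive.add_comp _ _ _ u.unop.hom v.unop.hom g

omit [IsTriangulated T] [MonoidalCategory T] [SymmetricCategory T] [MonoidalPreadditive T]
  [MonoidalClosed T] [Mg T] in
theorem resYoneda_additive : (resYoneda T).Additive where
  map_add {x y f f'} := by
    ext c g
    exact Preadditive.comp_add _ _ _ (g : c.unop.obj ⟶ x) f f'

omit [IsTriangulated T] [MonoidalCategory T] [SymmetricCategory T] [MonoidalPreadditive T]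
  [MonoidalClosed T] [Mg T] in
theorem IsFP.additive {M : Psh T} (hM : IsFP M) : M.Additive := by
  obtain ⟨x, y, f, -, -, ⟨e⟩⟩ := hM
  have := resYoneda_obj_additive y
  exact a8_additive_of_epi (cokernel.π ((resYoneda T).map f) ≫ e.inv)

omit [IsTriangulated T] [MonoidalCategory T] [SymmetricCategory T] [MonoidalPreadditive T]
  [MonoidalClosed T] [Mg T] in
/-- Yoneda lemma for compact sources. -/
theorem resYoneda_map_bijective {c : T} (hc : IsCpt c) (t : T) :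
    Function.Bijective fun f : c ⟶ t => (resYoneda T).map f := by
  constructor
  · intro f f' h
    have h1 := congrArg
      (fun z : (resYoneda T).obj c ⟶ (resYoneda T).obj t =>
        (z.app (op ⟨c, hc⟩)).hom (𝟙 c)) h
    have h2 : 𝟙 c ≫ f = 𝟙 c ≫ f' := h1
    simpa using h2
  · intro φ
    refine ⟨(φ.app (op ⟨c, hc⟩)).hom (𝟙 c), ?_⟩
    ext d g
    have h1 := congrArg
      (fun z : ((resYoneda T).obj c).obj (op ⟨c, hc⟩) ⟶ ((resYoneda T).obj t).obj d =>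
        z.hom (𝟙 c))
      (φ.naturality (X := op ⟨c, hc⟩) (Y := d)
        (ObjectProperty.homMk (X := d.unop) (Y := ⟨c, hc⟩) (g : d.unop.obj ⟶ c)).op)
    have h2 : (φ.app d).hom ((g : d.unop.obj ⟶ c) ≫ 𝟙 c) =
        (g : d.unop.obj ⟶ c) ≫ (φ.app (op ⟨c, hc⟩)).hom (𝟙 c) := h1
    rw [Category.comp_id] at h2
    exact h2.symm

omit [IsTriangulated T] [MonoidalCategory T] [SymmetricCategory T] [MonoidalPreadditive T]
  [MonoidalClosed T] [Mg T] in
theorem isFP_resYoneda {c : T} (hc : IsCpt c) : IsFP ((resYoneda T).obj c) := by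
  obtain ⟨e⟩ := a8_coker_zero c c
  exact ⟨c, c, 0, hc, hc, ⟨e.symm⟩⟩

omit [IsTriangulated T] [MonoidalCategory T] [SymmetricCategory T] [MonoidalPreadditive T]
  [MonoidalClosed T] [Mg T] in
/-- `h` is homological: the cokernel of `h(mor₁)` embeds in `h(obj₃)`. -/
theorem mono_cokernel_desc (D : Triangle T) (hD : D ∈ distTriang T)
    (w : (resYoneda T).map D.mor₁ ≫ (resYoneda T).map D.mor₂ = 0) :
    Mono (cokernel.desc _ _ w) := by
  refine a8_mono_desc _ _ w fun c n hn => ?_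
  obtain ⟨m, hm⟩ := Triangle.coyoneda_exact₂ D hD (n : c.unop.obj ⟶ D.obj₂) hn
  exact ⟨m, hm.symm⟩

omit [IsTriangulated T] [MonoidalCategory T] [SymmetricCategory T] [MonoidalPreadditive T]
  [MonoidalClosed T] [Mg T] in
theorem bp_coker_iff (k : T) {x y : T} (s : x ⟶ y) (hx : IsCpt x) (hy : IsCpt y) :
    WB (Bp k) s ↔ ∀ (n : ℤ) (e : y ⟶ k⟦n⟧), s ≫ e = 0 → e = 0 := by
  constructor
  · rintro ⟨-, h⟩ n e he
    have w : (resYoneda T).map s ≫ (resYoneda T).map e = 0 := by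
      rw [← Functor.map_comp, he, a8_map_zero]
    apply (resYoneda_map_bijective hy _).1
    show (resYoneda T).map e = (resYoneda T).map 0
    rw [a8_map_zero, ← cokernel.π_desc _ _ w, h n (cokernel.desc _ _ w), comp_zero]
  · intro h
    refine ⟨a8_fp s hx hy, fun n φ => ?_⟩
    obtain ⟨e, he⟩ := (resYoneda_map_bijective hy (k⟦n⟧)).2 (cokernel.π _ ≫ φ)
    have he' : (resYoneda T).map e = cokernel.π _ ≫ φ := he
    have h1 : s ≫ e = 0 := by
      apply (resYoneda_map_bijective hx _).1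
      show (resYoneda T).map (s ≫ e) = (resYoneda T).map 0
      rw [a8_map_zero, Functor.map_comp, he', cokernel.condition_assoc, zero_comp]
    rw [h n e h1, a8_map_zero] at he'
    rw [← cancel_epi (cokernel.π _), ← he', comp_zero]

omit [IsTriangulated T] [MonoidalCategory T] [SymmetricCategory T] [MonoidalPreadditive T]
  [MonoidalClosed T] [Mg T] in
theorem comparison_bp (k : T) : comparison (Bp k) = Pp k := by
  funext x
  apply propext
  constructor
  · rintro ⟨hx, -, h⟩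
    refine ⟨hx, fun n e => ?_⟩
    apply (resYoneda_map_bijective hx _).1
    show (resYoneda T).map e = (resYoneda T).map 0
    rw [a8_map_zero, h n ((resYoneda T).map e)]
  · rintro ⟨hx, h⟩
    refine ⟨hx, isFP_resYoneda hx, fun n φ => ?_⟩
    obtain ⟨e, he⟩ := (resYoneda_map_bijective hx (k⟦n⟧)).2 φ
    have he' : (resYoneda T).map e = φ := he
    rw [← he', h n e, a8_map_zero]

variable {B : ObjectProperty (Psh T)}

theorem IsSerreIdeal.of_iso (hB : IsSerreIdeal B) {M N : Psh T} (e : M ≅ N) (hM : B M) :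
    B N := by
  obtain ⟨x, y, f, hx, hy, ⟨e'⟩⟩ := hB.fp M hM
  exact hB.quot M N e.hom inferInstance ⟨x, y, f, hx, hy, ⟨e.symm ≪≫ e'⟩⟩ hM

theorem IsSerreIdeal.wb_of_isSplitEpi (hB : IsSerreIdeal B) {x y : T} (s : x ⟶ y)
    [IsSplitEpi s] : WB B s :=
  hB.zero _ (isZero_cokernel_of_epi _)

theorem IsSerreIdeal.wb_comp (hB : IsSerreIdeal B) {a b c : T} (s' : a ⟶ b) (s : b ⟶ c)
    (ha : IsCpt a) (hb : IsCpt b) (hc : IsCpt c) (h' : WB B s') (h : WB B s) :
    WB B (s' ≫ s) := by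
  obtain ⟨F, ι, δ, hD⟩ := distinguished_cocone_triangle₁ s
  have hF : IsCpt F := isCpt_obj₁ _ hD hb hc
  have hι : ι ≫ s = 0 := comp_distTriang_mor_zero₁₂ _ hD
  let u : a ⊞ F ⟶ b := biprod.desc s' ι
  have hu : u ≫ s = biprod.fst ≫ s' ≫ s := by
    apply biprod.hom_ext' <;> simp [u, hι]
  have w1 : (resYoneda T).map s' ≫ cokernel.π ((resYoneda T).map u) = 0 := by
    have : s' = biprod.inl ≫ u := by simp [u]
    rw [this, Functor.map_comp, Category.assoc, cokernel.condition, comp_zero]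
  have hN : B (cokernel ((resYoneda T).map u)) :=
    hB.quot _ _ (cokernel.desc _ _ w1) (epi_of_epi_fac (cokernel.π_desc _ _ w1))
      (a8_fp u (isCpt_biprod ha hF) hb) h'
  have w2 : (resYoneda T).map u ≫ (resYoneda T).map s ≫
      cokernel.π ((resYoneda T).map (s' ≫ s)) = 0 := by
    rw [← (resYoneda T).map_comp_assoc u, hu, (resYoneda T).map_comp biprod.fst, Category.assoc,
      cokernel.condition, comp_zero]
  have w3 : (resYoneda T).map (s' ≫ s) ≫ cokernel.π ((resYoneda T).map s) = 0 := by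
    rw [Functor.map_comp, Category.assoc, cokernel.condition, comp_zero]
  have w4 : cokernel.desc _ _ w2 ≫ cokernel.desc _ _ w3 = 0 := by
    rw [← cancel_epi (cokernel.π _), cokernel.π_desc_assoc, Category.assoc, cokernel.π_desc,
      cokernel.condition, comp_zero]
  have hmono : Mono (cokernel.desc _ _ w2) := by
    refine a8_mono_desc _ _ w2 fun d (n : d.unop.obj ⟶ b) hn => ?_
    obtain ⟨m, hm⟩ : ∃ m : d.unop.obj ⟶ a, m ≫ s' ≫ s = n ≫ s :=
      a8_π_zero ((resYoneda T).map (s' ≫ s)) d (n ≫ s) hn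
    have h0 : (n - m ≫ s') ≫ s = 0 := by
      rw [Preadditive.sub_comp, Category.assoc, hm, sub_self]
    obtain ⟨l, hl⟩ : ∃ l : d.unop.obj ⟶ F, n - m ≫ s' = l ≫ ι :=
      Triangle.coyoneda_exact₂ _ hD _ h0
    refine ⟨biprod.lift m l, ?_⟩
    show biprod.lift m l ≫ biprod.desc s' ι = n
    rw [biprod.lift_desc, ← hl, add_sub_cancel]
  have hepi : Epi (cokernel.desc _ _ w3) := epi_of_epi_fac (cokernel.π_desc _ _ w3)
  have hex : (ShortComplex.mk _ _ w4).Exact := by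
    apply ShortComplex.exact_of_g_is_cokernel
    refine CokernelCofork.IsColimit.ofπ' _ _ fun {W} k hk => ?_
    have w5 : (resYoneda T).map s ≫ cokernel.π ((resYoneda T).map (s' ≫ s)) ≫ k = 0 := by
      have h5 : cokernel.desc _ _ w2 ≫ k = 0 := hk
      rw [← Category.assoc, ← cokernel.π_desc _ _ w2, Category.assoc, h5, comp_zero]
    refine ⟨cokernel.desc _ _ w5, ?_⟩
    show cokernel.desc _ _ w3 ≫ cokernel.desc _ _ w5 = k
    rw [← cancel_epi (cokernel.π _), cokernel.π_desc_assoc, cokernel.π_desc]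
  exact hB.ext (ShortComplex.mk _ _ w4) { exact := hex, mono_f := hmono, epi_g := hepi }
    (a8_fp (s' ≫ s) ha hc) hN h

theorem IsSerreIdeal.wb_pullback (hB : IsSerreIdeal B) {x y c : T} (f : x ⟶ y) (u : c ⟶ y)
    (hx : IsCpt x) (hy : IsCpt y) (hc : IsCpt c) (h : WB B f) :
    ∃ (c' : T) (s : c' ⟶ c) (v : c' ⟶ x), IsCpt c' ∧ s ≫ u = v ≫ f ∧ WB B s := by
  obtain ⟨F, j, δ, hD⟩ := distinguished_cocone_triangle₁ (biprod.desc u (-f) : c ⊞ x ⟶ y)
  have hF : IsCpt F := isCpt_obj₁ _ hD (isCpt_biprod hc hx) hy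
  have hj : j ≫ biprod.desc u (-f) = 0 := comp_distTriang_mor_zero₁₂ _ hD
  have hsq : (j ≫ biprod.fst) ≫ u = (j ≫ biprod.snd) ≫ f := by
    rw [biprod.desc_eq, Preadditive.comp_add, Preadditive.comp_neg, Preadditive.comp_neg,
      add_neg_eq_zero] at hj
    simpa using hj
  refine ⟨F, j ≫ biprod.fst, j ≫ biprod.snd, hF, hsq, ?_⟩
  have w : (resYoneda T).map (j ≫ biprod.fst) ≫ (resYoneda T).map u ≫
      cokernel.π ((resYoneda T).map f) = 0 := by
    rw [← Functor.map_comp_assoc, hsq, Functor.map_comp, Category.assoc, cokernel.condition,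
      comp_zero]
  refine hB.sub _ _ (cokernel.desc _ _ w) ?_ (a8_fp _ hF hc) h
  refine a8_mono_desc _ _ w fun d n hn => ?_
  obtain ⟨m, hm⟩ := a8_π_zero ((resYoneda T).map f) d ((n : d.unop.obj ⟶ c) ≫ u) hn
  have hm' : (m : d.unop.obj ⟶ x) ≫ f = (n : d.unop.obj ⟶ c) ≫ u := hm
  have h0 : biprod.lift (n : d.unop.obj ⟶ c) (m : d.unop.obj ⟶ x) ≫ biprod.desc u (-f) = 0 := by
    rw [biprod.lift_desc, Preadditive.comp_neg, hm', add_neg_cancel]
  obtain ⟨l, hl⟩ := Triangle.coyoneda_exact₂ _ hD _ h0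
  have hl' : biprod.lift (n : d.unop.obj ⟶ c) (m : d.unop.obj ⟶ x) =
      (l : d.unop.obj ⟶ F) ≫ j := hl
  refine ⟨(l : d.unop.obj ⟶ F), ?_⟩
  show (l : d.unop.obj ⟶ F) ≫ j ≫ biprod.fst = n
  rw [← Category.assoc, ← hl', biprod.lift_fst]

theorem IsSerreIdeal.wb_shift (hB : IsSerreIdeal B) {x y : T} (s : x ⟶ y) (hx : IsCpt x)
    (hy : IsCpt y) (h : WB B s) (n : ℤ) : WB B (s⟦n⟧') := by
  obtain ⟨e⟩ := tensor_sphere (T := T) n
  have h1 := hB.tensor ((𝟙_ T)⟦n⟧) x y s (isCpt_shift Mg.unit_cpt n) hx hy h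
  refine hB.of_iso (cokernel.mapIso _ _
    ((resYoneda T).mapIso (β_ ((𝟙_ T)⟦n⟧) x ≪≫ e.app x))
    ((resYoneda T).mapIso (β_ ((𝟙_ T)⟦n⟧) y ≪≫ e.app y)) ?_) h1
  have h2 : s ▷ ((𝟙_ T)⟦n⟧) ≫ e.hom.app y = e.hom.app x ≫ s⟦n⟧' := e.hom.naturality s
  simp only [Functor.mapIso_hom, Iso.trans_hom, Iso.app_hom, ← Functor.map_comp]
  rw [BraidedCategory.braiding_naturality_right_assoc, h2, Category.assoc]

theorem IsSerreIdeal.not_wb_zero (hB : IsSerreIdeal B) (hne : B ≠ IsFP) (c : T) :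
    ¬ WB B (0 : c ⟶ 𝟙_ T) := by
  intro h
  apply hne
  obtain ⟨e1⟩ := a8_coker_zero c (𝟙_ T)
  obtain ⟨e2⟩ := a8_coker_zero (𝟙_ T) (𝟙_ T)
  have h1 : B (cokernel ((resYoneda T).map (0 : 𝟙_ T ⟶ 𝟙_ T))) := hB.of_iso (e1 ≪≫ e2.symm) h
  have h2 : ∀ z : T, IsCpt z → B ((resYoneda T).obj z) := by
    intro z hz
    have h3 := hB.tensor z _ _ 0 hz Mg.unit_cpt Mg.unit_cpt h1
    rw [MonoidalPreadditive.whiskerLeft_zero] at h3
    obtain ⟨e3⟩ := a8_coker_zero (z ⊗ 𝟙_ T) (z ⊗ 𝟙_ T)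
    exact hB.of_iso (e3 ≪≫ (resYoneda T).mapIso (ρ_ z)) h3
  funext M
  apply propext
  refine ⟨hB.fp M, fun hM => ?_⟩
  obtain ⟨x, y, f, hx, hy, ⟨e⟩⟩ := id hM
  exact hB.quot _ _ (cokernel.π ((resYoneda T).map f) ≫ e.inv) inferInstance hM (h2 y hy)

end Pool.Agent.MP_e18349_al.TT

end

-- part A9
section

/-! Row A9: `B_p` is a proper Serre ideal and `E_{B_p} = k_p`. -/

namespace Pool.Agent.MP_e18349_al.TT

open CategoryTheory Limits MonoidalCategory Opposite Pretriangulated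

variable {T : Type 1} [Category.{0} T] [Preadditive T] [HasCoproducts.{0} T]
  [HasZeroObject T] [HasShift T ℤ] [∀ n : ℤ, (shiftFunctor T n).Additive] [Pretriangulated T]
  [IsTriangulated T] [MonoidalCategory T] [SymmetricCategory T] [MonoidalPreadditive T]
  [MonoidalClosed T] [Mg T]
  {R : Type} [CommRing R] [Linear R T] [MonoidalLinear R T]
  {p q : PrimeSpectrum R}

theorem A9_denom (p : PrimeSpectrum R) {ι : Type} [Finite ι] (l : ι → p.asIdeal.ResidueField) :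
    ∃ (s : R) (r : ι → R), s ∉ p.asIdeal ∧
      ∀ i, algebraMap R _ s * l i = algebraMap R _ (r i) := by
  obtain ⟨b, hb⟩ := IsLocalization.exist_integer_multiples_of_finite
    (nonZeroDivisors (R ⧸ p.asIdeal)) l
  obtain ⟨s, hs⟩ := Ideal.Quotient.mk_surjective (b : R ⧸ p.asIdeal)
  have hr : ∀ i, ∃ r : R, algebraMap R _ s * l i = algebraMap R p.asIdeal.ResidueField r := by
    intro i
    obtain ⟨y, hy⟩ := hb i
    obtain ⟨r, rfl⟩ := Ideal.Quotient.mk_surjective y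
    refine ⟨r, ?_⟩
    rw [Algebra.smul_def, ← hs] at hy
    exact hy.symm
  choose r hr using hr
  refine ⟨s, r, fun h => ?_, hr⟩
  exact nonZeroDivisors.coe_ne_zero b (hs ▸ Ideal.Quotient.eq_zero_iff_mem.2 h)

theorem A9_van (F : FieldObj p T) {n : ℤ} (hn : n ≠ 0) (f : (𝟙_ T)⟦n⟧ ⟶ F.k) : f = 0 := by
  obtain ⟨g, hg⟩ := (shiftFunctor T n).map_surjective
    (f ≫ (shiftFunctorCompIsoId T (-n) n (by omega)).inv.app F.k)
  rw [F.van (-n) (by omega) g, Functor.map_zero] at hg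
  rw [← cancel_mono ((shiftFunctorCompIsoId T (-n) n (by omega)).inv.app F.k), ← hg, zero_comp]

theorem A9_ess_free (F : FieldObj p T) {x : T} (hx : IsFree (𝟙_ T) 0 x) (e : x ⟶ F.k) :
    ∃ (s : R) (b : x ⟶ 𝟙_ T), s ∉ p.asIdeal ∧ s • e = b ≫ F.η := by
  obtain ⟨r, ⟨φ⟩⟩ := hx
  let z : (𝟙_ T)⟦(0 : ℤ)⟧ ≅ 𝟙_ T := (shiftFunctorZero T ℤ).app _
  choose l hl using fun i : Fin r =>
    F.bij.2 (z.inv ≫ biproduct.ι (fun _ : Fin r => (𝟙_ T)⟦(0 : ℤ)⟧) i ≫ φ.inv ≫ e)
  obtain ⟨s, c, hs, hc⟩ := A9_denom p l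
  refine ⟨s, φ.hom ≫ biproduct.desc fun i => c i • z.hom, hs, ?_⟩
  rw [← cancel_epi φ.inv, Category.assoc, φ.inv_hom_id_assoc]
  refine biproduct.hom_ext' _ _ fun i => ?_
  rw [biproduct.ι_desc_assoc, ← cancel_epi z.inv, Linear.comp_smul, Linear.comp_smul,
    Linear.comp_smul, Linear.smul_comp, Linear.comp_smul, z.inv_hom_id_assoc]
  have h1 : F.η ≫ (F.α (l i) : F.k ⟶ F.k) =
      z.inv ≫ biproduct.ι (fun _ : Fin r => (𝟙_ T)⟦(0 : ℤ)⟧) i ≫ φ.inv ≫ e := hl i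
  have h2 : (F.α (l i) : F.k ⟶ F.k) ≫ (F.α (algebraMap R _ s) : F.k ⟶ F.k) =
      (F.α (algebraMap R _ (c i)) : F.k ⟶ F.k) := by
    rw [← hc i, map_mul, End.mul_def]
  rw [F.alg, F.alg, Linear.comp_smul, Category.comp_id] at h2
  rw [← h1, ← Linear.comp_smul, h2, Linear.comp_smul, Category.comp_id]

theorem A9_ess_cell (F : FieldObj p T) {n : ℤ} {l : ℕ} {x : T} (hx : Cell (𝟙_ T) n l x)
    (e : x ⟶ F.k) (he : e ≠ 0) :
    ∃ (d : T) (a : d ⟶ x) (b : d ⟶ 𝟙_ T), IsCpt d ∧ a ≫ e = b ≫ F.η ∧ a ≫ e ≠ 0 := by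
  have hxc : IsCpt x := hx.cpt Mg.unit_cpt
  induction hx with
  | zero n x h => exact absurd (h.eq_of_src _ _) he
  | step n l D hD h₁ hF ih =>
    by_cases h0 : D.mor₁ ≫ e = 0
    · obtain ⟨g, hg⟩ := Triangle.yoneda_exact₂ D hD e h0
      by_cases hn : n = 0
      · subst hn
        obtain ⟨s, b, hs, hb⟩ := A9_ess_free F hF g
        have := F.isIso_smul hs
        refine ⟨D.obj₂, s • 𝟙 _, D.mor₂ ≫ b, hxc, ?_, fun h => he ?_⟩
        · rw [Category.assoc, ← hb, Linear.smul_comp, Category.id_comp, hg, Linear.comp_smul]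
        · rw [Linear.smul_comp, Category.id_comp] at h
          rw [← cancel_mono (s • 𝟙 F.k), Linear.comp_smul, Category.comp_id, h, zero_comp]
      · exact absurd (by rw [hg, A4_free_hom_zero hF _ (A9_van F hn) g, comp_zero]) he
    · obtain ⟨d, a, b, hd, h1, h2⟩ := ih (D.mor₁ ≫ e) h0 (h₁.cpt Mg.unit_cpt)
      exact ⟨d, a ≫ D.mor₁, b, hd, by rwa [Category.assoc], by rwa [Category.assoc]⟩

/-- `h(k)` is an essential extension of the image of `h(η)`. -/
theorem FieldObj.essential (F : FieldObj p T) (hconn : Conn (𝟙_ T)) (c : T) (e : c ⟶ F.k)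
    (hc : IsCpt c) (he : e ≠ 0) :
    ∃ (d : T) (a : d ⟶ c) (b : d ⟶ 𝟙_ T), IsCpt d ∧ a ≫ e = b ≫ F.η ∧ a ≫ e ≠ 0 := by
  obtain ⟨n, l, x, hx, ⟨r⟩⟩ := exists_cell_retract Mg.gen Mg.unit_cpt hconn hc
  obtain ⟨d, a, b, hd, h1, h2⟩ := A9_ess_cell F hx (r.r ≫ e) fun h => he (by
    rw [← Category.id_comp e, ← r.retract, Category.assoc, h, comp_zero])
  exact ⟨d, a ≫ r.r, b, hd, by rwa [Category.assoc], by rwa [Category.assoc]⟩

theorem A9_tensor (F : FieldObj p T) (z x y : T) (f : x ⟶ y) (hz : IsCpt z) (hy : IsCpt y)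
    (h : ∀ (n : ℤ) (e : y ⟶ F.k⟦n⟧), f ≫ e = 0 → e = 0) (n : ℤ) (e : z ⊗ y ⟶ F.k⟦n⟧)
    (he : z ◁ f ≫ e = 0) : e = 0 := by
  classical
  obtain ⟨w, -, ⟨P⟩⟩ := exists_dual hz
  have P' : ExactPairing w z := BraidedCategory.exactPairing_swap z w
  obtain ⟨u₁⟩ := tensor_shift_right w F.k n
  obtain ⟨u₂⟩ := tensor_shift_left w F.k n
  obtain ⟨ι, m, ⟨u₃⟩⟩ := F.decomp (w⟦n⟧)
  let u := u₁ ≪≫ u₂.symm ≪≫ u₃
  let adj := tensorLeftAdjunction w z
  have hz0 : ∀ a : T, adj.homEquiv a (F.k⟦n⟧) 0 = 0 := fun a => by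
    rw [Adjunction.homEquiv_unit, Functor.map_zero, comp_zero]
  have h1 : f ≫ adj.homEquiv y (F.k⟦n⟧) e = 0 := by
    rw [← Adjunction.homEquiv_naturality_left, ← hz0 x]
    exact congrArg _ he
  have h2 : adj.homEquiv y (F.k⟦n⟧) e ≫ u.hom = 0 := by
    refine hy.hom_eq_zero _ fun i => h (m i) _ ?_
    rw [Category.assoc, ← Category.assoc f, h1, zero_comp]
  have h3 : adj.homEquiv y (F.k⟦n⟧) e = 0 := by
    rw [← cancel_mono u.hom, h2, zero_comp]
  exact (adj.homEquiv y (F.k⟦n⟧)).injective (h3.trans (hz0 y).symm)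

theorem FieldObj.isSerreIdeal (F : FieldObj p T) : IsSerreIdeal (Bp F.k) where
  fp M hM := hM.1
  zero M hM := ⟨⟨_, _, 𝟙 _, isCpt_of_isZero (isZero_zero T), isCpt_of_isZero (isZero_zero T),
    ⟨hM.iso (isZero_cokernel_of_epi _)⟩⟩, fun n φ => hM.eq_of_src _ _⟩
  sub M N i hi hM hN := ⟨hM, fun n φ => by
    obtain ⟨g, hg⟩ := (F.injective n).2 M N hM.additive hN.1.additive i hi φ
    rw [← hg, hN.2 n g, comp_zero]⟩
  quot M N π hπ hN hM := ⟨hN, fun n φ => by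
    rw [← cancel_epi π, hM.2 n (π ≫ φ), comp_zero]⟩
  ext S hS h₂ h₁ h₃ := ⟨h₂, fun n φ => by
    have := hS.epi_g
    obtain ⟨g, hg⟩ := hS.exact.desc' φ (h₁.2 n _)
    rw [← hg, h₃.2 n g, comp_zero]⟩
  tensor z x y f hz hx hy h :=
    (bp_coker_iff F.k (z ◁ f) (isCpt_tensor hz hx) (isCpt_tensor hz hy)).2
      (A9_tensor F z x y f hz hy ((bp_coker_iff F.k f hx hy).1 h))

theorem A9_res_zero {c t : T} (hc : IsCpt c) (f : c ⟶ t) (h : (resYoneda T).map f = 0) :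
    f = 0 := by
  have := resYoneda_additive (T := T)
  exact (resYoneda_map_bijective hc t).1 (h.trans ((resYoneda T).map_zero _ _).symm)

theorem FieldObj.bp_ne (F : FieldObj p T) : Bp F.k ≠ IsFP := by
  intro h
  have h1 : Bp F.k ((resYoneda T).obj (𝟙_ T)) := h ▸ isFP_resYoneda Mg.unit_cpt
  have h2 := A9_res_zero Mg.unit_cpt (F.η ≫ (shiftFunctorZero T ℤ).inv.app F.k) (h1.2 0 _)
  refine F.η_ne_zero ?_
  rw [← cancel_mono ((shiftFunctorZero T ℤ).inv.app F.k), h2, zero_comp]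

theorem A9_comp_unit (F : FieldObj p T) {c : T} (f : c ⟶ 𝟙_ T) (hf : f ≫ F.η = 0) (n : ℤ)
    (e : 𝟙_ T ⟶ F.k⟦n⟧) : f ≫ e = 0 := by
  by_cases hn : n = 0
  · subst hn
    obtain ⟨l, hl⟩ := F.bij.2 (e ≫ (shiftFunctorZero T ℤ).hom.app F.k)
    have hl' : F.η ≫ (F.α l : F.k ⟶ F.k) = e ≫ (shiftFunctorZero T ℤ).hom.app F.k := hl
    rw [← cancel_mono ((shiftFunctorZero T ℤ).hom.app F.k), Category.assoc, ← hl',
      ← Category.assoc, hf, zero_comp, zero_comp]
  · rw [F.van n hn e, comp_zero]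

theorem FieldObj.isE (F : FieldObj p T) (hconn : Conn (𝟙_ T)) : IsE (Bp F.k) F.k := by
  have := resYoneda_additive (T := T)
  refine ⟨⟨resYoneda_obj_additive _, fun M N hM hN i hi f => ?_⟩, F.η, fun c f hc => ?_,
    fun c e hc he => F.essential hconn c e hc he⟩
  · obtain ⟨g, hg⟩ := (F.injective 0).2 M N hM hN i hi
      (f ≫ (resYoneda T).map ((shiftFunctorZero T ℤ).inv.app F.k))
    refine ⟨g ≫ (resYoneda T).map ((shiftFunctorZero T ℤ).hom.app F.k), ?_⟩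
    rw [← Category.assoc, hg, Category.assoc, ← Functor.map_comp, Iso.inv_hom_id_app]
    exact (congrArg _ ((resYoneda T).map_id _)).trans (Category.comp_id _)
  · constructor
    · intro hf
      obtain ⟨X, j, h, hD⟩ := distinguished_cocone_triangle₁ f
      have hX : IsCpt X := isCpt_obj₁ _ hD hc Mg.unit_cpt
      have w : (resYoneda T).map j ≫ (resYoneda T).map f = 0 := by
        rw [← Functor.map_comp]
        exact (congrArg _ (comp_distTriang_mor_zero₁₂ _ hD)).trans ((resYoneda T).map_zero _ _)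
      refine ⟨cokernel ((resYoneda T).map j), cokernel.π _, cokernel.desc _ _ w,
        (bp_coker_iff F.k j hX hc).2 fun n e he => ?_, mono_cokernel_desc _ hD w,
        cokernel.π_desc _ _ _⟩
      obtain ⟨g, hg⟩ := Triangle.yoneda_exact₂ _ hD e he
      exact hg.trans (A9_comp_unit F f hf n g)
    · rintro ⟨N, g, i, hN, -, hg⟩
      have h1 := hN.2 0 (i ≫ (resYoneda T).map (F.η ≫ (shiftFunctorZero T ℤ).inv.app F.k))
      have h2 := A9_res_zero hc (f ≫ F.η ≫ (shiftFunctorZero T ℤ).inv.app F.k) (by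
        rw [Functor.map_comp, ← hg, Category.assoc, h1, comp_zero])
      rw [← cancel_mono ((shiftFunctorZero T ℤ).inv.app F.k), Category.assoc, h2, zero_comp]

theorem A9_smul_shift (k : T) (a : R) (n : ℤ) : (a • 𝟙 k)⟦n⟧' = a • 𝟙 (k⟦n⟧) := by
  have := shift_linear (T := T) R n
  rw [Functor.map_smul, CategoryTheory.Functor.map_id]

theorem FieldObj.eq_of_bp_le (F : FieldObj p T) (F' : FieldObj q T) (h : Bp F.k ≤ Bp F'.k) :
    p = q := by
  have hu : IsCpt (𝟙_ T) := Mg.unit_cpt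
  ext a
  constructor
  · intro ha
    by_contra ha'
    obtain ⟨X, j, w, hD⟩ := distinguished_cocone_triangle₁ (a • 𝟙 (𝟙_ T))
    have hX : IsCpt X := isCpt_obj₁ _ hD hu hu
    have h1 : WB (Bp F.k) j := (bp_coker_iff F.k j hX hu).2 fun n e he => by
      obtain ⟨g, hg⟩ := Triangle.yoneda_exact₂ _ hD e he
      refine hg.trans (A9_comp_unit F (a • 𝟙 (𝟙_ T)) ?_ n g)
      rw [Linear.smul_comp, Category.id_comp, ← Category.comp_id F.η, ← Linear.comp_smul,
        F.smul_eq_zero ha, comp_zero]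
    have hj : j ≫ (a • 𝟙 (𝟙_ T)) = 0 := comp_distTriang_mor_zero₁₂ _ hD
    have h2 := (bp_coker_iff F'.k j hX hu).1 (h _ h1) 0
      ((a • 𝟙 (𝟙_ T)) ≫ F'.η ≫ (shiftFunctorZero T ℤ).inv.app F'.k)
      (by rw [← Category.assoc, hj, zero_comp])
    have := F'.isIso_smul ha'
    refine F'.η_ne_zero ?_
    rw [← cancel_mono (a • 𝟙 F'.k), ← cancel_mono ((shiftFunctorZero T ℤ).inv.app F'.k),
      zero_comp, zero_comp, ← h2, Linear.comp_smul, Linear.smul_comp, Linear.smul_comp,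
      Category.comp_id, Category.id_comp]
  · intro ha
    by_contra ha'
    have := F.isIso_smul ha'
    have h1 : WB (Bp F.k) (a • 𝟙 (𝟙_ T)) := (bp_coker_iff F.k _ hu hu).2 fun n e he => by
      rw [Linear.smul_comp, Category.id_comp] at he
      rw [← cancel_mono ((a • 𝟙 F.k)⟦n⟧'), A9_smul_shift, Linear.comp_smul, Category.comp_id, he,
        zero_comp]
    have h2 := (bp_coker_iff F'.k _ hu hu).1 (h _ h1) 0
      (F'.η ≫ (shiftFunctorZero T ℤ).inv.app F'.k) (by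
        rw [Linear.smul_comp, Category.id_comp, ← Linear.smul_comp, ← Category.comp_id F'.η,
          ← Linear.comp_smul, F'.smul_eq_zero ha, comp_zero, zero_comp])
    refine F'.η_ne_zero ?_
    rw [← cancel_mono ((shiftFunctorZero T ℤ).inv.app F'.k), h2, zero_comp]

end Pool.Agent.MP_e18349_al.TT

end

-- part A11
section

/-! Row A11: uniqueness of `E_B`. -/

namespace Pool.Agent.MP_e18349_al.TT

open CategoryTheory Limits MonoidalCategory Opposite Pretriangulated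

section A11aux

variable {T : Type 1} [Category.{0} T] [Preadditive T] [HasCoproducts.{0} T]

theorem A11_fin {c : T} (hc : IsCpt c) {ι : Type} [DecidableEq ι] (x : ι → T) (f : c ⟶ ∐ x) :
    {i | f ≫ Sigma.π x i ≠ 0}.Finite := by
  obtain ⟨s, g, rfl⟩ := hc ι x f
  refine s.finite_toSet.subset fun i hi => ?_
  by_contra h
  refine hi ?_
  rw [Preadditive.sum_comp]
  refine Finset.sum_eq_zero fun j hj => ?_
  have hne : j ≠ i := fun e => h (e ▸ hj)
  rw [Category.assoc, Sigma.ι_π_of_ne _ hne, comp_zero]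

theorem A11_desc {c : T} (hc : IsCpt c) {ι : Type} (x : ι → T) {A : Type} [AddCommGroup A]
    (s : ∀ i, (c ⟶ x i) →+ A) :
    ∃ d : (c ⟶ ∐ x) →+ A, ∀ (i : ι) (g : c ⟶ x i), d (g ≫ Sigma.ι x i) = s i g := by
  classical
  have hfin : ∀ f : c ⟶ ∐ x, (Function.support fun i => s i (f ≫ Sigma.π x i)).Finite :=
    fun f => (A11_fin hc x f).subset fun i hi h =>
      hi ((congrArg (s i) h).trans (map_zero _))
  refine ⟨AddMonoidHom.mk' (fun f => ∑ᶠ i, s i (f ≫ Sigma.π x i)) fun f f' => ?_,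
    fun i g => ?_⟩
  · rw [← finsum_add_distrib (hfin f) (hfin f')]
    exact finsum_congr fun i => by rw [Preadditive.add_comp, map_add]
  · refine (finsum_eq_single _ i fun j hj => ?_).trans ?_
    · rw [Category.assoc, Sigma.ι_π_of_ne _ hj.symm, comp_zero, map_zero]
    · rw [Category.assoc, Sigma.ι_π_eq_id, Category.comp_id]

theorem A11_ext {c : T} (hc : IsCpt c) {ι : Type} (x : ι → T) {A : Type} [AddCommGroup A]
    (d d' : (c ⟶ ∐ x) →+ A)
    (h : ∀ (i : ι) (g : c ⟶ x i), d (g ≫ Sigma.ι x i) = d' (g ≫ Sigma.ι x i)) : d = d' := by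
  ext f
  obtain ⟨s, g, rfl⟩ := hc ι x f
  rw [map_sum, map_sum]
  exact Finset.sum_congr rfl fun i _ => h i (g i)

theorem A11_preserves (ι : Type) : PreservesColimitsOfShape (Discrete ι) (resYoneda T) := by
  refine preservesColimitsOfShape_of_evaluation _ _ fun c => ?_
  have : ∀ x : ι → T, PreservesColimit (Discrete.functor x)
      (resYoneda T ⋙ (evaluation _ _).obj c) := fun x => by
    refine preservesColimit_of_preserves_colimit_cocone (coproductIsCoproduct x) ?_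
    refine (isColimitMapCoconeCofanMkEquiv _ _ _).symm ?_
    have hd := fun s : Cofan fun i => (resYoneda T ⋙ (evaluation _ _).obj c).obj (x i) =>
      A11_desc c.unop.property x fun i => (s.inj i).hom
    choose d hd using hd
    refine Cofan.IsColimit.mk _ (fun s => AddCommGrpCat.ofHom (d s)) (fun s i => ?_)
      fun s m hm => ?_
    · ext g
      exact hd s i g
    · refine AddCommGrpCat.hom_ext (A11_ext c.unop.property x _ _ fun i g => ?_)
      exact (congrArg (fun z : (resYoneda T ⋙ (evaluation _ _).obj c).obj (x i) ⟶ s.pt =>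
        z.hom g) (hm i)).trans (hd s i g).symm
  exact preservesColimitsOfShape_of_discrete _

theorem A11_mono {E E' : T} (u : E ⟶ E')
    (h : ∀ (c : T) (e : c ⟶ E), IsCpt c → e ≫ u = 0 → e = 0) : Mono ((resYoneda T).map u) := by
  rw [NatTrans.mono_iff_mono_app]
  intro c
  rw [AddCommGrpCat.mono_iff_injective, injective_iff_map_eq_zero]
  exact fun e he => h c.unop.obj e c.unop.property he

theorem A11_ess {o E E' : T} (η : o ⟶ E) (η' : o ⟶ E') (u : E ⟶ E') (hu : η ≫ u = η')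
    (hk : ∀ (c : T) (f : c ⟶ o), IsCpt c → f ≫ η' = 0 → f ≫ η = 0)
    (hess : ∀ (c : T) (e : c ⟶ E), IsCpt c → e ≠ 0 →
      ∃ (d : T) (a : d ⟶ c) (b : d ⟶ o), IsCpt d ∧ a ≫ e = b ≫ η ∧ a ≫ e ≠ 0) :
    Mono ((resYoneda T).map u) := by
  refine A11_mono u fun c e hc he => ?_
  by_contra h
  obtain ⟨d, a, b, hd, h1, h2⟩ := hess c e hc h
  refine h2 (h1.trans (hk d b hd ?_))
  rw [← hu, ← Category.assoc, ← h1, Category.assoc, he, comp_zero]

end A11aux

variable {T : Type 1} [Category.{0} T] [Preadditive T] [HasCoproducts.{0} T]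
  [HasZeroObject T] [HasShift T ℤ] [∀ n : ℤ, (shiftFunctor T n).Additive] [Pretriangulated T]
  [IsTriangulated T] [MonoidalCategory T] [SymmetricCategory T] [MonoidalPreadditive T]
  [MonoidalClosed T] [Mg T]

theorem resYoneda_preserves_coprod (ι : Type) :
    PreservesColimitsOfShape (Discrete ι) (resYoneda T) := A11_preserves ι

theorem IsInjectiveMod.map_bijective {E : T} (hE : IsInjectiveMod ((resYoneda T).obj E))
    (t : T) : Function.Bijective fun f : t ⟶ E => (resYoneda T).map f := by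
  have := resYoneda_additive (T := T)
  have := A11_preserves (T := T)
  have hI : CohAt (resYoneda T) ((resYoneda T).obj E) := fun D hD φ hφ => by
    have w : (resYoneda T).map D.mor₁ ≫ (resYoneda T).map D.mor₂ = 0 := by
      rw [← Functor.map_comp, comp_distTriang_mor_zero₁₂ D hD, Functor.map_zero]
    have := resYoneda_obj_additive D.obj₂
    obtain ⟨ψ, hψ⟩ := hE.2 _ _ (a8_additive_of_epi (cokernel.π ((resYoneda T).map D.mor₁)))
      (resYoneda_obj_additive D.obj₃) _ (mono_cokernel_desc D hD w) (cokernel.desc _ φ hφ)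
    refine ⟨ψ, ?_⟩
    rw [← cokernel.π_desc _ φ hφ, ← hψ, cokernel.π_desc_assoc]
  have key : ∀ t : T, (fun g : t ⟶ E => (resYoneda T).map g ≫ 𝟙 _) =
      fun g : t ⟶ E => (resYoneda T).map g := fun t => funext fun g => Category.comp_id _
  rw [← key t]
  refine bij_of_gen Mg.gen (resYoneda T) _ hI E (𝟙 _) (fun n => ?_) t
  rw [key]
  exact resYoneda_map_bijective (isCpt_shift Mg.unit_cpt n) E

theorem IsE.unique {B : ObjectProperty (Psh T)} {E E' : T} (h : IsE B E) (h' : IsE B E') :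
    Nonempty (E ≅ E') := by
  obtain ⟨hE, η, hk, hess⟩ := h
  obtain ⟨hE', η', hk', hess'⟩ := h'
  have hkk : ∀ (c : T) (f : c ⟶ 𝟙_ T), IsCpt c → (f ≫ η = 0 ↔ f ≫ η' = 0) :=
    fun c f hc => (hk c f hc).trans (hk' c f hc).symm
  have w : kernel.ι ((resYoneda T).map η) ≫ (resYoneda T).map η' = 0 := by
    ext c z
    exact (hkk c.unop.obj _ c.unop.property).1
      (congrArg (fun y : kernel ((resYoneda T).map η) ⟶ (resYoneda T).obj E =>
        (y.app c).hom z) (kernel.condition ((resYoneda T).map η)))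
  have := resYoneda_obj_additive (𝟙_ T)
  obtain ⟨φ, hφ⟩ := hE'.2 _ _ (a8_additive_of_epi (Abelian.coimage.π ((resYoneda T).map η)))
    (resYoneda_obj_additive E) (Abelian.factorThruCoimage ((resYoneda T).map η)) inferInstance
    (cokernel.desc _ _ w)
  obtain ⟨u, rfl⟩ := (hE'.map_bijective E).2 φ
  have hu : η ≫ u = η' := by
    refine (hE'.map_bijective _).1 ?_
    change (resYoneda T).map (η ≫ u) = (resYoneda T).map η'
    rw [Functor.map_comp, ← Abelian.coimage.fac ((resYoneda T).map η), Category.assoc]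
    exact (congrArg _ hφ).trans (cokernel.π_desc _ _ _)
  obtain ⟨ψ, hψ⟩ := hE.2 _ _ (resYoneda_obj_additive E) (resYoneda_obj_additive E') _
    (A11_ess η η' u hu (fun c f hc => (hkk c f hc).2) hess) (𝟙 _)
  obtain ⟨v, rfl⟩ := (hE.map_bijective E').2 ψ
  have huv : u ≫ v = 𝟙 E := by
    refine (hE.map_bijective _).1 ?_
    change (resYoneda T).map (u ≫ v) = (resYoneda T).map (𝟙 E)
    rw [Functor.map_comp, CategoryTheory.Functor.map_id]
    exact hψ
  have hv : η' ≫ v = η := by rw [← hu, Category.assoc, huv, Category.comp_id]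
  have := A11_ess η' η v hv (fun c f hc => (hkk c f hc).1) hess'
  refine ⟨⟨u, v, huv, (hE'.map_bijective _).1 ?_⟩⟩
  change (resYoneda T).map (v ≫ u) = (resYoneda T).map (𝟙 E')
  rw [← cancel_mono ((resYoneda T).map v), ← Functor.map_comp, ← Functor.map_comp,
    Category.assoc, huv, Category.comp_id, Category.id_comp]

end Pool.Agent.MP_e18349_al.TT

end
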