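import Pool.Agent.MP_e18349_al.TT.MB

-- part A10
section

/-! Row A10: the homological spectrum. -/

namespace Pool.Agent.MP_e18349_al.TT

open CategoryTheory Limits MonoidalCategory Opposite Pretriangulated

variable {T : Type 1} [Category.{0} T] [Preadditive T] [HasCoproducts.{0} T]
  [HasZeroObject T] [HasShift T ℤ] [∀ n : ℤ, (shiftFunctor T n).Additive] [Pretriangulated T]
  [IsTriangulated T] [MonoidalCategory T] [SymmetricCategory T] [MonoidalPreadditive T]
  [MonoidalClosed T] [Mg T]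
  {R : Type} [CommRing R] [Linear R T] [MonoidalLinear R T]

/-- Every map from a compact object to `t` is killed by a map whose cokernel lies in `B`. -/
def KillB (B : ObjectProperty (Psh T)) (t : T) : Prop :=
  ∀ c : T, IsCpt c → ∀ m : c ⟶ t,
    ∃ (c' : T) (s : c' ⟶ c), IsCpt c' ∧ WB B s ∧ s ≫ m = 0

theorem a10_isLoc {B : ObjectProperty (Psh T)} (hB : IsSerreIdeal B) : IsLoc (KillB B) := by
  refine IsLoc.mk' _ ?_ ?_ ?_ ?_
  · intro x y e hx c hc m
    obtain ⟨c', s, hc', hs, h0⟩ := hx c hc (m ≫ e.inv)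
    refine ⟨c', s, hc', hs, ?_⟩
    rw [← cancel_mono e.inv, Category.assoc, h0, zero_comp]
  · intro x n hx c hc m
    obtain ⟨c', s, hc', hs, h0⟩ := hx (c⟦-n⟧) (isCpt_shift hc _)
      (m⟦-n⟧' ≫ (shiftShiftNeg x n).hom)
    have h1 : s ≫ m⟦-n⟧' = 0 := by
      rw [← cancel_mono ((shiftShiftNeg x n).hom), Category.assoc]
      exact h0.trans zero_comp.symm
    let ε : c⟦-n⟧⟦n⟧ ⟶ c := (shiftEquiv T n).counitIso.hom.app c
    have : IsIso ε := inferInstanceAs (IsIso ((shiftEquiv T n).counitIso.hom.app c))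
    refine ⟨c'⟦n⟧, s⟦n⟧' ≫ ε, isCpt_shift hc' _, ?_, ?_⟩
    · exact hB.wb_comp _ _ (isCpt_shift hc' _) (isCpt_shift (isCpt_shift hc _) _) hc
        (hB.wb_shift s hc' (isCpt_shift hc _) hs n) (hB.wb_of_isSplitEpi ε)
    · have hn : ε ≫ m = (m⟦-n⟧')⟦n⟧' ≫ (shiftEquiv T n).counitIso.hom.app (x⟦n⟧) :=
        ((shiftEquiv T n).counitIso.hom.naturality m).symm
      rw [Category.assoc, hn, ← Category.assoc, ← Functor.map_comp, h1, Functor.map_zero]
      exact zero_comp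
  · intro D hD h1 h3 c hc m
    obtain ⟨c', s, hc', hs, h0⟩ := h3 c hc (m ≫ D.mor₂)
    obtain ⟨m', hm'⟩ := Triangle.coyoneda_exact₂ D hD (s ≫ m) (by rw [Category.assoc, h0])
    obtain ⟨c'', s', hc'', hs', h0'⟩ := h1 c' hc' m'
    refine ⟨c'', s' ≫ s, hc'', hB.wb_comp _ _ hc'' hc' hc hs' hs, ?_⟩
    rw [Category.assoc, hm', ← Category.assoc, h0', zero_comp]
  · intro ι x hx c hc m
    obtain ⟨S, g, rfl⟩ := hc ι x m
    have key : ∃ (c' : T) (s : c' ⟶ c), IsCpt c' ∧ WB B s ∧ ∀ i ∈ S, s ≫ g i = 0 := by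
      classical
      induction S using Finset.induction_on with
      | empty => exact ⟨c, 𝟙 c, hc, hB.wb_of_isSplitEpi _, by simp⟩
      | insert a S _ ih =>
        obtain ⟨c1, s1, hc1, hs1, h1⟩ := ih
        obtain ⟨c2, s2, hc2, hs2, h2⟩ := hx a c1 hc1 (s1 ≫ g a)
        refine ⟨c2, s2 ≫ s1, hc2, hB.wb_comp _ _ hc2 hc1 hc hs2 hs1, fun i hi => ?_⟩
        rcases Finset.mem_insert.1 hi with rfl | hi
        · rw [Category.assoc, h2]
        · rw [Category.assoc, h1 i hi, comp_zero]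
    obtain ⟨c', s, hc', hs, h0⟩ := key
    refine ⟨c', s, hc', hs, ?_⟩
    rw [Preadditive.comp_sum]
    refine Finset.sum_eq_zero fun i hi => ?_
    rw [← Category.assoc, h0 i hi, zero_comp]

theorem a10_kill {p : PrimeSpectrum R} (F : FieldObj p T) (hconn : Conn (𝟙_ T))
    {B : ObjectProperty (Psh T)} (hB : IsSerreIdeal B) {x y : T} (f : x ⟶ y) (hx : IsCpt x)
    (hy : IsCpt y) (hf : WB B f) (e : y ⟶ F.k) (he : e ≠ 0) (hfe : f ≫ e = 0) :
    KillB B F.k := by
  obtain ⟨d, a, b, hd, hab, hne⟩ := F.essential hconn y e hy he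
  obtain ⟨d', s0, v, hd', hs0, hw0⟩ := hB.wb_pullback f a hx hy hd hf
  have hz : F.k ◁ (s0 ≫ b) = 0 := by
    refine F.whisker_eq_zero _ ?_
    rw [Category.assoc, ← hab, ← Category.assoc, hs0, Category.assoc, hfe, comp_zero]
  have : IsSplitEpi (F.k ◁ b) := F.isSplitEpi_whisker b (hab ▸ hne)
  intro c hc m
  obtain ⟨z, u, n', hzc, hu⟩ :=
    factor_tensor hc hd (m ≫ (ρ_ F.k).inv ≫ section_ (F.k ◁ b))
  obtain ⟨c', s, v', hc', hs, hw⟩ := hB.wb_pullback (z ◁ s0) u (isCpt_tensor hzc hd')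
    (isCpt_tensor hzc hd) hc (hB.tensor z d' d s0 hzc hd' hd hw0)
  refine ⟨c', s, hc', hw, ?_⟩
  have h1 : m = (u ≫ n' ▷ d) ≫ F.k ◁ b ≫ (ρ_ F.k).hom := by
    rw [← hu]
    simp
  rw [h1, Category.assoc, ← Category.assoc s u, hs, Category.assoc,
    whisker_exchange_assoc, ← MonoidalCategory.whiskerLeft_comp_assoc, hz]
  simp

theorem exists_le_bp (F : ∀ p : PrimeSpectrum R, FieldObj p T) (hconn : Conn (𝟙_ T))
    (hgen : ∀ L : ObjectProperty T, IsLoc L → (∀ p, L (F p).k) → L (𝟙_ T))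
    {B : ObjectProperty (Psh T)} (hB : IsSerreIdeal B) (hne : B ≠ IsFP) :
    ∃ p, B ≤ Bp (F p).k := by
  by_contra hcon
  have hall : ∀ p, KillB B (F p).k := by
    intro p
    by_contra hp
    refine hcon ⟨p, fun M hM => ?_⟩
    obtain ⟨x, y, f, hx, hy, ⟨φ⟩⟩ := hB.fp M hM
    refine (F p).isSerreIdeal.of_iso φ.symm ?_
    refine (bp_coker_iff (F p).k f hx hy).2 fun n e hfe => ?_
    by_contra he
    refine hp (a10_kill (F p) hconn hB (f⟦-n⟧') (isCpt_shift hx _) (isCpt_shift hy _)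
      (hB.wb_shift f hx hy (hB.of_iso φ hM) (-n))
      (e⟦-n⟧' ≫ (shiftShiftNeg (F p).k n).hom) ?_ ?_)
    · intro h0
      have h1 : e⟦-n⟧' = 0 := by
        rw [← cancel_mono ((shiftShiftNeg (F p).k n).hom)]
        exact h0.trans zero_comp.symm
      exact he ((shiftFunctor T (-n)).map_injective (by rw [h1, Functor.map_zero]))
    · rw [← Category.assoc, ← Functor.map_comp, hfe, Functor.map_zero]
      exact zero_comp
  obtain ⟨c', s, -, hs, h0⟩ := hgen _ (a10_isLoc hB) hall (𝟙_ T) Mg.unit_cpt (𝟙 _)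
  rw [Category.comp_id] at h0
  exact hB.not_wb_zero hne c' (h0 ▸ hs)

theorem isHomPrime_iff (F : ∀ p : PrimeSpectrum R, FieldObj p T) (hconn : Conn (𝟙_ T))
    (hgen : ∀ L : ObjectProperty T, IsLoc L → (∀ p, L (F p).k) → L (𝟙_ T))
    (B : ObjectProperty (Psh T)) : IsHomPrime B ↔ ∃ p, B = Bp (F p).k := by
  constructor
  · intro h
    obtain ⟨p, hp⟩ := exists_le_bp F hconn hgen h.prop.1 h.prop.2
    exact ⟨p, le_antisymm hp (h.le_of_ge ⟨(F p).isSerreIdeal, (F p).bp_ne⟩ hp)⟩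
  · rintro ⟨p, rfl⟩
    refine ⟨⟨(F p).isSerreIdeal, (F p).bp_ne⟩, fun B' hB' hle => ?_⟩
    obtain ⟨q, hq⟩ := exists_le_bp F hconn hgen hB'.1 hB'.2
    obtain rfl : p = q := (F p).eq_of_bp_le (F q) (hle.trans hq)
    exact hq

end Pool.Agent.MP_e18349_al.TT

end

-- part A12
section

/-! Row A12: the Balmer spectrum. -/

namespace Pool.Agent.MP_e18349_al.TT

open CategoryTheory Limits MonoidalCategory Opposite Pretriangulated

variable {T : Type 1} [Category.{0} T] [Preadditive T] [HasCoproducts.{0} T]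
  [HasZeroObject T] [HasShift T ℤ] [∀ n : ℤ, (shiftFunctor T n).Additive] [Pretriangulated T]
  [IsTriangulated T] [MonoidalCategory T] [SymmetricCategory T] [MonoidalPreadditive T]
  [MonoidalClosed T] [Mg T]
  {R : Type} [CommRing R] [Linear R T] [MonoidalLinear R T]

omit [HasCoproducts.{0} T] [HasZeroObject T] [Pretriangulated T] [IsTriangulated T]
  [MonoidalCategory T] [SymmetricCategory T] [MonoidalPreadditive T] [MonoidalClosed T]
  [Mg T] in
theorem a12_unshift {x : T} (n : ℤ) (h : IsZero (x⟦n⟧)) : IsZero x :=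
  ((shiftFunctor T (-n)).map_isZero h).of_iso (shiftShiftNeg x n).symm

omit [HasCoproducts.{0} T] [HasZeroObject T] [HasShift T ℤ]
  [∀ n : ℤ, (shiftFunctor T n).Additive] [Pretriangulated T] [IsTriangulated T]
  [SymmetricCategory T] [MonoidalClosed T] [Mg T] in
theorem a12_tensor_zero (x : T) {y : T} (h : IsZero y) : IsZero (x ⊗ y) :=
  (tensorLeft x).map_isZero h

theorem FieldObj.isPrime {p : PrimeSpectrum R} (F : FieldObj p T) : IsPrime (Pp F.k) := by
  refine ⟨fun x h => h.1, ?_, ⟨fun r h => ⟨isCpt_retract r h.1, fun n e => ?_⟩⟩, ?_, ?_, ?_⟩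
  · let Q : ObjectProperty T := fun x => IsZero (F.k ⊗ x)
    have hQ : IsLoc Q := isLoc_isZero.tensor F.k
    have := hQ.triangulated
    have := hQ.iso
    let C : ObjectProperty T := IsCpt
    have : C.IsTriangulated := isCpt_isTriangulated
    have h : Pp F.k = C ⊓ Q := by
      funext x
      apply propext
      constructor
      · intro h
        exact ⟨h.1, ((F.pp_iff h.1).1 h).of_iso (β_ _ _)⟩
      · intro h
        exact (F.pp_iff h.1).2 (IsZero.of_iso h.2 (β_ _ _))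
    rw [h]
    infer_instance
  · rw [← Category.id_comp e, ← r.retract, Category.assoc, h.2 n (r.r ≫ e), comp_zero]
  · intro x y hx hy
    exact (F.pp_iff (isCpt_tensor hx hy.1)).2
      ((a12_tensor_zero x ((F.pp_iff hy.1).1 hy)).of_iso (α_ _ _ _))
  · intro h
    exact F.not_isZero (((F.pp_iff h.1).1 h).of_iso (λ_ _).symm)
  · intro x y hx hy h
    by_cases hy' : IsZero (y ⊗ F.k)
    · exact Or.inr ((F.pp_iff hy).2 hy')
    · refine Or.inl ((F.pp_iff hx).2 ?_)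
      obtain ⟨n, ⟨r⟩⟩ := F.retract y hy'
      obtain ⟨e⟩ := tensor_shift_right x F.k n
      have h1 : IsZero (x ⊗ (y ⊗ F.k)) := ((F.pp_iff h.1).1 h).of_iso (α_ _ _ _).symm
      have h2 : IsZero (x ⊗ F.k⟦n⟧) := by
        rw [IsZero.iff_id_eq_zero, ← MonoidalCategory.whiskerLeft_id, ← r.retract,
          MonoidalCategory.whiskerLeft_comp, h1.eq_of_src (x ◁ r.r) 0, comp_zero]
      exact a12_unshift n (h2.of_iso e.symm)

theorem FieldObj.eq_of_pp_eq {p q : PrimeSpectrum R} (F : FieldObj p T) (F' : FieldObj q T)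
    (h : Pp F.k = Pp F'.k) : p = q := by
  ext a
  obtain ⟨z, g, w, hD⟩ := distinguished_cocone_triangle (a • 𝟙 (𝟙_ T))
  have h1 := F.pp_cone a g w hD
  have h2 := F'.pp_cone a g w hD
  rw [h, h2] at h1
  exact (not_iff_not.1 h1).symm

/-- `m` becomes zero in `T^c / P` after tensoring with a compact object outside `P`. -/
def NullP (P : ObjectProperty T) {y w : T} (m : y ⟶ w) : Prop :=
  ∃ (x y' : T) (s : y' ⟶ x ⊗ y), IsCpt x ∧ ¬ P x ∧ IsCpt y' ∧ P.trW s ∧ s ≫ x ◁ m = 0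

/-- All maps from compact objects to `z ⊗ t`, `z` compact, are null. -/
def KillP (P : ObjectProperty T) (t : T) : Prop :=
  ∀ y z : T, IsCpt y → IsCpt z → ∀ m : y ⟶ z ⊗ t, NullP P m

variable {P : ObjectProperty T}

omit [IsTriangulated T] [SymmetricCategory T] [MonoidalPreadditive T] [MonoidalClosed T]
  [Mg T] in
theorem NullP.comp {y w w' : T} {m : y ⟶ w} (h : NullP P m) (g : w ⟶ w') :
    NullP P (m ≫ g) := by
  obtain ⟨x, y', s, hx, hxP, hy', hs, h0⟩ := h
  refine ⟨x, y', s, hx, hxP, hy', hs, ?_⟩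
  rw [MonoidalCategory.whiskerLeft_comp, ← Category.assoc, h0, zero_comp]

omit [IsTriangulated T] [SymmetricCategory T] [MonoidalPreadditive T] [MonoidalClosed T]
  [Mg T] in
theorem NullP.of_iso {y w w' : T} {m : y ⟶ w} (e : w ≅ w') (h : NullP P (m ≫ e.hom)) :
    NullP P m := by
  simpa using h.comp e.inv

theorem a12_trW (hP : IsPrime P) {x₁ x₂ y y₁ y₂ : T} (hx₂ : IsCpt x₂) {s₁ : y₁ ⟶ x₁ ⊗ y}
    {s₂ : y₂ ⟶ x₂ ⊗ y₁} (h₁ : P.trW s₁) (h₂ : P.trW s₂) :
    P.trW (s₂ ≫ x₂ ◁ s₁ ≫ (α_ x₂ x₁ y).inv) := by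
  have := hP.triangulated
  refine P.trW.comp_mem _ _ h₂ (P.trW.comp_mem _ _ ?_ (P.trW_of_isIso _))
  obtain ⟨Z, g, w, hD, hZ⟩ := h₁
  obtain ⟨w', hD'⟩ := tensor_triangle x₂ _ hD
  exact ⟨_, _, w', hD', hP.ideal _ _ hx₂ hZ⟩

omit [HasCoproducts.{0} T] [HasZeroObject T] [HasShift T ℤ] [Preadditive T]
  [∀ n : ℤ, (shiftFunctor T n).Additive] [Pretriangulated T] [IsTriangulated T]
  [SymmetricCategory T] [MonoidalPreadditive T] [MonoidalClosed T] [Mg T] in
theorem a12_eq {x₁ x₂ y y₁ y₂ w : T} (s₁ : y₁ ⟶ x₁ ⊗ y) (s₂ : y₂ ⟶ x₂ ⊗ y₁) (m : y ⟶ w) :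
    (s₂ ≫ x₂ ◁ s₁ ≫ (α_ x₂ x₁ y).inv) ≫ (x₂ ⊗ x₁) ◁ m =
      (s₂ ≫ x₂ ◁ (s₁ ≫ x₁ ◁ m)) ≫ (α_ x₂ x₁ w).inv := by
  simp

theorem NullP.step (hP : IsPrime P) {x₁ y y₁ w : T} (hx₁ : IsCpt x₁) (hP₁ : ¬ P x₁)
    {s₁ : y₁ ⟶ x₁ ⊗ y} (h₁ : P.trW s₁) {m : y ⟶ w} (h : NullP P (s₁ ≫ x₁ ◁ m)) :
    NullP P m := by
  obtain ⟨x₂, y₂, s₂, hx₂, hP₂, hy₂, h₂, h0⟩ := h
  refine ⟨x₂ ⊗ x₁, y₂, _, isCpt_tensor hx₂ hx₁, fun h => ?_, hy₂, a12_trW hP hx₂ h₁ h₂, ?_⟩
  · exact (hP.prime _ _ hx₂ hx₁ h).elim hP₂ hP₁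
  · rw [a12_eq, h0, zero_comp]

theorem a12_isLoc (hP : IsPrime P) : IsLoc (KillP P) := by
  have := hP.triangulated
  refine IsLoc.mk' _ ?_ ?_ ?_ ?_
  · intro t t' e ht y z hy hz m
    exact NullP.of_iso (whiskerLeftIso z e.symm) (ht y z hy hz _)
  · intro t n ht y z hy hz m
    obtain ⟨e₁⟩ := tensor_shift_right z t n
    obtain ⟨e₂⟩ := tensor_shift_left z t n
    exact NullP.of_iso (e₁ ≪≫ e₂.symm) (ht y _ hy (isCpt_shift hz n) _)
  · intro D hD h1 h3 y z hy hz m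
    obtain ⟨x₁, y₁, s₁, hx₁, hP₁, hy₁, h₁, h0⟩ := h3 y z hy hz (m ≫ z ◁ D.mor₂)
    obtain ⟨w, hD'⟩ := tensor_triangle (x₁ ⊗ z) D hD
    obtain ⟨m', hm'⟩ := Triangle.coyoneda_exact₂ _ hD'
      ((s₁ ≫ x₁ ◁ m) ≫ (α_ x₁ z D.obj₂).inv) (by
        have : ((s₁ ≫ x₁ ◁ m) ≫ (α_ x₁ z D.obj₂).inv) ≫ (x₁ ⊗ z) ◁ D.mor₂ =
            (s₁ ≫ x₁ ◁ (m ≫ z ◁ D.mor₂)) ≫ (α_ x₁ z D.obj₃).inv := by simp
        rw [h0, zero_comp] at this
        exact this)
    refine NullP.step hP hx₁ hP₁ h₁ (NullP.of_iso (α_ x₁ z D.obj₂).symm ?_)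
    have hm'' : (s₁ ≫ x₁ ◁ m) ≫ (α_ x₁ z D.obj₂).inv =
        (m' : y₁ ⟶ (x₁ ⊗ z) ⊗ D.obj₁) ≫ (x₁ ⊗ z) ◁ D.mor₁ := hm'
    rw [Iso.symm_hom, hm'']
    exact (h1 y₁ _ hy₁ (isCpt_tensor hx₁ hz) m').comp _
  · intro ι t ht y z hy hz m
    refine NullP.of_iso (PreservesCoproduct.iso (tensorLeft z) t) ?_
    obtain ⟨S, g, hg⟩ := hy ι _ (m ≫ (PreservesCoproduct.iso (tensorLeft z) t).hom)
    have key : ∃ (x y' : T) (s : y' ⟶ x ⊗ y), IsCpt x ∧ ¬ P x ∧ IsCpt y' ∧ P.trW s ∧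
        ∀ i ∈ S, s ≫ x ◁ g i = 0 := by
      classical
      clear hg
      induction S using Finset.induction_on with
      | empty =>
        exact ⟨𝟙_ T, _, 𝟙 _, Mg.unit_cpt, hP.proper, isCpt_tensor Mg.unit_cpt hy,
          P.trW_of_isIso _, by simp⟩
      | insert a S _ ih =>
        obtain ⟨x₁, y₁, s₁, hx₁, hP₁, hy₁, h₁, h0⟩ := ih
        have hn : NullP P (s₁ ≫ x₁ ◁ g a) :=
          NullP.of_iso (α_ x₁ z (t a)).symm (ht a y₁ _ hy₁ (isCpt_tensor hx₁ hz) _)
        obtain ⟨x₂, y₂, s₂, hx₂, hP₂, hy₂, h₂, h0'⟩ := hn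
        refine ⟨x₂ ⊗ x₁, y₂, _, isCpt_tensor hx₂ hx₁,
          fun h => (hP.prime _ _ hx₂ hx₁ h).elim hP₂ hP₁, hy₂, a12_trW hP hx₂ h₁ h₂,
          fun i hi => ?_⟩
        rcases Finset.mem_insert.1 hi with rfl | hi
        · rw [a12_eq, h0', zero_comp]
        · rw [a12_eq, h0 i hi, MonoidalPreadditive.whiskerLeft_zero, comp_zero, zero_comp]
    obtain ⟨x, y', s, hx, hxP, hy', hs, h0⟩ := key
    refine ⟨x, y', s, hx, hxP, hy', hs, ?_⟩
    rw [hg, whiskerLeft_sum, Preadditive.comp_sum]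
    refine Finset.sum_eq_zero fun i hi => ?_
    rw [MonoidalCategory.whiskerLeft_comp, ← Category.assoc, h0 i hi, zero_comp]

theorem a12_not_unit (hP : IsPrime P) : ¬ KillP P (𝟙_ T) := by
  intro h
  have := hP.thick
  obtain ⟨x, y', s, -, hxP, -, ⟨Z, g, w, hD, hZ⟩, h0⟩ :=
    h _ _ Mg.unit_cpt Mg.unit_cpt (ρ_ (𝟙_ T)).inv
  have hs : s = 0 := by
    rw [← cancel_mono (x ◁ (ρ_ (𝟙_ T)).inv), h0, zero_comp]
  have hex : ∃ r : Z ⟶ x ⊗ 𝟙_ T, 𝟙 (x ⊗ 𝟙_ T) = g ≫ r :=
    Triangle.yoneda_exact₂ _ hD (𝟙 _) ((Category.comp_id _).trans hs)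
  obtain ⟨r, hr⟩ := hex
  refine hxP (P.prop_of_retract ⟨(ρ_ x).inv ≫ g, r ≫ (ρ_ x).hom, ?_⟩ hZ)
  rw [Category.assoc, ← Category.assoc g, ← hr]
  simp

theorem a12_kill {p : PrimeSpectrum R} (F : FieldObj p T) (hP : IsPrime P)
    (hne : P ≠ Pp F.k) : KillP P F.k := by
  have := hP.triangulated
  intro y z hy hz m
  by_cases hA : ∃ x, Pp F.k x ∧ ¬ P x
  · obtain ⟨x, hx, hxP⟩ := hA
    refine ⟨x, _, 𝟙 _, hx.1, hxP, isCpt_tensor hx.1 hy, P.trW_of_isIso _, ?_⟩
    have h1 : IsZero (x ⊗ (z ⊗ F.k)) :=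
      (a12_tensor_zero z ((F.pp_iff hx.1).1 hx)).of_iso
        ((α_ _ _ _).symm ≪≫ whiskerRightIso (β_ x z) F.k ≪≫ α_ _ _ _)
    exact h1.eq_of_tgt _ _
  · have hB : ∃ x, P x ∧ ¬ Pp F.k x := by
      by_contra hB
      refine hne (funext fun x => propext ⟨fun h => ?_, fun h => ?_⟩)
      · by_contra h'
        exact hB ⟨x, h, h'⟩
      · by_contra h'
        exact hA ⟨x, h, h'⟩
    obtain ⟨x₀, hx₀, hx₀'⟩ := hB
    have hc₀ := hP.cpt _ hx₀
    obtain ⟨n, ⟨r⟩⟩ := F.retract x₀ fun h => hx₀' ((F.pp_iff hc₀).2 h)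
    obtain ⟨e⟩ := tensor_shift_left x₀ F.k (-n)
    have hx' : P (x₀⟦-n⟧) := P.le_shift _ _ hx₀
    let i : F.k ⟶ F.k ⊗ x₀⟦-n⟧ :=
      (shiftShiftNeg F.k n).inv ≫ r.i⟦-n⟧' ≫ e.inv ≫ (β_ _ _).hom
    let j : F.k ⊗ x₀⟦-n⟧ ⟶ F.k :=
      (β_ _ _).inv ≫ e.hom ≫ r.r⟦-n⟧' ≫ (shiftShiftNeg F.k n).hom
    have hij : i ≫ j = 𝟙 _ := by
      simp only [i, j, Category.assoc, Iso.hom_inv_id_assoc, Iso.inv_hom_id_assoc]
      rw [← Functor.map_comp_assoc, r.retract, CategoryTheory.Functor.map_id, Category.id_comp,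
        Iso.inv_hom_id]
    obtain ⟨w, u, n', hw, hu⟩ := factor_tensor hy (hP.cpt _ hx')
      (m ≫ z ◁ i ≫ (α_ _ _ _).inv)
    have hm : m = u ≫ n' ▷ x₀⟦-n⟧ ≫ (α_ _ _ _).hom ≫ z ◁ j := by
      rw [← Category.assoc u, ← hu]
      simp only [Category.assoc, Iso.inv_hom_id_assoc]
      rw [← MonoidalCategory.whiskerLeft_comp, hij]
      simp
    rw [hm]
    refine NullP.comp ?_ _
    obtain ⟨y', s, v, hD⟩ := distinguished_cocone_triangle₁ (𝟙_ T ◁ u)
    have hPw : P (𝟙_ T ⊗ (w ⊗ x₀⟦-n⟧)) := hP.ideal _ _ Mg.unit_cpt (hP.ideal _ _ hw hx')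
    exact ⟨𝟙_ T, y', s, Mg.unit_cpt, hP.proper,
      isCpt_obj₁ _ hD (isCpt_tensor Mg.unit_cpt hy) (hP.cpt _ hPw), ⟨_, _, v, hD, hPw⟩,
      comp_distTriang_mor_zero₁₂ _ hD⟩

theorem exists_eq_pp (F : ∀ p : PrimeSpectrum R, FieldObj p T)
    (hgen : ∀ L : ObjectProperty T, IsLoc L → (∀ p, L (F p).k) → L (𝟙_ T))
    {P : ObjectProperty T} (hP : IsPrime P) : ∃ p, P = Pp (F p).k := by
  by_contra h
  exact a12_not_unit hP (hgen _ (a12_isLoc hP) fun p =>
    a12_kill (F p) hP fun e => h ⟨p, e⟩)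

end Pool.Agent.MP_e18349_al.TT

end

-- part A13
section

/-! Row A13: local-to-global principle and minimality. -/

namespace Pool.Agent.MP_e18349_al.TT

open CategoryTheory Limits MonoidalCategory Opposite Pretriangulated

variable {T : Type 1} [Category.{0} T] [Preadditive T] [HasCoproducts.{0} T]
  [HasZeroObject T] [HasShift T ℤ] [∀ n : ℤ, (shiftFunctor T n).Additive] [Pretriangulated T]
  [IsTriangulated T] [MonoidalCategory T] [SymmetricCategory T] [MonoidalPreadditive T]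
  [MonoidalClosed T] [Mg T]
  {R : Type} [CommRing R] [Linear R T] [MonoidalLinear R T]

omit [IsTriangulated T] [SymmetricCategory T] [MonoidalPreadditive T] [MonoidalClosed T]
  [Mg T] in
theorem IsLocIdeal.isLoc {L : ObjectProperty T} (hL : IsLocIdeal L) : IsLoc L :=
  ⟨hL.triangulated, hL.iso, hL.coprod⟩

omit [IsTriangulated T] [MonoidalCategory T] [SymmetricCategory T] [MonoidalPreadditive T]
  [MonoidalClosed T] [Mg T] in
theorem a13_zero {L : ObjectProperty T} (hL : IsLoc L) {x : T} (hx : IsZero x) : L x := by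
  have := hL.triangulated
  have := hL.iso
  exact L.prop_of_isZero hx

theorem isLocIdeal_loc (S : ObjectProperty T) : IsLocIdeal (Loc S) := by
  refine IsLoc.isLocIdeal (IsLoc.mk' _ ?_ ?_ ?_ ?_)
  · intro x y e hx L hL hS
    exact hL.isLoc.of_iso e (hx L hL hS)
  · intro x n hx L hL hS
    exact hL.isLoc.shift (hx L hL hS) n
  · intro D hD h1 h3 L hL hS
    have := hL.triangulated
    have := hL.iso
    exact L.ext_of_isTriangulatedClosed₂ D hD (h1 L hL hS) (h3 L hL hS)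
  · intro ι x hx L hL hS
    exact hL.coprod ι x fun i => hx i L hL hS

theorem a13_tensor_zero {p : PrimeSpectrum R} (F : FieldObj p T) (t : T)
    (h : IsZero ((ihom t).obj F.k)) : IsZero (t ⊗ F.k) := by
  by_contra hne
  obtain ⟨n, ⟨r⟩⟩ := F.retract t hne
  obtain ⟨e⟩ := tensor_shift_right t F.k (-n)
  have h1 : e.hom ≫ r.r⟦-n⟧' ≫ (shiftShiftNeg F.k n).hom = 0 :=
    MonoidalClosed.curry_injective (h.eq_of_tgt _ _)
  have h2 : r.r⟦-n⟧' = 0 := by
    rw [← cancel_mono (shiftShiftNeg F.k n).hom, ← cancel_epi e.hom, h1, zero_comp, comp_zero]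
  have h3 : IsZero (F.k⟦n⟧⟦-n⟧) := by
    rw [IsZero.iff_id_eq_zero, ← CategoryTheory.Functor.map_id, ← r.retract, Functor.map_comp, h2, comp_zero]
  exact F.not_isZero (h3.of_iso (shiftShiftNeg F.k n).symm)

theorem hlgp (F : ∀ p : PrimeSpectrum R, FieldObj p T)
    (hgen : ∀ L : ObjectProperty T, IsLoc L → (∀ p, L (F p).k) → L (𝟙_ T))
    (E : SpcH T → T) (hE : ∀ p, ∃ B, Nonempty (E B ≅ (F p).k)) : HLGP E := by
  intro t
  apply le_antisymm
  · intro s hs
    refine hs _ (isLocIdeal_loc _) ?_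
    rintro s rfl
    have hL := (isLocIdeal_loc (fun u => ∃ B ∈ SuppH E s, u = s ⊗ E B)).isLoc
    refine hL.of_iso (ρ_ s) (hgen _ (hL.tensor s) fun p => ?_)
    obtain ⟨B, ⟨e⟩⟩ := hE p
    by_cases hB : B ∈ SuppH E s
    · exact hL.of_iso (whiskerLeftIso s e) fun L _ hS => hS _ ⟨B, hB, rfl⟩
    · have hz : IsZero ((ihom s).obj (E B)) := not_not.1 hB
      exact a13_zero hL (a13_tensor_zero (F p) s (hz.of_iso ((ihom s).mapIso e.symm)))
  · intro s hs
    refine hs _ (isLocIdeal_loc _) ?_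
    rintro s ⟨B, -, rfl⟩
    have hL := isLocIdeal_loc (fun u => u = t)
    exact hL.isLoc.of_iso (β_ (E B) t) (hL.ideal _ _ fun L _ hS => hS _ rfl)

theorem isMinimalIdeal (F : ∀ p : PrimeSpectrum R, FieldObj p T)
    (hgen : ∀ L : ObjectProperty T, IsLoc L → (∀ p, L (F p).k) → L (𝟙_ T))
    (p : PrimeSpectrum R) {E : T} (e : E ≅ (F p).k) :
    IsMinimalIdeal (Loc (fun s => s = E)) := by
  refine ⟨isLocIdeal_loc _, ⟨E, fun L _ hS => hS _ rfl,
    fun h => (F p).not_isZero (h.of_iso e.symm)⟩, ?_⟩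
  rintro J hJ hle ⟨s, hs, hs0⟩
  refine le_antisymm hle fun u hu => hu J hJ ?_
  rintro u rfl
  have hp : ¬ IsZero (s ⊗ (F p).k) := by
    intro hp
    refine hs0 ((hgen _ (isLoc_isZero.tensor s) fun q => ?_).of_iso (ρ_ s).symm)
    by_cases hq : q = p
    · subst hq
      exact hp
    · have h1 : IsZero ((F q).k ⊗ s) := by
        refine hle s hs _ (isLoc_isZero.tensor (F q).k).isLocIdeal ?_
        rintro v rfl
        exact ((F q).orth (F p) hq).of_iso (whiskerLeftIso _ e)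
      exact h1.of_iso (β_ _ _)
  obtain ⟨n, ⟨r⟩⟩ := (F p).retract s hp
  have h1 : J ((F p).k⟦n⟧) :=
    hJ.isLoc.retract r (hJ.isLoc.of_iso (β_ _ _) (hJ.ideal (F p).k s hs))
  exact hJ.isLoc.of_iso (shiftShiftNeg (F p).k n ≪≫ e.symm) (hJ.isLoc.shift h1 (-n))

end Pool.Agent.MP_e18349_al.TT

end

-- part A14
section

/-! Row A14: Nakayama and the failure of weak noetherianity. -/

namespace Pool.Agent.MP_e18349_al.TT

open CategoryTheory Limits MonoidalCategory Opposite Pretriangulated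

section Aux

variable {T : Type 1} [Category.{0} T] [Preadditive T] [HasShift T ℤ]
  [∀ n : ℤ, (shiftFunctor T n).Additive]

theorem a14_shift_hom_zero {x y : T} {i n : ℤ} (h : ∀ f : x ⟶ y⟦n - i⟧, f = 0)
    (f : x⟦i⟧ ⟶ y⟦n⟧) : f = 0 := by
  let e := (shiftFunctorAdd' T (n - i) i n (by omega)).app y
  obtain ⟨g, hg⟩ := (shiftFunctor T i).map_surjective (f ≫ e.hom)
  rw [h g, Functor.map_zero] at hg
  rw [← cancel_mono e.hom, ← hg, zero_comp]

end Aux

variable {T : Type 1} [Category.{0} T] [Preadditive T] [HasCoproducts.{0} T]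
  [HasZeroObject T] [HasShift T ℤ] [∀ n : ℤ, (shiftFunctor T n).Additive] [Pretriangulated T]
  [IsTriangulated T] [MonoidalCategory T] [SymmetricCategory T] [MonoidalPreadditive T]
  [MonoidalClosed T] [Mg T]
  {R : Type} [CommRing R] [Linear R T] [MonoidalLinear R T]

theorem a14_end_sphere (hend : EndUnit R T) (n : ℤ) (f : (𝟙_ T)⟦n⟧ ⟶ (𝟙_ T)⟦n⟧) :
    ∃ a : R, f = a • 𝟙 _ := by
  have := shift_linear (T := T) R n
  obtain ⟨g, rfl⟩ := (shiftFunctor T n).map_surjective f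
  obtain ⟨a, rfl⟩ := hend g
  exact ⟨a, by rw [Functor.map_smul, CategoryTheory.Functor.map_id]⟩

theorem a14_mem_of_smul {p : PrimeSpectrum R} (F : FieldObj p T) (n : ℤ) {a : R}
    (h : a • F.η⟦n⟧' = 0) : a ∈ p.asIdeal := by
  have := shift_linear (T := T) R n
  have h1 : a • F.η = 0 := by
    apply (shiftFunctor T n).map_injective
    rw [Functor.map_smul, Functor.map_zero, h]
  have h2 : algebraMap R p.asIdeal.ResidueField a = 0 := by
    apply F.bij.injective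
    change F.η ≫ (F.α _ : F.k ⟶ F.k) = F.η ≫ (F.α 0 : F.k ⟶ F.k)
    rw [F.alg, map_zero, Linear.comp_smul, Category.comp_id, h1]
    exact comp_zero.symm
  exact Ideal.algebraMap_residueField_eq_zero.mp h2

theorem a14_sphere_field [IsLocalRing R] (F : FieldObj (IsLocalRing.closedPoint R) T) (n : ℤ)
    (f : (𝟙_ T)⟦n⟧ ⟶ F.k⟦n⟧) : ∃ b : (𝟙_ T)⟦n⟧ ⟶ (𝟙_ T)⟦n⟧, f = b ≫ F.η⟦n⟧' := by
  have := shift_linear (T := T) R n
  obtain ⟨g, rfl⟩ := (shiftFunctor T n).map_surjective f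
  obtain ⟨l, rfl⟩ := F.bij.surjective g
  have : (IsLocalRing.closedPoint R).asIdeal.IsMaximal := IsLocalRing.maximalIdeal.isMaximal R
  obtain ⟨a, rfl⟩ := Ideal.algebraMap_residueField_surjective _ l
  refine ⟨a • 𝟙 _, ?_⟩
  change (shiftFunctor T n).map (F.η ≫ (F.α _ : F.k ⟶ F.k)) = _
  rw [F.alg, Linear.comp_smul, Category.comp_id, Functor.map_smul, Linear.smul_comp,
    Category.id_comp]

theorem a14_cell_field [IsLocalRing R] (F : FieldObj (IsLocalRing.closedPoint R) T) {n : ℤ}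
    {l : ℕ} {y : T} (hy : Cell (𝟙_ T) n l y) (ψ : y ⟶ F.k⟦n⟧) :
    ∃ b : y ⟶ (𝟙_ T)⟦n⟧, ψ = b ≫ F.η⟦n⟧' := by
  cases hy with
  | zero _ _ h => exact ⟨0, h.eq_of_src _ _⟩
  | step _ l D hD h₁ h₃ =>
    obtain ⟨r, ⟨e⟩⟩ := h₃
    have h0 : D.mor₁ ≫ ψ = 0 :=
      h₁.hom_zero _ (fun i hi f => a14_shift_hom_zero (F.van _ (by omega)) f) _
    obtain ⟨ψ', rfl⟩ := Triangle.yoneda_exact₂ D hD ψ h0
    choose b hb using fun i : Fin r =>
      a14_sphere_field F n (biproduct.ι (fun _ : Fin r => (𝟙_ T)⟦n⟧) i ≫ e.inv ≫ ψ')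
    refine ⟨D.mor₂ ≫ e.hom ≫ biproduct.desc b, ?_⟩
    have : e.inv ≫ ψ' = biproduct.desc b ≫ F.η⟦n⟧' := by
      apply biproduct.hom_ext'
      intro i
      rw [hb, biproduct.ι_desc_assoc]
    rw [Category.assoc, Category.assoc, ← this, e.hom_inv_id_assoc]

theorem a14_step [IsLocalRing R] (F : FieldObj (IsLocalRing.closedPoint R) T)
    (hconn : Conn (𝟙_ T)) (hend : EndUnit R T) {n : ℤ} {l : ℕ} (D : Triangle T)
    (hD : D ∈ distTriang T) (h₁ : Cell (𝟙_ T) (n - 1) l D.obj₁) {r : ℕ}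
    (e : D.obj₃ ≅ ⨁ fun _ : Fin r => (𝟙_ T)⟦n⟧) (u : D.obj₂ ⟶ (𝟙_ T)⟦n⟧)
    (hu : u ≫ F.η⟦n⟧' = 0) :
    ∃ a : Fin r → R, (∀ i, a i ∈ IsLocalRing.maximalIdeal R) ∧
      u = ∑ i, a i • (D.mor₂ ≫ e.hom ≫ biproduct.π (fun _ : Fin r => (𝟙_ T)⟦n⟧) i) := by
  have h0 : D.mor₁ ≫ u = 0 :=
    h₁.hom_zero _ (fun i hi f => a14_shift_hom_zero (hconn _ (by omega)) f) _
  obtain ⟨v, rfl⟩ := Triangle.yoneda_exact₂ D hD u h0
  obtain ⟨ψ, hψ⟩ := Triangle.yoneda_exact₃ D hD (v ≫ F.η⟦n⟧') (by rw [← hu, Category.assoc])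
  have h₁' : Cell (𝟙_ T) n l (D.obj₁⟦(1 : ℤ)⟧) := by
    have := h₁.shift 1
    rwa [sub_add_cancel] at this
  obtain ⟨b, rfl⟩ := a14_cell_field F h₁' ψ
  have hN : (v - D.mor₃ ≫ b) ≫ F.η⟦n⟧' = 0 := by
    rw [Preadditive.sub_comp, hψ, Category.assoc, sub_self]
  choose a ha using fun i : Fin r => a14_end_sphere hend n
    (biproduct.ι (fun _ : Fin r => (𝟙_ T)⟦n⟧) i ≫ e.inv ≫ (v - D.mor₃ ≫ b))
  refine ⟨a, fun i => a14_mem_of_smul F n ?_, ?_⟩
  · have := congrArg (· ≫ F.η⟦n⟧') (ha i)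
    simp only [Category.assoc, hN, comp_zero, Linear.smul_comp, Category.id_comp] at this
    exact this.symm
  · have h2 : e.inv ≫ (v - D.mor₃ ≫ b) =
        ∑ i, a i • biproduct.π (fun _ : Fin r => (𝟙_ T)⟦n⟧) i := by
      apply biproduct.hom_ext'
      intro j
      rw [ha, Preadditive.comp_sum, Finset.sum_eq_single j]
      · rw [Linear.comp_smul, biproduct.ι_π_self]
      · intro i _ hij
        rw [Linear.comp_smul, biproduct.ι_π_ne _ (Ne.symm hij), smul_zero]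
      · intro hj
        exact absurd (Finset.mem_univ j) hj
    have h3 : D.mor₂ ≫ v = D.mor₂ ≫ e.hom ≫ e.inv ≫ (v - D.mor₃ ≫ b) := by
      rw [e.hom_inv_id_assoc, Preadditive.comp_sub, ← Category.assoc D.mor₂ D.mor₃,
        comp_distTriang_mor_zero₂₃ D hD, zero_comp, sub_zero]
    rw [h3, h2, Preadditive.comp_sum, Preadditive.comp_sum]
    refine Finset.sum_congr rfl fun i _ => ?_
    rw [Linear.comp_smul, Linear.comp_smul]

theorem a14_nak_aux [IsLocalRing R] (F : FieldObj (IsLocalRing.closedPoint R) T)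
    (hconn : Conn (𝟙_ T)) (hend : EndUnit R T) {c : T}
    (hc : ∀ (n : ℤ) (e : c ⟶ F.k⟦n⟧), e = 0) {n : ℤ} {l : ℕ} {x : T}
    (hx : Cell (𝟙_ T) n l x) (ρ : Retract c x) : IsZero c := by
  induction hx with
  | zero n x h =>
    rw [IsZero.iff_id_eq_zero, ← ρ.retract, h.eq_of_tgt ρ.i 0, zero_comp]
  | step n l D hD h₁ h₃ ih =>
    obtain ⟨r, ⟨e⟩⟩ := h₃
    let w : Fin r → (c ⟶ (𝟙_ T)⟦n⟧) := fun i =>
      ρ.i ≫ D.mor₂ ≫ e.hom ≫ biproduct.π (fun _ : Fin r => (𝟙_ T)⟦n⟧) i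
    have key : ∀ u : c ⟶ (𝟙_ T)⟦n⟧, ∃ a : Fin r → R,
        (∀ i, a i ∈ IsLocalRing.maximalIdeal R) ∧ u = ∑ i, a i • w i := by
      intro u
      obtain ⟨a, ha, h⟩ := a14_step F hconn hend D hD h₁ e (ρ.r ≫ u)
        (by rw [Category.assoc, hc n (u ≫ F.η⟦n⟧'), comp_zero])
      refine ⟨a, ha, ?_⟩
      rw [← ρ.retract_assoc u, h, Preadditive.comp_sum]
      refine Finset.sum_congr rfl fun i _ => ?_
      rw [Linear.comp_smul]
    have hbot : Submodule.span R (Set.range w) = ⊥ := by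
      apply Submodule.eq_bot_of_le_smul_of_le_jacobson_bot (IsLocalRing.maximalIdeal R) _
        (Submodule.fg_span (Set.finite_range w))
      · intro u _
        obtain ⟨a, ha, rfl⟩ := key u
        exact Submodule.sum_mem _ fun i _ =>
          Submodule.smul_mem_smul (ha i) (Submodule.subset_span ⟨i, rfl⟩)
      · exact (IsLocalRing.maximalIdeal_le_jacobson _)
    have hw : ∀ i, w i = 0 := fun i => by
      have : w i ∈ Submodule.span R (Set.range w) := Submodule.subset_span ⟨i, rfl⟩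
      rwa [hbot, Submodule.mem_bot] at this
    have h0 : ρ.i ≫ D.mor₂ = 0 := by
      rw [← cancel_mono e.hom, zero_comp]
      apply biproduct.hom_ext
      intro i
      rw [zero_comp, Category.assoc, Category.assoc]
      exact hw i
    obtain ⟨i', hi'⟩ := Triangle.coyoneda_exact₂ D hD ρ.i h0
    exact ih ⟨i', D.mor₁ ≫ ρ.r, by rw [← Category.assoc, ← hi', ρ.retract]⟩

theorem FieldObj.nakayama [IsLocalRing R] (F : FieldObj (IsLocalRing.closedPoint R) T)
    (hconn : Conn (𝟙_ T)) (hend : EndUnit R T) {c : T} (hc : Pp F.k c) : IsZero c := by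
  obtain ⟨n, l, x, hx, ⟨ρ⟩⟩ := exists_cell_retract Mg.gen Mg.unit_cpt hconn hc.1
  exact a14_nak_aux F hconn hend hc.2 hx ρ

omit [IsTriangulated T] [SymmetricCategory T] [MonoidalPreadditive T] [MonoidalClosed T] [Mg T] in
theorem a14_prime_zero {P : ObjectProperty T} (hP : IsPrime P) {x : T} (hx : IsZero x) : P x := by
  have := hP.triangulated
  have := hP.thick
  obtain ⟨z, hz, hPz⟩ := P.exists_prop_of_containsZero
  exact P.prop_of_retract ⟨0, 0, hx.eq_of_src _ _⟩ hPz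

theorem not_weaklyNoetherian [IsLocalRing R] (F : ∀ p : PrimeSpectrum R, FieldObj p T)
    (hconn : Conn (𝟙_ T)) (hend : EndUnit R T)
    (hgen : ∀ L : ObjectProperty T, IsLoc L → (∀ p, L (F p).k) → L (𝟙_ T))
    (hinf : ∀ s : Finset R, (∀ a ∈ s, a ∈ IsLocalRing.maximalIdeal R) →
      ∃ q : PrimeSpectrum R, q ≠ IsLocalRing.closedPoint R ∧ ∀ a ∈ s, a ∈ q.asIdeal) :
    ¬ WeaklyNoetherian (Spc T) := by
  classical
  intro hwn
  let pt : PrimeSpectrum R → Spc T := fun p => ⟨Pp (F p).k, (F p).isPrime⟩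
  let m := pt (IsLocalRing.closedPoint R)
  have hopen : ∀ U : Set (Spc T), IsOpen U → m ∈ U → U = Set.univ := by
    intro U hU
    have hU' : TopologicalSpace.GenerateOpen
      {U | ∃ x : T, IsCpt x ∧ U = {P : Spc T | P.1 x}} U := hU
    induction hU' with
    | basic s hs =>
      obtain ⟨x, -, rfl⟩ := hs
      intro hm
      exact Set.eq_univ_of_forall fun P =>
        a14_prime_zero P.2 ((F _).nakayama hconn hend hm)
    | univ => exact fun _ => rfl
    | inter s t hs ht ihs iht =>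
      intro hm
      rw [ihs hs hm.1, iht ht hm.2, Set.inter_self]
    | sUnion S hS ih =>
      rintro ⟨t, ht, hm⟩
      exact Set.eq_univ_of_univ_subset ((ih t ht (hS t ht) hm) ▸ Set.subset_sUnion_of_mem ht)
  obtain ⟨Y₁, Y₂, ⟨S₁, hS₁, rfl⟩, ⟨S₂, hS₂, rfl⟩, hY⟩ := hwn m
  have hm : m ∈ ⋃₀ S₁ ∩ (⋃₀ S₂)ᶜ := hY ▸ Set.mem_singleton m
  obtain ⟨⟨Z, hZ, hmZ⟩, hm₂⟩ := hm
  have hZm : ∀ P ∈ Z, P = m := by
    intro P hP
    have : P ∈ ⋃₀ S₁ ∩ (⋃₀ S₂)ᶜ := by
      refine ⟨⟨Z, hZ, hP⟩, ?_⟩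
      rintro ⟨W, hW, hPW⟩
      have h1 : Wᶜ = Set.univ :=
        hopen _ (hS₂ W hW).1.isOpen_compl fun hmW => hm₂ ⟨W, hW, hmW⟩
      exact (h1 ▸ Set.mem_univ P : P ∈ Wᶜ) hPW
    rwa [← hY] at this
  choose z g h hD using fun a : R => distinguished_cocone_triangle (a • 𝟙 (𝟙_ T))
  obtain ⟨s, hs⟩ := (hS₁ Z hZ).2.elim_finite_subcover
    (fun a : IsLocalRing.maximalIdeal R => {P : Spc T | P.1 (z a)})
    (fun a => TopologicalSpace.isOpen_generateFrom_of_mem
      ⟨z a, isCpt_obj₃ _ (hD a) Mg.unit_cpt Mg.unit_cpt, rfl⟩)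
    (by
      intro P hP
      obtain ⟨p, hp⟩ := exists_eq_pp F hgen P.2
      have hne : ¬ IsLocalRing.maximalIdeal R ≤ p.asIdeal := by
        intro hle
        have hp' : p = IsLocalRing.closedPoint R :=
          PrimeSpectrum.ext ((IsLocalRing.maximalIdeal.isMaximal R).eq_of_le p.2.ne_top hle).symm
        subst hp'
        exact hP ((Subtype.ext hp : P = m) ▸ hmZ)
      obtain ⟨a, ha, hap⟩ := SetLike.not_le_iff_exists.mp hne
      refine Set.mem_iUnion.mpr ⟨⟨a, ha⟩, ?_⟩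
      change P.1 (z a)
      rw [hp]
      exact ((F p).pp_cone a (g a) (h a) (hD a)).mpr hap)
  obtain ⟨q, hq, hqs⟩ := hinf (s.image Subtype.val) (by
    intro a ha
    obtain ⟨b, -, rfl⟩ := Finset.mem_image.mp ha
    exact b.2)
  have hqZ : pt q ∈ Zᶜ := fun hqZ =>
    hq ((F q).eq_of_pp_eq (F _) (congrArg Subtype.val (hZm _ hqZ)))
  obtain ⟨a, ha, hqa⟩ := Set.mem_iUnion₂.mp (hs hqZ)
  exact ((F q).pp_cone a (g a) (h a) (hD a)).mp hqa (hqs _ (Finset.mem_image_of_mem _ ha))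

end Pool.Agent.MP_e18349_al.TT

end

-- part A15
section

/-! The abstract theorem. -/

namespace Pool.Agent.MP_e18349_al.TT

open CategoryTheory Limits MonoidalCategory Opposite Pretriangulated

variable {T : Type 1} [Category.{0} T] [Preadditive T] [HasCoproducts.{0} T]
  [HasZeroObject T] [HasShift T ℤ] [∀ n : ℤ, (shiftFunctor T n).Additive] [Pretriangulated T]
  [IsTriangulated T] [MonoidalCategory T] [SymmetricCategory T] [MonoidalPreadditive T]
  [MonoidalClosed T] [Mg T]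
  {R : Type} [CommRing R] [Linear R T] [MonoidalLinear R T]

theorem abstract_main [IsLocalRing R] (F : ∀ p : PrimeSpectrum R, FieldObj p T)
    (hconn : Conn (𝟙_ T)) (hend : EndUnit R T)
    (hgen : ∀ L : ObjectProperty T, IsLoc L → (∀ p, L (F p).k) → L (𝟙_ T))
    (hinf : ∀ s : Finset R, (∀ a ∈ s, a ∈ IsLocalRing.maximalIdeal R) →
      ∃ q : PrimeSpectrum R, q ≠ IsLocalRing.closedPoint R ∧ ∀ a ∈ s, a ∈ q.asIdeal) :
    RigidlyCompactlyGenerated T ∧ HStratified T ∧ NervesOfSteel T ∧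
      ¬ WeaklyNoetherian (Spc T) := by
  refine ⟨rigidlyCompactlyGenerated, ⟨fun B => ?_, fun E hE => ⟨?_, fun B => ?_⟩⟩,
    ⟨fun B hB => ?_, fun B hB B' hB' h => ?_, fun P hP => ?_⟩,
    not_weaklyNoetherian F hconn hend hgen hinf⟩
  · obtain ⟨p, hp⟩ := (isHomPrime_iff F hconn hgen B.1).1 B.2
    exact ⟨(F p).k, hp ▸ (F p).isE hconn⟩
  · refine hlgp F hgen E fun p => ?_
    exact ⟨⟨Bp (F p).k, (isHomPrime_iff F hconn hgen _).2 ⟨p, rfl⟩⟩,
      (hE _).unique ((F p).isE hconn)⟩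
  · obtain ⟨p, hp⟩ := (isHomPrime_iff F hconn hgen B.1).1 B.2
    obtain ⟨e⟩ := (hE B).unique (hp ▸ (F p).isE hconn)
    exact isMinimalIdeal F hgen p e
  · obtain ⟨p, rfl⟩ := (isHomPrime_iff F hconn hgen B).1 hB
    rw [comparison_bp]
    exact (F p).isPrime
  · obtain ⟨p, rfl⟩ := (isHomPrime_iff F hconn hgen B).1 hB
    obtain ⟨q, rfl⟩ := (isHomPrime_iff F hconn hgen B').1 hB'
    rw [comparison_bp, comparison_bp] at h
    obtain rfl := (F p).eq_of_pp_eq (F q) h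
    rfl
  · obtain ⟨p, rfl⟩ := exists_eq_pp F hgen hP
    exact ⟨Bp (F p).k, (isHomPrime_iff F hconn hgen _).2 ⟨p, rfl⟩, comparison_bp _⟩

end Pool.Agent.MP_e18349_al.TT

end

-- part C7
section

/-! Row C7: the localizing subcategory generated by the unit. -/

namespace Pool.Agent.MP_e18349_al.TT

open CategoryTheory Limits MonoidalCategory Opposite Pretriangulated

variable {K : Type 1} [Category.{0} K] [Preadditive K] [HasCoproducts.{0} K]
  [HasZeroObject K] [HasShift K ℤ] [∀ n : ℤ, (shiftFunctor K n).Additive] [Pretriangulated K]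
  [MonoidalCategory K]

theorem isLoc_cel : IsLoc (Cel K) := by
  refine IsLoc.mk' _ (fun x y e hx L hL h1 => hL.of_iso e (hx L hL h1))
    (fun x n hx L hL h1 => hL.shift (hx L hL h1) n) (fun D hD h₁ h₃ L hL h1 => ?_)
    (fun ι x hx L hL h1 => hL.coprod ι x fun i => hx i L hL h1)
  haveI := hL.triangulated
  haveI := hL.iso
  exact L.ext_of_isTriangulatedClosed₂ D hD (h₁ L hL h1) (h₃ L hL h1)

instance cel_isTriangulated : (Cel K).IsTriangulated := isLoc_cel.triangulated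

instance cel_isClosedUnderIsomorphisms : (Cel K).IsClosedUnderIsomorphisms := isLoc_cel.iso

variable (K) in
/-- The category of cellular objects. -/
abbrev CT : Type 1 := (Cel K).FullSubcategory

instance c7_closed (ι : Type) : (Cel K).IsClosedUnderColimitsOfShape (Discrete ι) := by
  refine ObjectProperty.IsClosedUnderColimitsOfShape.mk' ?_
  rintro _ ⟨F, hF⟩
  exact isLoc_cel.of_iso (HasColimit.isoOfNatIso Discrete.natIsoFunctor).symm
    (isLoc_cel.coprod ι (fun i => F.obj ⟨i⟩) fun i => hF _)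

instance ctHasCoproducts : HasCoproducts.{0} (CT K) := fun _ => inferInstance

instance ctι_preserves_coprod (ι : Type) :
    PreservesColimitsOfShape (Discrete ι) (Cel K).ι := inferInstance

variable [SymmetricCategory K] [MonoidalPreadditive K] [(curriedTensor K).CommShift₂Int]
  [∀ x : K, (tensorLeft x).IsTriangulated] [∀ x : K, (tensorRight x).IsTriangulated]
  [∀ (x : K) (ι : Type), PreservesColimitsOfShape (Discrete ι) (tensorLeft x)]

instance cel_isMonoidal : (Cel K).IsMonoidal where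
  prop_unit := fun _ _ h => h
  prop_tensor x y hx hy :=
    hy _ (isLoc_cel.inverseImage (tensorLeft x)) (isLoc_cel.of_iso (ρ_ x).symm hx)

theorem ct_unit_cpt (h : IsCpt (𝟙_ K)) : IsCpt (𝟙_ (CT K)) := by
  intro ι x f
  let e := PreservesCoproduct.iso (Cel K).ι x
  obtain ⟨s, g, hg⟩ := h ι (fun i => (Cel K).ι.obj (x i)) ((Cel K).ι.map f ≫ e.hom)
  refine ⟨s, fun i => (Cel K).ι.preimage (X := 𝟙_ (CT K)) (g i), ?_⟩
  apply (Cel K).ι.map_injective
  rw [← cancel_mono e.hom, hg, Functor.map_sum, Preadditive.sum_comp]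
  refine Finset.sum_congr rfl fun i _ => ?_
  rw [Functor.map_comp, Functor.map_preimage, Category.assoc]
  congr 1
  rw [← Iso.comp_inv_eq]
  simp only [e, PreservesCoproduct.inv_hom]
  exact ι_comp_sigmaComparison _ _ _

theorem ct_generates : Generates (𝟙_ (CT K)) := by
  intro L hL h1 t
  haveI := hL.triangulated
  have hL' : IsLoc (L.map (Cel K).ι) := by
    refine ⟨inferInstance, ⟨?_⟩, fun ι x hx => ?_⟩
    · rintro X Y e ⟨z, hz, ⟨e'⟩⟩
      exact ⟨z, hz, ⟨e' ≪≫ e⟩⟩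
    · choose z hz e using hx
      exact ⟨∐ z, hL.coprod ι z hz,
        ⟨PreservesCoproduct.iso (Cel K).ι z ≪≫ Sigma.mapIso fun i => (e i).some⟩⟩
  obtain ⟨z, hz, ⟨e⟩⟩ := t.2 _ hL' ⟨𝟙_ (CT K), h1, ⟨Iso.refl _⟩⟩
  exact hL.of_iso ((Cel K).ι.preimageIso e) hz

theorem ct_conn (h : Conn (𝟙_ K)) : Conn (𝟙_ (CT K)) := by
  intro n hn f
  apply (Cel K).ι.map_injective
  rw [← cancel_mono (((Cel K).ι.commShiftIso n).hom.app (𝟙_ (CT K))), Functor.map_zero, zero_comp]
  exact h n hn _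

theorem ct_endUnit (R : Type) [CommRing R] [Linear R K] (h : EndUnit R K) :
    EndUnit R (CT K) := by
  intro f
  obtain ⟨a, ha⟩ := h ((Cel K).ι.map f)
  refine ⟨a, (Cel K).ι.map_injective ?_⟩
  rw [ha, Functor.map_smul, CategoryTheory.Functor.map_id]
  rfl

instance ctTensor_preserves_coprod (x : CT K) (ι : Type) :
    PreservesColimitsOfShape (Discrete ι) (tensorLeft x) := by
  haveI : PreservesColimitsOfShape (Discrete ι) (tensorLeft x ⋙ (Cel K).ι) :=
    inferInstanceAs (PreservesColimitsOfShape (Discrete ι) ((Cel K).ι ⋙ tensorLeft x.obj))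
  exact preservesColimitsOfShape_of_reflects_of_preserves (tensorLeft x) (Cel K).ι

end Pool.Agent.MP_e18349_al.TT

end

-- part C8
section

/-! Row C8: the tensor product of cellular objects is exact. -/

namespace Pool.Agent.MP_e18349_al.TT

open CategoryTheory Limits MonoidalCategory Opposite Pretriangulated

section Sub

variable {K : Type 1} [Category.{0} K] [Preadditive K]
  [HasShift K ℤ] [∀ n : ℤ, (shiftFunctor K n).Additive]
  [MonoidalCategory K] [(curriedTensor K).CommShift₂Int]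
  (P : ObjectProperty K) [P.IsMonoidal] [P.IsStableUnderShift ℤ]

/-- The inclusion commutes with left tensoring. -/
def c8L (x : P.FullSubcategory) :
    (curriedTensor P.FullSubcategory).obj x ⋙ P.ι ≅ P.ι ⋙ (curriedTensor K).obj x.obj :=
  Iso.refl _

/-- The inclusion commutes with right tensoring. -/
def c8R (x : P.FullSubcategory) :
    (curriedTensor P.FullSubcategory).flip.obj x ⋙ P.ι ≅
      P.ι ⋙ (curriedTensor K).flip.obj x.obj :=
  Iso.refl _

/-- Shift isomorphisms of left tensoring in the subcategory. -/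
@[instance_reducible]
noncomputable def c8csL (x : P.FullSubcategory) :
    ((curriedTensor P.FullSubcategory).obj x).CommShift ℤ :=
  Functor.CommShift.ofComp (c8L P x) ℤ

/-- Shift isomorphisms of right tensoring in the subcategory. -/
@[instance_reducible]
noncomputable def c8csR (x : P.FullSubcategory) :
    ((curriedTensor P.FullSubcategory).flip.obj x).CommShift ℤ :=
  Functor.CommShift.ofComp (c8R P x) ℤ

theorem c8csL_hom (x y : P.FullSubcategory) (n : ℤ) :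
    letI := c8csL P x
    P.ι.map ((((curriedTensor P.FullSubcategory).obj x).commShiftIso n).hom.app y) =
      x.obj ◁ (P.ι.commShiftIso n).hom.app y ≫
        (((curriedTensor K).obj x.obj).commShiftIso n).hom.app y.obj ≫
        (P.ι.commShiftIso n).inv.app (x ⊗ y) := by
  have := Functor.CommShift.OfComp.map_iso_hom_app (c8L P x) n y
  refine this.trans ?_
  rw [Functor.commShiftIso_comp_hom_app]
  simp [c8L]

theorem c8csR_hom (x y : P.FullSubcategory) (n : ℤ) :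
    letI := c8csR P y
    P.ι.map ((((curriedTensor P.FullSubcategory).flip.obj y).commShiftIso n).hom.app x) =
      (P.ι.commShiftIso n).hom.app x ▷ y.obj ≫
        (((curriedTensor K).flip.obj y.obj).commShiftIso n).hom.app x.obj ≫
        (P.ι.commShiftIso n).inv.app (x ⊗ y) := by
  have := Functor.CommShift.OfComp.map_iso_hom_app (c8R P y) n x
  refine this.trans ?_
  rw [Functor.commShiftIso_comp_hom_app]
  simp [c8R]

omit [Preadditive K] [∀ n : ℤ, (shiftFunctor K n).Additive] [MonoidalCategory K] [(curriedTensor K).CommShift₂Int]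
  [P.IsMonoidal] in
theorem c8_map_shift {x y : P.FullSubcategory} (f : x ⟶ y) (n : ℤ) :
    P.ι.map (f⟦n⟧') = (P.ι.commShiftIso n).hom.app x ≫ (P.ι.map f)⟦n⟧' ≫
      (P.ι.commShiftIso n).inv.app y := by
  rw [← P.ι.commShiftIso_hom_naturality_assoc]
  simp

theorem c8natL {x y : P.FullSubcategory} (f : x ⟶ y) :
    letI := c8csL P x
    letI := c8csL P y
    NatTrans.CommShift ((curriedTensor P.FullSubcategory).map f) ℤ := by
  let := c8csL P x
  let := c8csL P y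
  refine ⟨fun n => ?_⟩
  ext1
  ext1 z
  apply P.ι.map_injective
  have h := NatTrans.shift_app_comm ((curriedTensor K).map f.hom) n z.obj
  simp only [NatTrans.comp_app, Functor.whiskerRight_app, Functor.whiskerLeft_app,
    Functor.map_comp, c8csL_hom, c8_map_shift]
  simp only [curriedTensor_map_app] at h
  change (x.obj ◁ (P.ι.commShiftIso n).hom.app z ≫
        (((curriedTensor K).obj x.obj).commShiftIso n).hom.app z.obj ≫
        (P.ι.commShiftIso n).inv.app (x ⊗ z)) ≫ (P.ι.commShiftIso n).hom.app (x ⊗ z) ≫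
        (f.hom ▷ z.obj)⟦n⟧' ≫ (P.ι.commShiftIso n).inv.app (y ⊗ z) =
      f.hom ▷ (z⟦n⟧).obj ≫ y.obj ◁ (P.ι.commShiftIso n).hom.app z ≫
        (((curriedTensor K).obj y.obj).commShiftIso n).hom.app z.obj ≫
        (P.ι.commShiftIso n).inv.app (y ⊗ z)
  simp only [Category.assoc, Iso.inv_hom_id_app_assoc]
  erw [reassoc_of% h]
  exact whisker_exchange_assoc _ _ _

theorem c8natR {x y : P.FullSubcategory} (f : x ⟶ y) :
    letI := c8csR P x
    letI := c8csR P y
    NatTrans.CommShift ((curriedTensor P.FullSubcategory).flip.map f) ℤ := by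
  let := c8csR P x
  let := c8csR P y
  refine ⟨fun n => ?_⟩
  ext1
  ext1 z
  apply P.ι.map_injective
  have h := NatTrans.shift_app_comm ((curriedTensor K).flip.map f.hom) n z.obj
  simp only [NatTrans.comp_app, Functor.whiskerRight_app, Functor.whiskerLeft_app,
    Functor.map_comp, c8csR_hom, c8_map_shift]
  change ((P.ι.commShiftIso n).hom.app z ▷ x.obj ≫
        (((curriedTensor K).flip.obj x.obj).commShiftIso n).hom.app z.obj ≫
        (P.ι.commShiftIso n).inv.app (z ⊗ x)) ≫ (P.ι.commShiftIso n).hom.app (z ⊗ x) ≫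
        (z.obj ◁ f.hom)⟦n⟧' ≫ (P.ι.commShiftIso n).inv.app (z ⊗ y) =
      (z⟦n⟧).obj ◁ f.hom ≫ (P.ι.commShiftIso n).hom.app z ▷ y.obj ≫
        (((curriedTensor K).flip.obj y.obj).commShiftIso n).hom.app z.obj ≫
        (P.ι.commShiftIso n).inv.app (z ⊗ y)
  simp only [Category.assoc, Iso.inv_hom_id_app_assoc]
  erw [reassoc_of% h]
  exact (whisker_exchange_assoc _ _ _).symm

theorem c8comm (x y : P.FullSubcategory) (m n : ℤ) :
    letI := c8csL P (x⟦m⟧)
    letI := c8csL P x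
    letI := c8csR P (y⟦n⟧)
    letI := c8csR P y
    (((curriedTensor P.FullSubcategory).obj (x⟦m⟧)).commShiftIso n).hom.app y ≫
      ((((curriedTensor P.FullSubcategory).flip.obj y).commShiftIso m).hom.app x)⟦n⟧' =
        (((curriedTensor P.FullSubcategory).flip.obj (y⟦n⟧)).commShiftIso m).hom.app x ≫
          ((((curriedTensor P.FullSubcategory).obj x).commShiftIso n).hom.app y)⟦m⟧' ≫
            (shiftComm (((curriedTensor P.FullSubcategory).obj x).obj y) m n).inv ≫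
              ((m * n).negOnePow • 𝟙 _) := by
  let := c8csL P (x⟦m⟧)
  let := c8csL P x
  let := c8csR P (y⟦n⟧)
  let := c8csR P y
  apply P.ι.map_injective
  have h := (curriedTensor K).commShift₂_comm .int x.obj y.obj m n
  simp only [CommShift₂Setup.int_ε, CatCenter.app_neg_one_zpow] at h
  have h1 := NatTrans.shift_app_comm
    ((curriedTensor K).map ((P.ι.commShiftIso m).hom.app x)) n y.obj
  have h2 := NatTrans.shift_app_comm
    ((curriedTensor K).flip.map ((P.ι.commShiftIso n).hom.app y)) m x.obj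
  have h3 := P.ι.map_shiftFunctorComm_hom_app (x ⊗ y) n m
  have h4 : (shiftComm (((curriedTensor P.FullSubcategory).obj x).obj y) m n).inv =
      (shiftFunctorComm P.FullSubcategory n m).hom.app (x ⊗ y) := by
    rw [← shiftFunctorComm_symm]; rfl
  have h5 : (shiftComm (((curriedTensor K).obj x.obj).obj y.obj) m n).inv =
      (shiftFunctorComm K n m).hom.app (P.ι.obj (x ⊗ y)) := by
    rw [← shiftFunctorComm_symm]; rfl
  rw [h5] at h
  rw [h4]
  simp only [Functor.map_comp, c8csL_hom, c8csR_hom, c8_map_shift, h3, Functor.map_units_smul,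
    Category.assoc]
  erw [Iso.inv_hom_id_app_assoc, Iso.inv_hom_id_app_assoc, Iso.inv_hom_id_app_assoc]
  rw [← Functor.map_comp_assoc _ ((P.ι.commShiftIso n).inv.app (x ⊗ y)), Iso.inv_hom_id_app]
  erw [(shiftFunctor K m).map_id, P.ι.map_id, Category.id_comp, reassoc_of% h1, reassoc_of% h2,
    reassoc_of% h]
  simp only [Linear.comp_units_smul, Linear.units_smul_comp, Category.comp_id, Category.id_comp]
  congr 1
  exact whisker_exchange_assoc _ _ _

end Sub

variable {K : Type 1} [Category.{0} K] [Preadditive K] [HasCoproducts.{0} K]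
  [HasZeroObject K] [HasShift K ℤ] [∀ n : ℤ, (shiftFunctor K n).Additive] [Pretriangulated K]
  [MonoidalCategory K]
  [SymmetricCategory K] [MonoidalPreadditive K] [(curriedTensor K).CommShift₂Int]
  [∀ x : K, (tensorLeft x).IsTriangulated] [∀ x : K, (tensorRight x).IsTriangulated]
  [∀ (x : K) (ι : Type), PreservesColimitsOfShape (Discrete ι) (tensorLeft x)]

noncomputable instance ctCommShift₂ : (curriedTensor (CT K)).CommShift₂Int where
  commShiftObj x := c8csL (Cel K) x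
  commShift_map f := c8natL (Cel K) f
  commShiftFlipObj x := c8csR (Cel K) x
  commShift_flip_map f := c8natR (Cel K) f
  comm x y m n := by
    simp only [CommShift₂Setup.int_ε, CatCenter.app_neg_one_zpow]
    exact c8comm (Cel K) x y m n

instance ctTriangulatedLeft (x : CT K) : (tensorLeft x).IsTriangulated := by
  have : NatTrans.CommShift (c8L (Cel K) x).hom ℤ := Functor.CommShift.ofComp_compatibility _ _
  rw [Functor.isTriangulated_iff_comp_right (c8L (Cel K) x)]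
  infer_instance

instance ctTriangulatedRight (x : CT K) : (tensorRight x).IsTriangulated := by
  have : NatTrans.CommShift (c8R (Cel K) x).hom ℤ := Functor.CommShift.ofComp_compatibility _ _
  rw [Functor.isTriangulated_iff_comp_right (c8R (Cel K) x)]
  infer_instance

end Pool.Agent.MP_e18349_al.TT

end

-- part C9
section

/-! Row C9: cellular approximation. -/

namespace Pool.Agent.MP_e18349_al.TT

open CategoryTheory Limits MonoidalCategory Opposite Pretriangulated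

variable {K : Type 1} [Category.{0} K] [Preadditive K] [HasCoproducts.{0} K]
  [HasZeroObject K] [HasShift K ℤ] [∀ n : ℤ, (shiftFunctor K n).Additive] [Pretriangulated K]
  [MonoidalCategory K]
  [SymmetricCategory K] [MonoidalPreadditive K] [(curriedTensor K).CommShift₂Int]
  [∀ x : K, (tensorLeft x).IsTriangulated] [∀ x : K, (tensorRight x).IsTriangulated]
  [∀ (x : K) (ι : Type), PreservesColimitsOfShape (Discrete ι) (tensorLeft x)]

/-- Cellular approximation: a right adjoint of the inclusion that is exact, preserves coproducts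
and inverts the maps that are bijective on maps from the shifts of the unit. -/
theorem exists_gamma (h : IsCpt (𝟙_ K)) :
    ∃ (Γ : K ⥤ CT K) (_ : (Cel K).ι ⊣ Γ) (_ : Γ.CommShift ℤ), Γ.IsTriangulated ∧
      (∀ ι : Type, PreservesColimitsOfShape (Discrete ι) Γ) ∧
      ∀ {X Y : K} (f : X ⟶ Y),
        (∀ n : ℤ, Function.Bijective fun g : (𝟙_ K)⟦n⟧ ⟶ X => g ≫ f) → IsIso (Γ.map f) := by
  have : (Cel K).ι.IsLeftAdjoint := isLeftAdjoint_of_gen ct_generates (ct_unit_cpt h) (Cel K).ι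
  let Γ : K ⥤ CT K := (Cel K).ι.rightAdjoint
  let adj : (Cel K).ι ⊣ Γ := Adjunction.ofIsLeftAdjoint _
  let _ : Γ.CommShift ℤ := adj.rightAdjointCommShift ℤ
  have : adj.CommShift ℤ := adj.commShift_of_leftAdjoint ℤ
  have : Γ.Additive := adj.right_adjoint_additive
  refine ⟨Γ, adj, inferInstance, adj.isTriangulated_rightAdjoint, fun ι => ?_, fun {X Y} f hf => ?_⟩
  · refine rightAdjoint_preserves_coprod ct_generates (ct_unit_cpt h) adj (fun n => ?_) ι
    exact isCpt_of_iso (((Cel K).ι.commShiftIso n).app (𝟙_ (CT K))).symm (isCpt_shift h n)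
  · refine ct_generates.isIso _ (fun n => ?_)
    let e : (Cel K).ι.obj ((𝟙_ (CT K))⟦n⟧) ≅ (𝟙_ K)⟦n⟧ :=
      ((Cel K).ι.commShiftIso n).app (𝟙_ (CT K))
    let E : ∀ Z : K, ((𝟙_ K)⟦n⟧ ⟶ Z) ≃ ((𝟙_ (CT K))⟦n⟧ ⟶ Γ.obj Z) := fun Z =>
      (Iso.homCongr e.symm (Iso.refl Z)).trans (adj.homEquiv _ _)
    have key : (fun g : (𝟙_ (CT K))⟦n⟧ ⟶ Γ.obj X => g ≫ Γ.map f) ∘ E X
        = E Y ∘ fun g : (𝟙_ K)⟦n⟧ ⟶ X => g ≫ f := by
      funext g
      simp only [E, Function.comp_apply, Equiv.trans_apply, Iso.homCongr_apply, Iso.symm_inv,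
        Iso.refl_hom, Category.comp_id]
      rw [← adj.homEquiv_naturality_right, Category.assoc]
    rw [← Function.Bijective.of_comp_iff _ (E X).bijective, key]
    exact (E Y).bijective.comp (hf n)

/-- Residue field objects pass to cellular approximations. -/
theorem FieldObj.gamma {R : Type} [CommRing R] [Linear R K] [MonoidalLinear R K]
    {p : PrimeSpectrum R} (F : FieldObj p K) (Γ : K ⥤ CT K) (adj : (Cel K).ι ⊣ Γ)
    [Γ.CommShift ℤ] : ∃ F' : FieldObj p (CT K), F'.k = Γ.obj F.k := by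
  have : Γ.Additive := adj.right_adjoint_additive
  let ε : (Γ.obj F.k).obj ⟶ F.k := adj.counit.app F.k
  have ext : ∀ {c : CT K} (f g : c ⟶ Γ.obj F.k), f.hom ≫ ε = g.hom ≫ ε → f = g := by
    intro c f g hfg
    apply (adj.homEquiv c F.k).symm.injective
    rw [adj.homEquiv_counit, adj.homEquiv_counit]
    exact hfg
  have mate : ∀ (c : CT K) (u : c.obj ⟶ F.k), (adj.homEquiv c F.k u).hom ≫ ε = u := by
    intro c u
    have h1 := (adj.homEquiv c F.k).symm_apply_apply u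
    rw [adj.homEquiv_counit] at h1
    exact h1
  have nat : ∀ a : F.k ⟶ F.k, (Γ.map a).hom ≫ ε = ε ≫ a := fun a => adj.counit.naturality a
  let η' : 𝟙_ (CT K) ⟶ Γ.obj F.k := adj.homEquiv (𝟙_ (CT K)) F.k F.η
  let μ' : Γ.obj F.k ⊗ Γ.obj F.k ⟶ Γ.obj F.k :=
    adj.homEquiv (Γ.obj F.k ⊗ Γ.obj F.k) F.k ((ε ⊗ₘ ε) ≫ F.μ)
  have hη : η'.hom ≫ ε = F.η := mate _ _
  have hμ : μ'.hom ≫ ε = (ε ⊗ₘ ε) ≫ F.μ := mate _ _
  let α' : p.asIdeal.ResidueField →+* End (Γ.obj F.k) :=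
    { toFun := fun l => Γ.map (F.α l : F.k ⟶ F.k)
      map_one' := by rw [map_one]; exact Γ.map_id _
      map_mul' := fun a b => by rw [map_mul]; exact Γ.map_comp _ _
      map_zero' := by rw [map_zero]; exact Γ.map_zero _ _
      map_add' := fun a b => by rw [map_add]; exact Γ.map_add }
  refine ⟨{ k := Γ.obj F.k, η := η', μ := μ', α := α', unit := ?_, lin := ?_, bij := ?_,
            van := ?_, alg := ?_ }, rfl⟩
  · apply ext
    change ((Γ.obj F.k).obj ◁ η'.hom ≫ μ'.hom) ≫ ε = (ρ_ (Γ.obj F.k).obj).hom ≫ ε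
    rw [Category.assoc, hμ, ← Category.assoc, ← id_tensorHom, tensorHom_comp_tensorHom,
      Category.id_comp]
    erw [hη]
    rw [MonoidalCategory.tensorHom_def, Category.assoc, F.unit]
    exact rightUnitor_naturality ε
  · intro l
    apply ext
    change ((Γ.obj F.k).obj ◁ (Γ.map (F.α l : F.k ⟶ F.k)).hom ≫ μ'.hom) ≫ ε
      = (μ'.hom ≫ (Γ.map (F.α l : F.k ⟶ F.k)).hom) ≫ ε
    rw [Category.assoc, Category.assoc, hμ, nat, ← Category.assoc μ'.hom, hμ, Category.assoc,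
      ← F.lin, ← Category.assoc, ← Category.assoc, ← id_tensorHom, ← id_tensorHom,
      tensorHom_comp_tensorHom, tensorHom_comp_tensorHom, nat, Category.id_comp,
      Category.comp_id]
  · have key : (fun l => η' ≫ (α' l : Γ.obj F.k ⟶ Γ.obj F.k))
        = adj.homEquiv (𝟙_ (CT K)) F.k ∘ fun l => F.η ≫ (F.α l : F.k ⟶ F.k) := by
      funext l
      exact (adj.homEquiv_naturality_right _ _).symm
    rw [key]
    exact (adj.homEquiv _ _).bijective.comp F.bij
  · intro n hn f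
    let e : Γ.obj (F.k⟦n⟧) ≅ (Γ.obj F.k)⟦n⟧ := (Γ.commShiftIso n).app F.k
    have h0 : (adj.homEquiv (𝟙_ (CT K)) (F.k⟦n⟧)).symm (f ≫ e.inv) = 0 := F.van n hn _
    rw [Equiv.symm_apply_eq, adj.homEquiv_unit, Functor.map_zero, comp_zero] at h0
    rw [← cancel_mono e.inv, h0, zero_comp]
  · intro a
    apply ext
    change (Γ.map (F.α (algebraMap R _ a) : F.k ⟶ F.k)).hom ≫ ε
      = (a • 𝟙 (Γ.obj F.k).obj) ≫ ε
    rw [nat, F.alg, Linear.comp_smul, Linear.smul_comp, Category.comp_id, Category.id_comp]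

end Pool.Agent.MP_e18349_al.TT

end

-- part D2
section

/-! Row D2: the compatibilities with shifts pass to cellular objects. -/

namespace Pool.Agent.MP_e18349_al.TT

open CategoryTheory Limits MonoidalCategory Opposite Pretriangulated

/-- A natural transformation commutes with shifts if it does so after a faithful functor. -/
theorem d2_reflect {C D : Type*} [Category C] [Category D] [HasShift C ℤ] [HasShift D ℤ]
    (ι : C ⥤ D) [ι.CommShift ℤ] [ι.Faithful] {F F' : C ⥤ C} {G G' : D ⥤ D}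
    [F.CommShift ℤ] [F'.CommShift ℤ] [G.CommShift ℤ] [G'.CommShift ℤ]
    (e : F ⋙ ι ≅ ι ⋙ G) (e' : F' ⋙ ι ≅ ι ⋙ G') [NatTrans.CommShift e.hom ℤ]
    [NatTrans.CommShift e'.hom ℤ] (τ : F ⟶ F') (σ : G ⟶ G') [NatTrans.CommShift σ ℤ]
    (h : ∀ x, ι.map (τ.app x) = e.hom.app x ≫ σ.app (ι.obj x) ≫ e'.inv.app x) :
    NatTrans.CommShift τ ℤ := by
  have h' : Functor.whiskerRight τ ι = e.hom ≫ Functor.whiskerLeft ι σ ≫ e'.inv := by
    ext x
    exact h x
  have : NatTrans.CommShift (Functor.whiskerRight τ ι) ℤ := by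
    rw [h']
    infer_instance
  refine ⟨fun n => ?_⟩
  ext x
  apply ι.map_injective
  have h₁ := NatTrans.shift_app_comm (Functor.whiskerRight τ ι) n x
  rw [Functor.commShiftIso_comp_hom_app, Functor.commShiftIso_comp_hom_app] at h₁
  rw [← cancel_mono ((ι.commShiftIso n).hom.app (F'.obj x))]
  simp only [NatTrans.comp_app, Functor.whiskerRight_app, Functor.whiskerLeft_app,
    Functor.map_comp, Category.assoc] at h₁ ⊢
  rw [← h₁, ι.commShiftIso_hom_naturality]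

variable {K : Type 1} [Category.{0} K] [Preadditive K] [HasCoproducts.{0} K]
  [HasZeroObject K] [HasShift K ℤ] [∀ n : ℤ, (shiftFunctor K n).Additive] [Pretriangulated K]
  [MonoidalCategory K]
  [SymmetricCategory K] [MonoidalPreadditive K] [(curriedTensor K).CommShift₂Int]
  [∀ x : K, (tensorLeft x).IsTriangulated] [∀ x : K, (tensorRight x).IsTriangulated]
  [∀ (x : K) (ι : Type), PreservesColimitsOfShape (Discrete ι) (tensorLeft x)]

theorem d2_L (x : CT K) : NatTrans.CommShift (c8L (Cel K) x).hom ℤ :=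
  Functor.CommShift.ofComp_compatibility (c8L (Cel K) x) ℤ

theorem d2_R (x : CT K) : NatTrans.CommShift (c8R (Cel K) x).hom ℤ :=
  Functor.CommShift.ofComp_compatibility (c8R (Cel K) x) ℤ

theorem ct_rightUnitor_commShift (h : NatTrans.CommShift (rightUnitorNatIso K).hom ℤ) :
    NatTrans.CommShift (rightUnitorNatIso (CT K)).hom ℤ := by
  have := d2_R (𝟙_ (CT K))
  have : NatTrans.CommShift ((Cel K).ι.leftUnitor ≪≫ (Cel K).ι.rightUnitor.symm).hom ℤ := by
    rw [Iso.trans_hom, Iso.symm_hom]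
    infer_instance
  refine d2_reflect (Cel K).ι (c8R (Cel K) (𝟙_ (CT K)))
    ((Cel K).ι.leftUnitor ≪≫ (Cel K).ι.rightUnitor.symm) _ (rightUnitorNatIso K).hom fun x => ?_
  simp [c8R]

theorem ct_assoc_commShift (h : ∀ x y : K, NatTrans.CommShift (tensorRightTensor x y).hom ℤ)
    (x y : CT K) : NatTrans.CommShift (tensorRightTensor x y).hom ℤ := by
  have := d2_R (x ⊗ y)
  have := d2_R x
  have := d2_R y
  have := h x.obj y.obj
  let e : (tensorRight x ⋙ tensorRight y) ⋙ (Cel K).ι ≅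
      (Cel K).ι ⋙ tensorRight x.obj ⋙ tensorRight y.obj :=
    Functor.associator _ _ _ ≪≫ Functor.isoWhiskerLeft _ (c8R (Cel K) y) ≪≫
      (Functor.associator _ _ _).symm ≪≫ Functor.isoWhiskerRight (c8R (Cel K) x) _ ≪≫
      Functor.associator _ _ _
  have : NatTrans.CommShift e.hom ℤ := by
    simp only [e, Iso.trans_hom, Iso.symm_hom, Functor.isoWhiskerLeft_hom,
      Functor.isoWhiskerRight_hom]
    infer_instance
  refine d2_reflect (Cel K).ι (c8R (Cel K) (x ⊗ y)) e _ (tensorRightTensor x.obj y.obj).hom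
    fun z => ?_
  simp [c8R, e]

theorem ct_braiding_commShift
    (h : ∀ x : K, NatTrans.CommShift (BraidedCategory.tensorLeftIsoTensorRight x).hom ℤ)
    (x : CT K) : NatTrans.CommShift (BraidedCategory.tensorLeftIsoTensorRight x).hom ℤ := by
  have := d2_L x
  have := d2_R x
  have := h x.obj
  refine d2_reflect (Cel K).ι (c8L (Cel K) x) (c8R (Cel K) x) _
    (BraidedCategory.tensorLeftIsoTensorRight x.obj).hom fun z => ?_
  simp only [c8R, c8L, Iso.refl_hom, Iso.refl_inv, NatTrans.id_app]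
  exact ((Category.id_comp _).trans (Category.comp_id _)).symm

end Pool.Agent.MP_e18349_al.TT

end
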