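import Mathlib

-- part KMon
section

/-! The monoidal structure on the homotopy category of complexes of modules. -/

namespace Pool.Agent.MP_e18349_al.TT

open CategoryTheory Limits MonoidalCategory

variable (R : Type) [CommRing R]

/-- Unbounded cochain complexes of `R`-modules. -/
abbrev Cx : Type 1 := CochainComplex (ModuleCat.{0} R) ℤ

/-- The homotopy category `K(R)`. -/
abbrev KK : Type 1 := HomotopyCategory (ModuleCat.{0} R) (ComplexShape.up ℤ)

/-- The quotient functor. -/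
abbrev QQ : Cx R ⥤ KK R := HomotopyCategory.quotient _ _

/-- A module as a complex in degree zero. -/
noncomputable abbrev sglC : ModuleCat.{0} R ⥤ Cx R :=
  HomologicalComplex.single (ModuleCat.{0} R) (ComplexShape.up ℤ) 0

variable {R}

theorem QQ_whiskerLeft_congr (X : Cx R) {Y Z : Cx R} {f g : Y ⟶ Z}
    (h : (QQ R).map f = (QQ R).map g) : (QQ R).map (X ◁ f) = (QQ R).map (X ◁ g) :=
  HomotopyCategory.eq_of_homotopy _ _
    (HomologicalComplex.mapBifunctorMapHomotopy₂ (𝟙 X) (HomotopyCategory.homotopyOfEq f g h)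
      (curriedTensor (ModuleCat.{0} R)) (ComplexShape.up ℤ))

theorem QQ_whiskerRight_congr {X Y : Cx R} {f g : X ⟶ Y}
    (h : (QQ R).map f = (QQ R).map g) (Z : Cx R) : (QQ R).map (f ▷ Z) = (QQ R).map (g ▷ Z) :=
  HomotopyCategory.eq_of_homotopy _ _
    (HomologicalComplex.mapBifunctorMapHomotopy₁ (HomotopyCategory.homotopyOfEq f g h) (𝟙 Z)
      (curriedTensor (ModuleCat.{0} R)) (ComplexShape.up ℤ))

/-- Left whiskering on the homotopy category. -/
noncomputable def kWL (X : KK R) {Y Z : KK R} (f : Y ⟶ Z) :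
    (QQ R).obj (X.as ⊗ Y.as) ⟶ (QQ R).obj (X.as ⊗ Z.as) :=
  (QQ R).map (X.as ◁ (QQ R).preimage (X := Y.as) (Y := Z.as) f)

/-- Right whiskering on the homotopy category. -/
noncomputable def kWR {X Y : KK R} (f : X ⟶ Y) (Z : KK R) :
    (QQ R).obj (X.as ⊗ Z.as) ⟶ (QQ R).obj (Y.as ⊗ Z.as) :=
  (QQ R).map ((QQ R).preimage (X := X.as) (Y := Y.as) f ▷ Z.as)

noncomputable instance kStruct : MonoidalCategoryStruct (KK R) where
  tensorObj X Y := (QQ R).obj (X.as ⊗ Y.as)
  whiskerLeft X _ _ f := kWL X f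
  whiskerRight f Z := kWR f Z
  tensorUnit := (QQ R).obj (𝟙_ (Cx R))
  associator X Y Z := (QQ R).mapIso (α_ X.as Y.as Z.as)
  leftUnitor X := (QQ R).mapIso (λ_ X.as)
  rightUnitor X := (QQ R).mapIso (ρ_ X.as)

theorem QQ_tensorObj (X Y : Cx R) : (QQ R).obj X ⊗ (QQ R).obj Y = (QQ R).obj (X ⊗ Y) := rfl

theorem QQ_unit : 𝟙_ (KK R) = (QQ R).obj (𝟙_ (Cx R)) := rfl

theorem QQ_whiskerLeft (X : Cx R) {Y Z : Cx R} (f : Y ⟶ Z) :
    (QQ R).obj X ◁ (QQ R).map f = (QQ R).map (X ◁ f) :=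
  QQ_whiskerLeft_congr X ((QQ R).map_preimage _)

theorem QQ_whiskerRight {X Y : Cx R} (f : X ⟶ Y) (Z : Cx R) :
    (QQ R).map f ▷ (QQ R).obj Z = (QQ R).map (f ▷ Z) :=
  QQ_whiskerRight_congr ((QQ R).map_preimage _) Z

theorem QQ_associator_hom (X Y Z : Cx R) :
    (α_ ((QQ R).obj X) ((QQ R).obj Y) ((QQ R).obj Z)).hom = (QQ R).map (α_ X Y Z).hom := rfl

theorem QQ_leftUnitor_hom (X : Cx R) : (λ_ ((QQ R).obj X)).hom = (QQ R).map (λ_ X).hom := rfl

theorem QQ_rightUnitor_hom (X : Cx R) : (ρ_ ((QQ R).obj X)).hom = (QQ R).map (ρ_ X).hom := rfl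

theorem QQ_tensorHom {X Y Z W : Cx R} (f : X ⟶ Y) (g : Z ⟶ W) :
    ((QQ R).map f ⊗ₘ (QQ R).map g) = (QQ R).map (f ⊗ₘ g) := by
  change (QQ R).map f ▷ (QQ R).obj Z ≫ (QQ R).obj Y ◁ (QQ R).map g = _
  rw [QQ_whiskerRight, QQ_whiskerLeft, MonoidalCategory.tensorHom_def]
  exact ((QQ R).map_comp _ _).symm

/-- Every object of the homotopy category is the image of a complex. -/
theorem KK_obj_ind {P : KK R → Prop} (h : ∀ X : Cx R, P ((QQ R).obj X)) (X : KK R) : P X :=
  h X.as

noncomputable instance kMonoidal : MonoidalCategory (KK R) where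
  tensorHom_def _ _ := rfl
  id_tensorHom_id X Y := by
    induction X using KK_obj_ind
    induction Y using KK_obj_ind
    rw [← (QQ R).map_id, ← (QQ R).map_id, QQ_tensorHom, id_tensorHom_id]
    exact (QQ R).map_id _
  tensorHom_comp_tensorHom {X₁ Y₁ Z₁ X₂ Y₂ Z₂} f₁ f₂ g₁ g₂ := by
    induction X₁ using KK_obj_ind
    induction Y₁ using KK_obj_ind
    induction Z₁ using KK_obj_ind
    induction X₂ using KK_obj_ind
    induction Y₂ using KK_obj_ind
    induction Z₂ using KK_obj_ind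
    obtain ⟨f₁, rfl⟩ := (QQ R).map_surjective f₁
    obtain ⟨f₂, rfl⟩ := (QQ R).map_surjective f₂
    obtain ⟨g₁, rfl⟩ := (QQ R).map_surjective g₁
    obtain ⟨g₂, rfl⟩ := (QQ R).map_surjective g₂
    rw [← (QQ R).map_comp, ← (QQ R).map_comp, QQ_tensorHom, QQ_tensorHom, QQ_tensorHom,
      ← tensorHom_comp_tensorHom]
    exact ((QQ R).map_comp _ _).symm
  whiskerLeft_id X Y := by
    induction X using KK_obj_ind
    induction Y using KK_obj_ind
    rw [← (QQ R).map_id, QQ_whiskerLeft, MonoidalCategory.whiskerLeft_id]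
    exact (QQ R).map_id _
  id_whiskerRight X Y := by
    induction X using KK_obj_ind
    induction Y using KK_obj_ind
    rw [← (QQ R).map_id, QQ_whiskerRight, MonoidalCategory.id_whiskerRight]
    exact (QQ R).map_id _
  associator_naturality {X₁ X₂ X₃ Y₁ Y₂ Y₃} f₁ f₂ f₃ := by
    induction X₁ using KK_obj_ind
    induction X₂ using KK_obj_ind
    induction X₃ using KK_obj_ind
    induction Y₁ using KK_obj_ind
    induction Y₂ using KK_obj_ind
    induction Y₃ using KK_obj_ind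
    obtain ⟨f₁, rfl⟩ := (QQ R).map_surjective f₁
    obtain ⟨f₂, rfl⟩ := (QQ R).map_surjective f₂
    obtain ⟨f₃, rfl⟩ := (QQ R).map_surjective f₃
    rw [QQ_tensorHom, QQ_tensorHom, QQ_associator_hom, QQ_associator_hom]
    erw [QQ_tensorHom, QQ_tensorHom]
    exact ((QQ R).map_comp _ _).symm.trans
      (((QQ R).congr_map (associator_naturality f₁ f₂ f₃)).trans ((QQ R).map_comp _ _))
  leftUnitor_naturality {X Y} f := by
    induction X using KK_obj_ind
    induction Y using KK_obj_ind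
    obtain ⟨f, rfl⟩ := (QQ R).map_surjective f
    rw [QQ_leftUnitor_hom, QQ_leftUnitor_hom]
    erw [QQ_whiskerLeft]
    exact ((QQ R).map_comp _ _).symm.trans
      (((QQ R).congr_map (leftUnitor_naturality f)).trans ((QQ R).map_comp _ _))
  rightUnitor_naturality {X Y} f := by
    induction X using KK_obj_ind
    induction Y using KK_obj_ind
    obtain ⟨f, rfl⟩ := (QQ R).map_surjective f
    rw [QQ_rightUnitor_hom, QQ_rightUnitor_hom]
    erw [QQ_whiskerRight]
    exact ((QQ R).map_comp _ _).symm.trans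
      (((QQ R).congr_map (rightUnitor_naturality f)).trans ((QQ R).map_comp _ _))
  pentagon W X Y Z := by
    induction W using KK_obj_ind with | h W => ?_
    induction X using KK_obj_ind with | h X => ?_
    induction Y using KK_obj_ind with | h Y => ?_
    induction Z using KK_obj_ind with | h Z => ?_
    rw [QQ_associator_hom, QQ_associator_hom]
    erw [QQ_whiskerLeft, QQ_whiskerRight]
    have := (QQ R).congr_map (MonoidalCategory.pentagon W X Y Z)
    rw [(QQ R).map_comp, (QQ R).map_comp, (QQ R).map_comp] at this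
    exact this
  triangle X Y := by
    induction X using KK_obj_ind with | h X => ?_
    induction Y using KK_obj_ind with | h Y => ?_
    rw [QQ_leftUnitor_hom, QQ_rightUnitor_hom]
    erw [QQ_whiskerLeft, QQ_whiskerRight]
    have := (QQ R).congr_map (MonoidalCategory.triangle X Y)
    rw [(QQ R).map_comp] at this
    exact this

end Pool.Agent.MP_e18349_al.TT

end

-- part CxApi
section

/-! An elementary interface to the tensor product of complexes. -/

namespace Pool.Agent.MP_e18349_al.TT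

open CategoryTheory Limits MonoidalCategory HomologicalComplex

variable {R : Type} [CommRing R]

/-- The inclusion of a summand in the tensor product of complexes. -/
noncomputable def ιT (X Y : Cx R) (p q n : ℤ) (h : p + q = n) :
    X.X p ⊗ Y.X q ⟶ (X ⊗ Y).X n :=
  ιTensorObj X Y p q n h

theorem ιT_ext {X Y : Cx R} {n : ℤ} {A : ModuleCat.{0} R} {f g : (X ⊗ Y).X n ⟶ A}
    (h : ∀ (p q : ℤ) (h : p + q = n), ιT X Y p q n h ≫ f = ιT X Y p q n h ≫ g) : f = g :=
  mapBifunctor.hom_ext h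

/-- Maps out of a term of the tensor product. -/
noncomputable def descT {X Y : Cx R} {n : ℤ} {A : ModuleCat.{0} R}
    (f : ∀ (p q : ℤ) (_ : p + q = n), X.X p ⊗ Y.X q ⟶ A) : (X ⊗ Y).X n ⟶ A :=
  mapBifunctorDesc (K₁ := X) (K₂ := Y) (F := curriedTensor (ModuleCat.{0} R))
    (c := ComplexShape.up ℤ) f

@[reassoc]
theorem ιT_descT {X Y : Cx R} {n : ℤ} {A : ModuleCat.{0} R}
    (f : ∀ (p q : ℤ) (_ : p + q = n), X.X p ⊗ Y.X q ⟶ A) (p q : ℤ) (h : p + q = n) :
    ιT X Y p q n h ≫ descT f = f p q h :=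
  ι_mapBifunctorDesc (K₁ := X) (K₂ := Y) (F := curriedTensor (ModuleCat.{0} R))
    (c := ComplexShape.up ℤ) f p q h

@[reassoc]
theorem ιT_whiskerLeft (X : Cx R) {Y Z : Cx R} (g : Y ⟶ Z) (p q n : ℤ) (h : p + q = n) :
    ιT X Y p q n h ≫ (X ◁ g).f n = X.X p ◁ g.f q ≫ ιT X Z p q n h := by
  refine (ι_mapBifunctorMap (𝟙 X) g (curriedTensor (ModuleCat.{0} R)) (ComplexShape.up ℤ)
    p q n h).trans ?_
  rw [id_f, CategoryTheory.Functor.map_id, NatTrans.id_app, Category.id_comp]
  rfl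

@[reassoc]
theorem ιT_whiskerRight {X Y : Cx R} (f : X ⟶ Y) (Z : Cx R) (p q n : ℤ) (h : p + q = n) :
    ιT X Z p q n h ≫ (f ▷ Z).f n = f.f p ▷ Z.X q ≫ ιT Y Z p q n h := by
  refine (ι_mapBifunctorMap f (𝟙 Z) (curriedTensor (ModuleCat.{0} R)) (ComplexShape.up ℤ)
    p q n h).trans ?_
  rw [id_f, CategoryTheory.Functor.map_id, Category.id_comp]
  rfl

@[reassoc]
theorem ιT_d (X Y : Cx R) (p q n : ℤ) (h : p + q = n) (m : ℤ) (hm : n + 1 = m) :
    ιT X Y p q n h ≫ (X ⊗ Y).d n m =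
      X.d p (p + 1) ▷ Y.X q ≫ ιT X Y (p + 1) q m (by lia) +
        p.negOnePow • (X.X p ◁ Y.d q (q + 1) ≫ ιT X Y p (q + 1) m (by lia)) := by
  have h₁ := mapBifunctor.d₁_eq X Y (curriedTensor (ModuleCat.{0} R)) (ComplexShape.up ℤ)
    (show (ComplexShape.up ℤ).Rel p (p + 1) from rfl) q m (show p + 1 + q = m by lia)
  have h₂ := mapBifunctor.d₂_eq X Y (curriedTensor (ModuleCat.{0} R)) (ComplexShape.up ℤ) p
    (show (ComplexShape.up ℤ).Rel q (q + 1) from rfl) m (show p + (q + 1) = m by lia)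
  have h₃ := mapBifunctor.ι_D₁ X Y (curriedTensor (ModuleCat.{0} R)) (ComplexShape.up ℤ) n m p q h
  have h₄ := mapBifunctor.ι_D₂ X Y (curriedTensor (ModuleCat.{0} R)) (ComplexShape.up ℤ) n m p q h
  refine (Preadditive.comp_add _ _ _ _ _ _).trans ?_
  refine congrArg₂ (· + ·) (h₃.trans (h₁.trans ?_)) (h₄.trans (h₂.trans ?_))
  · exact one_smul _ _
  · rfl

theorem ιT_ext₃ {X Y Z : Cx R} {n : ℤ} {A : ModuleCat.{0} R} {f g : ((X ⊗ Y) ⊗ Z).X n ⟶ A}
    (h : ∀ (p q r : ℤ) (h : p + q + r = n),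
      ιT X Y p q (p + q) rfl ▷ Z.X r ≫ ιT (X ⊗ Y) Z (p + q) r n h ≫ f =
        ιT X Y p q (p + q) rfl ▷ Z.X r ≫ ιT (X ⊗ Y) Z (p + q) r n h ≫ g) : f = g := by
  refine mapBifunctor₁₂.hom_ext (K₁ := X) (K₂ := Y) (K₃ := Z)
    (F₁₂ := curriedTensor (ModuleCat.{0} R)) (G := curriedTensor (ModuleCat.{0} R))
    (c₁₂ := ComplexShape.up ℤ) (c₄ := ComplexShape.up ℤ) fun p q r h' => ?_
  rw [mapBifunctor₁₂.ι_eq _ _ _ _ _ _ _ p q r (p + q) n rfl h', Category.assoc, Category.assoc]
  exact h p q r h'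

theorem ιT_ext₃' {X Y Z : Cx R} {n : ℤ} {A : ModuleCat.{0} R} {f g : (X ⊗ (Y ⊗ Z)).X n ⟶ A}
    (h : ∀ (p q r : ℤ) (h : p + (q + r) = n),
      X.X p ◁ ιT Y Z q r (q + r) rfl ≫ ιT X (Y ⊗ Z) p (q + r) n h ≫ f =
        X.X p ◁ ιT Y Z q r (q + r) rfl ≫ ιT X (Y ⊗ Z) p (q + r) n h ≫ g) : f = g := by
  refine mapBifunctor₂₃.hom_ext (K₁ := X) (K₂ := Y) (K₃ := Z)
    (F := curriedTensor (ModuleCat.{0} R)) (G₂₃ := curriedTensor (ModuleCat.{0} R))
    (c₁₂ := ComplexShape.up ℤ) (c₂₃ := ComplexShape.up ℤ) (c₄ := ComplexShape.up ℤ)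
    fun p q r h' => ?_
  have h'' : p + (q + r) = n := (add_assoc p q r).symm.trans h'
  rw [mapBifunctor₂₃.ι_eq _ _ _ _ _ _ _ _ p q r (q + r) n rfl h'', Category.assoc,
    Category.assoc]
  exact h p q r h''

@[reassoc]
theorem ιT_associator_hom (X Y Z : Cx R) (p q r s t n : ℤ) (hs : p + q = s) (ht : q + r = t)
    (h : s + r = n) :
    ιT X Y p q s hs ▷ Z.X r ≫ ιT (X ⊗ Y) Z s r n h ≫ (α_ X Y Z).hom.f n =
      (α_ (X.X p) (Y.X q) (Z.X r)).hom ≫ X.X p ◁ ιT Y Z q r t ht ≫
        ιT X (Y ⊗ Z) p t n (by lia) := by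
  have h' : p + q + r = n := by lia
  have := ι_mapBifunctorAssociatorX_hom (curriedAssociatorNatIso (ModuleCat.{0} R)) X Y Z
    (ComplexShape.up ℤ) (ComplexShape.up ℤ) (ComplexShape.up ℤ) p q r n h'
  rw [mapBifunctor₁₂.ι_eq _ _ _ _ _ _ _ p q r s n hs h,
    mapBifunctor₂₃.ι_eq _ _ _ _ _ _ _ _ p q r t n ht (show p + t = n by lia),
    Category.assoc] at this
  exact this

@[reassoc]
theorem ιT_associator_inv (X Y Z : Cx R) (p q r s t n : ℤ) (hs : p + q = s) (ht : q + r = t)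
    (h : p + t = n) :
    X.X p ◁ ιT Y Z q r t ht ≫ ιT X (Y ⊗ Z) p t n h ≫ (α_ X Y Z).inv.f n =
      (α_ (X.X p) (Y.X q) (Z.X r)).inv ≫ ιT X Y p q s hs ▷ Z.X r ≫
        ιT (X ⊗ Y) Z s r n (by lia) := by
  rw [← cancel_epi (α_ (X.X p) (Y.X q) (Z.X r)).hom, Iso.hom_inv_id_assoc,
    ← ιT_associator_hom_assoc X Y Z p q r s t n hs ht (by lia), ← comp_f, Iso.hom_inv_id, id_f,
    Category.comp_id]

theorem rightUnitor_inv_f (X : Cx R) (n : ℤ) :
    (ρ_ X).inv.f n = (ρ_ (X.X n)).inv ≫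
      X.X n ◁ (singleObjXSelf (ComplexShape.up ℤ) 0 (𝟙_ (ModuleCat.{0} R))).inv ≫
        ιT X (𝟙_ (Cx R)) n 0 n (add_zero n) :=
  rightUnitor'_inv X n

theorem leftUnitor_inv_f (X : Cx R) (n : ℤ) :
    (λ_ X).inv.f n = (λ_ (X.X n)).inv ≫
      (singleObjXSelf (ComplexShape.up ℤ) 0 (𝟙_ (ModuleCat.{0} R))).inv ▷ X.X n ≫
        ιT (𝟙_ (Cx R)) X 0 n n (zero_add n) :=
  leftUnitor'_inv X n

end Pool.Agent.MP_e18349_al.TT

end

-- part C1
section

/-! Row C1: the symmetric structure (Koszul signs) on complexes. -/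

namespace Pool.Agent.MP_e18349_al.TT

open CategoryTheory Limits MonoidalCategory Opposite Pretriangulated HomologicalComplex

variable {R : Type} [CommRing R]

/-- The braiding on complexes. -/
noncomputable def cxβ (X Y : Cx R) : X ⊗ Y ⟶ Y ⊗ X where
  f n := descT fun p q h =>
    (p * q).negOnePow • ((β_ (X.X p) (Y.X q)).hom ≫ ιT Y X q p n (by lia))
  comm' n m hnm := by
    refine ιT_ext fun p q h => ?_
    rw [ιT_descT_assoc, ιT_d_assoc X Y p q n h m hnm, Linear.units_smul_comp, Category.assoc,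
      ιT_d Y X q p n (by lia) m hnm]
    simp only [Preadditive.add_comp, Preadditive.comp_add, Linear.units_smul_comp,
      Linear.comp_units_smul, Category.assoc, ιT_descT, smul_add, smul_smul,
      BraidedCategory.braiding_naturality_left_assoc,
      BraidedCategory.braiding_naturality_right_assoc]
    rw [add_comm]
    congr 2
    · rw [← Int.negOnePow_add, add_mul, one_mul]
    · rw [← Int.negOnePow_add, mul_add, mul_one, add_comm (p * q) p, ← add_assoc,
        Int.negOnePow_add, Int.negOnePow_add, Int.units_mul_self, one_mul]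

@[reassoc]
theorem ιT_cxβ (X Y : Cx R) (p q n : ℤ) (h : p + q = n) :
    ιT X Y p q n h ≫ (cxβ X Y).f n =
      (p * q).negOnePow • ((β_ (X.X p) (Y.X q)).hom ≫ ιT Y X q p n (by lia)) :=
  ιT_descT _ p q h

theorem cxβ_cxβ (X Y : Cx R) : cxβ X Y ≫ cxβ Y X = 𝟙 _ := by
  ext n : 1
  refine ιT_ext fun p q h => ?_
  rw [comp_f, ιT_cxβ_assoc, Linear.units_smul_comp, Category.assoc, ιT_cxβ,
    Linear.comp_units_smul, smul_smul, mul_comm q p, Int.units_mul_self, one_smul,
    SymmetricCategory.symmetry_assoc, id_f, Category.comp_id]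

theorem cxβ_naturality_right (X : Cx R) {Y Z : Cx R} (f : Y ⟶ Z) :
    X ◁ f ≫ cxβ X Z = cxβ X Y ≫ f ▷ X := by
  ext n : 1
  refine ιT_ext fun p q h => ?_
  rw [comp_f, comp_f, ιT_whiskerLeft_assoc, ιT_cxβ, ιT_cxβ_assoc, Linear.units_smul_comp,
    Linear.comp_units_smul, Category.assoc, ιT_whiskerRight,
    BraidedCategory.braiding_naturality_right_assoc]

theorem cxβ_naturality_left {X Y : Cx R} (f : X ⟶ Y) (Z : Cx R) :
    f ▷ Z ≫ cxβ Y Z = cxβ X Z ≫ Z ◁ f := by
  ext n : 1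
  refine ιT_ext fun p q h => ?_
  rw [comp_f, comp_f, ιT_whiskerRight_assoc, ιT_cxβ, ιT_cxβ_assoc, Linear.units_smul_comp,
    Linear.comp_units_smul, Category.assoc, ιT_whiskerLeft,
    BraidedCategory.braiding_naturality_left_assoc]

theorem whiskerLeft_units_smul (A : ModuleCat.{0} R) {B C : ModuleCat.{0} R} (u : ℤˣ)
    (f : B ⟶ C) : A ◁ (u • f) = u • A ◁ f :=
  (tensorLeft A).map_units_smul u f

theorem units_smul_whiskerRight {B C : ModuleCat.{0} R} (u : ℤˣ) (f : B ⟶ C)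
    (A : ModuleCat.{0} R) : (u • f) ▷ A = u • f ▷ A :=
  (tensorRight A).map_units_smul u f

theorem cxβ_hexagon_forward (X Y Z : Cx R) :
    (α_ X Y Z).hom ≫ cxβ X (Y ⊗ Z) ≫ (α_ Y Z X).hom =
      cxβ X Y ▷ Z ≫ (α_ Y X Z).hom ≫ Y ◁ cxβ X Z := by
  ext n : 1
  refine ιT_ext₃ fun p q r h => ?_
  simp only [comp_f]
  rw [ιT_associator_hom_assoc X Y Z p q r (p + q) (q + r) n rfl rfl h, ιT_cxβ_assoc,
    Linear.units_smul_comp, Category.assoc, Linear.comp_units_smul,
    BraidedCategory.braiding_naturality_right_assoc,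
    ιT_associator_hom Y Z X q r p (q + r) (r + p) n rfl rfl (by lia),
    ιT_whiskerRight_assoc, ← comp_whiskerRight_assoc, ιT_cxβ, units_smul_whiskerRight,
    Linear.units_smul_comp, comp_whiskerRight, Category.assoc,
    ιT_associator_hom_assoc Y X Z q p r (p + q) (r + p) n (by lia) (by lia) h,
    ιT_whiskerLeft, ← MonoidalCategory.whiskerLeft_comp_assoc (Y.X q) (ιT X Z p r _ _), ιT_cxβ,
    whiskerLeft_units_smul, MonoidalCategory.whiskerLeft_comp]
  simp only [Linear.units_smul_comp, Linear.comp_units_smul, smul_smul, Category.assoc]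
  rw [← Int.negOnePow_add, ← mul_add, BraidedCategory.hexagon_forward_assoc]

theorem cxβ_hexagon_reverse (X Y Z : Cx R) :
    (α_ X Y Z).inv ≫ cxβ (X ⊗ Y) Z ≫ (α_ Z X Y).inv =
      X ◁ cxβ Y Z ≫ (α_ X Z Y).inv ≫ cxβ X Z ▷ Y := by
  ext n : 1
  refine ιT_ext₃' fun p q r h => ?_
  simp only [comp_f]
  rw [ιT_associator_inv_assoc X Y Z p q r (p + q) (q + r) n rfl rfl h, ιT_cxβ_assoc,
    Linear.units_smul_comp, Category.assoc, Linear.comp_units_smul,
    BraidedCategory.braiding_naturality_left_assoc,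
    ιT_associator_inv Z X Y r p q (r + p) (p + q) n rfl rfl (by lia),
    ιT_whiskerLeft_assoc, ← MonoidalCategory.whiskerLeft_comp_assoc, ιT_cxβ,
    whiskerLeft_units_smul, Linear.units_smul_comp, MonoidalCategory.whiskerLeft_comp,
    Category.assoc,
    ιT_associator_inv_assoc X Z Y p r q (r + p) (q + r) n (by lia) (by lia) h,
    ιT_whiskerRight, ← comp_whiskerRight_assoc (ιT X Z p r _ _), ιT_cxβ,
    units_smul_whiskerRight, comp_whiskerRight]
  simp only [Linear.units_smul_comp, Linear.comp_units_smul, smul_smul, Category.assoc]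
  rw [← Int.negOnePow_add, add_comm (q * r), ← add_mul, BraidedCategory.hexagon_reverse_assoc]

noncomputable instance cxSymmetric : SymmetricCategory (Cx R) where
  braiding X Y := ⟨cxβ X Y, cxβ Y X, cxβ_cxβ X Y, cxβ_cxβ Y X⟩
  braiding_naturality_right := cxβ_naturality_right
  braiding_naturality_left := cxβ_naturality_left
  hexagon_forward := cxβ_hexagon_forward
  hexagon_reverse := cxβ_hexagon_reverse
  symmetry := cxβ_cxβ

end Pool.Agent.MP_e18349_al.TT

end

-- part C2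
section

/-! Row C2: additivity, linearity and symmetry of the tensor product on `K(R)`. -/

namespace Pool.Agent.MP_e18349_al.TT

open CategoryTheory Limits MonoidalCategory Opposite Pretriangulated HomologicalComplex

variable {R : Type} [CommRing R]

instance cxMonoidalPreadditive : MonoidalPreadditive (Cx R) where
  whiskerLeft_zero {X Y Z} := by
    ext n : 1
    refine ιT_ext fun p q h => ?_
    rw [ιT_whiskerLeft, zero_f, zero_f, MonoidalPreadditive.whiskerLeft_zero, zero_comp, comp_zero]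
  zero_whiskerRight {X Y Z} := by
    ext n : 1
    refine ιT_ext fun p q h => ?_
    rw [ιT_whiskerRight, zero_f, zero_f, MonoidalPreadditive.zero_whiskerRight, zero_comp,
      comp_zero]
  whiskerLeft_add {X Y Z} f g := by
    ext n : 1
    refine ιT_ext fun p q h => ?_
    rw [ιT_whiskerLeft, add_f_apply, add_f_apply, MonoidalPreadditive.whiskerLeft_add,
      Preadditive.add_comp, Preadditive.comp_add, ιT_whiskerLeft, ιT_whiskerLeft]
  add_whiskerRight {X Y Z} f g := by
    ext n : 1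
    refine ιT_ext fun p q h => ?_
    rw [ιT_whiskerRight, add_f_apply, add_f_apply, MonoidalPreadditive.add_whiskerRight,
      Preadditive.add_comp, Preadditive.comp_add, ιT_whiskerRight, ιT_whiskerRight]

instance cxMonoidalLinear : MonoidalLinear R (Cx R) where
  whiskerLeft_smul X Y Z r f := by
    ext n : 1
    refine ιT_ext fun p q h => ?_
    rw [ιT_whiskerLeft, smul_f_apply, smul_f_apply, MonoidalLinear.whiskerLeft_smul,
      Linear.smul_comp, Linear.comp_smul, ιT_whiskerLeft]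
  smul_whiskerRight r Y Z f X := by
    ext n : 1
    refine ιT_ext fun p q h => ?_
    rw [ιT_whiskerRight, smul_f_apply, smul_f_apply, MonoidalLinear.smul_whiskerRight,
      Linear.smul_comp, Linear.comp_smul, ιT_whiskerRight]

instance kMonoidalPreadditive : MonoidalPreadditive (KK R) where
  whiskerLeft_zero {X Y Z} := by
    induction X using KK_obj_ind
    induction Y using KK_obj_ind
    induction Z using KK_obj_ind
    rw [← (QQ R).map_zero, QQ_whiskerLeft, MonoidalPreadditive.whiskerLeft_zero]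
    exact (QQ R).map_zero _ _
  zero_whiskerRight {X Y Z} := by
    induction X using KK_obj_ind
    induction Y using KK_obj_ind
    induction Z using KK_obj_ind
    rw [← (QQ R).map_zero, QQ_whiskerRight, MonoidalPreadditive.zero_whiskerRight]
    exact (QQ R).map_zero _ _
  whiskerLeft_add {X Y Z} f g := by
    induction X using KK_obj_ind
    induction Y using KK_obj_ind
    induction Z using KK_obj_ind
    obtain ⟨f, rfl⟩ := (QQ R).map_surjective f
    obtain ⟨g, rfl⟩ := (QQ R).map_surjective g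
    rw [← (QQ R).map_add, QQ_whiskerLeft, QQ_whiskerLeft, QQ_whiskerLeft,
      MonoidalPreadditive.whiskerLeft_add]
    exact (QQ R).map_add
  add_whiskerRight {X Y Z} f g := by
    induction X using KK_obj_ind
    induction Y using KK_obj_ind
    induction Z using KK_obj_ind
    obtain ⟨f, rfl⟩ := (QQ R).map_surjective f
    obtain ⟨g, rfl⟩ := (QQ R).map_surjective g
    rw [← (QQ R).map_add, QQ_whiskerRight, QQ_whiskerRight, QQ_whiskerRight,
      MonoidalPreadditive.add_whiskerRight]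
    exact (QQ R).map_add

instance kMonoidalLinear : MonoidalLinear R (KK R) where
  whiskerLeft_smul X Y Z r f := by
    induction X using KK_obj_ind
    induction Y using KK_obj_ind
    induction Z using KK_obj_ind
    obtain ⟨f, rfl⟩ := (QQ R).map_surjective f
    rw [← (QQ R).map_smul, QQ_whiskerLeft, QQ_whiskerLeft, MonoidalLinear.whiskerLeft_smul]
    exact (QQ R).map_smul _ _
  smul_whiskerRight r Y Z f X := by
    induction X using KK_obj_ind
    induction Y using KK_obj_ind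
    induction Z using KK_obj_ind
    obtain ⟨f, rfl⟩ := (QQ R).map_surjective f
    rw [← (QQ R).map_smul, QQ_whiskerRight, QQ_whiskerRight, MonoidalLinear.smul_whiskerRight]
    exact (QQ R).map_smul _ _

/-- The braiding on the homotopy category. -/
noncomputable def kβ (X Y : KK R) : X ⊗ Y ≅ Y ⊗ X := (QQ R).mapIso (β_ X.as Y.as)

theorem kβ_hom (X Y : Cx R) : (kβ ((QQ R).obj X) ((QQ R).obj Y)).hom = (QQ R).map (β_ X Y).hom :=
  rfl

noncomputable instance kSymmetric : SymmetricCategory (KK R) where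
  braiding := kβ
  braiding_naturality_right X Y Z f := by
    induction X using KK_obj_ind with | h X => ?_
    induction Y using KK_obj_ind
    induction Z using KK_obj_ind
    obtain ⟨f, rfl⟩ := (QQ R).map_surjective f
    rw [QQ_whiskerLeft, QQ_whiskerRight, kβ_hom, kβ_hom]
    exact ((QQ R).map_comp _ _).symm.trans
      (((QQ R).congr_map (BraidedCategory.braiding_naturality_right X f)).trans
        ((QQ R).map_comp _ _))
  braiding_naturality_left {X Y} f Z := by
    induction X using KK_obj_ind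
    induction Y using KK_obj_ind
    induction Z using KK_obj_ind with | h Z => ?_
    obtain ⟨f, rfl⟩ := (QQ R).map_surjective f
    rw [QQ_whiskerLeft, QQ_whiskerRight, kβ_hom, kβ_hom]
    exact ((QQ R).map_comp _ _).symm.trans
      (((QQ R).congr_map (BraidedCategory.braiding_naturality_left f Z)).trans
        ((QQ R).map_comp _ _))
  hexagon_forward X Y Z := by
    induction X using KK_obj_ind with | h X => ?_
    induction Y using KK_obj_ind with | h Y => ?_
    induction Z using KK_obj_ind with | h Z => ?_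
    rw [kβ_hom, kβ_hom]
    erw [QQ_whiskerLeft, QQ_whiskerRight]
    have := (QQ R).congr_map (BraidedCategory.hexagon_forward X Y Z)
    rw [(QQ R).map_comp, (QQ R).map_comp, (QQ R).map_comp, (QQ R).map_comp] at this
    exact this
  hexagon_reverse X Y Z := by
    induction X using KK_obj_ind with | h X => ?_
    induction Y using KK_obj_ind with | h Y => ?_
    induction Z using KK_obj_ind with | h Z => ?_
    rw [kβ_hom, kβ_hom]
    erw [QQ_whiskerLeft, QQ_whiskerRight]
    have := (QQ R).congr_map (BraidedCategory.hexagon_reverse X Y Z)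
    rw [(QQ R).map_comp, (QQ R).map_comp, (QQ R).map_comp, (QQ R).map_comp] at this
    exact this
  symmetry X Y := by
    induction X using KK_obj_ind with | h X => ?_
    induction Y using KK_obj_ind with | h Y => ?_
    have := (QQ R).congr_map (SymmetricCategory.symmetry X Y)
    rw [(QQ R).map_comp, (QQ R).map_id] at this
    exact this

end Pool.Agent.MP_e18349_al.TT

end

-- part KShift
section

/-! The tensor product on `K(R)` commutes with shifts. -/

namespace Pool.Agent.MP_e18349_al.TT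

open CategoryTheory Limits MonoidalCategory Opposite Pretriangulated

variable {R : Type} [CommRing R]

noncomputable instance cxCommShift₂ : (curriedTensor (Cx R)).CommShift₂Int :=
  inferInstanceAs ((curriedTensor (ModuleCat.{0} R)).map₂CochainComplex.CommShift₂Int)

/-- `X ⊗ -` on `K(R)` lifts `X ⊗ -` on complexes. -/
noncomputable instance kLiftingLeft (X : KK R) :
    Localization.Lifting (QQ R) (HomologicalComplex.homotopyEquivalences _ _)
      (tensorLeft X.as ⋙ QQ R) (tensorLeft X) :=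
  ⟨NatIso.ofComponents (fun _ => Iso.refl _) fun f => by
    exact (Category.comp_id _).trans ((QQ_whiskerLeft X.as f).trans (Category.id_comp _).symm)⟩

/-- `- ⊗ Y` on `K(R)` lifts `- ⊗ Y` on complexes. -/
noncomputable instance kLiftingRight (Y : KK R) :
    Localization.Lifting (QQ R) (HomologicalComplex.homotopyEquivalences _ _)
      (tensorRight Y.as ⋙ QQ R) (tensorRight Y) :=
  ⟨NatIso.ofComponents (fun _ => Iso.refl _) fun f => by
    exact (Category.comp_id _).trans ((QQ_whiskerRight f Y.as).trans (Category.id_comp _).symm)⟩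

/-- The commutation of `X ⊗ -` with shifts on `K(R)`. -/
@[instance_reducible]
noncomputable def kCommShiftLeft (X : KK R) : (tensorLeft X).CommShift ℤ :=
  Functor.commShiftOfLocalization (QQ R) (HomologicalComplex.homotopyEquivalences _ _) ℤ
    (tensorLeft X.as ⋙ QQ R) (tensorLeft X)

/-- The commutation of `- ⊗ Y` with shifts on `K(R)`. -/
@[instance_reducible]
noncomputable def kCommShiftRight (Y : KK R) : (tensorRight Y).CommShift ℤ :=
  Functor.commShiftOfLocalization (QQ R) (HomologicalComplex.homotopyEquivalences _ _) ℤ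
    (tensorRight Y.as ⋙ QQ R) (tensorRight Y)

theorem kCommShiftLeft_hom_app (X Y : Cx R) (n : ℤ) :
    ((kCommShiftLeft ((QQ R).obj X)).commShiftIso n).hom.app ((QQ R).obj Y) =
      (QQ R).obj X ◁ ((QQ R).commShiftIso n).inv.app Y ≫
        (QQ R).map (CochainComplex.mapBifunctorShift₂Iso X Y
          (curriedTensor (ModuleCat.{0} R)) n).hom ≫
        ((QQ R).commShiftIso n).hom.app (X ⊗ Y) := by
  refine (Functor.commShiftOfLocalization.iso_hom_app (QQ R)
    (HomologicalComplex.homotopyEquivalences _ _) (tensorLeft ((QQ R).obj X).as ⋙ QQ R)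
    (tensorLeft ((QQ R).obj X)) n Y).trans ?_
  rw [Functor.commShiftIso_comp_hom_app]
  erw [Category.id_comp, (shiftFunctor (KK R) n).map_id, Category.comp_id]
  rfl

theorem kCommShiftRight_hom_app (X Y : Cx R) (n : ℤ) :
    ((kCommShiftRight ((QQ R).obj Y)).commShiftIso n).hom.app ((QQ R).obj X) =
      ((QQ R).commShiftIso n).inv.app X ▷ (QQ R).obj Y ≫
        (QQ R).map (CochainComplex.mapBifunctorShift₁Iso X Y
          (curriedTensor (ModuleCat.{0} R)) n).hom ≫
        ((QQ R).commShiftIso n).hom.app (X ⊗ Y) := by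
  refine (Functor.commShiftOfLocalization.iso_hom_app (QQ R)
    (HomologicalComplex.homotopyEquivalences _ _) (tensorRight ((QQ R).obj Y).as ⋙ QQ R)
    (tensorRight ((QQ R).obj Y)) n X).trans ?_
  rw [Functor.commShiftIso_comp_hom_app]
  erw [Category.id_comp, (shiftFunctor (KK R) n).map_id, Category.comp_id]
  rfl

end Pool.Agent.MP_e18349_al.TT

end

-- part C3
section

/-! Row C3: the bifunctor `⊗` on `K(R)` commutes with shifts in both variables. -/

namespace Pool.Agent.MP_e18349_al.TT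

open CategoryTheory Limits MonoidalCategory Opposite Pretriangulated

section Transfer

variable {C D : Type*} [Category C] [Category D] [Preadditive C] [Preadditive D]
  [HasShift C ℤ] [HasShift D ℤ] [∀ n : ℤ, (shiftFunctor C n).Additive]
  [∀ n : ℤ, (shiftFunctor D n).Additive] (L : C ⥤ D) [L.CommShift ℤ] [L.Additive]
  (F : C ⥤ C ⥤ C) [F.CommShift₂Int] (G : D ⥤ D ⥤ D)
  [∀ x, (G.obj x).CommShift ℤ] [∀ y, (G.flip.obj y).CommShift ℤ]
  (μ : ∀ X Y, (G.obj (L.obj X)).obj (L.obj Y) ≅ L.obj ((F.obj X).obj Y))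
  (μl : ∀ {X X' : C} (f : X ⟶ X') (Y : C),
    (G.map (L.map f)).app (L.obj Y) ≫ (μ X' Y).hom = (μ X Y).hom ≫ L.map ((F.map f).app Y))
  (μr : ∀ (X : C) {Y Y' : C} (g : Y ⟶ Y'),
    (G.obj (L.obj X)).map (L.map g) ≫ (μ X Y').hom = (μ X Y).hom ≫ L.map ((F.obj X).map g))
  (hl : ∀ (X Y : C) (n : ℤ), ((G.obj (L.obj X)).commShiftIso n).hom.app (L.obj Y) =
    (G.obj (L.obj X)).map ((L.commShiftIso n).inv.app Y) ≫ (μ X (Y⟦n⟧)).hom ≫
      L.map (((F.obj X).commShiftIso n).hom.app Y) ≫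
      (L.commShiftIso n).hom.app ((F.obj X).obj Y) ≫ (μ X Y).inv⟦n⟧')
  (hr : ∀ (X Y : C) (n : ℤ), ((G.flip.obj (L.obj Y)).commShiftIso n).hom.app (L.obj X) =
    (G.map ((L.commShiftIso n).inv.app X)).app (L.obj Y) ≫ (μ (X⟦n⟧) Y).hom ≫
      L.map (((F.flip.obj Y).commShiftIso n).hom.app X) ≫
      (L.commShiftIso n).hom.app ((F.obj X).obj Y) ≫ (μ X Y).inv⟦n⟧')

omit [Preadditive D] [∀ n : ℤ, (shiftFunctor D n).Additive] [L.Additive]
  [∀ y, (G.flip.obj y).CommShift ℤ] in
include μl hl in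
theorem transfer_nat_left {X X' : C} (f : X ⟶ X') (Y : C) (n : ℤ) :
    ((G.obj (L.obj X)).commShiftIso n).hom.app (L.obj Y) ≫
        ((G.map (L.map f)).app (L.obj Y))⟦n⟧' =
      (G.map (L.map f)).app ((L.obj Y)⟦n⟧) ≫
        ((G.obj (L.obj X')).commShiftIso n).hom.app (L.obj Y) := by
  have h₁ : (μ X Y).inv ≫ (G.map (L.map f)).app (L.obj Y) =
      L.map ((F.map f).app Y) ≫ (μ X' Y).inv := by
    rw [Iso.inv_comp_eq, ← Category.assoc, ← μl, Category.assoc, Iso.hom_inv_id, Category.comp_id]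
  have h₂ := L.congr_map (NatTrans.shift_app_comm (F.map f) n Y)
  have h₃ := (G.map (L.map f)).naturality ((L.commShiftIso n).inv.app Y)
  have h₄ := L.commShiftIso_hom_naturality ((F.map f).app Y) n
  rw [L.map_comp, L.map_comp] at h₂
  rw [hl, hl]
  simp only [Category.assoc]
  erw [← (shiftFunctor D n).map_comp, h₁, (shiftFunctor D n).map_comp, ← reassoc_of% h₄,
    reassoc_of% h₂, ← reassoc_of% h₃, reassoc_of% (μl f (Y⟦n⟧))]

omit [Preadditive D] [∀ n : ℤ, (shiftFunctor D n).Additive] [L.Additive]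
  [∀ x, (G.obj x).CommShift ℤ] in
include μr hr in
theorem transfer_nat_right (X : C) {Y Y' : C} (g : Y ⟶ Y') (n : ℤ) :
    ((G.flip.obj (L.obj Y)).commShiftIso n).hom.app (L.obj X) ≫
        ((G.obj (L.obj X)).map (L.map g))⟦n⟧' =
      (G.obj ((L.obj X)⟦n⟧)).map (L.map g) ≫
        ((G.flip.obj (L.obj Y')).commShiftIso n).hom.app (L.obj X) := by
  have h₁ : (μ X Y).inv ≫ (G.obj (L.obj X)).map (L.map g) =
      L.map ((F.obj X).map g) ≫ (μ X Y').inv := by
    rw [Iso.inv_comp_eq, ← Category.assoc, ← μr, Category.assoc, Iso.hom_inv_id, Category.comp_id]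
  have h₂ := L.congr_map (NatTrans.shift_app_comm (F.flip.map g) n X)
  have h₃ := (G.map ((L.commShiftIso n).inv.app X)).naturality (L.map g)
  have h₄ := L.commShiftIso_hom_naturality ((F.obj X).map g) n
  rw [L.map_comp, L.map_comp] at h₂
  rw [hr, hr]
  simp only [Category.assoc]
  erw [← (shiftFunctor D n).map_comp, h₁, (shiftFunctor D n).map_comp, ← reassoc_of% h₄,
    reassoc_of% h₂, reassoc_of% h₃, reassoc_of% (μr (X⟦n⟧) g)]
  rfl

include hl hr in
theorem transfer_comm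
    (nl : ∀ {x x' : D} (f : x ⟶ x'), NatTrans.CommShift (G.map f) ℤ)
    (nr : ∀ {y y' : D} (g : y ⟶ y'), NatTrans.CommShift (G.flip.map g) ℤ)
    (X Y : C) (m n : ℤ) :
    ((G.obj ((L.obj X)⟦m⟧)).commShiftIso n).hom.app (L.obj Y) ≫
      (((G.flip.obj (L.obj Y)).commShiftIso m).hom.app (L.obj X))⟦n⟧' =
        ((G.flip.obj ((L.obj Y)⟦n⟧)).commShiftIso m).hom.app (L.obj X) ≫
          (((G.obj (L.obj X)).commShiftIso n).hom.app (L.obj Y))⟦m⟧' ≫
            (shiftComm ((G.obj (L.obj X)).obj (L.obj Y)) m n).inv ≫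
              ((CommShift₂Setup.int (D := D)).ε m n).val.app _ := by
  have := nl ((L.commShiftIso m).inv.app X)
  have := nr ((L.commShiftIso n).inv.app Y)
  have h₁ := NatTrans.shift_app_comm (G.map ((L.commShiftIso m).inv.app X)) n (L.obj Y)
  have h₂ := NatTrans.shift_app_comm (G.flip.map ((L.commShiftIso n).inv.app Y)) m (L.obj X)
  have h₃ := L.congr_map (F.commShift₂_comm .int X Y m n)
  have h₄ := (G.map ((L.commShiftIso m).inv.app X)).naturality ((L.commShiftIso n).inv.app Y)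
  have h₅ := L.commShiftIso_hom_naturality (((F.flip.obj Y).commShiftIso m).hom.app X) n
  have h₆ := L.commShiftIso_hom_naturality (((F.obj X).commShiftIso n).hom.app Y) m
  have h₇ := L.map_shiftFunctorComm_hom_app ((F.obj X).obj Y) n m
  have h₈ := (shiftFunctorComm D n m).hom.naturality (μ X Y).inv
  rw [hr X Y m, hl X Y n]
  simp only [Functor.map_comp, Category.assoc]
  erw [reassoc_of% h₁, reassoc_of% h₂]
  rw [hl, hr]
  simp only [← shiftComm_symm _ n m, Iso.symm_inv, CommShift₂Setup.int_ε,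
    CatCenter.app_neg_one_zpow, Functor.map_comp, Functor.map_units_smul,
    Linear.comp_units_smul, Category.comp_id, Category.assoc, Iso.app_hom] at h₃ ⊢
  erw [Iso.map_inv_hom_id_assoc, Iso.map_inv_hom_id_assoc, ← reassoc_of% h₅, reassoc_of% h₃,
    ← reassoc_of% h₆, ← reassoc_of% h₄, h₈]
  simp only [Linear.units_smul_comp, Linear.comp_units_smul, Category.assoc]
  rw [h₇]
  simp only [Category.assoc]
  erw [Iso.inv_hom_id_app_assoc,
    ((L.commShiftIso m).app ((F.obj X).obj Y)).map_inv_hom_id_assoc (shiftFunctor D n)]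
  rfl

end Transfer

variable {R : Type} [CommRing R]

section

attribute [local instance] kCommShiftLeft kCommShiftRight

theorem k_μl {X X' : Cx R} (f : X ⟶ X') (Y : Cx R) :
    ((curriedTensor (KK R)).map ((QQ R).map f)).app ((QQ R).obj Y) ≫
        (Iso.refl ((QQ R).obj (X' ⊗ Y))).hom =
      (Iso.refl ((QQ R).obj (X ⊗ Y))).hom ≫ (QQ R).map (((curriedTensor (Cx R)).map f).app Y) :=
  (Category.comp_id _).trans ((QQ_whiskerRight f Y).trans (Category.id_comp _).symm)

theorem k_μr (X : Cx R) {Y Y' : Cx R} (g : Y ⟶ Y') :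
    ((curriedTensor (KK R)).obj ((QQ R).obj X)).map ((QQ R).map g) ≫
        (Iso.refl ((QQ R).obj (X ⊗ Y'))).hom =
      (Iso.refl ((QQ R).obj (X ⊗ Y))).hom ≫ (QQ R).map (((curriedTensor (Cx R)).obj X).map g) :=
  (Category.comp_id _).trans ((QQ_whiskerLeft X g).trans (Category.id_comp _).symm)

theorem k_hl (X Y : Cx R) (n : ℤ) :
    (((curriedTensor (KK R)).obj ((QQ R).obj X)).commShiftIso n).hom.app ((QQ R).obj Y) =
    ((curriedTensor (KK R)).obj ((QQ R).obj X)).map (((QQ R).commShiftIso n).inv.app Y) ≫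
      (Iso.refl ((QQ R).obj (X ⊗ Y⟦n⟧))).hom ≫
      (QQ R).map ((((curriedTensor (Cx R)).obj X).commShiftIso n).hom.app Y) ≫
      ((QQ R).commShiftIso n).hom.app (((curriedTensor (Cx R)).obj X).obj Y) ≫
        (Iso.refl ((QQ R).obj (X ⊗ Y))).inv⟦n⟧' := by
  refine (kCommShiftLeft_hom_app X Y n).trans ?_
  erw [Category.id_comp, (shiftFunctor (KK R) n).map_id, Category.comp_id]
  rfl

theorem k_hr (X Y : Cx R) (n : ℤ) :
    (((curriedTensor (KK R)).flip.obj ((QQ R).obj Y)).commShiftIso n).hom.app ((QQ R).obj X) =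
    ((curriedTensor (KK R)).map (((QQ R).commShiftIso n).inv.app X)).app ((QQ R).obj Y) ≫
      (Iso.refl ((QQ R).obj (X⟦n⟧ ⊗ Y))).hom ≫
      (QQ R).map ((((curriedTensor (Cx R)).flip.obj Y).commShiftIso n).hom.app X) ≫
      ((QQ R).commShiftIso n).hom.app (((curriedTensor (Cx R)).obj X).obj Y) ≫
        (Iso.refl ((QQ R).obj (X ⊗ Y))).inv⟦n⟧' := by
  refine (kCommShiftRight_hom_app X Y n).trans ?_
  erw [Category.id_comp, (shiftFunctor (KK R) n).map_id, Category.comp_id]
  rfl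

theorem k_nat_left {X X' : KK R} (f : X ⟶ X') :
    NatTrans.CommShift ((curriedTensor (KK R)).map f) ℤ := ⟨fun n => by
  induction X using KK_obj_ind with | h X => ?_
  induction X' using KK_obj_ind with | h X' => ?_
  obtain ⟨f, rfl⟩ := (QQ R).map_surjective f
  ext Y
  induction Y using KK_obj_ind with | h Y => ?_
  exact transfer_nat_left (QQ R) (curriedTensor (Cx R)) (curriedTensor (KK R))
    (fun _ _ => Iso.refl _) k_μl k_hl f Y n⟩

theorem k_nat_right {Y Y' : KK R} (g : Y ⟶ Y') :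
    NatTrans.CommShift ((curriedTensor (KK R)).flip.map g) ℤ := ⟨fun n => by
  induction Y using KK_obj_ind with | h Y => ?_
  induction Y' using KK_obj_ind with | h Y' => ?_
  obtain ⟨g, rfl⟩ := (QQ R).map_surjective g
  ext X
  induction X using KK_obj_ind with | h X => ?_
  exact transfer_nat_right (QQ R) (curriedTensor (Cx R)) (curriedTensor (KK R))
    (fun _ _ => Iso.refl _) k_μr k_hr X g n⟩

end

noncomputable instance kCommShift₂ : (curriedTensor (KK R)).CommShift₂Int where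
  commShiftObj := kCommShiftLeft
  commShift_map := k_nat_left
  commShiftFlipObj := kCommShiftRight
  commShift_flip_map := k_nat_right
  comm X Y m n := by
    induction X using KK_obj_ind with | h X => ?_
    induction Y using KK_obj_ind with | h Y => ?_
    let := kCommShiftLeft (R := R)
    let := kCommShiftRight (R := R)
    exact transfer_comm (QQ R) (curriedTensor (Cx R)) (curriedTensor (KK R))
      (fun _ _ => Iso.refl _) k_hl k_hr k_nat_left k_nat_right X Y m n

end Pool.Agent.MP_e18349_al.TT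

end

-- part C4
section

/-! Row C4: `X ⊗ -` and `- ⊗ Y` are exact on `K(R)`. -/

namespace Pool.Agent.MP_e18349_al.TT

open CategoryTheory Limits MonoidalCategory Opposite Pretriangulated

variable {R : Type} [CommRing R]

section

open HomologicalComplex CochainComplex

variable (X : Cx R) (S : ShortComplex (Cx R))
  (σ : ∀ n, (S.map (eval (ModuleCat.{0} R) (ComplexShape.up ℤ) n)).Splitting)

/-- The section of a degreewise splitting. -/
noncomputable def spS (q : ℤ) : S.X₃.X q ⟶ S.X₂.X q := (σ q).s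

/-- The retraction of a degreewise splitting. -/
noncomputable def spR (q : ℤ) : S.X₂.X q ⟶ S.X₁.X q := (σ q).r

theorem sp_f_r (q : ℤ) : S.f.f q ≫ spR S σ q = 𝟙 _ := (σ q).f_r

theorem sp_s_g (q : ℤ) : spS S σ q ≫ S.g.f q = 𝟙 _ := (σ q).s_g

theorem sp_s_r (q : ℤ) : spS S σ q ≫ spR S σ q = 0 := (σ q).s_r

theorem sp_id (q : ℤ) : spR S σ q ≫ S.f.f q + S.g.f q ≫ spS S σ q = 𝟙 _ := (σ q).id

theorem sp_hom_f (q : ℤ) : (homOfDegreewiseSplit S σ).f q =
    spS S σ q ≫ S.X₂.d q (q + 1) ≫ spR S σ (q + 1) :=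
  homOfDegreewiseSplit_f S σ q

/-- `X ⊗ S`. -/
noncomputable def scL : ShortComplex (Cx R) :=
  ShortComplex.mk (X ◁ S.f) (X ◁ S.g)
    (by rw [← MonoidalCategory.whiskerLeft_comp, S.zero, MonoidalPreadditive.whiskerLeft_zero])

/-- `S ⊗ X`. -/
noncomputable def scR : ShortComplex (Cx R) :=
  ShortComplex.mk (S.f ▷ X) (S.g ▷ X)
    (by rw [← MonoidalCategory.comp_whiskerRight, S.zero, MonoidalPreadditive.zero_whiskerRight])

/-- The retraction for `X ⊗ S`. -/
noncomputable def rL (n : ℤ) : (X ⊗ S.X₂).X n ⟶ (X ⊗ S.X₁).X n :=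
  descT fun p q h => X.X p ◁ spR S σ q ≫ ιT X S.X₁ p q n h

/-- The section for `X ⊗ S`. -/
noncomputable def sL (n : ℤ) : (X ⊗ S.X₃).X n ⟶ (X ⊗ S.X₂).X n :=
  descT fun p q h => X.X p ◁ spS S σ q ≫ ιT X S.X₂ p q n h

/-- The retraction for `S ⊗ X`. -/
noncomputable def rR (n : ℤ) : (S.X₂ ⊗ X).X n ⟶ (S.X₁ ⊗ X).X n :=
  descT fun p q h => spR S σ p ▷ X.X q ≫ ιT S.X₁ X p q n h

/-- The section for `S ⊗ X`. -/
noncomputable def sR (n : ℤ) : (S.X₃ ⊗ X).X n ⟶ (S.X₂ ⊗ X).X n :=
  descT fun p q h => spS S σ p ▷ X.X q ≫ ιT S.X₂ X p q n h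

@[reassoc]
theorem ιT_rL (p q n : ℤ) (h : p + q = n) :
    ιT X S.X₂ p q n h ≫ rL X S σ n = X.X p ◁ spR S σ q ≫ ιT X S.X₁ p q n h :=
  ιT_descT _ p q h

@[reassoc]
theorem ιT_sL (p q n : ℤ) (h : p + q = n) :
    ιT X S.X₃ p q n h ≫ sL X S σ n = X.X p ◁ spS S σ q ≫ ιT X S.X₂ p q n h :=
  ιT_descT _ p q h

@[reassoc]
theorem ιT_rR (p q n : ℤ) (h : p + q = n) :
    ιT S.X₂ X p q n h ≫ rR X S σ n = spR S σ p ▷ X.X q ≫ ιT S.X₁ X p q n h :=
  ιT_descT _ p q h

@[reassoc]
theorem ιT_sR (p q n : ℤ) (h : p + q = n) :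
    ιT S.X₃ X p q n h ≫ sR X S σ n = spS S σ p ▷ X.X q ≫ ιT S.X₂ X p q n h :=
  ιT_descT _ p q h

/-- `X ⊗ S` is degreewise split. -/
noncomputable def spL (n : ℤ) :
    ((scL X S).map (eval (ModuleCat.{0} R) (ComplexShape.up ℤ) n)).Splitting where
  r := rL X S σ n
  s := sL X S σ n
  f_r := by
    change (X ◁ S.f).f n ≫ rL X S σ n = 𝟙 ((X ⊗ S.X₁).X n)
    refine ιT_ext fun p q h => ?_
    rw [ιT_whiskerLeft_assoc, ιT_rL, ← MonoidalCategory.whiskerLeft_comp_assoc, sp_f_r,
      MonoidalCategory.whiskerLeft_id, Category.id_comp, Category.comp_id]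
  s_g := by
    change sL X S σ n ≫ (X ◁ S.g).f n = 𝟙 ((X ⊗ S.X₃).X n)
    refine ιT_ext fun p q h => ?_
    rw [ιT_sL_assoc, ιT_whiskerLeft, ← MonoidalCategory.whiskerLeft_comp_assoc, sp_s_g,
      MonoidalCategory.whiskerLeft_id, Category.id_comp, Category.comp_id]
  id := by
    change rL X S σ n ≫ (X ◁ S.f).f n + (X ◁ S.g).f n ≫ sL X S σ n = 𝟙 ((X ⊗ S.X₂).X n)
    refine ιT_ext fun p q h => ?_
    rw [Preadditive.comp_add, ιT_rL_assoc, ιT_whiskerLeft, ιT_whiskerLeft_assoc, ιT_sL,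
      ← MonoidalCategory.whiskerLeft_comp_assoc, ← MonoidalCategory.whiskerLeft_comp_assoc,
      ← Preadditive.add_comp, ← MonoidalPreadditive.whiskerLeft_add, sp_id,
      MonoidalCategory.whiskerLeft_id, Category.id_comp, Category.comp_id]

/-- `S ⊗ X` is degreewise split. -/
noncomputable def spRt (n : ℤ) :
    ((scR X S).map (eval (ModuleCat.{0} R) (ComplexShape.up ℤ) n)).Splitting where
  r := rR X S σ n
  s := sR X S σ n
  f_r := by
    change (S.f ▷ X).f n ≫ rR X S σ n = 𝟙 ((S.X₁ ⊗ X).X n)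
    refine ιT_ext fun p q h => ?_
    rw [ιT_whiskerRight_assoc, ιT_rR, ← MonoidalCategory.comp_whiskerRight_assoc, sp_f_r,
      MonoidalCategory.id_whiskerRight, Category.id_comp, Category.comp_id]
  s_g := by
    change sR X S σ n ≫ (S.g ▷ X).f n = 𝟙 ((S.X₃ ⊗ X).X n)
    refine ιT_ext fun p q h => ?_
    rw [ιT_sR_assoc, ιT_whiskerRight, ← MonoidalCategory.comp_whiskerRight_assoc, sp_s_g,
      MonoidalCategory.id_whiskerRight, Category.id_comp, Category.comp_id]
  id := by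
    change rR X S σ n ≫ (S.f ▷ X).f n + (S.g ▷ X).f n ≫ sR X S σ n = 𝟙 ((S.X₂ ⊗ X).X n)
    refine ιT_ext fun p q h => ?_
    rw [Preadditive.comp_add, ιT_rR_assoc, ιT_whiskerRight, ιT_whiskerRight_assoc, ιT_sR,
      ← MonoidalCategory.comp_whiskerRight_assoc, ← MonoidalCategory.comp_whiskerRight_assoc,
      ← Preadditive.add_comp, ← MonoidalPreadditive.add_whiskerRight, sp_id,
      MonoidalCategory.id_whiskerRight, Category.id_comp, Category.comp_id]

/-- The components of the shift isomorphism in the second variable. -/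
noncomputable def shL (Y : Cx R) (n : ℤ) : (X ⊗ Y⟦(1 : ℤ)⟧).X n ⟶ (X ⊗ Y).X (n + 1) :=
  (mapBifunctorShift₂Iso X Y (curriedTensor (ModuleCat.{0} R)) 1).hom.f n

/-- The components of the shift isomorphism in the first variable. -/
noncomputable def shR (Y : Cx R) (n : ℤ) : (Y⟦(1 : ℤ)⟧ ⊗ X).X n ⟶ (Y ⊗ X).X (n + 1) :=
  (mapBifunctorShift₁Iso Y X (curriedTensor (ModuleCat.{0} R)) 1).hom.f n

theorem ιT_shL (Y : Cx R) (p q n : ℤ) (h : p + q = n) :
    ιT X (Y⟦(1 : ℤ)⟧) p q n h ≫ shL X Y n =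
      p.negOnePow • (show X.X p ⊗ (Y⟦(1 : ℤ)⟧).X q ⟶ (X ⊗ Y).X (n + 1) from
        ιT X Y p (q + 1) (n + 1) (by lia)) := by
  refine (ι_mapBifunctorShift₂Iso_hom_f X Y (curriedTensor (ModuleCat.{0} R)) 1 p q n h
    (q + 1) (n + 1) rfl rfl).trans ?_
  rw [mul_one]
  congr 1
  erw [CategoryTheory.Functor.map_id, Category.id_comp, Category.comp_id]
  rfl

theorem ιT_shR (Y : Cx R) (p q n : ℤ) (h : p + q = n) :
    ιT (Y⟦(1 : ℤ)⟧) X p q n h ≫ shR X Y n =
      (show (Y⟦(1 : ℤ)⟧).X p ⊗ X.X q ⟶ (Y ⊗ X).X (n + 1) from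
        ιT Y X (p + 1) q (n + 1) (by lia)) := by
  refine (ι_mapBifunctorShift₁Iso_hom_f Y X (curriedTensor (ModuleCat.{0} R)) 1 p q n h
    (p + 1) (n + 1) rfl rfl).trans ?_
  erw [CategoryTheory.Functor.map_id, Category.id_comp, Category.comp_id]
  rfl

theorem ιT_wl_shL {Y Z : Cx R} (g : Z ⟶ Y⟦(1 : ℤ)⟧) (p q n : ℤ) (h : p + q = n)
    (g' : Z.X q ⟶ Y.X (q + 1)) (hg : g.f q = g') :
    ιT X Z p q n h ≫ (X ◁ g).f n ≫ shL X Y n =
      p.negOnePow • (X.X p ◁ g' ≫ ιT X Y p (q + 1) (n + 1) (by lia)) := by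
  subst hg
  rw [ιT_whiskerLeft_assoc, ιT_shL, Linear.comp_units_smul]
  rfl

theorem ιT_wr_shR {Y Z : Cx R} (g : Z ⟶ Y⟦(1 : ℤ)⟧) (p q n : ℤ) (h : p + q = n)
    (g' : Z.X p ⟶ Y.X (p + 1)) (hg : g.f p = g') :
    ιT Z X p q n h ≫ (g ▷ X).f n ≫ shR X Y n =
      g' ▷ X.X q ≫ ιT Y X (p + 1) q (n + 1) (by lia) := by
  subst hg
  rw [ιT_whiskerRight_assoc, ιT_shR]
  rfl

theorem hom_spL_f (n : ℤ) :
    sL X S σ n ≫ (X ⊗ S.X₂).d n (n + 1) ≫ rL X S σ (n + 1) =
      (X ◁ homOfDegreewiseSplit S σ).f n ≫ shL X S.X₁ n := by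
  refine ιT_ext fun p q h => ?_
  rw [ιT_wl_shL X _ p q n h _ (sp_hom_f S σ q), ιT_sL_assoc, ιT_d_assoc _ _ _ _ _ _ _ rfl,
    Preadditive.add_comp, Category.assoc, ιT_rL, Preadditive.comp_add,
    whisker_exchange_assoc, ← MonoidalCategory.whiskerLeft_comp_assoc, sp_s_r,
    MonoidalPreadditive.whiskerLeft_zero, zero_comp, comp_zero, zero_add,
    Linear.units_smul_comp, Category.assoc, ιT_rL, Linear.comp_units_smul,
    MonoidalCategory.whiskerLeft_comp, MonoidalCategory.whiskerLeft_comp, Category.assoc,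
    Category.assoc]

theorem hom_spR_f (n : ℤ) :
    sR X S σ n ≫ (S.X₂ ⊗ X).d n (n + 1) ≫ rR X S σ (n + 1) =
      (homOfDegreewiseSplit S σ ▷ X).f n ≫ shR X S.X₁ n := by
  refine ιT_ext fun p q h => ?_
  rw [ιT_wr_shR X _ p q n h _ (sp_hom_f S σ p), ιT_sR_assoc, ιT_d_assoc _ _ _ _ _ _ _ rfl,
    Preadditive.add_comp, Category.assoc, ιT_rR, Preadditive.comp_add,
    Linear.units_smul_comp, Category.assoc, ιT_rR, Linear.comp_units_smul,
    whisker_exchange_assoc, ← MonoidalCategory.comp_whiskerRight_assoc (spS S σ p) (spR S σ p),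
    sp_s_r, MonoidalPreadditive.zero_whiskerRight, zero_comp, smul_zero, add_zero,
    MonoidalCategory.comp_whiskerRight, MonoidalCategory.comp_whiskerRight, Category.assoc,
    Category.assoc]

theorem hom_spL : homOfDegreewiseSplit (scL X S) (spL X S σ) =
    X ◁ homOfDegreewiseSplit S σ ≫
      (mapBifunctorShift₂Iso X S.X₁ (curriedTensor (ModuleCat.{0} R)) 1).hom := by
  ext1 n
  exact (sp_hom_f (scL X S) (spL X S σ) n).trans (hom_spL_f X S σ n)

theorem hom_spR : homOfDegreewiseSplit (scR X S) (spRt X S σ) =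
    homOfDegreewiseSplit S σ ▷ X ≫
      (mapBifunctorShift₁Iso S.X₁ X (curriedTensor (ModuleCat.{0} R)) 1).hom := by
  ext1 n
  exact (sp_hom_f (scR X S) (spRt X S σ) n).trans (hom_spR_f X S σ n)

end

theorem aux_left {C : Type*} [Category C] [MonoidalCategory C] (x : C) {a b b' c : C}
    (g : a ⟶ b) (i : b ⟶ b') (j : b' ⟶ b) (hij : i ≫ j = 𝟙 b) (u : x ⊗ b ⟶ c) :
    x ◁ (g ≫ i) ≫ x ◁ j ≫ u = x ◁ g ≫ u := by
  rw [← MonoidalCategory.whiskerLeft_comp_assoc, Category.assoc, hij, Category.comp_id]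

theorem aux_right {C : Type*} [Category C] [MonoidalCategory C] (x : C) {a b b' c : C}
    (g : a ⟶ b) (i : b ⟶ b') (j : b' ⟶ b) (hij : i ≫ j = 𝟙 b) (u : b ⊗ x ⟶ c) :
    (g ≫ i) ▷ x ≫ j ▷ x ≫ u = g ▷ x ≫ u := by
  rw [← MonoidalCategory.comp_whiskerRight_assoc, Category.assoc, hij, Category.comp_id]

theorem kL_aux (X : Cx R) {Y Z : Cx R} (g : Z ⟶ Y⟦(1 : ℤ)⟧) :
    (QQ R).obj X ◁ ((QQ R).map g ≫ ((QQ R).commShiftIso (1 : ℤ)).hom.app Y) ≫
        ((kCommShiftLeft ((QQ R).obj X)).commShiftIso (1 : ℤ)).hom.app ((QQ R).obj Y) =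
      (QQ R).map (X ◁ g ≫ (CochainComplex.mapBifunctorShift₂Iso X Y
          (curriedTensor (ModuleCat.{0} R)) (1 : ℤ)).hom) ≫
        ((QQ R).commShiftIso (1 : ℤ)).hom.app (X ⊗ Y) := by
  rw [kCommShiftLeft_hom_app]
  refine (aux_left ((QQ R).obj X) ((QQ R).map g) (((QQ R).commShiftIso (1 : ℤ)).hom.app Y)
    (((QQ R).commShiftIso (1 : ℤ)).inv.app Y) (((QQ R).commShiftIso (1 : ℤ)).hom_inv_id_app Y)
    _).trans ?_
  rw [QQ_whiskerLeft, (QQ R).map_comp]
  exact (Category.assoc _ _ _).symm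

theorem kR_aux (X : Cx R) {Y Z : Cx R} (g : Z ⟶ Y⟦(1 : ℤ)⟧) :
    ((QQ R).map g ≫ ((QQ R).commShiftIso (1 : ℤ)).hom.app Y) ▷ (QQ R).obj X ≫
        ((kCommShiftRight ((QQ R).obj X)).commShiftIso (1 : ℤ)).hom.app ((QQ R).obj Y) =
      (QQ R).map (g ▷ X ≫ (CochainComplex.mapBifunctorShift₁Iso Y X
          (curriedTensor (ModuleCat.{0} R)) (1 : ℤ)).hom) ≫
        ((QQ R).commShiftIso (1 : ℤ)).hom.app (Y ⊗ X) := by
  rw [kCommShiftRight_hom_app]
  refine (aux_right ((QQ R).obj X) ((QQ R).map g) (((QQ R).commShiftIso (1 : ℤ)).hom.app Y)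
    (((QQ R).commShiftIso (1 : ℤ)).inv.app Y) (((QQ R).commShiftIso (1 : ℤ)).hom_inv_id_app Y)
    _).trans ?_
  rw [QQ_whiskerRight, (QQ R).map_comp]
  exact (Category.assoc _ _ _).symm

theorem kTriangulatedLeft (X : KK R) :
    letI := kCommShiftLeft X
    (tensorLeft X).IsTriangulated := by
  induction X using KK_obj_ind with | h X => ?_
  let _ := kCommShiftLeft ((QQ R).obj X)
  refine ⟨fun T hT => ?_⟩
  obtain ⟨S, σ, ⟨e⟩⟩ := (HomotopyCategory.distinguished_iff_iso_trianglehOfDegreewiseSplit T).1 hT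
  refine (HomotopyCategory.distinguished_iff_iso_trianglehOfDegreewiseSplit _).2
    ⟨scL X S, spL X S σ, ⟨(tensorLeft ((QQ R).obj X)).mapTriangle.mapIso e ≪≫
      Triangle.isoMk _ _ (Iso.refl _) (Iso.refl _) (Iso.refl _) ?_ ?_ ?_⟩⟩
  · exact (Category.comp_id _).trans ((QQ_whiskerLeft X S.f).trans (Category.id_comp _).symm)
  · exact (Category.comp_id _).trans ((QQ_whiskerLeft X S.g).trans (Category.id_comp _).symm)
  · have h := kL_aux X (CochainComplex.homOfDegreewiseSplit S σ)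
    rw [← hom_spL] at h
    exact (congrArg (_ ≫ ·) ((shiftFunctor (KK R) (1 : ℤ)).map_id _)).trans
      ((Category.comp_id _).trans (h.trans (Category.id_comp _).symm))

theorem kTriangulatedRight (Y : KK R) :
    letI := kCommShiftRight Y
    (tensorRight Y).IsTriangulated := by
  induction Y using KK_obj_ind with | h X => ?_
  let _ := kCommShiftRight ((QQ R).obj X)
  refine ⟨fun T hT => ?_⟩
  obtain ⟨S, σ, ⟨e⟩⟩ := (HomotopyCategory.distinguished_iff_iso_trianglehOfDegreewiseSplit T).1 hT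
  refine (HomotopyCategory.distinguished_iff_iso_trianglehOfDegreewiseSplit _).2
    ⟨scR X S, spRt X S σ, ⟨(tensorRight ((QQ R).obj X)).mapTriangle.mapIso e ≪≫
      Triangle.isoMk _ _ (Iso.refl _) (Iso.refl _) (Iso.refl _) ?_ ?_ ?_⟩⟩
  · exact (Category.comp_id _).trans ((QQ_whiskerRight S.f X).trans (Category.id_comp _).symm)
  · exact (Category.comp_id _).trans ((QQ_whiskerRight S.g X).trans (Category.id_comp _).symm)
  · have h := kR_aux X (CochainComplex.homOfDegreewiseSplit S σ)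
    rw [← hom_spR] at h
    exact (congrArg (_ ≫ ·) ((shiftFunctor (KK R) (1 : ℤ)).map_id _)).trans
      ((Category.comp_id _).trans (h.trans (Category.id_comp _).symm))

end Pool.Agent.MP_e18349_al.TT

end

-- part D1
section

/-! Row D1: unitor, associator and braiding of `K(R)` commute with shifts. -/

namespace Pool.Agent.MP_e18349_al.TT

open CategoryTheory Limits MonoidalCategory Opposite Pretriangulated

theorem d1_transfer {C D : Type*} [Category C] [Category D] [HasShift C ℤ] [HasShift D ℤ]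
    (L : C ⥤ D) [L.CommShift ℤ] (hL : ∀ d : D, ∃ c, L.obj c = d)
    {F F' : C ⥤ D} {G G' : D ⥤ D} [F.CommShift ℤ] [F'.CommShift ℤ] [G.CommShift ℤ]
    [G'.CommShift ℤ] (e : L ⋙ G ≅ F) (e' : L ⋙ G' ≅ F') [NatTrans.CommShift e.hom ℤ]
    [NatTrans.CommShift e'.hom ℤ] (τ : F ⟶ F') [NatTrans.CommShift τ ℤ] (τ' : G ⟶ G')
    (h : ∀ c, τ'.app (L.obj c) ≫ e'.hom.app c = e.hom.app c ≫ τ.app c) :
    NatTrans.CommShift τ' ℤ := by
  have h₁ : Functor.whiskerLeft L τ' = e.hom ≫ τ ≫ e'.inv := by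
    ext c
    rw [NatTrans.comp_app, NatTrans.comp_app, ← Category.assoc, ← h c, Category.assoc,
      Iso.hom_inv_id_app]
    exact (Category.comp_id _).symm
  have h₂ : NatTrans.CommShift (Functor.whiskerLeft L τ') ℤ := by
    rw [h₁]
    infer_instance
  refine ⟨fun n => ?_⟩
  ext d
  obtain ⟨c, rfl⟩ := hL d
  have h₃ := NatTrans.shift_app_comm (Functor.whiskerLeft L τ') n c
  rw [Functor.commShiftIso_comp_hom_app, Functor.commShiftIso_comp_hom_app] at h₃
  have h₄ := τ'.naturality ((L.commShiftIso n).hom.app c)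
  change (G.commShiftIso n).hom.app (L.obj c) ≫ (τ'.app (L.obj c))⟦n⟧' =
    τ'.app ((L.obj c)⟦n⟧) ≫ (G'.commShiftIso n).hom.app (L.obj c)
  rw [← cancel_epi (G.map ((L.commShiftIso n).hom.app c))]
  refine ((Category.assoc _ _ _).symm.trans h₃).trans ?_
  refine (Category.assoc _ _ _).symm.trans (Eq.trans ?_ (Category.assoc _ _ _))
  exact congrArg (· ≫ _) h₄.symm

variable {R : Type} [CommRing R]

section

open HomologicalComplex CochainComplex

/-- The components of the shift isomorphism in the second variable. -/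
noncomputable def d1L (X Y : Cx R) (n m : ℤ) : (X ⊗ Y⟦n⟧).X m ⟶ (X ⊗ Y).X (m + n) :=
  (mapBifunctorShift₂Iso X Y (curriedTensor (ModuleCat.{0} R)) n).hom.f m

/-- The components of the shift isomorphism in the first variable. -/
noncomputable def d1R (Y X : Cx R) (n m : ℤ) : (Y⟦n⟧ ⊗ X).X m ⟶ (Y ⊗ X).X (m + n) :=
  (mapBifunctorShift₁Iso Y X (curriedTensor (ModuleCat.{0} R)) n).hom.f m

/-- The shift isomorphism in the first variable. -/
noncomputable def d1R' (Y X : Cx R) (n : ℤ) : Y⟦n⟧ ⊗ X ⟶ (Y ⊗ X)⟦n⟧ :=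
  (mapBifunctorShift₁Iso Y X (curriedTensor (ModuleCat.{0} R)) n).hom

theorem ιT_d1L (X Y : Cx R) (n p q m : ℤ) (h : p + q = m) :
    (show X.X p ⊗ Y.X (q + n) ⟶ (X ⊗ Y⟦n⟧).X m from ιT X (Y⟦n⟧) p q m h) ≫ d1L X Y n m =
      (p * n).negOnePow • ιT X Y p (q + n) (m + n) (by lia) := by
  refine (ι_mapBifunctorShift₂Iso_hom_f X Y (curriedTensor (ModuleCat.{0} R)) n p q m h
    (q + n) (m + n) rfl rfl).trans ?_
  congr 1
  erw [CategoryTheory.Functor.map_id, Category.id_comp, Category.comp_id]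
  rfl

theorem ιT_d1R (Y X : Cx R) (n p q m : ℤ) (h : p + q = m) :
    (show Y.X (p + n) ⊗ X.X q ⟶ (Y⟦n⟧ ⊗ X).X m from ιT (Y⟦n⟧) X p q m h) ≫ d1R Y X n m =
      ιT Y X (p + n) q (m + n) (by lia) := by
  refine (ι_mapBifunctorShift₁Iso_hom_f Y X (curriedTensor (ModuleCat.{0} R)) n p q m h
    (p + n) (m + n) rfl rfl).trans ?_
  erw [CategoryTheory.Functor.map_id, Category.id_comp, Category.comp_id]
  rfl

theorem d1_unitor_f (Y : Cx R) (n m : ℤ) :
    (ρ_ (Y⟦n⟧)).inv.f m ≫ d1R Y (𝟙_ (Cx R)) n m = (ρ_ Y).inv.f (m + n) := by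
  rw [rightUnitor_inv_f, rightUnitor_inv_f, Category.assoc, Category.assoc]
  exact congrArg (fun t => (ρ_ (Y.X (m + n))).inv ≫ Y.X (m + n) ◁
    (singleObjXSelf (ComplexShape.up ℤ) 0 (𝟙_ (ModuleCat.{0} R))).inv ≫ t)
    (ιT_d1R Y (𝟙_ (Cx R)) n m 0 m (add_zero m))

theorem d1_braiding_f (X Y : Cx R) (n m : ℤ) :
    d1L X Y n m ≫ (cxβ X Y).f (m + n) = (cxβ X (Y⟦n⟧)).f m ≫ d1R Y X n m := by
  refine ιT_ext fun p q h => ?_
  have h₁ := ιT_d1L X Y n p q m h
  have h₂ := ιT_d1R Y X n q p m (by lia)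
  have h₃ := ιT_cxβ X Y p (q + n) (m + n) (by lia)
  rw [ιT_cxβ_assoc, Linear.units_smul_comp, Category.assoc]
  refine ((Category.assoc _ _ _).symm.trans (congrArg (· ≫ (cxβ X Y).f (m + n)) h₁)).trans ?_
  refine (Linear.units_smul_comp _ _ _).trans ?_
  rw [h₃, smul_smul, ← Int.negOnePow_add, mul_add, add_comm (p * q), ← add_assoc,
    Int.negOnePow_add, Int.negOnePow_add, Int.units_mul_self, one_mul]
  exact congrArg (fun t => (p * q).negOnePow • ((β_ (X.X p) (Y.X (q + n))).hom ≫ t)) h₂.symm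

theorem d1_assoc_f (Z X Y : Cx R) (n m : ℤ) :
    d1R Z (X ⊗ Y) n m ≫ (α_ Z X Y).inv.f (m + n) =
      (α_ (Z⟦n⟧) X Y).inv.f m ≫ (d1R' Z X n ▷ Y).f m ≫ d1R (Z ⊗ X) Y n m := by
  refine ιT_ext₃' fun p q r h => ?_
  have h₁ := ιT_d1R Z (X ⊗ Y) n p (q + r) m h
  have h₂ := ιT_associator_inv Z X Y (p + n) q r (p + q + n) (q + r) (m + n) (by lia) rfl (by lia)
  have h₃ := ιT_d1R Z X n p q (p + q) rfl
  have h₄ := ιT_d1R (Z ⊗ X) Y n (p + q) r m (by lia)
  rw [ιT_associator_inv_assoc (Z⟦n⟧) X Y p q r (p + q) (q + r) m rfl rfl h, ιT_whiskerRight_assoc,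
    ← comp_whiskerRight_assoc]
  refine (congrArg (fun t => Z.X (p + n) ◁ ιT X Y q r (q + r) rfl ≫ t)
    ((Category.assoc _ _ _).symm.trans
      (congrArg (· ≫ (α_ Z X Y).inv.f (m + n)) h₁))).trans (h₂.trans ?_)
  exact congrArg₂ (fun s t => (α_ (Z.X (p + n)) (X.X q) (Y.X r)).inv ≫ s ▷ Y.X r ≫ t)
    h₃.symm h₄.symm

end

theorem cx_rightUnitor_commShift : NatTrans.CommShift (rightUnitorNatIso (Cx R)).hom ℤ := by
  have : NatTrans.CommShift (rightUnitorNatIso (Cx R)).symm.hom ℤ := ⟨fun n => by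
    ext Y m : 3
    exact (Category.id_comp _).trans (d1_unitor_f Y n m).symm⟩
  exact NatTrans.CommShift.of_iso_inv (rightUnitorNatIso (Cx R)).symm ℤ

theorem cx_assoc_commShift (X Y : Cx R) : NatTrans.CommShift (tensorRightTensor X Y).hom ℤ :=
  ⟨fun n => by
    ext Z m : 3
    rw [NatTrans.comp_app, NatTrans.comp_app, Functor.commShiftIso_comp_hom_app]
    exact d1_assoc_f Z X Y n m⟩

theorem cx_braiding_commShift (X : Cx R) :
    NatTrans.CommShift (BraidedCategory.tensorLeftIsoTensorRight X).hom ℤ :=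
  ⟨fun n => by
    ext Y m : 3
    exact d1_braiding_f X Y n m⟩

/-- The isomorphism `Q ⋙ (x ⊗ -) ≅ (X ⊗ -) ⋙ Q`. -/
noncomputable def d1eL (X : Cx R) : QQ R ⋙ tensorLeft ((QQ R).obj X) ≅ tensorLeft X ⋙ QQ R :=
  Localization.Lifting.iso (QQ R) (HomologicalComplex.homotopyEquivalences _ _)
    (tensorLeft ((QQ R).obj X).as ⋙ QQ R) (tensorLeft ((QQ R).obj X))

/-- The isomorphism `Q ⋙ (- ⊗ x) ≅ (- ⊗ X) ⋙ Q`. -/
noncomputable def d1eR (X : Cx R) : QQ R ⋙ tensorRight ((QQ R).obj X) ≅ tensorRight X ⋙ QQ R :=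
  Localization.Lifting.iso (QQ R) (HomologicalComplex.homotopyEquivalences _ _)
    (tensorRight ((QQ R).obj X).as ⋙ QQ R) (tensorRight ((QQ R).obj X))

instance d1eL_commShift (X : Cx R) : NatTrans.CommShift (d1eL X).hom ℤ :=
  NatTrans.commShift_iso_hom_of_localization (QQ R) (HomologicalComplex.homotopyEquivalences _ _) ℤ
    (tensorLeft ((QQ R).obj X).as ⋙ QQ R) (tensorLeft ((QQ R).obj X))

instance d1eR_commShift (X : Cx R) : NatTrans.CommShift (d1eR X).hom ℤ :=
  NatTrans.commShift_iso_hom_of_localization (QQ R) (HomologicalComplex.homotopyEquivalences _ _) ℤ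
    (tensorRight ((QQ R).obj X).as ⋙ QQ R) (tensorRight ((QQ R).obj X))

theorem d1eL_app (X Y : Cx R) : (d1eL X).hom.app Y = 𝟙 ((QQ R).obj (X ⊗ Y)) := rfl

theorem d1eR_app (X Y : Cx R) : (d1eR X).hom.app Y = 𝟙 ((QQ R).obj (Y ⊗ X)) := rfl

theorem d1_surj (d : KK R) : ∃ c, (QQ R).obj c = d := ⟨d.as, rfl⟩

theorem k_rightUnitor_commShift : NatTrans.CommShift (rightUnitorNatIso (KK R)).hom ℤ := by
  have := cx_rightUnitor_commShift (R := R)
  refine d1_transfer (QQ R) d1_surj (d1eR (𝟙_ (Cx R))) (Functor.rightUnitor (QQ R))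
    (Functor.whiskerRight (rightUnitorNatIso (Cx R)).hom (QQ R) ≫ (Functor.leftUnitor (QQ R)).hom)
    (rightUnitorNatIso (KK R)).hom fun c => ?_
  exact (Category.id_comp _).symm

theorem k_assoc_commShift (x y : KK R) : NatTrans.CommShift (tensorRightTensor x y).hom ℤ := by
  induction x using KK_obj_ind with | h X => ?_
  induction y using KK_obj_ind with | h Y => ?_
  have := cx_assoc_commShift X Y
  let e' : QQ R ⋙ (tensorRight ((QQ R).obj X) ⋙ tensorRight ((QQ R).obj Y)) ≅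
      (tensorRight X ⋙ tensorRight Y) ⋙ QQ R :=
    (Functor.associator _ _ _).symm ≪≫ Functor.isoWhiskerRight (d1eR X) _ ≪≫
      Functor.associator _ _ _ ≪≫ Functor.isoWhiskerLeft _ (d1eR Y) ≪≫
      (Functor.associator _ _ _).symm
  have : NatTrans.CommShift e'.hom ℤ := by
    change NatTrans.CommShift ((Functor.associator _ _ _).inv ≫
      Functor.whiskerRight (d1eR X).hom (tensorRight ((QQ R).obj Y)) ≫
      (Functor.associator _ _ _).hom ≫ Functor.whiskerLeft (tensorRight X) (d1eR Y).hom ≫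
      (Functor.associator _ _ _).inv) ℤ
    infer_instance
  refine d1_transfer (QQ R) d1_surj (d1eR (X ⊗ Y)) e'
    (Functor.whiskerRight (tensorRightTensor X Y).hom (QQ R))
    (tensorRightTensor ((QQ R).obj X) ((QQ R).obj Y)).hom fun c => ?_
  have h : e'.hom.app c = 𝟙 ((QQ R).obj ((c ⊗ X) ⊗ Y)) := by
    change 𝟙 _ ≫ 𝟙 ((QQ R).obj (c ⊗ X)) ▷ (QQ R).obj Y ≫ 𝟙 _ ≫ 𝟙 _ ≫ 𝟙 _ = _
    rw [MonoidalCategory.id_whiskerRight]
    simp only [Category.comp_id]
    rfl
  rw [h]
  exact (Category.comp_id _).trans (Category.id_comp _).symm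

theorem k_braiding_commShift (x : KK R) :
    NatTrans.CommShift (BraidedCategory.tensorLeftIsoTensorRight x).hom ℤ := by
  induction x using KK_obj_ind with | h X => ?_
  have := cx_braiding_commShift X
  refine d1_transfer (QQ R) d1_surj (d1eL X) (d1eR X)
    (Functor.whiskerRight (BraidedCategory.tensorLeftIsoTensorRight X).hom (QQ R))
    (BraidedCategory.tensorLeftIsoTensorRight ((QQ R).obj X)).hom fun c => ?_
  exact (Category.comp_id _).trans (Category.id_comp _).symm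

end Pool.Agent.MP_e18349_al.TT

end

-- part D3
section

/-! Row D3: complexes form a closed monoidal category. -/

namespace Pool.Agent.MP_e18349_al.TT

open CategoryTheory Limits MonoidalCategory Opposite Pretriangulated

variable {R : Type} [CommRing R]

/-- A cocone over the `n`-th term of `X ⊗ F` restricts to the summand `X^p ⊗ F^q`. -/
noncomputable def d3Cocone {J : Type} [SmallCategory J] (X : Cx R) (F : J ⥤ Cx R) (n : ℤ)
    (s : Cocone (F ⋙ tensorLeft X ⋙ HomologicalComplex.eval _ _ n)) (p q : ℤ) (h : p + q = n) :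
    Cocone (F ⋙ HomologicalComplex.eval _ _ q ⋙ tensorLeft (X.X p)) where
  pt := s.pt
  ι :=
    { app := fun j => ιT X (F.obj j) p q n h ≫ s.ι.app j
      naturality := fun j j' f => by
        have h1 : (X ◁ F.map f).f n ≫ s.ι.app j' = s.ι.app j := s.w f
        have h2 := ιT_whiskerLeft_assoc X (F.map f) p q n h (s.ι.app j')
        refine Eq.trans ?_ (Category.comp_id _).symm
        exact h2.symm.trans (congrArg (fun t => ιT X (F.obj j) p q n h ≫ t) h1) }

theorem d3_preserves_eval (J : Type) [SmallCategory J] (X : Cx R) (n : ℤ) :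
    PreservesColimitsOfShape J (tensorLeft X ⋙ HomologicalComplex.eval _ _ n) := by
  refine ⟨fun {F} => ⟨fun {c} hc => ?_⟩⟩
  have hpq : ∀ p q : ℤ,
      IsColimit ((HomologicalComplex.eval _ _ q ⋙ tensorLeft (X.X p)).mapCocone c) :=
    fun p q => isColimitOfPreserves _ hc
  have hfac : ∀ (s : Cocone (F ⋙ tensorLeft X ⋙ HomologicalComplex.eval _ _ n)) (p q : ℤ)
      (h : p + q = n) (j : J), X.X p ◁ (c.ι.app j).f q ≫ (hpq p q).desc (d3Cocone X F n s p q h) =
        ιT X (F.obj j) p q n h ≫ s.ι.app j :=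
    fun s p q h j => (hpq p q).fac (d3Cocone X F n s p q h) j
  refine ⟨{ desc := fun s => descT (X := X) (Y := c.pt) (n := n) (A := s.pt)
              fun p q h => (hpq p q).desc (d3Cocone X F n s p q h)
            fac := fun s j => ?_
            uniq := fun s m hm => ?_ }⟩
  · refine ιT_ext (X := X) (Y := F.obj j) (n := n) (A := s.pt) fun p q h => ?_
    refine (ιT_whiskerLeft_assoc X (c.ι.app j) p q n h _).trans ?_
    refine Eq.trans ?_ (hfac s p q h j)
    exact congrArg (fun t => X.X p ◁ (c.ι.app j).f q ≫ t) (ιT_descT _ p q h)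
  · refine ιT_ext (X := X) (Y := c.pt) (n := n) (A := s.pt) fun p q h => ?_
    refine Eq.trans ?_ (ιT_descT _ p q h).symm
    refine (hpq p q).hom_ext fun j => ?_
    refine Eq.trans ?_ (hfac s p q h j).symm
    have h1 : (X ◁ c.ι.app j).f n ≫ m = s.ι.app j := hm j
    have h2 := ιT_whiskerLeft_assoc X (c.ι.app j) p q n h m
    exact h2.symm.trans (congrArg (fun t => ιT X (F.obj j) p q n h ≫ t) h1)

theorem d3_preservesColimits (X : Cx R) : PreservesColimits (tensorLeft X) :=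
  ⟨fun {J} _ => HomologicalComplex.preservesColimitsOfShape_of_eval _
    fun n => d3_preserves_eval J X n⟩

theorem cx_tensorLeft_isLeftAdjoint (X : Cx R) : (tensorLeft X).IsLeftAdjoint := by
  have := d3_preservesColimits X
  exact isLeftAdjoint_of_preservesColimits_of_isSeparating (isSeparator_separator (Cx R)) _

noncomputable instance cxClosed : MonoidalClosed (Cx R) where
  closed X :=
    haveI := cx_tensorLeft_isLeftAdjoint X
    { rightAdj := (tensorLeft X).rightAdjoint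
      adj := Adjunction.ofIsLeftAdjoint (tensorLeft X) }

end Pool.Agent.MP_e18349_al.TT

end

-- part D4
section

/-! Row D4: the internal hom of complexes and homotopies. -/

namespace Pool.Agent.MP_e18349_al.TT

open CategoryTheory Limits MonoidalCategory Opposite Pretriangulated

variable {R : Type} [CommRing R]

/-- Homotopy extension along a degreewise split monomorphism. -/
theorem extend_of_split {A B W : Cx R} (i : A ⟶ B) (r : ∀ n, B.X n ⟶ A.X n)
    (hr : ∀ n, i.f n ≫ r n = 𝟙 _) (φ : A ⟶ W) (ψ : B ⟶ W) (h : Homotopy φ (i ≫ ψ)) :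
    ∃ ψ' : B ⟶ W, i ≫ ψ' = φ := by
  refine ⟨Homotopy.nullHomotopicMap (fun a b => r a ≫ h.hom a b) + ψ, ?_⟩
  have h₁ : (fun a b => i.f a ≫ r a ≫ h.hom a b) = h.hom := by
    funext a b
    rw [← Category.assoc, hr, Category.id_comp]
  rw [Preadditive.comp_add, Homotopy.comp_nullHomotopicMap, h₁]
  ext n : 1
  exact (h.comm n).symm

theorem d4_map_uncurry (X : Cx R) {t W : Cx R} (a : t ⟶ (ihom X).obj W) :
    ((QQ R).obj X ◁ (QQ R).map a ≫ (QQ R).map ((ihom.ev X).app W) :
      (QQ R).obj X ⊗ (QQ R).obj t ⟶ (QQ R).obj W) = (QQ R).map (MonoidalClosed.uncurry a) := by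
  rw [QQ_whiskerLeft, MonoidalClosed.uncurry_eq]
  exact ((QQ R).map_comp _ _).symm

/-- The tensor-hom adjunction descends to the homotopy category. -/
theorem k_ihom_bij (X t W : Cx R) :
    Function.Bijective fun g : (QQ R).obj t ⟶ (QQ R).obj ((ihom X).obj W) =>
      ((QQ R).obj X ◁ g ≫ (QQ R).map ((ihom.ev X).app W) :
        (QQ R).obj X ⊗ (QQ R).obj t ⟶ (QQ R).obj W) := by
  constructor
  · intro g g' hg
    obtain ⟨a, rfl⟩ := (QQ R).map_surjective g
    obtain ⟨b, rfl⟩ := (QQ R).map_surjective g'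
    have h₁ : (QQ R).map (MonoidalClosed.uncurry a) = (QQ R).map (MonoidalClosed.uncurry b) :=
      (d4_map_uncurry X a).symm.trans (hg.trans (d4_map_uncurry X b))
    have h₂ : MonoidalClosed.uncurry (a - b) =
        MonoidalClosed.uncurry a - MonoidalClosed.uncurry b := by
      rw [MonoidalClosed.uncurry_eq, MonoidalClosed.uncurry_eq, MonoidalClosed.uncurry_eq,
        ← Preadditive.sub_comp]
      exact congrArg (· ≫ (ihom.ev X).app W) ((tensorLeft X).map_sub (f := a) (g := b))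
    let S := CochainComplex.mappingCone.triangleRotateShortComplex (𝟙 t)
    let σ := CochainComplex.mappingCone.triangleRotateShortComplexSplitting (𝟙 t)
    let j : t ⟶ S.X₂ := S.f
    have h₃ : (QQ R).map (MonoidalClosed.uncurry (a - b)) =
        (QQ R).map (X ◁ j ≫ (0 : X ⊗ S.X₂ ⟶ W)) := by
      rw [h₂, (QQ R).map_sub, h₁, sub_self, comp_zero, (QQ R).map_zero]
    obtain ⟨ψ, hψ⟩ := extend_of_split (X ◁ j) (rL X S σ) (fun n => (spL X S σ n).f_r)
      (MonoidalClosed.uncurry (a - b)) 0 (HomotopyCategory.homotopyOfEq _ _ h₃)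
    have h₄ : j ≫ MonoidalClosed.curry ψ = a - b := by
      rw [← MonoidalClosed.curry_natural_left, hψ, MonoidalClosed.curry_uncurry]
    have hz : IsZero ((QQ R).obj S.X₂) :=
      (HomotopyCategory.isZero_quotient_obj_iff _).2
        ⟨CochainComplex.mappingCone.homotopyToZeroOfId t⟩
    rw [← sub_eq_zero, ← (QQ R).map_sub, ← h₄, (QQ R).map_comp,
      hz.eq_of_src ((QQ R).map (MonoidalClosed.curry ψ)) 0, comp_zero]
  · intro u
    obtain ⟨u, rfl⟩ := (QQ R).map_surjective (X := X ⊗ t) (Y := W) u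
    refine ⟨(QQ R).map (MonoidalClosed.curry u), (d4_map_uncurry X _).trans ?_⟩
    rw [MonoidalClosed.uncurry_curry]

/-- Every complex is a quotient of a contractible complex. -/
theorem d4_exists_epi (A : Cx R) :
    ∃ (P : Cx R) (π : P ⟶ A), Epi π ∧ IsZero ((QQ R).obj P) := by
  let B : Cx R := A⟦(-1 : ℤ)⟧
  let S := CochainComplex.mappingCone.triangleRotateShortComplex (𝟙 B)
  have hg : Epi S.g := HomologicalComplex.epi_of_epi_f _ fun n =>
    (CochainComplex.mappingCone.triangleRotateShortComplexSplitting (𝟙 B) n).epi_g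
  let e : S.X₃ ≅ A := shiftNegShift A (1 : ℤ)
  refine ⟨S.X₂, S.g ≫ e.hom, inferInstance, ?_⟩
  rw [IsZero.iff_id_eq_zero, ← (QQ R).map_id, ← (QQ R).map_zero]
  exact HomotopyCategory.eq_of_homotopy _ _ (CochainComplex.mappingCone.homotopyToZeroOfId B)

theorem d4_shortExact_tensor (S : ShortComplex (Cx R))
    (σ : ∀ n, (S.map (HomologicalComplex.eval _ _ n)).Splitting) (t : Cx R) :
    (scR t S).ShortExact :=
  HomologicalComplex.shortExact_of_degreewise_shortExact _ fun n => (spRt t S σ n).shortExact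

/-- The internal hom sends degreewise split sequences to short exact sequences. -/
theorem pre_shortExact (S : ShortComplex (Cx R))
    (σ : ∀ n, (S.map (HomologicalComplex.eval _ _ n)).Splitting) (W : Cx R)
    (w : (MonoidalClosed.pre S.g).app W ≫ (MonoidalClosed.pre S.f).app W = 0) :
    (ShortComplex.mk _ _ w).ShortExact := by
  have hepi : ∀ t : Cx R, Epi (S.g ▷ t) := fun t => (d4_shortExact_tensor S σ t).epi_g
  have hmono : Mono ((MonoidalClosed.pre S.g).app W) := ⟨fun {t} a b hab => by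
    have h := congrArg MonoidalClosed.uncurry hab
    rw [MonoidalClosed.uncurry_pre_app, MonoidalClosed.uncurry_pre_app] at h
    have := hepi t
    exact MonoidalClosed.uncurry_injective ((cancel_epi _).1 h)⟩
  have hepi' : Epi ((MonoidalClosed.pre S.f).app W) := by
    obtain ⟨P, π, hπ, hP⟩ := d4_exists_epi ((ihom S.X₁).obj W)
    have hz : IsZero ((QQ R).obj (S.X₁ ⊗ P)) := (tensorLeft ((QQ R).obj S.X₁)).map_isZero hP
    obtain ⟨ψ, hψ⟩ := extend_of_split (S.f ▷ P) (rR P S σ) (fun n => (spRt P S σ n).f_r)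
      (MonoidalClosed.uncurry π) 0 (HomotopyCategory.homotopyOfEq _ _ (hz.eq_of_src _ _))
    have h : MonoidalClosed.curry ψ ≫ (MonoidalClosed.pre S.f).app W = π := by
      rw [MonoidalClosed.curry_pre_app, hψ, MonoidalClosed.curry_uncurry]
    exact epi_of_epi_fac h
  refine ShortComplex.ShortExact.mk' ?_ hmono hepi'
  refine ShortComplex.exact_of_f_is_kernel _ (KernelFork.IsLimit.ofι' _ w fun {t} k hk => ?_)
  have h₀ : S.f ▷ t ≫ MonoidalClosed.uncurry k = 0 := by
    rw [← MonoidalClosed.uncurry_pre_app, hk, MonoidalClosed.uncurry_eq,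
      MonoidalPreadditive.whiskerLeft_zero, zero_comp]
  have hS := d4_shortExact_tensor S σ t
  have := hS.epi_g
  refine ⟨MonoidalClosed.curry (hS.exact.desc (MonoidalClosed.uncurry k) h₀), ?_⟩
  refine (MonoidalClosed.curry_pre_app S.g _).trans ?_
  rw [MonoidalClosed.curry_eq_iff]
  exact hS.exact.g_desc _ h₀

end Pool.Agent.MP_e18349_al.TT

end
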