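import Pool.Agent.MP_e18349_al.TT.MC
import Pool.Agent.MP_e18349_al.TT.MD
import Pool.Agent.MP_e18349_al.Mg.Main

-- part C5
section

/-! Row C5: coproducts in `K(R)`. -/

namespace Pool.Agent.MP_e18349_al.TT

open CategoryTheory Limits MonoidalCategory Opposite Pretriangulated

variable {R : Type} [CommRing R]

theorem c5_hom_ext_zero {J : Type} (X : J → Cx R) {Y : KK R}
    (φ : (QQ R).obj (sumComplex X) ⟶ Y) (hφ : ∀ j, (QQ R).map (sumι X j) ≫ φ = 0) : φ = 0 := by
  induction Y using KK_obj_ind with | h Y => ?_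
  obtain ⟨g, rfl⟩ := (QQ R).map_surjective φ
  refine (HomotopyCategory.quotient_map_eq_zero_iff g).2 ⟨sumHomotopy g fun j => ?_⟩
  refine ((HomotopyCategory.quotient_map_eq_zero_iff _).1 ?_).some
  exact ((QQ R).map_comp _ _).trans (hφ j)

theorem c5_exists_desc {J : Type} (X : J → Cx R) {Y : KK R} (φ : ∀ j, (QQ R).obj (X j) ⟶ Y) :
    ∃ ψ : (QQ R).obj (sumComplex X) ⟶ Y, ∀ j, (QQ R).map (sumι X j) ≫ ψ = φ j := by
  induction Y using KK_obj_ind with | h Y => ?_
  choose g hg using fun j => (QQ R).map_surjective (φ j)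
  refine ⟨(QQ R).map (sumDesc g), fun j => ?_⟩
  rw [← (QQ R).map_comp, sumι_sumDesc, hg]

/-- The termwise coproduct is a coproduct in the homotopy category. -/
noncomputable def c5SumIsColimit {J : Type} (X : J → Cx R) :
    IsColimit (Cofan.mk (f := fun j => (QQ R).obj (X j)) ((QQ R).obj (sumComplex X))
      (fun j => (QQ R).map (sumι X j))) :=
  Cofan.IsColimit.mk _ (fun t => (c5_exists_desc X t.inj).choose)
    (fun t j => (c5_exists_desc X t.inj).choose_spec j) (fun t m hm => by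
      rw [← sub_eq_zero]
      apply c5_hom_ext_zero
      intro j
      rw [Preadditive.comp_sub, (c5_exists_desc X t.inj).choose_spec j, sub_eq_zero]
      exact hm j)

instance QQ_preserves_coprod (ι : Type) : PreservesColimitsOfShape (Discrete ι) (QQ R) :=
  haveI : ∀ X : ι → Cx R, PreservesColimit (Discrete.functor X) (QQ R) := fun X =>
    preservesColimit_of_preserves_colimit_cocone (sumIsColimit X)
      ((isColimitMapCoconeCofanMkEquiv (QQ R) X (sumι X)).symm (c5SumIsColimit X))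
  preservesColimitsOfShape_of_discrete (QQ R)

instance kHasCoproducts : HasCoproducts.{0} (KK R) :=
  hasCoproducts_of_colimit_cofans
    (fun {_} x => Cofan.mk (f := x) ((QQ R).obj (sumComplex fun j => (x j).as))
      (fun j => (QQ R).map (sumι (fun j => (x j).as) j)))
    (fun {_} x => c5SumIsColimit fun j => (x j).as)

/-- Tensoring with a module preserves the terms of the termwise coproduct. -/
noncomputable def c5TermIsColimit {J : Type} (M : ModuleCat.{0} R) (Y : J → Cx R) (q : ℤ) :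
    IsColimit (Cofan.mk (f := fun j => M ⊗ (Y j).X q) (M ⊗ (sumComplex Y).X q)
      (fun j => M ◁ (sumι Y j).f q)) :=
  isColimitCofanMkObjOfIsColimit (tensorLeft M) (fun j => (Y j).X q) (fun j => (sumι Y j).f q)
    (Cofan.IsColimit.mk _ (fun t => sumDescX t.inj) (fun t j => sumι_sumDescX t.inj j)
      (fun t _ hm => sum_hom_ext fun j => (hm j).trans (sumι_sumDescX t.inj j).symm))

theorem c5_isIso_cmp {J : Type} (X : Cx R) (Y : J → Cx R) :
    IsIso (sumDesc (X := fun j => X ⊗ Y j) fun j => X ◁ sumι Y j) := by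
  have h : ∀ n : ℤ, IsIso ((sumDesc (X := fun j => X ⊗ Y j) fun j => X ◁ sumι Y j).f n) := by
    intro n
    have hf : ∀ j, (sumι (fun j => X ⊗ Y j) j).f n ≫
        (sumDesc (X := fun j => X ⊗ Y j) fun j => X ◁ sumι Y j).f n = (X ◁ sumι Y j).f n :=
      fun j => by rw [← HomologicalComplex.comp_f, sumι_sumDesc]
    have hd : ∀ (p q : ℤ) (h : p + q = n),
        ∃ u : X.X p ⊗ (sumComplex Y).X q ⟶ (sumComplex fun j => X ⊗ Y j).X n,
          ∀ j, X.X p ◁ (sumι Y j).f q ≫ u =
            ιT X (Y j) p q n h ≫ (sumι (fun j => X ⊗ Y j) j).f n := fun p q h =>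
      ⟨Cofan.IsColimit.desc (c5TermIsColimit (X.X p) Y q) _,
        fun j => Cofan.IsColimit.fac (c5TermIsColimit (X.X p) Y q) _ j⟩
    choose u hu using hd
    refine ⟨descT u, ?_, ?_⟩
    · apply sum_hom_ext
      intro j
      rw [← Category.assoc, hf, Category.comp_id]
      apply ιT_ext
      intro p q h
      rw [ιT_whiskerLeft_assoc, ιT_descT, hu]
    · apply ιT_ext
      intro p q h
      rw [ιT_descT_assoc, Category.comp_id]
      refine Cofan.IsColimit.hom_ext (c5TermIsColimit (X.X p) Y q) _ _ fun j => ?_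
      change X.X p ◁ (sumι Y j).f q ≫ _ = X.X p ◁ (sumι Y j).f q ≫ _
      rw [← Category.assoc, hu, Category.assoc, hf, ιT_whiskerLeft]
  exact HomologicalComplex.Hom.isIso_of_components _

instance kTensor_preserves_coprod (X : KK R) (ι : Type) :
    PreservesColimitsOfShape (Discrete ι) (tensorLeft X) := by
  induction X using KK_obj_ind with | h X => ?_
  have : ∀ x : ι → KK R, PreservesColimit (Discrete.functor x) (tensorLeft ((QQ R).obj X)) := by
    intro x
    have hiso := c5_isIso_cmp X fun j => (x j).as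
    refine preservesColimit_of_preserves_colimit_cocone (c5SumIsColimit fun j => (x j).as)
      ((isColimitMapCoconeCofanMkEquiv (tensorLeft ((QQ R).obj X)) x
        (fun j => (QQ R).map (sumι (fun j => (x j).as) j))).symm ?_)
    refine (c5SumIsColimit fun j => X ⊗ (x j).as).ofIsoColimit (Cofan.ext
      ((QQ R).mapIso (@asIso _ _ _ _ _ hiso)) fun j => ?_)
    refine ((QQ R).map_comp _ _).symm.trans ?_
    refine Eq.trans ?_ (QQ_whiskerLeft X (sumι (fun j => (x j).as) j)).symm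
    exact congrArg (QQ R).map (sumι_sumDesc (X := fun j => X ⊗ (x j).as) _ j)
  exact preservesColimitsOfShape_of_discrete _

open Classical in
/-- The projections of the termwise coproduct. -/
noncomputable def c5Proj {J : Type} (X : J → Cx R) (j : J) : sumComplex X ⟶ X j :=
  sumDesc fun i => if h : i = j then eqToHom (congrArg X h) else 0

theorem c5_ι_sum {J : Type} (X : J → Cx R) (i : J) (s : Finset J) (hi : i ∈ s) :
    sumι X i ≫ ∑ j ∈ s, c5Proj X j ≫ sumι X j = sumι X i := by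
  rw [Preadditive.comp_sum, Finset.sum_eq_single i]
  · rw [← Category.assoc, c5Proj, sumι_sumDesc, dif_pos rfl, eqToHom_refl, Category.id_comp]
  · intro j _ hj
    rw [← Category.assoc, c5Proj, sumι_sumDesc, dif_neg hj.symm, zero_comp]
  · intro h
    exact absurd hi h

theorem c5_elem_finite {J : Type} (X : J → Cx R) (n : ℤ) (x : (sumComplex X).X n) :
    ∃ s : Finset J, (∑ j ∈ s, c5Proj X j ≫ sumι X j).f n x = x := by
  classical
  let N : Submodule R ((sumComplex X).X n) :=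
    { carrier := {x | ∃ s : Finset J, ∀ s' : Finset J, s ⊆ s' →
        (∑ j ∈ s', c5Proj X j ≫ sumι X j).f n x = x}
      add_mem' := by
        rintro a b ⟨s, hs⟩ ⟨t, ht⟩
        refine ⟨s ∪ t, fun s' h => ?_⟩
        rw [map_add, hs s' (Finset.subset_union_left.trans h),
          ht s' (Finset.subset_union_right.trans h)]
      zero_mem' := ⟨∅, fun s' _ => map_zero _⟩
      smul_mem' := by
        rintro c a ⟨s, hs⟩
        refine ⟨s, fun s' h => ?_⟩
        rw [map_smul, hs s' h] }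
  have h0 : (ModuleCat.ofHom N.mkQ : (sumComplex X).X n ⟶ ModuleCat.of R _) = 0 := by
    apply sum_hom_ext
    intro i
    refine Eq.trans ?_ comp_zero.symm
    ext y
    have hy : (sumι X i).f n y ∈ N := by
      refine ⟨{i}, fun s' h => ?_⟩
      have h1 := c5_ι_sum X i s' (h (Finset.mem_singleton_self i))
      have h2 := congrArg (fun φ : X i ⟶ sumComplex X => φ.f n y) h1
      exact h2
    exact (Submodule.Quotient.mk_eq_zero N).2 hy
  have hx : x ∈ N := by
    have h1 : N.mkQ x = 0 := congrArg (fun φ : (sumComplex X).X n ⟶ ModuleCat.of R _ => φ x) h0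
    exact (Submodule.Quotient.mk_eq_zero N).1 h1
  obtain ⟨s, hs⟩ := hx
  exact ⟨s, hs s (Finset.Subset.refl s)⟩

theorem c5_unit_finite {J : Type} (X : J → Cx R) (φ : 𝟙_ (Cx R) ⟶ sumComplex X) :
    ∃ s : Finset J, φ = ∑ j ∈ s, (φ ≫ c5Proj X j) ≫ sumι X j := by
  obtain ⟨s, hs⟩ := c5_elem_finite X 0
    (((HomologicalComplex.singleObjXSelf (ComplexShape.up ℤ) 0 (ModuleCat.of R R)).inv ≫ φ.f 0)
      (1 : R))
  refine ⟨s, ?_⟩
  have h1 : ∑ j ∈ s, (φ ≫ c5Proj X j) ≫ sumι X j = φ ≫ ∑ j ∈ s, c5Proj X j ≫ sumι X j := by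
    rw [Preadditive.comp_sum]
    exact Finset.sum_congr rfl fun j _ => Category.assoc _ _ _
  rw [h1]
  apply HomologicalComplex.from_single_hom_ext
  rw [← cancel_epi
    (HomologicalComplex.singleObjXSelf (ComplexShape.up ℤ) 0 (ModuleCat.of R R)).inv]
  apply ModuleCat.hom_ext
  apply LinearMap.ext_ring
  exact hs.symm

theorem k_unit_cpt : IsCpt (𝟙_ (KK R)) := by
  intro ι x f
  let e : ∐ x ≅ (QQ R).obj (sumComplex fun j => (x j).as) :=
    (coproductIsCoproduct x).coconePointUniqueUpToIso (c5SumIsColimit fun j => (x j).as)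
  have he : ∀ j, (QQ R).map (sumι (fun j => (x j).as) j) ≫ e.inv = Sigma.ι x j := fun j =>
    (coproductIsCoproduct x).comp_coconePointUniqueUpToIso_inv
      (c5SumIsColimit fun j => (x j).as) ⟨j⟩
  obtain ⟨φ, hφ⟩ := (QQ R).map_surjective
    (show (QQ R).obj (𝟙_ (Cx R)) ⟶ (QQ R).obj (sumComplex fun j => (x j).as) from f ≫ e.hom)
  obtain ⟨s, hs⟩ := c5_unit_finite _ φ
  refine ⟨s, fun j => (QQ R).map (φ ≫ c5Proj (fun j => (x j).as) j), ?_⟩
  have h1 : f = (QQ R).map φ ≫ e.inv := by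
    rw [hφ]
    exact ((Category.assoc _ _ _).trans
      ((congrArg (fun t => f ≫ t) e.hom_inv_id).trans (Category.comp_id f))).symm
  have h2 : (QQ R).map φ = ∑ j ∈ s, (QQ R).map (φ ≫ c5Proj (fun j => (x j).as) j) ≫
      (QQ R).map (sumι (fun j => (x j).as) j) := by
    conv_lhs => rw [hs]
    rw [Functor.map_sum]
    exact Finset.sum_congr rfl fun j _ => (QQ R).map_comp _ _
  rw [h1, h2, Preadditive.sum_comp]
  exact Finset.sum_congr rfl fun j _ => (Category.assoc _ _ _).trans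
    (congrArg (fun t => (QQ R).map (φ ≫ c5Proj (fun j => (x j).as) j) ≫ t) (he j))

end Pool.Agent.MP_e18349_al.TT

end

-- part C6
section

/-! Row C6: maps out of the unit of `K(R)`, and residue fields. -/

namespace Pool.Agent.MP_e18349_al.TT

open CategoryTheory Limits MonoidalCategory Opposite Pretriangulated

variable {R : Type} [CommRing R]

theorem c6_van (A B : ModuleCat.{0} R) {n : ℤ} (hn : n ≠ 0)
    (f : (QQ R).obj ((sglC R).obj A) ⟶ ((QQ R).obj ((sglC R).obj B))⟦n⟧) : f = 0 := by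
  obtain ⟨g, hg⟩ := (QQ R).map_surjective
    (f ≫ ((QQ R).commShiftIso n).inv.app ((sglC R).obj B))
  have h0 : g = 0 := HomologicalComplex.from_single_hom_ext
    ((HomologicalComplex.isZero_single_obj_X (ComplexShape.up ℤ) 0 B (0 + n)
      (by omega)).eq_of_tgt _ _)
  rw [h0, Functor.map_zero] at hg
  rw [← cancel_mono (((QQ R).commShiftIso n).inv.app ((sglC R).obj B)), zero_comp]
  exact hg.symm

theorem c6_faithful {A B : ModuleCat.{0} R} {f g : A ⟶ B}
    (h : (QQ R).map ((sglC R).map f) = (QQ R).map ((sglC R).map g)) : f = g := by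
  have H := HomotopyCategory.homotopyOfEq _ _ h
  refine (sglC R).map_injective (HomologicalComplex.from_single_hom_ext ?_)
  rw [H.comm 0, dNext_eq H.hom (show (ComplexShape.up ℤ).Rel 0 1 from rfl),
    prevD_eq H.hom (show (ComplexShape.up ℤ).Rel (-1) 0 from rfl),
    HomologicalComplex.single_obj_d, HomologicalComplex.single_obj_d, zero_comp, comp_zero,
    zero_add, zero_add]

theorem c6_full {A B : ModuleCat.{0} R}
    (f : (QQ R).obj ((sglC R).obj A) ⟶ (QQ R).obj ((sglC R).obj B)) :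
    ∃ g : A ⟶ B, (QQ R).map ((sglC R).map g) = f := by
  obtain ⟨g, rfl⟩ := (QQ R).map_surjective f
  obtain ⟨g, rfl⟩ := (sglC R).map_surjective g
  exact ⟨g, rfl⟩

theorem c6_smul (A : ModuleCat.{0} R) (a : R) :
    (QQ R).map ((sglC R).map (a • 𝟙 A)) = a • 𝟙 ((QQ R).obj ((sglC R).obj A)) := by
  have h := (HomotopyCategory.singleFunctor (ModuleCat.{0} R) 0).map_smul a (𝟙 A)
  rw [CategoryTheory.Functor.map_id] at h
  exact h

theorem k_conn : Conn (𝟙_ (KK R)) := fun _ hn f => c6_van _ _ hn.ne' f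

theorem k_endUnit : EndUnit R (KK R) := fun f => by
  obtain ⟨g, rfl⟩ := c6_full (A := ModuleCat.of R R) (B := ModuleCat.of R R) f
  refine ⟨g.hom (1 : R), Eq.trans ?_ (c6_smul (ModuleCat.of R R) _)⟩
  refine congrArg (fun u => (QQ R).map ((sglC R).map u)) ?_
  ext
  simp

/-- Quasi-isomorphisms induce bijections on maps from the shifts of the unit. -/
theorem k_bij_of_quasiIso {X Y : Cx R} (f : X ⟶ Y) [QuasiIso f] (n : ℤ) :
    Function.Bijective fun g : (𝟙_ (KK R))⟦n⟧ ⟶ (QQ R).obj X => g ≫ (QQ R).map f := by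
  have hP : ∀ i : ℤ, Projective (((sglC R).obj (ModuleCat.of R R)).X i) := fun i => by
    by_cases hi : i = 0
    · subst hi
      exact Projective.of_iso
        (HomologicalComplex.singleObjXSelf (ComplexShape.up ℤ) 0 (ModuleCat.of R R)).symm
        inferInstance
    · exact (HomologicalComplex.isZero_single_obj_X _ _ _ _ hi).projective
  have hK : CochainComplex.IsKProjective ((sglC R).obj (ModuleCat.of R R)) :=
    CochainComplex.isKProjective_of_projective _ 0
  have h1 := (HomotopyCategory.subcategoryAcyclic (ModuleCat.{0} R)).leftOrthogonal.le_shift n _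
    (CochainComplex.IsKProjective.leftOrthogonal ((sglC R).obj (ModuleCat.of R R)))
  rw [← ObjectProperty.isColocal_trW, ← HomotopyCategory.quasiIso_eq_trW_subcategoryAcyclic] at h1
  exact h1 _ ((HomotopyCategory.quotient_map_mem_quasiIso_iff f).2 ‹QuasiIso f›)

/-- The term in degree zero of a module placed in degree zero. -/
noncomputable abbrev c6S (A : ModuleCat.{0} R) : ((sglC R).obj A).X 0 ≅ A :=
  HomologicalComplex.singleObjXSelf (ComplexShape.up ℤ) 0 A

theorem c6_tensor_ext {A B C : ModuleCat.{0} R}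
    {m m' : (sglC R).obj A ⊗ (sglC R).obj B ⟶ (sglC R).obj C}
    (h : ιT _ _ 0 0 0 rfl ≫ m.f 0 = ιT _ _ 0 0 0 rfl ≫ m'.f 0) : m = m' := by
  refine HomologicalComplex.to_single_hom_ext (ιT_ext fun p q hpq => ?_)
  by_cases hp : p = 0
  · obtain rfl : q = 0 := by omega
    subst hp
    exact h
  · exact ((tensorRight _).map_isZero
      (HomologicalComplex.isZero_single_obj_X _ _ A _ hp)).eq_of_src _ _

theorem c6_tensor_desc {A B C : ModuleCat.{0} R} (φ : A ⊗ B ⟶ C) :
    ∃ m : (sglC R).obj A ⊗ (sglC R).obj B ⟶ (sglC R).obj C,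
      ιT _ _ 0 0 0 rfl ≫ m.f 0 = ((c6S A).hom ⊗ₘ (c6S B).hom) ≫ φ ≫ (c6S C).inv := by
  let pr : ∀ (M : ModuleCat.{0} R) (p : ℤ), ((sglC R).obj M).X p ⟶ M := fun M p =>
    if h : p = 0 then (HomologicalComplex.singleObjXIsoOfEq _ 0 M p h).hom else 0
  have hpr : ∀ M : ModuleCat.{0} R, pr M 0 = (c6S M).hom := fun M => dif_pos rfl
  refine ⟨HomologicalComplex.mkHomToSingle
    (descT fun p q _ => (pr A p ⊗ₘ pr B q) ≫ φ) fun i hi => ?_, ?_⟩
  · refine ιT_ext fun p q hpq => ?_
    rw [ιT_d_assoc _ _ p q i hpq 0 hi, HomologicalComplex.single_obj_d,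
      HomologicalComplex.single_obj_d, MonoidalPreadditive.zero_whiskerRight,
      MonoidalPreadditive.whiskerLeft_zero, zero_comp, zero_comp, smul_zero, add_zero, zero_comp,
      comp_zero]
  · rw [HomologicalComplex.mkHomToSingle_f, ιT_descT_assoc, hpr, hpr, Category.assoc]

theorem c6_unit {A : ModuleCat.{0} R} (u : 𝟙_ (ModuleCat.{0} R) ⟶ A) (φ : A ⊗ A ⟶ A)
    (hφ : A ◁ u ≫ φ = (ρ_ A).hom) (m : (sglC R).obj A ⊗ (sglC R).obj A ⟶ (sglC R).obj A)
    (hm : ιT _ _ 0 0 0 rfl ≫ m.f 0 = ((c6S A).hom ⊗ₘ (c6S A).hom) ≫ φ ≫ (c6S A).inv) :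
    (sglC R).obj A ◁ (show 𝟙_ (Cx R) ⟶ (sglC R).obj A from (sglC R).map u) ≫ m =
      (ρ_ ((sglC R).obj A)).hom := by
  rw [← Iso.inv_comp_eq_id]
  refine HomologicalComplex.from_single_hom_ext ?_
  rw [HomologicalComplex.comp_f, HomologicalComplex.comp_f, rightUnitor_inv_f, Category.assoc,
    Category.assoc, ιT_whiskerLeft_assoc]
  have h1 : (show 𝟙_ (Cx R) ⟶ (sglC R).obj A from (sglC R).map u).f 0 =
      (c6S _).hom ≫ u ≫ (c6S A).inv := HomologicalComplex.single_map_f_self _ _ u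
  have h2 : ((sglC R).obj A).X 0 ◁ (c6S (𝟙_ (ModuleCat.{0} R))).inv ≫
      ((sglC R).obj A).X 0 ◁ ((c6S _).hom ≫ u ≫ (c6S A).inv) ≫
        ((c6S A).hom ⊗ₘ (c6S A).hom) ≫ φ ≫ (c6S A).inv = (ρ_ _).hom := by
    rw [← MonoidalCategory.whiskerLeft_comp_assoc, Iso.inv_hom_id_assoc,
      MonoidalCategory.tensorHom_def', ← Category.assoc, ← Category.assoc,
      ← MonoidalCategory.whiskerLeft_comp_assoc, Category.assoc, Category.assoc, Category.assoc,
      Iso.inv_hom_id, Category.comp_id, whisker_exchange_assoc, ← Category.assoc (A ◁ u), hφ,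
      rightUnitor_naturality_assoc, Iso.hom_inv_id, Category.comp_id]
  rw [h1, hm]
  exact (congrArg _ h2).trans (Iso.inv_hom_id _)

theorem c6_lin {A : ModuleCat.{0} R} (a : A ⟶ A) (φ : A ⊗ A ⟶ A)
    (hφ : A ◁ a ≫ φ = φ ≫ a) (m : (sglC R).obj A ⊗ (sglC R).obj A ⟶ (sglC R).obj A)
    (hm : ιT _ _ 0 0 0 rfl ≫ m.f 0 = ((c6S A).hom ⊗ₘ (c6S A).hom) ≫ φ ≫ (c6S A).inv) :
    (sglC R).obj A ◁ (sglC R).map a ≫ m = m ≫ (sglC R).map a := by
  refine c6_tensor_ext ?_
  have h1 : ((sglC R).map a).f 0 = (c6S A).hom ≫ a ≫ (c6S A).inv :=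
    HomologicalComplex.single_map_f_self _ _ a
  rw [HomologicalComplex.comp_f, HomologicalComplex.comp_f, ιT_whiskerLeft_assoc, hm,
    ← Category.assoc (ιT _ _ 0 0 0 rfl), hm, h1, Category.assoc, Category.assoc,
    Iso.inv_hom_id_assoc, ← Category.assoc φ a, ← hφ, Category.assoc,
    ← Category.assoc _ (_ ⊗ₘ _), ← Category.assoc (_ ⊗ₘ _), whiskerLeft_comp_tensorHom,
    tensorHom_comp_whiskerLeft, Category.assoc, Category.assoc, Iso.inv_hom_id,
    Category.comp_id]

/-- Multiplication by an element of an algebra, as an endomorphism in the homotopy category. -/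
noncomputable def c6Alpha (R : Type) [CommRing R] (K : Type) [CommRing K] [Algebra R K] :
    K →+* End ((QQ R).obj ((sglC R).obj (ModuleCat.of R K))) where
  toFun l := (sglC R ⋙ QQ R).map (ModuleCat.ofHom (LinearMap.mulLeft R l))
  map_one' := by
    rw [LinearMap.mulLeft_one]
    exact (sglC R ⋙ QQ R).map_id _
  map_mul' a b := by
    rw [LinearMap.mulLeft_mul, ModuleCat.ofHom_comp]
    exact (sglC R ⋙ QQ R).map_comp _ _
  map_zero' := by
    rw [LinearMap.mulLeft_zero_eq_zero]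
    exact (sglC R ⋙ QQ R).map_zero _ _
  map_add' a b := by
    refine Eq.trans (congrArg (sglC R ⋙ QQ R).map ?_) (sglC R ⋙ QQ R).map_add
    ext x
    exact add_mul a b x

theorem k_fieldObj (p : PrimeSpectrum R) : ∃ F : FieldObj p (KK R),
    F.k = (QQ R).obj ((sglC R).obj (ModuleCat.of R p.asIdeal.ResidueField)) := by
  let K := p.asIdeal.ResidueField
  let A : ModuleCat.{0} R := ModuleCat.of R K
  let u : 𝟙_ (ModuleCat.{0} R) ⟶ A := ModuleCat.ofHom (Algebra.linearMap R K)
  let φ : A ⊗ A ⟶ A := ModuleCat.ofHom (LinearMap.mul' R K)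
  let a : K → (A ⟶ A) := fun l => ModuleCat.ofHom (LinearMap.mulLeft R l)
  have hu : A ◁ u ≫ φ = (ρ_ A).hom := by
    refine ModuleCat.MonoidalCategory.tensor_ext fun x r => ?_
    exact (mul_comm (x : K) (algebraMap R K r)).trans (Algebra.smul_def (R := R) r (x : K)).symm
  have ha : ∀ l, A ◁ a l ≫ φ = φ ≫ a l := fun l => by
    refine ModuleCat.MonoidalCategory.tensor_ext fun x y => ?_
    change (x : K) * (l * (y : K)) = l * ((x : K) * (y : K))
    ring
  obtain ⟨m, hm⟩ := c6_tensor_desc φ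
  have hη : ∀ l, (QQ R).map ((sglC R).map u) ≫ (c6Alpha R K l : _ ⟶ _) =
      (QQ R).map ((sglC R).map (u ≫ a l)) := fun l =>
    ((sglC R ⋙ QQ R).map_comp u (a l)).symm
  refine ⟨{ k := (QQ R).obj ((sglC R).obj A)
            η := (QQ R).map ((sglC R).map u)
            μ := (QQ R).map m
            α := c6Alpha R K
            unit := ?_
            lin := fun l => ?_
            bij := ⟨fun l l' h => ?_, fun f => ?_⟩
            van := fun n hn f => c6_van _ _ hn f
            alg := fun r => ?_ }, rfl⟩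
  · exact (congrArg (· ≫ (QQ R).map m) (QQ_whiskerLeft _ _)).trans
      (((QQ R).map_comp _ _).symm.trans ((QQ R).congr_map (c6_unit u φ hu m hm)))
  · exact (congrArg (· ≫ (QQ R).map m) (QQ_whiskerLeft _ ((sglC R).map (a l)))).trans
      (((QQ R).map_comp _ _).symm.trans (((QQ R).congr_map (c6_lin (a l) φ (ha l) m hm)).trans
        ((QQ R).map_comp _ _)))
  · have h1 := c6_faithful ((hη l).symm.trans (h.trans (hη l')))
    have h2 : l * algebraMap R K 1 = l' * algebraMap R K 1 :=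
      congrArg (fun z : 𝟙_ (ModuleCat.{0} R) ⟶ A => z.hom (1 : R)) h1
    rwa [map_one, mul_one, mul_one] at h2
  · obtain ⟨g, rfl⟩ := c6_full (A := ModuleCat.of R R) (B := A) f
    refine ⟨g.hom (1 : R), (hη _).trans (congrArg (fun z => (QQ R).map ((sglC R).map z)) ?_)⟩
    refine ModuleCat.hom_ext (LinearMap.ext_ring ?_)
    change (g.hom (1 : R) : K) * algebraMap R K 1 = g.hom (1 : R)
    rw [(algebraMap R K).map_one, mul_one]
  · refine Eq.trans (congrArg (fun z => (QQ R).map ((sglC R).map z)) ?_) (c6_smul A r)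
    refine ModuleCat.hom_ext (LinearMap.ext fun x => ?_)
    exact (Algebra.smul_def r (x : K)).symm

end Pool.Agent.MP_e18349_al.TT

end

-- part C10
section

/-! Row C10: assembly. -/

namespace Pool.Agent.MP_e18349_al.TT

open CategoryTheory Limits MonoidalCategory Opposite Pretriangulated

variable {R : Type} [CommRing R]

instance kTriLeft (X : KK R) : (tensorLeft X).IsTriangulated := kTriangulatedLeft X

instance kTriRight (Y : KK R) : (tensorRight Y).IsTriangulated := kTriangulatedRight Y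

/-- Modules whose cellular approximation lies in a localizing subcategory form a good class. -/
theorem good_gamma (Γ : KK R ⥤ CT (KK R)) [Γ.CommShift ℤ] [Γ.IsTriangulated]
    [∀ ι : Type, PreservesColimitsOfShape (Discrete ι) Γ]
    (hΓ : ∀ {X Y : Cx R} (f : X ⟶ Y), QuasiIso f → IsIso (Γ.map ((QQ R).map f)))
    {L : ObjectProperty (CT (KK R))} (hL : IsLoc L) :
    Good (fun M : ModuleCat.{0} R => L (Γ.obj ((QQ R).obj ((sglC R).obj M)))) := by
  have h1 := hL.triangulated
  have h2 := hL.iso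
  have tri : ∀ {A B C : Type} [AddCommGroup A] [Module R A] [AddCommGroup B] [Module R B]
      [AddCommGroup C] [Module R C] (f : A →ₗ[R] B) (g : B →ₗ[R] C), Function.Injective f →
      Function.Surjective g → Function.Exact f g →
      ∃ D : Triangle (CT (KK R)), D ∈ distTriang (CT (KK R)) ∧
        D.obj₁ = Γ.obj ((QQ R).obj ((sglC R).obj (ModuleCat.of R A))) ∧
        D.obj₂ = Γ.obj ((QQ R).obj ((sglC R).obj (ModuleCat.of R B))) ∧
        Nonempty (D.obj₃ ≅ Γ.obj ((QQ R).obj ((sglC R).obj (ModuleCat.of R C)))) := by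
    intro A B C _ _ _ _ _ _ f g hf hg hfg
    have hS : (ShortComplex.moduleCatMk f g hfg.linearMap_comp_eq_zero).ShortExact :=
      ModuleCat.shortComplex_shortExact _ hfg hf hg
    have hS' := hS.map_of_exact (sglC R)
    have hq := CochainComplex.mappingCone.quasiIso_descShortComplex hS'
    have hi := hΓ _ hq
    exact ⟨_, Γ.map_distinguished _ (HomotopyCategory.mappingCone_triangleh_distinguished
      ((ShortComplex.moduleCatMk f g hfg.linearMap_comp_eq_zero).map (sglC R)).f), rfl, rfl,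
      ⟨@asIso _ _ _ _ _ hi⟩⟩
  refine ⟨fun e h => ?_, fun f g hf hg hfg hB hC => ?_, fun f g hf hg hfg hA hC => ?_,
    fun f g hf hg hfg hA hB => ?_, fun ι M _ _ hM => ?_⟩
  · exact L.prop_of_iso (Γ.mapIso ((QQ R).mapIso ((sglC R).mapIso e.toModuleIso))) h
  · obtain ⟨D, hD, e₁, e₂, ⟨e₃⟩⟩ := tri f g hf hg hfg
    rw [← e₁]
    exact L.ext_of_isTriangulatedClosed₁ D hD (e₂ ▸ hB) (L.prop_of_iso e₃.symm hC)
  · obtain ⟨D, hD, e₁, e₂, ⟨e₃⟩⟩ := tri f g hf hg hfg
    rw [← e₂]
    exact L.ext_of_isTriangulatedClosed₂ D hD (e₁ ▸ hA) (L.prop_of_iso e₃.symm hC)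
  · obtain ⟨D, hD, e₁, e₂, ⟨e₃⟩⟩ := tri f g hf hg hfg
    exact L.prop_of_iso e₃ (L.ext_of_isTriangulatedClosed₃ D hD (e₁ ▸ hA) (e₂ ▸ hB))
  · classical
    let Φ : ModuleCat.{0} R ⥤ CT (KK R) := sglC R ⋙ QQ R ⋙ Γ
    let N : ι → ModuleCat.{0} R := fun i => ModuleCat.of R (M i)
    have h3 := isColimitCofanMkObjOfIsColimit Φ N (ModuleCat.coproductCocone N).inj
      ((ModuleCat.coproductCoconeIsColimit N).ofIsoColimit (Cofan.ext (Iso.refl _) (by simp)))
    have e := (coproductIsCoproduct fun i => Φ.obj (N i)).coconePointUniqueUpToIso h3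
    exact L.prop_of_iso e (hL.coprod ι (fun i => Φ.obj (N i)) hM)

theorem axes_isUnit {a : Axes} (ha : aug a ≠ 0) : IsUnit a := by
  have h0 : ∀ n, PowerSeries.constantCoeff (proj n a) ≠ 0 := fun n => by
    rwa [constantCoeff_proj]
  obtain ⟨N, hN⟩ := eventually_proj a
  let b : Axes := ⟨fun n => (proj n a)⁻¹, (aug a)⁻¹,
    fun n => by rw [PowerSeries.constantCoeff_inv, constantCoeff_proj], N,
    fun n hn => by
      dsimp only
      rw [hN n hn, PowerSeries.C_inv]⟩
  refine IsUnit.of_mul_eq_one b (axes_ext fun n => ?_)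
  rw [map_mul, map_one]
  exact PowerSeries.mul_inv_cancel _ (h0 n)

instance axes_isLocalRing : IsLocalRing Axes :=
  haveI : Nontrivial Axes := aug.domain_nontrivial
  IsLocalRing.of_isUnit_or_isUnit_one_sub_self fun a => by
    by_cases h : aug a = 0
    · right
      apply axes_isUnit
      rw [map_sub, map_one, h, sub_zero]
      exact one_ne_zero
    · exact Or.inl (axes_isUnit h)

theorem axes_inf (s : Finset Axes) (hs : ∀ a ∈ s, a ∈ IsLocalRing.maximalIdeal Axes) :
    ∃ q : PrimeSpectrum Axes, q ≠ IsLocalRing.closedPoint Axes ∧ ∀ a ∈ s, a ∈ q.asIdeal := by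
  have hm : mx = IsLocalRing.maximalIdeal Axes := IsLocalRing.eq_maximalIdeal inferInstance
  have hev : ∀ a : s, ∃ N, ∀ n, N ≤ n → (a : Axes) ∈ pr n := fun a =>
    eventually_mem_pr (hm ▸ hs a a.2)
  choose N hN using hev
  refine ⟨⟨pr (Finset.univ.sup N), inferInstance⟩, fun h => ?_, fun a ha =>
    hN ⟨a, ha⟩ _ (Finset.le_sup (f := N) (Finset.mem_univ _))⟩
  have h4 : pr (Finset.univ.sup N) = IsLocalRing.maximalIdeal Axes :=
    congrArg PrimeSpectrum.asIdeal h
  exact tau_not_mem_pr _ (h4 ▸ hm ▸ tau_mem_mx _)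

noncomputable instance ctMg : Mg (CT (KK R)) where
  commShift _ := inferInstance
  nat _ := inferInstance
  tri _ := inferInstance
  unit_cpt := ct_unit_cpt k_unit_cpt
  gen := ct_generates

noncomputable instance ctClosed : MonoidalClosed (CT (KK R)) where
  closed x :=
    haveI := isLeftAdjoint_of_gen ct_generates (ct_unit_cpt k_unit_cpt) (tensorLeft x)
    { rightAdj := (tensorLeft x).rightAdjoint
      adj := Adjunction.ofIsLeftAdjoint (tensorLeft x) }

theorem main_axes : RigidlyCompactlyGenerated (CT (KK Axes)) ∧ HStratified (CT (KK Axes)) ∧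
    NervesOfSteel (CT (KK Axes)) ∧ ¬ WeaklyNoetherian (Spc (CT (KK Axes))) := by
  obtain ⟨Γ, adj, _, _, _, hΓ⟩ := exists_gamma (K := KK Axes) k_unit_cpt
  choose F₀ hF₀ using k_fieldObj (R := Axes)
  choose F hF using fun p => (F₀ p).gamma Γ adj
  refine abstract_main F (ct_conn k_conn) (ct_endUnit _ k_endUnit) (fun L hL h => ?_) axes_inf
  have hg := good_gamma Γ (fun f hf => hΓ _ (k_bij_of_quasiIso f)) hL
  have := good_axes hg fun p => by
    have := h p
    rwa [hF, hF₀] at this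
  exact hL.of_iso (asIso (adj.unit.app (𝟙_ (CT (KK Axes))))).symm this

end Pool.Agent.MP_e18349_al.TT

end

-- part D5
section

/-! Row D5: the internal hom of cellular complexes is exact in the first variable. -/

namespace Pool.Agent.MP_e18349_al.TT

open CategoryTheory Limits MonoidalCategory Opposite Pretriangulated

variable {R : Type} [CommRing R]

section

variable {Γ : KK R ⥤ CT (KK R)} (adj : (Cel (KK R)).ι ⊣ Γ)

/-- An evaluation map between cellular objects. -/
noncomputable def d5ev {x w t : CT (KK R)} {X H : KK R} (e : x.obj ≅ X) (ev : X ⊗ H ⟶ w.obj)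
    (u : t.obj ⟶ H) : x ⊗ t ⟶ w :=
  ObjectProperty.homMk (e.hom ▷ t.obj ≫ X ◁ u ≫ ev)

/-- The comparison with the internal hom of cellular objects. -/
noncomputable def d5phi {x w : CT (KK R)} {X H : KK R} (e : x.obj ≅ X) (ev : X ⊗ H ⟶ w.obj) :
    Γ.obj H ⟶ (ihom x).obj w :=
  MonoidalClosed.curry (d5ev e ev (adj.counit.app H))

theorem d5ev_comp {x w s t : CT (KK R)} {X H : KK R} (e : x.obj ≅ X) (ev : X ⊗ H ⟶ w.obj)
    (g : s ⟶ t) (u : t.obj ⟶ H) : x ◁ g ≫ d5ev e ev u = d5ev e ev (g.hom ≫ u) := by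
  apply ObjectProperty.hom_ext
  change x.obj ◁ g.hom ≫ e.hom ▷ t.obj ≫ X ◁ u ≫ ev = e.hom ▷ s.obj ≫ X ◁ (g.hom ≫ u) ≫ ev
  rw [whisker_exchange_assoc, MonoidalCategory.whiskerLeft_comp, Category.assoc]

theorem d5ev_bij {x w : CT (KK R)} {X H : KK R} (e : x.obj ≅ X) (ev : X ⊗ H ⟶ w.obj)
    (t : CT (KK R)) (h1 : Function.Bijective fun g : t.obj ⟶ H => X ◁ g ≫ ev) :
    Function.Bijective (d5ev e ev (t := t)) := by
  constructor
  · intro u v h
    have h2 : e.hom ▷ t.obj ≫ X ◁ u ≫ ev = e.hom ▷ t.obj ≫ X ◁ v ≫ ev :=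
      congrArg (fun z => z.hom) h
    exact h1.1 ((cancel_epi (e.hom ▷ t.obj)).1 h2)
  · intro z
    obtain ⟨u, hu⟩ := h1.2 (e.inv ▷ t.obj ≫ z.hom)
    refine ⟨u, ObjectProperty.hom_ext _ ?_⟩
    change e.hom ▷ t.obj ≫ X ◁ u ≫ ev = z.hom
    rw [show X ◁ u ≫ ev = _ from hu]
    exact hom_inv_whiskerRight_assoc e t.obj _

theorem d5phi_isIso {x w : CT (KK R)} {X H : KK R} (e : x.obj ≅ X) (ev : X ⊗ H ⟶ w.obj)
    (h1 : ∀ t : KK R, Function.Bijective fun g : t ⟶ H => X ◁ g ≫ ev) :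
    IsIso (d5phi adj e ev) := by
  refine isIso_of_yoneda_map_bijective _ fun t => ?_
  have key : (fun g : t ⟶ Γ.obj H => g ≫ d5phi adj e ev) =
      (MonoidalClosed.curry ∘ d5ev e ev (t := t)) ∘ (adj.homEquiv t _).symm := by
    funext g
    rw [d5phi, ← MonoidalClosed.curry_natural_left, d5ev_comp]
    simp only [Function.comp_apply]
    rw [adj.homEquiv_counit]
    rfl
  rw [key]
  exact (((ihom.adjunction x).homEquiv _ _).bijective.comp (d5ev_bij e ev t (h1 _))).comp
    (adj.homEquiv t _).symm.bijective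

theorem d5phi_nat {x y w : CT (KK R)} {X Y H H' : KK R} (e : x.obj ≅ X) (e' : y.obj ≅ Y)
    (ev : X ⊗ H ⟶ w.obj) (ev' : Y ⊗ H' ⟶ w.obj) (f : x ⟶ y) (F : X ⟶ Y) (p : H' ⟶ H)
    (h : f.hom ≫ e'.hom = e.hom ≫ F) (k1 : X ◁ p ≫ ev = F ▷ H' ≫ ev') :
    Γ.map p ≫ d5phi adj e ev = d5phi adj e' ev' ≫ (MonoidalClosed.pre f).app w := by
  rw [d5phi, d5phi, ← MonoidalClosed.curry_natural_left, d5ev_comp, MonoidalClosed.curry_pre_app]
  congr 1
  apply ObjectProperty.hom_ext
  let u : (Γ.obj H').obj ⟶ H' := adj.counit.app H'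
  have nat : (Γ.map p).hom ≫ adj.counit.app H = u ≫ p := adj.counit.naturality _
  rw [nat]
  change e.hom ▷ (Γ.obj H').obj ≫ X ◁ (u ≫ p) ≫ ev =
    f.hom ▷ (Γ.obj H').obj ≫ e'.hom ▷ (Γ.obj H').obj ≫ Y ◁ u ≫ ev'
  rw [← comp_whiskerRight_assoc, h, comp_whiskerRight_assoc, MonoidalCategory.whiskerLeft_comp,
    Category.assoc, k1, whisker_exchange_assoc]

end

/-- The evaluation map of complexes, in the homotopy category. -/
noncomputable def d5kev (X : Cx R) (w : KK R) :
    (QQ R).obj X ⊗ (QQ R).obj ((ihom X).obj w.as) ⟶ w :=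
  (QQ R).map ((ihom.ev X).app w.as)

theorem d5kev_bij (X : Cx R) (w t : KK R) :
    Function.Bijective fun g : t ⟶ (QQ R).obj ((ihom X).obj w.as) =>
      (QQ R).obj X ◁ g ≫ d5kev X w :=
  k_ihom_bij X t.as w.as

theorem d5kev_pre {X Y : Cx R} (F : X ⟶ Y) (w : KK R) :
    (QQ R).obj X ◁ (QQ R).map ((MonoidalClosed.pre F).app w.as) ≫ d5kev X w =
      (QQ R).map F ▷ (QQ R).obj ((ihom Y).obj w.as) ≫ d5kev Y w := by
  rw [QQ_whiskerLeft, QQ_whiskerRight]
  exact ((QQ R).map_comp _ _).symm.trans (((QQ R).congr_map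
    (MonoidalClosed.id_tensor_pre_app_comp_ev F w.as)).trans ((QQ R).map_comp _ _))

theorem ct_pre_triangle (D : Triangle (CT (KK R))) (hD : D ∈ distTriang (CT (KK R)))
    (w : CT (KK R)) :
    ∃ δ, Triangle.mk ((MonoidalClosed.pre D.mor₂).app w) ((MonoidalClosed.pre D.mor₁).app w) δ ∈
      distTriang (CT (KK R)) := by
  obtain ⟨Γ, adj, _, _, _, hΓ⟩ := exists_gamma (K := KK R) k_unit_cpt
  obtain ⟨S, σ, ⟨e⟩⟩ := (HomotopyCategory.distinguished_iff_iso_trianglehOfDegreewiseSplit _).1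
    ((Cel (KK R)).ι.map_distinguished D hD)
  let e₁ : D.obj₁.obj ≅ (QQ R).obj S.X₁ := Triangle.π₁.mapIso e
  let e₂ : D.obj₂.obj ≅ (QQ R).obj S.X₂ := Triangle.π₂.mapIso e
  let e₃ : D.obj₃.obj ≅ (QQ R).obj S.X₃ := Triangle.π₃.mapIso e
  have c₁ : D.mor₁.hom ≫ e₂.hom = e₁.hom ≫ (QQ R).map S.f := e.hom.comm₁
  have c₂ : D.mor₂.hom ≫ e₃.hom = e₂.hom ≫ (QQ R).map S.g := e.hom.comm₂
  have z : (MonoidalClosed.pre S.g).app w.obj.as ≫ (MonoidalClosed.pre S.f).app w.obj.as = 0 := by
    apply MonoidalClosed.uncurry_injective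
    rw [MonoidalClosed.uncurry_pre_app, MonoidalClosed.uncurry_pre, ← comp_whiskerRight_assoc,
      S.zero, MonoidalClosed.uncurry_eq, MonoidalPreadditive.zero_whiskerRight,
      MonoidalPreadditive.whiskerLeft_zero, zero_comp, zero_comp]
  have hS := pre_shortExact S σ w.obj.as z
  have hq := CochainComplex.mappingCone.quasiIso_descShortComplex hS
  have i₀ := hΓ _ (k_bij_of_quasiIso (CochainComplex.mappingCone.descShortComplex
    (ShortComplex.mk _ _ z)))
  have i₁ := d5phi_isIso adj e₁ (d5kev _ w.obj) (d5kev_bij _ _)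
  have i₂ := d5phi_isIso adj e₂ (d5kev _ w.obj) (d5kev_bij _ _)
  have i₃ := d5phi_isIso adj e₃ (d5kev _ w.obj) (d5kev_bij _ _)
  have hT := Γ.map_distinguished _ (HomotopyCategory.mappingCone_triangleh_distinguished
    ((MonoidalClosed.pre S.g).app w.obj.as))
  let φ := asIso (Γ.map ((QQ R).map (CochainComplex.mappingCone.descShortComplex
    (ShortComplex.mk _ _ z)))) ≪≫ asIso (d5phi adj e₁ (d5kev _ w.obj))
  refine ⟨φ.inv ≫ (Γ.mapTriangle.obj (CochainComplex.mappingCone.triangleh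
    ((MonoidalClosed.pre S.g).app w.obj.as))).mor₃ ≫ (d5phi adj e₃ (d5kev _ w.obj))⟦(1 : ℤ)⟧',
    isomorphic_distinguished _ hT _ (Iso.symm (Triangle.isoMk _ _ (@asIso _ _ _ _ _ i₃)
      (@asIso _ _ _ _ _ i₂) φ ?_ ?_ ?_))⟩
  · exact d5phi_nat adj e₂ e₃ _ _ D.mor₂ _ _ c₂ (d5kev_pre S.g w.obj)
  · refine Eq.trans ?_ (d5phi_nat adj e₁ e₂ _ _ D.mor₁ _ _ c₁ (d5kev_pre S.f w.obj))
    have k := Γ.congr_map ((QQ R).congr_map
      (CochainComplex.mappingCone.inr_descShortComplex (ShortComplex.mk _ _ z)))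
    rw [(QQ R).map_comp, Γ.map_comp] at k
    exact (Category.assoc _ _ _).symm.trans (congrArg (· ≫ d5phi adj e₁ (d5kev _ w.obj)) k)
  · exact (φ.hom_inv_id_assoc _).symm

end Pool.Agent.MP_e18349_al.TT

end

-- part D6
section

/-! Row D6: cellular complexes are a model of the derived category. -/

namespace Pool.Agent.MP_e18349_al.TT

open CategoryTheory Limits MonoidalCategory Opposite Pretriangulated

universe w

variable {R : Type} [CommRing R]

theorem d6_leftOrthogonal {t : KK R} (ht : Cel (KK R) t) :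
    (HomotopyCategory.subcategoryAcyclic (ModuleCat.{0} R)).leftOrthogonal t := by
  refine ht _ ⟨inferInstance, inferInstance, fun ι x hx Y f hY => ?_⟩ ?_
  · exact Sigma.hom_ext _ _ fun i => (hx i _ hY).trans comp_zero.symm
  · have hP : ∀ i : ℤ, Projective (((sglC R).obj (ModuleCat.of R R)).X i) := fun i => by
      by_cases hi : i = 0
      · subst hi
        exact Projective.of_iso
          (HomologicalComplex.singleObjXSelf (ComplexShape.up ℤ) 0 (ModuleCat.of R R)).symm
          inferInstance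
      · exact (HomologicalComplex.isZero_single_obj_X _ _ _ _ hi).projective
    have hK : CochainComplex.IsKProjective ((sglC R).obj (ModuleCat.of R R)) :=
      CochainComplex.isKProjective_of_projective _ 0
    exact CochainComplex.IsKProjective.leftOrthogonal ((sglC R).obj (ModuleCat.of R R))

/-- Cellular complexes are K-projective. -/
theorem cel_isKProjective (X : Cx R) (h : Cel (KK R) ((QQ R).obj X)) :
    CochainComplex.IsKProjective X :=
  (CochainComplex.isKProjective_iff_leftOrthogonal X).2 (d6_leftOrthogonal h)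

theorem d6_exactAt (W : Cx R)
    (h : ∀ f : (QQ R).obj ((sglC R).obj (ModuleCat.of R R)) ⟶ (QQ R).obj W, f = 0) :
    W.ExactAt 0 := by
  rw [W.exactAt_iff' (-1) 0 1 (by simp) (by simp), ShortComplex.moduleCat_exact_iff]
  intro x hx
  let φ : ModuleCat.of R R ⟶ W.X 0 := ModuleCat.ofHom (LinearMap.toSpanSingleton R _ x)
  have hφ : ∀ k, (ComplexShape.up ℤ).Rel 0 k → φ ≫ W.d 0 k = 0 := by
    intro k hk
    obtain rfl : k = 1 := (show (0 : ℤ) + 1 = k from hk).symm
    apply ModuleCat.hom_ext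
    apply LinearMap.ext_ring
    have hx' : W.d 0 1 x = 0 := hx
    change W.d 0 1 ((1 : R) • x) = 0
    rw [one_smul, hx']
  obtain ⟨H⟩ := (HomotopyCategory.quotient_map_eq_zero_iff _).1
    (h ((QQ R).map (HomologicalComplex.mkHomFromSingle φ hφ)))
  have h1 := H.comm 0
  rw [dNext_eq H.hom (show (ComplexShape.up ℤ).Rel 0 1 from rfl),
    prevD_eq H.hom (show (ComplexShape.up ℤ).Rel (-1) 0 from rfl),
    HomologicalComplex.single_obj_d, zero_comp, zero_add, HomologicalComplex.zero_f, add_zero,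
    HomologicalComplex.mkHomFromSingle_f] at h1
  have h2 : φ = ((HomologicalComplex.singleObjXSelf (ComplexShape.up ℤ) 0
      (ModuleCat.of R R)).inv ≫ H.hom 0 (-1)) ≫ W.d (-1) 0 := by
    rw [Category.assoc, ← h1, Iso.inv_hom_id_assoc]
  refine ⟨((HomologicalComplex.singleObjXSelf (ComplexShape.up ℤ) 0
      (ModuleCat.of R R)).inv ≫ H.hom 0 (-1)) (1 : R), ?_⟩
  have h3 := congrArg (fun ψ : ModuleCat.of R R ⟶ W.X 0 => ψ (1 : R)) h2
  have h4 : φ (1 : R) = x := one_smul R x
  exact h3.symm.trans h4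

theorem d6_acyclic (Z : KK R) (h : ∀ (n : ℤ) (f : 𝟙_ (KK R) ⟶ Z⟦n⟧), f = 0) :
    HomotopyCategory.subcategoryAcyclic (ModuleCat.{0} R) Z := by
  intro n
  have key : ∀ X : KK R, (∀ f : 𝟙_ (KK R) ⟶ X, f = 0) →
      IsZero ((HomotopyCategory.homologyFunctor (ModuleCat.{0} R) (ComplexShape.up ℤ) 0).obj X) := by
    intro X hX
    induction X using KK_obj_ind with | h W => ?_
    exact ((W.exactAt_iff_isZero_homology 0).1 (d6_exactAt W hX)).of_iso
      ((HomotopyCategory.homologyFunctorFactors (ModuleCat.{0} R) (ComplexShape.up ℤ) 0).app W)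
  exact key _ (h n)

theorem ct_isEquivalence [HasDerivedCategory.{w} (ModuleCat.{0} R)] :
    ((Cel (KK R)).ι ⋙ DerivedCategory.Qh).IsEquivalence := by
  have hb : ∀ x y : CT (KK R), Function.Bijective
      (DerivedCategory.Qh.map : (x.obj ⟶ y.obj) → _) := fun x y =>
    (d6_leftOrthogonal x.2).map_bijective_of_isTriangulated _ _
  refine ⟨⟨fun {x y} f g hfg => (Cel (KK R)).ι.map_injective ((hb x y).1 hfg)⟩,
    ⟨fun {x y} g => ?_⟩, ⟨fun Y => ?_⟩⟩
  · obtain ⟨f, hf⟩ := (hb x y).2 g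
    exact ⟨ObjectProperty.homMk f, hf⟩
  · obtain ⟨Γ, adj, _, _, -, -⟩ := exists_gamma (K := KK R) k_unit_cpt
    let Y₀ : KK R := DerivedCategory.Qh.objPreimage Y
    obtain ⟨Z, g, h, hD⟩ := distinguished_cocone_triangle (adj.counit.app Y₀)
    have hi : IsIso (Γ.map (adj.counit.app Y₀)) := inferInstance
    have hz : IsZero (Γ.obj Z) :=
      (Triangle.isZero₃_iff_isIso₁ _ (Γ.map_distinguished _ hD)).2 hi
    have hZ : HomotopyCategory.subcategoryAcyclic (ModuleCat.{0} R) Z := by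
      refine d6_acyclic Z fun n f => ?_
      have hz' : IsZero (Γ.obj (Z⟦n⟧)) :=
        ((shiftFunctor _ n).map_isZero hz).of_iso ((Γ.commShiftIso n).app Z)
      exact (adj.homEquiv (𝟙_ (CT (KK R))) (Z⟦n⟧)).injective (hz'.eq_of_tgt _ _)
    have hq : IsIso (DerivedCategory.Qh.map (adj.counit.app Y₀)) :=
      Localization.inverts DerivedCategory.Qh
        (HomotopyCategory.subcategoryAcyclic (ModuleCat.{0} R)).trW _ ⟨Z, g, h, hD, hZ⟩
    exact ⟨Γ.obj Y₀, ⟨@asIso _ _ _ _ _ hq ≪≫ DerivedCategory.Qh.objObjPreimageIso Y⟩⟩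

theorem d6_assoc {C : Type*} [Category C] [MonoidalCategory C] (X Y Z : C) :
    𝟙 (X ⊗ Y) ▷ Z ≫ 𝟙 _ ≫ (α_ X Y Z).hom = (α_ X Y Z).hom ≫ X ◁ 𝟙 (Y ⊗ Z) ≫ 𝟙 _ := by simp

theorem d6_left {C : Type*} [Category C] [MonoidalCategory C] (X : C) :
    (λ_ X).hom = 𝟙 (𝟙_ C) ▷ X ≫ 𝟙 _ ≫ (λ_ X).hom := by simp

theorem d6_right {C : Type*} [Category C] [MonoidalCategory C] (X : C) :
    (ρ_ X).hom = X ◁ 𝟙 (𝟙_ C) ≫ 𝟙 _ ≫ (ρ_ X).hom := by simp

/-- The tensor product of cellular objects is computed by the tensor product of complexes. -/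
theorem ct_model : ∃ (P : ObjectProperty (Cx R)) (_ : P.IsMonoidal)
    (G : P.FullSubcategory ⥤ CT (KK R)) (_ : G.Monoidal),
    (∀ X, P X → CochainComplex.IsKProjective X) ∧ G.EssSurj ∧
      Nonempty (G ⋙ (Cel (KK R)).ι ≅ P.ι ⋙ QQ R) := by
  let P : ObjectProperty (Cx R) := fun X => Cel (KK R) ((QQ R).obj X)
  have hP : P.IsMonoidal :=
    { prop_unit := (Cel (KK R)).prop_unit
      prop_tensor := fun X Y hX hY =>
        ObjectProperty.prop_tensor (P₁ := Cel (KK R)) (P₂ := Cel (KK R)) (Q := Cel (KK R)) hX hY }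
  let G : P.FullSubcategory ⥤ CT (KK R) := (Cel (KK R)).lift (P.ι ⋙ QQ R) fun X => X.2
  let core : G.CoreMonoidal :=
    { εIso := Iso.refl _
      μIso := fun _ _ => Iso.refl _
      μIso_hom_natural_left := fun f X' => by
        refine (Category.comp_id _).trans (Eq.trans ?_ (Category.id_comp _).symm)
        exact ObjectProperty.hom_ext _ (QQ_whiskerRight f.hom X'.obj)
      μIso_hom_natural_right := fun X' f => by
        refine (Category.comp_id _).trans (Eq.trans ?_ (Category.id_comp _).symm)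
        exact ObjectProperty.hom_ext _ (QQ_whiskerLeft X'.obj f.hom)
      associativity := fun X Y Z => d6_assoc (G.obj X) (G.obj Y) (G.obj Z)
      left_unitality := fun X => d6_left (G.obj X)
      right_unitality := fun X => d6_right (G.obj X) }
  exact ⟨P, hP, G, core.toMonoidal, cel_isKProjective,
    ⟨fun y => ⟨⟨y.obj.as, y.2⟩, ⟨Iso.refl _⟩⟩⟩, ⟨Iso.refl _⟩⟩

end Pool.Agent.MP_e18349_al.TT

end
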